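import Pool.Agent.NDH.St

/-!
# Project NDH: one-head programs for all heads (module ALL)
-/

set_option autoImplicit false

namespace Pool.Agent.NDH

open Pool.Agent.Heads Pool.Agent.NPH Relation

namespace ALL

/-- The one-head program, executed by the head `i`. -/
def lift {α : Type} {k : ℕ} {Γ : Type} (i : Fin k) : DP α 1 Γ → DP α k Γ
  | DP.act d o => DP.act (fun j => if j = i then d 0 else Dir.S) o
  | DP.seq P P' => DP.seq (lift i P) (lift i P')
  | DP.ite g P P' => DP.ite (fun x t => g (fun _ => x i) t) (lift i P) (lift i P')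
  | DP.wh g P => DP.wh (fun x t => g (fun _ => x i) t) (lift i P)

theorem tst_lift {α : Type} {k : ℕ} {Γ : Type} (i : Fin k) (w : List α)
    (g : (Fin 1 → Sym α) → Option Γ → Bool) (c : Cf 1 Γ) (p : Fin k → ℕ) (hp : p i = c.1 0) :
    tst w (fun (x : Fin k → Sym α) (t : Option Γ) => g (fun _ => x i) t) (p, c.2) = tst w g c := by
  unfold tst
  have e : (fun _ : Fin 1 => tape w (p i)) = fun j => tape w (c.1 j) := by
    funext j
    rw [hp, Subsingleton.elim j 0]
  show g (fun _ => tape w (p i)) c.2.head? = _
  rw [e]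

theorem lift_ev {α : Type} {k : ℕ} {Γ : Type} (i : Fin k) (w : List α) {P : DP α 1 Γ}
    {c c' : Cf 1 Γ} (h : P.Ev w c c') : ∀ p : Fin k → ℕ, p i = c.1 0 →
    (lift i P).Ev w (p, c.2) (Function.update p i (c'.1 0), c'.2) := by
  induction h with
  | act d o c =>
    intro p hp
    have h1 := DP.Ev.act (w := w) (fun j => if j = i then d 0 else Dir.S) o ((p, c.2) : Cf k Γ)
    have e : (fun j => move (w.length + 1) (p j) (if j = i then d 0 else Dir.S)) =
        Function.update p i (move (w.length + 1) (c.1 0) (d 0)) := by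
      funext j
      by_cases hj : j = i
      · subst hj
        rw [if_pos rfl, Function.update_self, hp]
      · rw [if_neg hj, Function.update_of_ne hj]
        rfl
    show (DP.act (fun j => if j = i then d 0 else Dir.S) o).Ev w (p, c.2)
      (Function.update p i (move (w.length + 1) (c.1 0) (d 0)), o.apply c.2)
    rw [← e]
    exact h1
  | seq _ _ ih1 ih2 =>
    intro p hp
    refine DP.Ev.seq (ih1 p hp) ?_
    have h2 := ih2 _ (Function.update_self i _ p)
    rwa [Function.update_idem] at h2
  | iteT ht _ ih =>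
    intro p hp
    exact DP.Ev.iteT (by rw [tst_lift i w _ _ p hp]; exact ht) (ih p hp)
  | iteF ht _ ih =>
    intro p hp
    exact DP.Ev.iteF (by rw [tst_lift i w _ _ p hp]; exact ht) (ih p hp)
  | whF ht =>
    intro p hp
    rw [← hp, Function.update_eq_self]
    exact DP.Ev.whF (by rw [tst_lift i w _ _ p hp]; exact ht)
  | whT ht _ _ ih1 ih2 =>
    intro p hp
    refine DP.Ev.whT (by rw [tst_lift i w _ _ p hp]; exact ht) (ih1 p hp) ?_
    have h2 := ih2 _ (Function.update_self i _ p)
    rwa [Function.update_idem] at h2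

theorem upto (α : Type) (k : ℕ) (Γ : Type) (P : Fin k → DP α 1 Γ) (t : ℕ) (ht : t ≤ k) :
    ∃ Q : DP α k Γ, ∀ (w : List α) (p p' : Fin k → ℕ) (s : List Γ),
      (∀ i, (P i).Ev w (fun _ => p i, s) (fun _ => p' i, s)) →
      Q.Ev w (p, s) (fun i => if i.val < t then p' i else p i, s) := by
  induction t with
  | zero =>
    refine ⟨DP.act (fun _ => Dir.S) Op.none, fun w p p' s _ => ?_⟩
    have e : (fun i : Fin k => if i.val < 0 then p' i else p i) =
        fun i => move (w.length + 1) (p i) Dir.S := by
      funext i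
      rw [if_neg (Nat.not_lt_zero _)]
      rfl
    rw [e]
    exact DP.Ev.act (w := w) (fun _ => Dir.S) Op.none ((p, s) : Cf k Γ)
  | succ t ih =>
    obtain ⟨Q, hQ⟩ := ih (by omega)
    refine ⟨DP.seq Q (lift ⟨t, by omega⟩ (P ⟨t, by omega⟩)), fun w p p' s h => ?_⟩
    refine DP.Ev.seq (hQ w p p' s h) ?_
    have h2 := lift_ev (⟨t, by omega⟩ : Fin k) w (h ⟨t, by omega⟩)
      (fun i => if i.val < t then p' i else p i) (by simp)
    have e : Function.update (fun i : Fin k => if i.val < t then p' i else p i) ⟨t, by omega⟩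
        (p' ⟨t, by omega⟩) = fun i => if i.val < t + 1 then p' i else p i := by
      funext j
      by_cases hj : j = ⟨t, by omega⟩
      · subst hj
        rw [Function.update_self, if_pos (Nat.lt_succ_self t)]
      · rw [Function.update_of_ne hj]
        have hj' : j.val ≠ t := fun h => hj (Fin.ext h)
        by_cases hlt : j.val < t
        · rw [if_pos hlt, if_pos (by omega)]
        · rw [if_neg hlt, if_neg (by omega)]
    rw [← e]
    exact h2

end ALL

theorem t_ALL : ALL_Stmt := by
  intro α k Γ P
  obtain ⟨Q, hQ⟩ := ALL.upto α k Γ P k le_rfl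
  refine ⟨Q, fun w p p' s h => ?_⟩
  have h1 := hQ w p p' s h
  have e : (fun i : Fin k => if i.val < k then p' i else p i) = p' := by
    funext i
    rw [if_pos i.isLt]
  rwa [e] at h1

end Pool.Agent.NDH
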