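import Mathlib

/-!
# Project NDH (MP_5e85fc_lc), list and recursion: definitions

A node system: finitely many injective partial maps `f a` on nodes. The abstract machine has a
register which holds a node and a stack of frames (label, node); its program enumerates the nodes
that are reachable from `x0` in a canonical order.
-/

set_option autoImplicit false

namespace Pool.Agent.NDH

/-- A node system. -/
structure NSys (X : Type) where
  m : ℕ
  f : Fin m → X → Option X
  x0 : X
  good : X → Prop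
  inj : ∀ (a : Fin m) (x y c : X), f a x = some c → f a y = some c → x = y
  x0_not : ∀ (a : Fin m) (x : X), f a x ≠ some x0

/-- Instructions of the abstract machine. -/
inductive Ins (L Γ : Type) (m : ℕ) where
  /-- go to `l` -/
  | go (l : L)
  /-- the register `x` becomes `f a x` and the label `l`; if `f a x` is undefined the label is `l'` -/
  | app (a : Fin m) (l l' : L)
  /-- the register `f a x` becomes `x` -/
  | inv (a : Fin m) (l : L)
  /-- is the register `x0`? -/
  | start (l l' : L)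
  /-- is the register good? -/
  | good (l l' : L)
  /-- store the register in a new frame; the register becomes `x0` -/
  | push (γ : Γ) (l : L)
  /-- load the top frame into the register and remove it -/
  | pop (l : L)
  /-- remove the top frame -/
  | drop (l : L)
  /-- change the label of the top frame -/
  | rel (γ : Γ) (l : L)
  /-- compare the register with the node of the top frame -/
  | test (l l' : L)
  /-- stop -/
  | halt

/-- Configurations: label, register, stack. -/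
structure Cf (L Γ X : Type) where
  lab : L
  reg : X
  stk : List (Γ × X)

/-- The effect of an instruction. -/
inductive Ex {L Γ X : Type} (S : NSys X) : Ins L Γ S.m → X → List (Γ × X) → Cf L Γ X → Prop
  | go (l : L) (x : X) (s : List (Γ × X)) : Ex S (Ins.go l) x s ⟨l, x, s⟩
  | app (a : Fin S.m) (l l' : L) (x y : X) (s : List (Γ × X)) : S.f a x = some y →
      Ex S (Ins.app a l l') x s ⟨l, y, s⟩
  | appN (a : Fin S.m) (l l' : L) (x : X) (s : List (Γ × X)) : S.f a x = none →
      Ex S (Ins.app a l l') x s ⟨l', x, s⟩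
  | inv (a : Fin S.m) (l : L) (x y : X) (s : List (Γ × X)) : S.f a x = some y →
      Ex S (Ins.inv a l) y s ⟨l, x, s⟩
  | start (l l' : L) (s : List (Γ × X)) : Ex S (Ins.start l l') S.x0 s ⟨l, S.x0, s⟩
  | startN (l l' : L) (x : X) (s : List (Γ × X)) : x ≠ S.x0 →
      Ex S (Ins.start l l') x s ⟨l', x, s⟩
  | good (l l' : L) (x : X) (s : List (Γ × X)) : S.good x → Ex S (Ins.good l l') x s ⟨l, x, s⟩
  | goodN (l l' : L) (x : X) (s : List (Γ × X)) : ¬ S.good x →
      Ex S (Ins.good l l') x s ⟨l', x, s⟩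
  | push (γ : Γ) (l : L) (x : X) (s : List (Γ × X)) :
      Ex S (Ins.push γ l) x s ⟨l, S.x0, (γ, x) :: s⟩
  | pop (l : L) (x y : X) (γ : Γ) (s : List (Γ × X)) : Ex S (Ins.pop l) x ((γ, y) :: s) ⟨l, y, s⟩
  | drop (l : L) (x y : X) (γ : Γ) (s : List (Γ × X)) :
      Ex S (Ins.drop l) x ((γ, y) :: s) ⟨l, x, s⟩
  | rel (γ : Γ) (l : L) (x y : X) (γ' : Γ) (s : List (Γ × X)) :
      Ex S (Ins.rel γ l) x ((γ', y) :: s) ⟨l, x, (γ, y) :: s⟩
  | test (l l' : L) (x : X) (γ : Γ) (s : List (Γ × X)) :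
      Ex S (Ins.test l l') x ((γ, x) :: s) ⟨l, x, (γ, x) :: s⟩
  | testN (l l' : L) (x y : X) (γ : Γ) (s : List (Γ × X)) : x ≠ y →
      Ex S (Ins.test l l') x ((γ, y) :: s) ⟨l', x, (γ, y) :: s⟩

/-- Labels of the frames. -/
inductive Frm (m : ℕ) where
  | A
  | B
  | C (a : Fin m)

/-- Labels of the program. -/
inductive Lab (m : ℕ) where
  | main
  | acc
  | rej
  | next
  | pB
  | pA
  | ret
  | retE
  | fnd (a : Fin (m + 1))
  | tst (a : Fin m)
  | hit (a : Fin m)
  | mis (a : Fin m)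
  | pro (a : Fin m)
  | scan (a : Fin (m + 1))
  | cnd (a : Fin m)
  | new
  | old (a : Fin m)
  | fin

/-- The program. -/
def prog (m : ℕ) : Lab m → Option (Frm m) → Ins (Lab m) (Frm m) m
  | Lab.main, _ => Ins.good Lab.acc Lab.next
  | Lab.acc, _ => Ins.halt
  | Lab.rej, _ => Ins.halt
  | Lab.next, _ => Ins.start Lab.pB Lab.pA
  | Lab.pB, _ => Ins.push Frm.B (Lab.scan 0)
  | Lab.pA, _ => Ins.push Frm.A (Lab.fnd 0)
  | Lab.ret, none => Ins.go Lab.main
  | Lab.ret, some Frm.A => Ins.go (Lab.fnd 0)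
  | Lab.ret, some (Frm.C _) => Ins.go (Lab.fnd 0)
  | Lab.ret, some Frm.B => Ins.go (Lab.scan 0)
  | Lab.retE, none => Ins.go Lab.rej
  | Lab.retE, some _ => Ins.halt
  | Lab.fnd a, _ =>
      if h : a.val < m then
        Ins.app ⟨a.val, h⟩ (Lab.tst ⟨a.val, h⟩) (Lab.fnd ⟨a.val + 1, Nat.succ_lt_succ h⟩)
      else Ins.go Lab.next
  | Lab.tst a, _ => Ins.test (Lab.hit a) (Lab.mis a)
  | Lab.hit a, _ => Ins.inv a (Lab.pro a)
  | Lab.mis a, _ => Ins.inv a (Lab.fnd ⟨a.val + 1, Nat.succ_lt_succ a.2⟩)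
  | Lab.pro a, some Frm.A => Ins.rel Frm.B (Lab.scan ⟨a.val + 1, Nat.succ_lt_succ a.2⟩)
  | Lab.pro a, some (Frm.C b) => if a = b then Ins.pop Lab.new else Ins.pop (Lab.old b)
  | Lab.pro _, _ => Ins.halt
  | Lab.scan a, _ =>
      if h : a.val < m then
        Ins.app ⟨a.val, h⟩ (Lab.cnd ⟨a.val, h⟩) (Lab.scan ⟨a.val + 1, Nat.succ_lt_succ h⟩)
      else Ins.test Lab.fin Lab.next
  | Lab.cnd a, _ => Ins.push (Frm.C a) (Lab.fnd 0)
  | Lab.new, _ => Ins.drop Lab.ret
  | Lab.old a, _ => Ins.inv a (Lab.scan ⟨a.val + 1, Nat.succ_lt_succ a.2⟩)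
  | Lab.fin, _ => Ins.drop Lab.retE

namespace NSys

variable {X : Type} (S : NSys X)

/-- The edges. -/
def Edge (x y : X) : Prop := ∃ a, S.f a x = some y

/-- The nodes that are reachable from `x0`. -/
def Rch (x : X) : Prop := Relation.ReflTransGen S.Edge S.x0 x

/-- One step of the machine. -/
def Stp (c c' : Cf (Lab S.m) (Frm S.m) X) : Prop :=
  Ex S (prog S.m c.lab (c.stk.head?.map Prod.fst)) c.reg c.stk c'

/-- Runs. -/
def Run : Cf (Lab S.m) (Frm S.m) X → Cf (Lab S.m) (Frm S.m) X → Prop :=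
  Relation.ReflTransGen S.Stp

/-- The initial configuration. -/
def init : Cf (Lab S.m) (Frm S.m) X := ⟨Lab.main, S.x0, []⟩

/-- The node `c` is met for the first time as `f a (v j)`. -/
def New (v : ℕ → X) (j : ℕ) (a : ℕ) (c : X) : Prop :=
  ∀ (j' : ℕ) (a' : Fin S.m), (j' < j ∨ (j' = j ∧ a'.val < a)) → S.f a' (v j') ≠ some c

/-- The canonical list `v 0, …, v (R - 1)` of the reachable nodes: for `j = 0, 1, …` and
`a = 0, …, m - 1` the node `f a (v j)` is appended if it is new; `pos j a` is the length of the list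
before this. -/
structure Listing where
  R : ℕ
  v : ℕ → X
  pos : ℕ → ℕ → ℕ
  R_pos : 0 < R
  v_zero : v 0 = S.x0
  inj : ∀ i < R, ∀ j < R, v i = v j → i = j
  rch : ∀ x, S.Rch x ↔ ∃ i < R, v i = x
  pos_zero : pos 0 0 = 1
  pos_gt : ∀ j < R, j < pos j 0
  pos_stage : ∀ j < R, pos (j + 1) 0 = pos j S.m
  pos_new : ∀ j < R, ∀ (a : Fin S.m) (c : X), S.f a (v j) = some c → S.New v j a.val c →
    pos j (a.val + 1) = pos j a.val + 1 ∧ pos j a.val < R ∧ v (pos j a.val) = c
  pos_old : ∀ j < R, ∀ a : Fin S.m, (∀ c, S.f a (v j) = some c → ¬ S.New v j a.val c) →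
    pos j (a.val + 1) = pos j a.val
  par : ∀ i, 0 < i → i < R → ∃ (j : ℕ) (a : Fin S.m), j < i ∧ S.f a (v j) = some (v i) ∧
    S.New v j a.val (v i) ∧ pos j a.val = i

end NSys

/-- LIST: the canonical list exists. -/
def S_LIST : Prop := ∀ {X : Type} (S : NSys X), {x | S.Rch x}.Finite → Nonempty S.Listing

/-- MAIN: the program decides if a good node is reachable. -/
def S_AMAIN : Prop := ∀ {X : Type} (S : NSys X), {x | S.Rch x}.Finite →
  ((∃ x, S.Rch x ∧ S.good x) → ∃ x s, S.Run S.init ⟨Lab.acc, x, s⟩) ∧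
  (¬ (∃ x, S.Rch x ∧ S.good x) → ∃ x s, S.Run S.init ⟨Lab.rej, x, s⟩)

end Pool.Agent.NDH
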