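import Pool.Agent.NDH.AM

/-!
# Project NDH: the canonical list of the reachable nodes
-/

set_option autoImplicit false

namespace Pool.Agent.NDH

namespace AMList

variable {X : Type} (S : NSys X)

open Classical in
/-- The list after the labels `< n` have been treated at the node `s`. -/
noncomputable def ext (D : List X) (s : X) : ℕ → List X
  | 0 => D
  | n + 1 => if h : ∃ (hn : n < S.m) (c : X), S.f ⟨n, hn⟩ s = some c ∧ c ∉ ext D s n then
      ext D s n ++ [h.choose_spec.choose] else ext D s n

theorem ext_new {D : List X} {s : X} {n : ℕ} (hn : n < S.m) {c : X}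
    (hc : S.f ⟨n, hn⟩ s = some c) (hcD : c ∉ ext S D s n) :
    ext S D s (n + 1) = ext S D s n ++ [c] := by
  have h : ∃ (hn : n < S.m) (c : X), S.f ⟨n, hn⟩ s = some c ∧ c ∉ ext S D s n :=
    ⟨hn, c, hc, hcD⟩
  rw [ext, dif_pos h]
  have h2 := h.choose_spec.choose_spec.1
  have h3 : some c = some h.choose_spec.choose := hc.symm.trans h2
  rw [← Option.some.inj h3]

theorem ext_old {D : List X} {s : X} {n : ℕ}
    (h : ∀ (hn : n < S.m) (c : X), S.f ⟨n, hn⟩ s = some c → c ∈ ext S D s n) :
    ext S D s (n + 1) = ext S D s n := by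
  rw [ext, dif_neg]
  rintro ⟨hn, c, h1, h2⟩
  exact h2 (h hn c h1)

theorem ext_cases (D : List X) (s : X) (n : ℕ) :
    (∃ (hn : n < S.m) (c : X), S.f ⟨n, hn⟩ s = some c ∧ c ∉ ext S D s n ∧
      ext S D s (n + 1) = ext S D s n ++ [c]) ∨
    ((∀ (hn : n < S.m) (c : X), S.f ⟨n, hn⟩ s = some c → c ∈ ext S D s n) ∧
      ext S D s (n + 1) = ext S D s n) := by
  by_cases h : ∀ (hn : n < S.m) (c : X), S.f ⟨n, hn⟩ s = some c → c ∈ ext S D s n
  · exact Or.inr ⟨h, ext_old S h⟩
  · push Not at h
    obtain ⟨hn, c, h1, h2⟩ := h
    exact Or.inl ⟨hn, c, h1, h2, ext_new S hn h1 h2⟩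

theorem ext_prefix_succ (D : List X) (s : X) (n : ℕ) : ext S D s n <+: ext S D s (n + 1) := by
  rcases ext_cases S D s n with ⟨_, c, _, _, h⟩ | ⟨_, h⟩
  · rw [h]
    exact List.prefix_append _ _
  · rw [h]

theorem ext_prefix (D : List X) (s : X) {n n' : ℕ} (h : n ≤ n') :
    ext S D s n <+: ext S D s n' := by
  induction h with
  | refl => exact List.prefix_refl _
  | step _ ih => exact ih.trans (ext_prefix_succ S D s _)

theorem ext_nodup {D : List X} (hD : D.Nodup) (s : X) (n : ℕ) : (ext S D s n).Nodup := by
  induction n with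
  | zero => exact hD
  | succ n ih =>
    rcases ext_cases S D s n with ⟨_, c, _, h2, h⟩ | ⟨_, h⟩
    · rw [h]
      rw [List.nodup_append]
      refine ⟨ih, List.nodup_singleton c, ?_⟩
      intro a ha b hb
      rw [List.mem_singleton] at hb
      rw [hb]
      rintro rfl
      exact h2 ha
    · rw [h]
      exact ih

/-- Members of `ext` are members of `D` or values at `s`. -/
theorem ext_mem {D : List X} {s c : X} {n : ℕ} (h : c ∈ ext S D s n) :
    c ∈ D ∨ ∃ a : Fin S.m, a.val < n ∧ S.f a s = some c := by
  induction n with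
  | zero => exact Or.inl h
  | succ n ih =>
    rcases ext_cases S D s n with ⟨hn, d, h1, h2, h3⟩ | ⟨_, h3⟩
    · rw [h3, List.mem_append, List.mem_singleton] at h
      rcases h with h | rfl
      · rcases ih h with h | ⟨a, ha, hc⟩
        · exact Or.inl h
        · exact Or.inr ⟨a, by omega, hc⟩
      · exact Or.inr ⟨⟨n, hn⟩, Nat.lt_succ_self n, h1⟩
    · rw [h3] at h
      rcases ih h with h | ⟨a, ha, hc⟩
      · exact Or.inl h
      · exact Or.inr ⟨a, by omega, hc⟩

/-- Values at `s` are members. -/
theorem mem_ext {D : List X} {s c : X} {n : ℕ} (a : Fin S.m) (ha : a.val < n)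
    (hc : S.f a s = some c) : c ∈ ext S D s n := by
  have h1 : c ∈ ext S D s (a.val + 1) := by
    by_cases h : c ∈ ext S D s a.val
    · exact (ext_prefix_succ S D s a.val).subset h
    · rw [ext_new S a.2 hc h]
      exact List.mem_append_right _ (List.mem_singleton.2 rfl)
  exact (ext_prefix S D s (show a.val + 1 ≤ n by omega)).subset h1

/-- The list before the stage `j`. -/
noncomputable def lst : ℕ → List X
  | 0 => [S.x0]
  | j + 1 => match (lst j)[j]? with
    | none => lst j
    | some s => ext S (lst j) s S.m

theorem lst_some {j : ℕ} {s : X} (h : (lst S j)[j]? = some s) :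
    lst S (j + 1) = ext S (lst S j) s S.m := by
  rw [lst, h]

theorem lst_none {j : ℕ} (h : (lst S j)[j]? = none) : lst S (j + 1) = lst S j := by
  rw [lst, h]

theorem lst_prefix_succ (j : ℕ) : lst S j <+: lst S (j + 1) := by
  rcases h : (lst S j)[j]? with _ | s
  · rw [lst_none S h]
  · rw [lst_some S h]
    exact ext_prefix S (lst S j) s (Nat.zero_le S.m)

theorem lst_prefix {i j : ℕ} (h : i ≤ j) : lst S i <+: lst S j := by
  induction h with
  | refl => exact List.prefix_refl _
  | step _ ih => exact ih.trans (lst_prefix_succ S _)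

theorem lst_nodup (j : ℕ) : (lst S j).Nodup := by
  induction j with
  | zero => exact List.nodup_singleton _
  | succ j ih =>
    rcases h : (lst S j)[j]? with _ | s
    · rw [lst_none S h]
      exact ih
    · rw [lst_some S h]
      exact ext_nodup S ih s _

theorem lst_rch (j : ℕ) : ∀ c ∈ lst S j, S.Rch c := by
  induction j with
  | zero =>
    intro c hc
    rw [lst, List.mem_singleton] at hc
    rw [hc]
    exact Relation.ReflTransGen.refl
  | succ j ih =>
    rcases h : (lst S j)[j]? with _ | s
    · rw [lst_none S h]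
      exact ih
    · rw [lst_some S h]
      intro c hc
      rcases ext_mem S hc with h1 | ⟨a, _, h1⟩
      · exact ih c h1
      · exact Relation.ReflTransGen.tail (ih s (List.mem_of_getElem? h)) ⟨a, h1⟩

theorem lst_length_pos (j : ℕ) : 0 < (lst S j).length := by
  have h := (lst_prefix S (Nat.zero_le j)).length_le
  rw [lst] at h
  exact h

/-- The list is finite. -/
theorem exists_R (hfin : {x | S.Rch x}.Finite) : ∃ R, 0 < R ∧
    (∀ j < R, j < (lst S j).length) ∧ (lst S R).length = R := by
  have hbd : ∀ j, (lst S j).length ≤ hfin.toFinset.card := by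
    intro j
    classical
    rw [← List.toFinset_card_of_nodup (lst_nodup S j)]
    refine Finset.card_le_card fun c hc => ?_
    rw [Set.Finite.mem_toFinset]
    exact lst_rch S j c (List.mem_toFinset.1 hc)
  have hex : ∃ j, (lst S j).length ≤ j := ⟨_, hbd _⟩
  classical
  have hR := Nat.find_spec hex
  have hlt : ∀ j < Nat.find hex, j < (lst S j).length := fun j hj =>
    not_le.1 (Nat.find_min hex hj)
  have hpos : 0 < Nat.find hex := by
    rw [Nat.pos_iff_ne_zero]
    intro h0
    rw [h0] at hR
    have := lst_length_pos S 0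
    omega
  refine ⟨Nat.find hex, hpos, hlt, le_antisymm hR ?_⟩
  have h1 := hlt (Nat.find hex - 1) (by omega)
  have h2 := (lst_prefix S (show Nat.find hex - 1 ≤ Nat.find hex by omega)).length_le
  omega

section

variable {R : ℕ} (hlt : ∀ j < R, j < (lst S j).length) (hR : (lst S R).length = R)

/-- The nodes of the list. -/
noncomputable def v (R : ℕ) (i : ℕ) : X := ((lst S R)[i]?).getD S.x0

include hR in
theorem get_v {i : ℕ} (hi : i < R) : (lst S R)[i]? = some (v S R i) := by
  unfold v
  rw [List.getElem?_eq_getElem (by omega)]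
  rfl

include hR in
theorem get_v' {i j : ℕ} (hj : j ≤ R) (hi : i < (lst S j).length) :
    (lst S j)[i]? = some (v S R i) := by
  have h1 := lst_prefix S hj
  have h2 := h1.length_le
  rw [← get_v S hR (show i < R by omega)]
  rw [List.getElem?_eq_getElem hi, List.getElem?_eq_getElem (by omega)]
  rw [h1.getElem hi]

include hR in
theorem eq_v {i j : ℕ} {c : X} (hj : j ≤ R) (h : (lst S j)[i]? = some c) : v S R i = c := by
  have hi : i < (lst S j).length := by
    by_contra hi
    rw [List.getElem?_eq_none (not_lt.1 hi)] at h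
    cases h
  have h2 := get_v' S hR hj hi
  rw [h] at h2
  exact (Option.some.inj h2).symm

include hlt hR in
theorem lst_succ {j : ℕ} (hj : j < R) : lst S (j + 1) = ext S (lst S j) (v S R j) S.m :=
  lst_some S (get_v' S hR hj.le (hlt j hj))

/-- Every value of an earlier pair is in the list. -/
theorem mem_of_earlier {j n : ℕ} (hj : j < R) {c : X} {j' : ℕ} {a' : Fin S.m}
    (hlt : ∀ j < R, j < (lst S j).length) (hR : (lst S R).length = R)
    (h : j' < j ∨ (j' = j ∧ a'.val < n)) (hc : S.f a' (v S R j') = some c) :
    c ∈ ext S (lst S j) (v S R j) n := by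
  rcases h with h | ⟨rfl, h⟩
  · have h1 : c ∈ lst S (j' + 1) := by
      rw [lst_succ S hlt hR (show j' < R by omega)]
      exact mem_ext S a' a'.2 hc
    have h2 : c ∈ lst S j := (lst_prefix S (show j' + 1 ≤ j by omega)).subset h1
    exact (ext_prefix S (lst S j) (v S R j) (Nat.zero_le n)).subset h2
  · exact mem_ext S a' h hc

/-- The members of the lists: `x0` and values of earlier pairs. -/
theorem lst_mem (hlt : ∀ j < R, j < (lst S j).length) (hR : (lst S R).length = R) (j : ℕ) :
    j ≤ R → ∀ c ∈ lst S j, c = S.x0 ∨
      ∃ (j' : ℕ) (a' : Fin S.m), j' < j ∧ S.f a' (v S R j') = some c := by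
  induction j with
  | zero =>
    intro _ c hc
    rw [lst, List.mem_singleton] at hc
    exact Or.inl hc
  | succ j ih =>
    intro hj c hc
    rw [lst_succ S hlt hR (by omega)] at hc
    rcases ext_mem S hc with h | ⟨a, _, h⟩
    · rcases ih (by omega) c h with h | ⟨j', a', h1, h2⟩
      · exact Or.inl h
      · exact Or.inr ⟨j', a', by omega, h2⟩
    · exact Or.inr ⟨j, a, Nat.lt_succ_self j, h⟩

/-- A new value is not in the list. -/
theorem not_mem_of_new (hlt : ∀ j < R, j < (lst S j).length) (hR : (lst S R).length = R)
    {j n : ℕ} (hj : j < R) {c : X} {a : Fin S.m} {x : X} (hc : S.f a x = some c)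
    (h : S.New (v S R) j n c) : c ∉ ext S (lst S j) (v S R j) n := by
  intro hm
  rcases ext_mem S hm with h1 | ⟨b, hb, h1⟩
  · rcases lst_mem S hlt hR j hj.le c h1 with rfl | ⟨j', a', h2, h3⟩
    · exact S.x0_not a x hc
    · exact h j' a' (Or.inl h2) h3
  · exact h j b (Or.inr ⟨rfl, hb⟩) h1

/-- The values before the pair `(j, n)` which are missing in the list are new. -/
theorem new_of_not_mem (hlt : ∀ j < R, j < (lst S j).length) (hR : (lst S R).length = R)
    {j n : ℕ} (hj : j < R) {c : X} (h : c ∉ ext S (lst S j) (v S R j) n) :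
    S.New (v S R) j n c := by
  intro j' a' h1 h2
  exact h (mem_of_earlier S hj hlt hR h1 h2)

/-- Every member of the list except `x0` has a first pair. -/
theorem par_ext (hlt : ∀ j < R, j < (lst S j).length) (hR : (lst S R).length = R)
    {j : ℕ} (hj : j < R) (n : ℕ) (hn : n ≤ S.m) (i : ℕ) (hi1 : (lst S j).length ≤ i)
    (hi2 : i < (ext S (lst S j) (v S R j) n).length) :
    ∃ a : Fin S.m, S.f a (v S R j) = some (v S R i) ∧
      v S R i ∉ ext S (lst S j) (v S R j) a.val ∧
      (ext S (lst S j) (v S R j) a.val).length = i := by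
  induction n with
  | zero =>
    rw [ext] at hi2
    omega
  | succ n ih =>
    rcases ext_cases S (lst S j) (v S R j) n with ⟨hn', c, h1, h2, h3⟩ | ⟨_, h3⟩
    · rw [h3, List.length_append, List.length_singleton] at hi2
      by_cases hi : i < (ext S (lst S j) (v S R j) n).length
      · exact ih (by omega) hi
      · have hi3 : (ext S (lst S j) (v S R j) n).length = i := by omega
        have hpre : ext S (lst S j) (v S R j) (n + 1) <+: lst S R := by
          have h4 := ext_prefix S (lst S j) (v S R j) hn
          rw [← lst_succ S hlt hR hj] at h4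
          exact h4.trans (lst_prefix S hj)
        have hvi : v S R i = c := by
          have h5 : (ext S (lst S j) (v S R j) (n + 1))[i]? = some c := by
            rw [h3, ← hi3, List.getElem?_append_right le_rfl, Nat.sub_self]
            rfl
          have h6 : i < (ext S (lst S j) (v S R j) (n + 1)).length := by
            rw [h3, List.length_append, List.length_singleton]
            omega
          rw [List.getElem?_eq_getElem h6] at h5
          have h7 := hpre.getElem h6
          have h8 := hpre.length_le
          have h9 := get_v S hR (show i < R by omega)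
          rw [List.getElem?_eq_getElem (by omega)] at h9
          rw [← Option.some.inj h9, ← h7]
          exact Option.some.inj h5
        refine ⟨⟨n, hn'⟩, ?_, ?_, hi3⟩
        · rw [hvi]
          exact h1
        · rw [hvi]
          exact h2
    · rw [h3] at hi2
      exact ih (by omega) hi2

theorem par_lst (hlt : ∀ j < R, j < (lst S j).length) (hR : (lst S R).length = R) (j : ℕ) :
    j ≤ R → ∀ i, 0 < i → i < (lst S j).length → ∃ (j' : ℕ) (a : Fin S.m), j' < j ∧
      S.f a (v S R j') = some (v S R i) ∧ v S R i ∉ ext S (lst S j') (v S R j') a.val ∧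
      (ext S (lst S j') (v S R j') a.val).length = i := by
  induction j with
  | zero =>
    intro _ i h1 h2
    rw [lst, List.length_singleton] at h2
    omega
  | succ j ih =>
    intro hj i h1 h2
    by_cases hi : i < (lst S j).length
    · obtain ⟨j', a, h3, h4⟩ := ih (by omega) i h1 hi
      exact ⟨j', a, by omega, h4⟩
    · rw [lst_succ S hlt hR (by omega)] at h2
      obtain ⟨a, h3⟩ := par_ext S hlt hR (show j < R by omega) S.m le_rfl i (not_lt.1 hi) h2
      exact ⟨j, a, Nat.lt_succ_self j, h3⟩

end

end AMList

open AMList in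
/-- The canonical list exists. -/
theorem t_LIST : S_LIST := by
  intro X S hfin
  obtain ⟨R, hpos, hlt, hR⟩ := exists_R S hfin
  refine ⟨⟨R, v S R, fun j n => (ext S (lst S j) (v S R j) n).length, hpos, ?_, ?_, ?_, ?_, ?_,
    ?_, ?_, ?_, ?_⟩⟩
  · refine eq_v S hR (Nat.zero_le R) ?_
    rw [lst]
    rfl
  · intro i hi j hj h
    have h1 := get_v S hR hi
    have h2 := get_v S hR hj
    rw [← h] at h2
    exact (List.getElem?_inj (by omega) (lst_nodup S R)).1 (h1.trans h2.symm)
  · intro x
    constructor
    · intro hx
      induction hx with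
      | refl =>
        refine ⟨0, hpos, eq_v S hR (Nat.zero_le R) ?_⟩
        rw [lst]
        rfl
      | tail _ h ih =>
        obtain ⟨i, hi, rfl⟩ := ih
        obtain ⟨a, ha⟩ := h
        have h1 := mem_ext S (D := lst S i) (n := S.m) a a.2 ha
        rw [← lst_succ S hlt hR hi] at h1
        have h2 := (lst_prefix S (show i + 1 ≤ R by omega)).subset h1
        obtain ⟨k, hk⟩ := List.getElem?_of_mem h2
        have hk2 : k < R := by
          by_contra hk2
          rw [List.getElem?_eq_none (by omega)] at hk
          cases hk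
        exact ⟨k, hk2, eq_v S hR le_rfl hk⟩
    · rintro ⟨i, hi, rfl⟩
      exact lst_rch S R _ (List.mem_of_getElem? (get_v S hR hi))
  · show (ext S (lst S 0) (v S R 0) 0).length = 1
    rw [ext, lst]
    rfl
  · intro j hj
    show j < (ext S (lst S j) (v S R j) 0).length
    rw [ext]
    exact hlt j hj
  · intro j hj
    show (ext S (lst S (j + 1)) (v S R (j + 1)) 0).length = (ext S (lst S j) (v S R j) S.m).length
    rw [ext, lst_succ S hlt hR hj]
  · intro j hj a c hc hnew
    have h1 := not_mem_of_new S hlt hR hj hc hnew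
    have h2 := ext_new S a.2 hc h1
    have hpre : ext S (lst S j) (v S R j) (a.val + 1) <+: lst S R := by
      have h4 := ext_prefix S (lst S j) (v S R j) (show a.val + 1 ≤ S.m from a.2)
      rw [← lst_succ S hlt hR hj] at h4
      exact h4.trans (lst_prefix S hj)
    have hlen : (ext S (lst S j) (v S R j) (a.val + 1)).length =
        (ext S (lst S j) (v S R j) a.val).length + 1 := by
      rw [h2, List.length_append, List.length_singleton]
    have h8 := hpre.length_le
    have hi : (ext S (lst S j) (v S R j) a.val).length < R := by omega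
    refine ⟨hlen, hi, ?_⟩
    have h6 : (ext S (lst S j) (v S R j) a.val).length <
        (ext S (lst S j) (v S R j) (a.val + 1)).length := by omega
    have h5 : (ext S (lst S j) (v S R j) (a.val + 1))[(ext S (lst S j) (v S R j) a.val).length]? =
        some c := by
      rw [h2, List.getElem?_append_right le_rfl, Nat.sub_self]
      rfl
    rw [List.getElem?_eq_getElem h6] at h5
    have h7 := hpre.getElem h6
    have h9 := get_v S hR hi
    rw [List.getElem?_eq_getElem (by omega)] at h9
    rw [← Option.some.inj h9, ← h7]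
    exact Option.some.inj h5
  · intro j hj a h
    show (ext S (lst S j) (v S R j) (a.val + 1)).length = (ext S (lst S j) (v S R j) a.val).length
    rw [ext_old S]
    intro hn c hc
    by_contra hcon
    exact h c hc (new_of_not_mem S hlt hR hj hcon)
  · intro i h0 hi
    obtain ⟨j, a, h1, h2, h3, h4⟩ := par_lst S hlt hR R le_rfl i h0 (by omega)
    refine ⟨j, a, ?_, h2, new_of_not_mem S hlt hR h1 h3, h4⟩
    have h5 := hlt j h1
    have h6 := (ext_prefix S (lst S j) (v S R j) (Nat.zero_le a.val)).length_le
    rw [ext] at h6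
    omega

end Pool.Agent.NDH
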