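import Pool.Agent.NDH.AMList

/-!
# Project NDH: correctness of the program of the abstract machine
-/

set_option autoImplicit false

namespace Pool.Agent.NDH

open Relation

namespace AMRun

variable {X : Type} (S : NSys X)

theorem step {c c' : Cf (Lab S.m) (Frm S.m) X} (h : S.Stp c c') : S.Run c c' :=
  ReflTransGen.single h

/-- The procedure `next` is correct for the node `v i` of the list. -/
def NextOK (l : S.Listing) (i : ℕ) : Prop :=
  ∀ stk : List (Frm S.m × X),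
    (i + 1 < l.R → S.Run ⟨Lab.next, l.v i, stk⟩ ⟨Lab.ret, l.v (i + 1), stk⟩) ∧
    (i + 1 = l.R → ∃ x, S.Run ⟨Lab.next, l.v i, stk⟩ ⟨Lab.retE, x, stk⟩)

/-- A test of one label which fails. -/
theorem fnd_skip {a : Fin S.m} {x c : X} {γ : Frm S.m} {stk : List (Frm S.m × X)}
    (h : S.f a x ≠ some c) :
    S.Run ⟨Lab.fnd ⟨a.val, Nat.lt_succ_of_lt a.2⟩, x, (γ, c) :: stk⟩
      ⟨Lab.fnd ⟨a.val + 1, Nat.succ_lt_succ a.2⟩, x, (γ, c) :: stk⟩ := by
  rcases hf : S.f a x with _ | y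
  · refine step S ?_
    show Ex S (prog S.m (Lab.fnd ⟨a.val, Nat.lt_succ_of_lt a.2⟩) _) x _ _
    rw [prog, dif_pos a.2]
    exact Ex.appN _ _ _ _ _ hf
  · have hyc : y ≠ c := by
      rintro rfl
      exact h hf
    have s1 : S.Stp ⟨Lab.fnd ⟨a.val, Nat.lt_succ_of_lt a.2⟩, x, (γ, c) :: stk⟩
        ⟨Lab.tst a, y, (γ, c) :: stk⟩ := by
      show Ex S (prog S.m (Lab.fnd ⟨a.val, Nat.lt_succ_of_lt a.2⟩) _) x _ _
      rw [prog, dif_pos a.2]
      exact Ex.app _ _ _ _ _ _ hf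
    have s2 : S.Stp ⟨Lab.tst a, y, (γ, c) :: stk⟩ ⟨Lab.mis a, y, (γ, c) :: stk⟩ :=
      Ex.testN _ _ _ _ _ _ hyc
    have s3 : S.Stp ⟨Lab.mis a, y, (γ, c) :: stk⟩
        ⟨Lab.fnd ⟨a.val + 1, Nat.succ_lt_succ a.2⟩, x, (γ, c) :: stk⟩ :=
      Ex.inv _ _ _ _ _ hf
    exact ((step S s1).trans (step S s2)).trans (step S s3)

/-- A test of one label which succeeds. -/
theorem fnd_hit {a : Fin S.m} {x c : X} {γ : Frm S.m} {stk : List (Frm S.m × X)}
    (h : S.f a x = some c) :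
    S.Run ⟨Lab.fnd ⟨a.val, Nat.lt_succ_of_lt a.2⟩, x, (γ, c) :: stk⟩
      ⟨Lab.pro a, x, (γ, c) :: stk⟩ := by
  have s1 : S.Stp ⟨Lab.fnd ⟨a.val, Nat.lt_succ_of_lt a.2⟩, x, (γ, c) :: stk⟩
      ⟨Lab.tst a, c, (γ, c) :: stk⟩ := by
    show Ex S (prog S.m (Lab.fnd ⟨a.val, Nat.lt_succ_of_lt a.2⟩) _) x _ _
    rw [prog, dif_pos a.2]
    exact Ex.app _ _ _ _ _ _ h
  have s2 : S.Stp ⟨Lab.tst a, c, (γ, c) :: stk⟩ ⟨Lab.hit a, c, (γ, c) :: stk⟩ :=
    Ex.test _ _ _ _ _
  have s3 : S.Stp ⟨Lab.hit a, c, (γ, c) :: stk⟩ ⟨Lab.pro a, x, (γ, c) :: stk⟩ :=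
    Ex.inv _ _ _ _ _ h
  exact ((step S s1).trans (step S s2)).trans (step S s3)

/-- Tests of the labels from `n` up to `n'` which fail. -/
theorem fnd_skips {n n' : ℕ} (h : n ≤ n') (hn' : n' ≤ S.m) {x c : X} {γ : Frm S.m}
    {stk : List (Frm S.m × X)} (hf : ∀ a : Fin S.m, a.val < n' → S.f a x ≠ some c) :
    S.Run ⟨Lab.fnd ⟨n, by omega⟩, x, (γ, c) :: stk⟩ ⟨Lab.fnd ⟨n', by omega⟩, x, (γ, c) :: stk⟩ := by
  induction n', h using Nat.le_induction with
  | base => exact ReflTransGen.refl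
  | succ n' h ih =>
    refine (ih (by omega) fun a ha => hf a (by omega)).trans ?_
    exact fnd_skip S (a := ⟨n', by omega⟩) (hf ⟨n', by omega⟩ (Nat.lt_succ_self n'))

/-- The end of a row: go to the next node. -/
theorem fnd_next (l : S.Listing) {j : ℕ} (hj : j + 1 < l.R) (hN : NextOK S l j) {c : X}
    {γ : Frm S.m} (hγ : γ ≠ Frm.B) {stk : List (Frm S.m × X)} :
    S.Run ⟨Lab.fnd ⟨S.m, Nat.lt_succ_self _⟩, l.v j, (γ, c) :: stk⟩
      ⟨Lab.fnd 0, l.v (j + 1), (γ, c) :: stk⟩ := by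
  have s1 : S.Stp ⟨Lab.fnd ⟨S.m, Nat.lt_succ_self _⟩, l.v j, (γ, c) :: stk⟩
      ⟨Lab.next, l.v j, (γ, c) :: stk⟩ := by
    show Ex S (prog S.m (Lab.fnd ⟨S.m, Nat.lt_succ_self _⟩) _) _ _ _
    rw [prog, dif_neg (lt_irrefl S.m)]
    exact Ex.go _ _ _
  have s2 := (hN ((γ, c) :: stk)).1 hj
  have s3 : S.Stp ⟨Lab.ret, l.v (j + 1), (γ, c) :: stk⟩
      ⟨Lab.fnd 0, l.v (j + 1), (γ, c) :: stk⟩ := by
    cases γ with
    | A => exact Ex.go _ _ _
    | B => exact absurd rfl hγ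
    | C b => exact Ex.go _ _ _
  exact ((step S s1).trans s2).trans (step S s3)

/-- The first pair which gives the node of the top frame is found. -/
theorem fnd (l : S.Listing) {j : ℕ} {a : Fin S.m} {c : X} (hj : j < l.R)
    (hc : S.f a (l.v j) = some c) (hnew : S.New l.v j a.val c) (hN : ∀ b < j, NextOK S l b)
    {γ : Frm S.m} (hγ : γ ≠ Frm.B) {stk : List (Frm S.m × X)} :
    S.Run ⟨Lab.fnd 0, S.x0, (γ, c) :: stk⟩ ⟨Lab.pro a, l.v j, (γ, c) :: stk⟩ := by
  have h1 : ∀ j', j' ≤ j → S.Run ⟨Lab.fnd 0, S.x0, (γ, c) :: stk⟩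
      ⟨Lab.fnd 0, l.v j', (γ, c) :: stk⟩ := by
    intro j'
    induction j' with
    | zero =>
      intro _
      rw [l.v_zero]
      exact ReflTransGen.refl
    | succ j' ih =>
      intro hj'
      refine (ih (by omega)).trans ?_
      refine (fnd_skips S (Nat.zero_le S.m) le_rfl fun b _ => ?_).trans
        (fnd_next S l (by omega) (hN j' (by omega)) hγ)
      exact hnew j' b (Or.inl (by omega))
  refine (h1 j le_rfl).trans ?_
  refine (fnd_skips S (Nat.zero_le a.val) a.2.le fun b hb => ?_).trans (fnd_hit S hc)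
  exact hnew j b (Or.inr ⟨rfl, hb⟩)

/-- The first pair which gives `c`. -/
theorem exists_first (l : S.Listing) {j : ℕ} {a : Fin S.m} {c : X}
    (hc : S.f a (l.v j) = some c) : ∃ (j' : ℕ) (a' : Fin S.m), (j' < j ∨ (j' = j ∧ a'.val ≤ a.val)) ∧
      S.f a' (l.v j') = some c ∧ S.New l.v j' a'.val c := by
  classical
  have h1 : ∃ j', ∃ a' : Fin S.m, S.f a' (l.v j') = some c := ⟨j, a, hc⟩
  have h2 := Nat.find_spec h1
  have h3 : ∃ n, ∃ a' : Fin S.m, a'.val = n ∧ S.f a' (l.v (Nat.find h1)) = some c := by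
    obtain ⟨a', ha'⟩ := h2
    exact ⟨a'.val, a', rfl, ha'⟩
  obtain ⟨a', ha', hc'⟩ := Nat.find_spec h3
  refine ⟨Nat.find h1, a', ?_, hc', ?_⟩
  · have h4 : Nat.find h1 ≤ j := Nat.find_min' h1 ⟨a, hc⟩
    rcases h4.lt_or_eq with h5 | h5
    · exact Or.inl h5
    · refine Or.inr ⟨h5, ?_⟩
      rw [ha']
      exact Nat.find_min' h3 ⟨a, rfl, by rw [h5]; exact hc⟩
  · intro j'' a'' h4 h5
    rcases h4 with h4 | ⟨h4, h6⟩
    · exact Nat.find_min h1 h4 ⟨a'', h5⟩
    · rw [ha'] at h6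
      refine Nat.find_min h3 h6 ⟨a'', rfl, ?_⟩
      rw [← h4]
      exact h5

/-- The search for the node after `v i`. -/
theorem scn (l : S.Listing) (i : ℕ) (hi : i < l.R) (hN : ∀ b < i, NextOK S l b) :
    ∀ (d : ℕ) (j n : ℕ) (hn : n ≤ S.m), j ≤ i → l.pos j n = i + 1 →
      (i - j) * (S.m + 1) + (S.m - n) ≤ d → ∀ stk : List (Frm S.m × X),
      (i + 1 < l.R → S.Run ⟨Lab.scan ⟨n, Nat.lt_succ_of_le hn⟩, l.v j, (Frm.B, l.v i) :: stk⟩
        ⟨Lab.ret, l.v (i + 1), stk⟩) ∧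
      (i + 1 = l.R → ∃ x, S.Run ⟨Lab.scan ⟨n, Nat.lt_succ_of_le hn⟩, l.v j, (Frm.B, l.v i) :: stk⟩
        ⟨Lab.retE, x, stk⟩) := by
  intro d
  induction d with
  | zero =>
    intro j n hn hj hpos hd stk
    have hnm : n = S.m := by omega
    have hij : i = j := by
      by_contra hne
      have h1 : 1 ≤ i - j := by omega
      have h2 : 1 * (S.m + 1) ≤ (i - j) * (S.m + 1) := Nat.mul_le_mul_right _ h1
      omega
    subst hnm hij
    have hst := l.pos_stage i hi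
    have hR : i + 1 = l.R := by
      by_contra hne
      have h3 := l.pos_gt (i + 1) (by omega)
      omega
    refine ⟨fun h => absurd h (by omega), fun _ => ⟨l.v i, ?_⟩⟩
    have s1 : S.Stp ⟨Lab.scan ⟨S.m, Nat.lt_succ_of_le hn⟩, l.v i, (Frm.B, l.v i) :: stk⟩
        ⟨Lab.fin, l.v i, (Frm.B, l.v i) :: stk⟩ := by
      show Ex S (prog S.m (Lab.scan ⟨S.m, _⟩) _) _ _ _
      rw [prog, dif_neg (lt_irrefl S.m)]
      exact Ex.test _ _ _ _ _
    have s2 : S.Stp ⟨Lab.fin, l.v i, (Frm.B, l.v i) :: stk⟩ ⟨Lab.retE, l.v i, stk⟩ :=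
      Ex.drop _ _ _ _ _
    exact (step S s1).trans (step S s2)
  | succ d ih =>
    intro j n hn hj hpos hd stk
    rcases hn.lt_or_eq with hlt | rfl
    · -- a label
      have key : ∀ (hp : l.pos j (n + 1) = i + 1)
          (hr : S.Run ⟨Lab.scan ⟨n, Nat.lt_succ_of_le hn⟩, l.v j, (Frm.B, l.v i) :: stk⟩
            ⟨Lab.scan ⟨n + 1, Nat.lt_succ_of_le hlt⟩, l.v j, (Frm.B, l.v i) :: stk⟩),
          (i + 1 < l.R → S.Run ⟨Lab.scan ⟨n, Nat.lt_succ_of_le hn⟩, l.v j, (Frm.B, l.v i) :: stk⟩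
            ⟨Lab.ret, l.v (i + 1), stk⟩) ∧
          (i + 1 = l.R → ∃ x, S.Run ⟨Lab.scan ⟨n, Nat.lt_succ_of_le hn⟩, l.v j,
            (Frm.B, l.v i) :: stk⟩ ⟨Lab.retE, x, stk⟩) := by
        intro hp hr
        have h1 := ih j (n + 1) hlt hj hp (by omega) stk
        refine ⟨fun h => hr.trans (h1.1 h), fun h => ?_⟩
        obtain ⟨x, hx⟩ := h1.2 h
        exact ⟨x, hr.trans hx⟩
      rcases hf : S.f ⟨n, hlt⟩ (l.v j) with _ | c
      · refine key ?_ (step S ?_)
        · rw [← hpos]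
          refine l.pos_old j (by omega) ⟨n, hlt⟩ fun c hc => ?_
          rw [hf] at hc
          cases hc
        · show Ex S (prog S.m (Lab.scan ⟨n, _⟩) _) _ _ _
          rw [prog, dif_pos hlt]
          exact Ex.appN _ _ _ _ _ hf
      · have s1 : S.Stp ⟨Lab.scan ⟨n, Nat.lt_succ_of_le hn⟩, l.v j, (Frm.B, l.v i) :: stk⟩
            ⟨Lab.cnd ⟨n, hlt⟩, c, (Frm.B, l.v i) :: stk⟩ := by
          show Ex S (prog S.m (Lab.scan ⟨n, _⟩) _) _ _ _
          rw [prog, dif_pos hlt]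
          exact Ex.app _ _ _ _ _ _ hf
        have s2 : S.Stp ⟨Lab.cnd ⟨n, hlt⟩, c, (Frm.B, l.v i) :: stk⟩
            ⟨Lab.fnd 0, S.x0, (Frm.C ⟨n, hlt⟩, c) :: (Frm.B, l.v i) :: stk⟩ := Ex.push _ _ _ _
        obtain ⟨j', a', hle, hc', hnew⟩ := exists_first S l hf
        have hj' : j' ≤ j := by
          rcases hle with h | ⟨h, _⟩
          · exact h.le
          · exact h.le
        have s3 : S.Run ⟨Lab.fnd 0, S.x0, (Frm.C ⟨n, hlt⟩, c) :: (Frm.B, l.v i) :: stk⟩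
            ⟨Lab.pro a', l.v j', (Frm.C ⟨n, hlt⟩, c) :: (Frm.B, l.v i) :: stk⟩ :=
          fnd S l (by omega) hc' hnew (fun b hb => hN b (by omega)) (by simp)
        have s123 := ((step S s1).trans (step S s2)).trans s3
        by_cases ha : a' = ⟨n, hlt⟩
        · -- new
          have hvj : l.v j' = l.v j := by
            refine S.inj ⟨n, hlt⟩ _ _ c ?_ hf
            rw [← ha]
            exact hc'
          have hjj : j' = j := l.inj j' (by omega) j (by omega) hvj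
          have hnew' : S.New l.v j n c := by
            rw [← hjj]
            have : a'.val = n := by rw [ha]
            rw [← this]
            exact hnew
          obtain ⟨_, h2, h3⟩ := l.pos_new j (by omega) ⟨n, hlt⟩ c hf hnew'
          have h2' : l.pos j n < l.R := h2
          have h3' : l.v (l.pos j n) = c := h3
          rw [hpos] at h2' h3'
          refine ⟨fun _ => ?_, fun h => absurd h (by omega)⟩
          have s4 : S.Stp ⟨Lab.pro a', l.v j', (Frm.C ⟨n, hlt⟩, c) :: (Frm.B, l.v i) :: stk⟩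
              ⟨Lab.new, c, (Frm.B, l.v i) :: stk⟩ := by
            show Ex S (prog S.m (Lab.pro a') (some (Frm.C ⟨n, hlt⟩))) _ _ _
            rw [prog, if_pos ha]
            exact Ex.pop _ _ _ _ _
          have s5 : S.Stp ⟨Lab.new, c, (Frm.B, l.v i) :: stk⟩ ⟨Lab.ret, c, stk⟩ :=
            Ex.drop _ _ _ _ _
          rw [h3']
          exact (s123.trans (step S s4)).trans (step S s5)
        · -- old
          have hold : ¬ S.New l.v j n c := by
            intro hn2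
            refine hn2 j' a' ?_ hc'
            rcases hle with h | ⟨h, h'⟩
            · exact Or.inl h
            · refine Or.inr ⟨h, ?_⟩
              have h4 : a'.val ≠ n := fun h5 => ha (Fin.ext h5)
              have h5 : a'.val ≤ n := h'
              omega
          refine key ?_ ?_
          · rw [← hpos]
            refine l.pos_old j (by omega) ⟨n, hlt⟩ fun c' hc2 => ?_
            rw [hf] at hc2
            rw [← Option.some.inj hc2]
            exact hold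
          · have s4 : S.Stp ⟨Lab.pro a', l.v j', (Frm.C ⟨n, hlt⟩, c) :: (Frm.B, l.v i) :: stk⟩
                ⟨Lab.old ⟨n, hlt⟩, c, (Frm.B, l.v i) :: stk⟩ := by
              show Ex S (prog S.m (Lab.pro a') (some (Frm.C ⟨n, hlt⟩))) _ _ _
              rw [prog, if_neg ha]
              exact Ex.pop _ _ _ _ _
            have s5 : S.Stp ⟨Lab.old ⟨n, hlt⟩, c, (Frm.B, l.v i) :: stk⟩
                ⟨Lab.scan ⟨n + 1, Nat.lt_succ_of_le hlt⟩, l.v j, (Frm.B, l.v i) :: stk⟩ :=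
              Ex.inv _ _ _ _ _ hf
            exact (s123.trans (step S s4)).trans (step S s5)
    · -- the end of a row
      rcases hj.lt_or_eq with hji | rfl
      · have hne : l.v j ≠ l.v i := fun h => by
          have := l.inj j (by omega) i hi h
          omega
        have s1 : S.Stp ⟨Lab.scan ⟨S.m, Nat.lt_succ_of_le hn⟩, l.v j, (Frm.B, l.v i) :: stk⟩
            ⟨Lab.next, l.v j, (Frm.B, l.v i) :: stk⟩ := by
          show Ex S (prog S.m (Lab.scan ⟨S.m, _⟩) _) _ _ _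
          rw [prog, dif_neg (lt_irrefl S.m)]
          exact Ex.testN _ _ _ _ _ _ hne
        have s2 := (hN j hji ((Frm.B, l.v i) :: stk)).1 (by omega)
        have s3 : S.Stp ⟨Lab.ret, l.v (j + 1), (Frm.B, l.v i) :: stk⟩
            ⟨Lab.scan ⟨0, Nat.lt_succ_of_le (Nat.zero_le _)⟩, l.v (j + 1),
              (Frm.B, l.v i) :: stk⟩ := Ex.go _ _ _
        have hr := ((step S s1).trans s2).trans (step S s3)
        have hp : l.pos (j + 1) 0 = i + 1 := by
          rw [l.pos_stage j (by omega)]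
          exact hpos
        have hmul : (i - j) * (S.m + 1) = (i - (j + 1)) * (S.m + 1) + (S.m + 1) := by
          have : i - j = (i - (j + 1)) + 1 := by omega
          rw [this, Nat.add_mul, Nat.one_mul]
        have h1 := ih (j + 1) 0 (Nat.zero_le _) (by omega) hp (by omega) stk
        refine ⟨fun h => hr.trans (h1.1 h), fun h => ?_⟩
        obtain ⟨x, hx⟩ := h1.2 h
        exact ⟨x, hr.trans hx⟩
      · exact ih j S.m hn le_rfl hpos (by
          rw [Nat.sub_self, Nat.zero_mul, Nat.sub_self]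
          exact Nat.zero_le d) stk

/-- The procedure `next` is correct. -/
theorem nxt (l : S.Listing) (i : ℕ) : i < l.R → NextOK S l i := by
  induction i using Nat.strong_induction_on with
  | _ i ih =>
    intro hi stk
    have hN : ∀ b < i, NextOK S l b := fun b hb => ih b hb (by omega)
    rcases Nat.eq_zero_or_pos i with rfl | h0
    · have s1 : S.Stp ⟨Lab.next, l.v 0, stk⟩ ⟨Lab.pB, l.v 0, stk⟩ := by
        rw [l.v_zero]
        exact Ex.start _ _ _
      have s2 : S.Stp ⟨Lab.pB, l.v 0, stk⟩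
          ⟨Lab.scan ⟨0, Nat.lt_succ_of_le (Nat.zero_le _)⟩, l.v 0, (Frm.B, l.v 0) :: stk⟩ := by
        have h : Ex S (Ins.push Frm.B (Lab.scan 0 : Lab S.m)) (l.v 0) stk
          ⟨(Lab.scan 0 : Lab S.m), S.x0, (Frm.B, l.v 0) :: stk⟩ := Ex.push _ _ _ _
        rw [← l.v_zero] at h
        exact h
      have hr := (step S s1).trans (step S s2)
      have h1 := scn S l 0 hi hN _ 0 0 (Nat.zero_le _) le_rfl l.pos_zero le_rfl stk
      refine ⟨fun h => hr.trans (h1.1 h), fun h => ?_⟩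
      obtain ⟨x, hx⟩ := h1.2 h
      exact ⟨x, hr.trans hx⟩
    · obtain ⟨j, a, hji, hc, hnew, hpos⟩ := l.par i h0 hi
      have hne : l.v i ≠ S.x0 := by
        intro h
        rw [← l.v_zero] at h
        have := l.inj i hi 0 l.R_pos h
        omega
      have s1 : S.Stp ⟨Lab.next, l.v i, stk⟩ ⟨Lab.pA, l.v i, stk⟩ := Ex.startN _ _ _ _ hne
      have s2 : S.Stp ⟨Lab.pA, l.v i, stk⟩ ⟨Lab.fnd 0, S.x0, (Frm.A, l.v i) :: stk⟩ :=
        Ex.push _ _ _ _
      have s3 : S.Run ⟨Lab.fnd 0, S.x0, (Frm.A, l.v i) :: stk⟩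
          ⟨Lab.pro a, l.v j, (Frm.A, l.v i) :: stk⟩ :=
        fnd S l (by omega) hc hnew (fun b hb => hN b (by omega)) (by simp)
      have s4 : S.Stp ⟨Lab.pro a, l.v j, (Frm.A, l.v i) :: stk⟩
          ⟨Lab.scan ⟨a.val + 1, Nat.lt_succ_of_le a.2⟩, l.v j, (Frm.B, l.v i) :: stk⟩ :=
        Ex.rel _ _ _ _ _ _
      have hr := (((step S s1).trans (step S s2)).trans s3).trans (step S s4)
      have hp : l.pos j (a.val + 1) = i + 1 := by
        rw [(l.pos_new j (by omega) a _ hc hnew).1, hpos]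
      have h1 := scn S l i hi hN _ j (a.val + 1) a.2 hji.le hp le_rfl stk
      refine ⟨fun h => hr.trans (h1.1 h), fun h => ?_⟩
      obtain ⟨x, hx⟩ := h1.2 h
      exact ⟨x, hr.trans hx⟩

theorem main_run (l : S.Listing) (i : ℕ) (hi : i < l.R) (hg : ∀ b < i, ¬ S.good (l.v b)) :
    S.Run S.init ⟨Lab.main, l.v i, []⟩ := by
  induction i with
  | zero =>
    rw [l.v_zero]
    exact ReflTransGen.refl
  | succ i ih =>
    refine (ih (by omega) fun b hb => hg b (by omega)).trans ?_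
    have s1 : S.Stp ⟨Lab.main, l.v i, []⟩ ⟨Lab.next, l.v i, []⟩ :=
      Ex.goodN _ _ _ _ (hg i (Nat.lt_succ_self i))
    have s2 := (nxt S l i (by omega) []).1 hi
    have s3 : S.Stp ⟨Lab.ret, l.v (i + 1), []⟩ ⟨Lab.main, l.v (i + 1), []⟩ := Ex.go _ _ _
    exact ((step S s1).trans s2).trans (step S s3)

end AMRun

open AMRun in
/-- The program decides if a good node is reachable. -/
theorem t_AMAIN : S_AMAIN := by
  intro X S hfin
  obtain ⟨l⟩ := t_LIST S hfin
  constructor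
  · rintro ⟨x, hx, hg⟩
    obtain ⟨i, hi, rfl⟩ := (l.rch x).1 hx
    classical
    have hex : ∃ i, i < l.R ∧ S.good (l.v i) := ⟨i, hi, hg⟩
    obtain ⟨h1, h2⟩ := Nat.find_spec hex
    have h3 := main_run S l (Nat.find hex) h1 fun b hb hgb =>
      Nat.find_min hex hb ⟨by omega, hgb⟩
    have s1 : S.Stp ⟨Lab.main, l.v (Nat.find hex), []⟩ ⟨Lab.acc, l.v (Nat.find hex), []⟩ :=
      Ex.good _ _ _ _ h2
    exact ⟨_, _, h3.trans (step S s1)⟩
  · intro hno
    have hg : ∀ b < l.R, ¬ S.good (l.v b) := fun b hb hgb =>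
      hno ⟨l.v b, (l.rch _).2 ⟨b, hb, rfl⟩, hgb⟩
    have hR := l.R_pos
    have h1 := main_run S l (l.R - 1) (by omega) fun b hb => hg b (by omega)
    have s1 : S.Stp ⟨Lab.main, l.v (l.R - 1), []⟩ ⟨Lab.next, l.v (l.R - 1), []⟩ :=
      Ex.goodN _ _ _ _ (hg _ (by omega))
    obtain ⟨x, h2⟩ := (nxt S l (l.R - 1) (by omega) []).2 (by omega)
    have s3 : S.Stp ⟨Lab.retE, x, []⟩ ⟨Lab.rej, x, []⟩ := Ex.go _ _ _
    exact ⟨_, _, ((h1.trans (step S s1)).trans h2).trans (step S s3)⟩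

end Pool.Agent.NDH
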