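import Pool.Agent.NDH.StA
import Pool.Agent.NPH.BPD

/-!
# Project NDH, module BPDD: a deterministic pushdown automaton on binary codewords

The automaton first reads the codewords of all heads (`m` steps to the right, `m` steps back, only for
heads on letters), then it knows the scanned symbols and executes the transition in `3 m` small steps
as in `NPH/BPD.lean`.
-/

set_option autoImplicit false

namespace Pool.Agent.NDH

open Pool.Agent.Heads Pool.Agent.NPH Pool.Agent.NPB Relation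

namespace BPDD

variable {α : Type}

/-- is the symbol a letter? -/
def isLet {β : Type} : Sym β → Bool
  | Sym.letter _ => true
  | _ => false

open Classical in
/-- the decoded symbol, if the first symbol is `s` -/
noncomputable def dec0 {m : ℕ} (enc : α → List (Fin 2)) (f : Fin m → Sym (Fin 2)) :
    Sym (Fin 2) → Sym α
  | Sym.left => Sym.left
  | Sym.right => Sym.right
  | Sym.letter _ => if h : ∃ c, ∀ j : Fin m, f j = Sym.letter ((enc c).getD j.val 0) then
      Sym.letter h.choose else Sym.left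

/-- the decoded symbol -/
noncomputable def dec {m : ℕ} (hm : 1 ≤ m) (enc : α → List (Fin 2)) (f : Fin m → Sym (Fin 2)) :
    Sym α := dec0 enc f (f ⟨0, hm⟩)

/-- the states -/
abbrev QQ (Q α : Type) (k m : ℕ) : Type :=
  (Q × (Fin k → Fin m → Sym (Fin 2)) × Fin (2 * m + 1)) ⊕
    (Q × (Fin k → Sym α) × (Fin k → Dir) × Fin (3 * m))

/-- the state after the small step `j` of the execution -/
def nx {Q : Type} {k : ℕ} (m : ℕ) (q : Q) (σ : Fin k → Sym α) (d : Fin k → Dir) (j : ℕ) :
    QQ Q α k m :=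
  if h : j + 1 < 3 * m then Sum.inr (q, σ, d, ⟨j + 1, h⟩)
  else Sum.inl (q, fun _ _ => Sym.left, ⟨0, Nat.succ_pos _⟩)

/-- the kind of a head in the reading phase -/
def kd {k m : ℕ} (hm : 1 ≤ m) (j : ℕ) (f : Fin k → Fin m → Sym (Fin 2)) (x : Fin k → Sym (Fin 2))
    (i : Fin k) : Bool :=
  if j = 0 then isLet (x i) else isLet (f i ⟨0, hm⟩)

/-- the transitions of the reading phase -/
noncomputable def dlR {k m : ℕ} (hm : 1 ≤ m) (enc : α → List (Fin 2)) (M : PDA α k) (q : M.Q)
    (f : Fin k → Fin m → Sym (Fin 2)) (j : Fin (2 * m + 1)) (x : Fin k → Sym (Fin 2))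
    (g : Option M.Γ) : Set (QQ M.Q α k m × (Fin k → Dir) × Op M.Γ) :=
  if h : j.val < m then
    {t | t = (Sum.inl (q, fun i j' => if j'.val = j.val then x i else f i j',
      ⟨j.val + 1, by omega⟩), fun i => if kd hm j.val f x i then Dir.R else Dir.S, Op.none)}
  else if h' : j.val < 2 * m then
    {t | t = (Sum.inl (q, f, ⟨j.val + 1, by omega⟩),
      fun i => if kd hm j.val f x i then Dir.L else Dir.S, Op.none)}
  else {t | ∃ r ∈ M.δ q (fun i => dec hm enc (f i)) g,
    t = (nx m r.1 (fun i => dec hm enc (f i)) r.2.1 0,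
      fun i => BPD.act m (dec hm enc (f i)) (r.2.1 i) 0, r.2.2)}

/-- the transitions -/
noncomputable def dl {k m : ℕ} (hm : 1 ≤ m) (enc : α → List (Fin 2)) (M : PDA α k) :
    QQ M.Q α k m → (Fin k → Sym (Fin 2)) → Option M.Γ →
      Set (QQ M.Q α k m × (Fin k → Dir) × Op M.Γ)
  | Sum.inl (q, f, j), x, g => dlR hm enc M q f j x g
  | Sum.inr (q, σ, d, j), _, _ => {t | t = (nx m q σ d j, fun i => BPD.act m (σ i) (d i) j, Op.none)}

/-- the simulating automaton -/
noncomputable def sim [Finite α] {k m : ℕ} (hm : 1 ≤ m) (enc : α → List (Fin 2)) (M : PDA α k) :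
    PDA (Fin 2) k where
  Q := QQ M.Q α k m
  Γ := M.Γ
  finQ := by
    have := M.finQ
    have h1 := BPD.finSym (α := α)
    have h2 := BPD.finSym (α := Fin 2)
    have h3 := BPD.finDir
    infer_instance
  finΓ := M.finΓ
  start := Sum.inl (M.start, fun _ _ => Sym.left, ⟨0, Nat.succ_pos _⟩)
  accept := {s | ∃ q ∈ M.accept, ∃ f j, s = Sum.inl (q, f, j)}
  δ := dl hm enc M

theorem det [Finite α] {k m : ℕ} (hm : 1 ≤ m) (enc : α → List (Fin 2)) (M : PDA α k)
    (hM : M.Det) : (sim hm enc M).Det := by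
  intro s x g
  rcases s with ⟨q, f, j⟩ | ⟨q, σ, d, j⟩
  · show (dlR hm enc M q f j x g).Subsingleton
    unfold dlR
    split_ifs with h1 h2
    · rintro t rfl t' rfl
      rfl
    · rintro t rfl t' rfl
      rfl
    · rintro t ⟨r, hr, rfl⟩ t' ⟨r', hr', rfl⟩
      rw [hM _ _ _ hr hr']
  · rintro t ht t' ht'
    have h1 : t = _ := ht
    have h2 : t' = _ := ht'
    rw [h1, h2]

section Main

variable {k m : ℕ} {enc : α → List (Fin 2)} (hm : 1 ≤ m)
  (hlen : ∀ c, (enc c).length = m) (w : List α)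

/-- the cell which is read in the step `j` by a head on the cell `p` -/
def cel (m : ℕ) (w : List α) (p j : ℕ) : ℕ :=
  if isLet (tape w p) then BPD.ph m p + j else BPD.ph m p

theorem tape_len_succ {β : Type} (v : List β) (p : ℕ) (h : v.length + 1 ≤ p) :
    tape v p = Sym.right := by
  rcases BPD.tape_cases v p with ⟨h1, -⟩ | ⟨q, c, h1, h2, -⟩ | ⟨-, h1⟩
  · omega
  · rw [List.getElem?_eq_none (by omega)] at h2
    exact (Option.some_ne_none _ h2.symm).elim
  · exact h1

include hlen in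
theorem tape_cel (p j : ℕ) (hp : p ≤ w.length + 1) (hj : j < m) :
    tape (w.flatMap enc) (cel m w p j) = match tape w p with
      | Sym.left => Sym.left
      | Sym.right => Sym.right
      | Sym.letter c => Sym.letter ((enc c).getD j 0) := by
  unfold cel
  rcases BPD.tape_cases w p with ⟨h1, h2⟩ | ⟨q, c, h1, h2, h3⟩ | ⟨h1, h2⟩
  · rw [h2, h1]
    rfl
  · rw [h3, h1]
    exact BPD.tape_flat hlen w q j c h2 hj
  · have h3 : p = w.length + 1 := by omega
    rw [h2, h3]
    show tape (w.flatMap enc) (1 + w.length * m) = Sym.right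
    apply tape_len_succ
    rw [BPD.flat_len hlen]
    omega

include hlen in
theorem isLet_cel (p j : ℕ) (hp : p ≤ w.length + 1) (hj : j < m) :
    isLet (tape (w.flatMap enc) (cel m w p j)) = isLet (tape w p) := by
  rw [tape_cel hlen w p j hp hj]
  cases tape w p <;> rfl

include hlen in
theorem dec_cel (hinj : Function.Injective enc) (p : ℕ) (hp : p ≤ w.length + 1) :
    dec hm enc (fun j : Fin m => tape (w.flatMap enc) (cel m w p j.val)) = tape w p := by
  show dec0 enc (fun j : Fin m => tape (w.flatMap enc) (cel m w p j.val))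
    (tape (w.flatMap enc) (cel m w p 0)) = _
  rw [tape_cel hlen w p 0 hp hm]
  have h1 : ∀ j : Fin m, tape (w.flatMap enc) (cel m w p j.val) = _ :=
    fun j => tape_cel hlen w p j.val hp j.isLt
  cases hs : tape w p with
  | left => rfl
  | right => rfl
  | letter c =>
    rw [hs] at h1
    have h2 : ∃ c', ∀ j : Fin m,
        tape (w.flatMap enc) (cel m w p j.val) = Sym.letter ((enc c').getD j.val 0) := ⟨c, h1⟩
    have h5 : dec0 enc (fun j : Fin m => tape (w.flatMap enc) (cel m w p j.val))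
        (Sym.letter ((enc c).getD 0 0)) = Sym.letter h2.choose := dif_pos h2
    refine h5.trans ?_
    congr 1
    apply hinj
    apply List.ext_getElem (by rw [hlen, hlen])
    intro j hj hj'
    have hj2 : j < m := by
      rw [hlen] at hj
      exact hj
    have h3 := h2.choose_spec ⟨j, hj2⟩
    rw [h1 ⟨j, hj2⟩] at h3
    have h4 : (enc c).getD j 0 = (enc h2.choose).getD j 0 := by
      injection h3
    rw [List.getD_eq_getElem _ _ hj, List.getD_eq_getElem _ _ hj'] at h4
    exact h4.symm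

/-- the position of a head in the step `j` of the reading phase -/
def pp (m : ℕ) (w : List α) (p j : ℕ) : ℕ :=
  if isLet (tape w p) then BPD.ph m p + min j (2 * m - j) else BPD.ph m p

theorem pp_lt (p j : ℕ) (hj : j ≤ m) : pp m w p j = cel m w p j := by
  unfold pp cel
  rw [Nat.min_eq_left (by omega)]

include hlen in
theorem letter_room (p : ℕ) (h : isLet (tape w p) = true) :
    BPD.ph m p + m ≤ (w.flatMap enc).length + 1 ∧ 1 ≤ BPD.ph m p := by
  rcases BPD.tape_cases w p with ⟨h1, h2⟩ | ⟨q, c, h1, h2, h3⟩ | ⟨h1, h2⟩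
  · rw [h2] at h
    exact (Bool.false_ne_true h).elim
  · subst h1
    have hq : q < w.length := by
      by_contra hc
      rw [List.getElem?_eq_none (not_lt.1 hc)] at h2
      exact Option.some_ne_none _ h2.symm
    have h4 : (q + 1) * m ≤ w.length * m := Nat.mul_le_mul_right m hq
    rw [BPD.flat_len hlen]
    show 1 + q * m + m ≤ w.length * m + 1 ∧ 1 ≤ 1 + q * m
    rw [add_mul] at h4
    omega
  · rw [h2] at h
    exact (Bool.false_ne_true h).elim

include hlen in
theorem pp_R (p j : ℕ) (hj : j < m) :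
    move ((w.flatMap enc).length + 1) (pp m w p j) (if isLet (tape w p) then Dir.R else Dir.S) =
      pp m w p (j + 1) := by
  unfold pp
  by_cases h : isLet (tape w p) = true
  · have := letter_room hlen w p h
    rw [if_pos h, if_pos h, if_pos h]
    show min (_ + 1) _ = _
    omega
  · rw [if_neg h, if_neg h, if_neg h]
    rfl

theorem pp_L (N p j : ℕ) (hj : m ≤ j) (hj' : j < 2 * m) :
    move N (pp m w p j) (if isLet (tape w p) then Dir.L else Dir.S) = pp m w p (j + 1) := by
  unfold pp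
  by_cases h : isLet (tape w p) = true
  · rw [if_pos h, if_pos h, if_pos h]
    show _ - 1 = _
    omega
  · rw [if_neg h, if_neg h, if_neg h]
    rfl

end Main

section Sim

variable [Finite α] {k m : ℕ} {enc : α → List (Fin 2)} (hm : 1 ≤ m)
  (hlen : ∀ c, (enc c).length = m) (M : PDA α k) (w : List α)

/-- the record of the reading phase -/
def ff (m : ℕ) (enc : α → List (Fin 2)) (w : List α) (pos : Fin k → ℕ) (j : ℕ) :
    Fin k → Fin m → Sym (Fin 2) := fun i j' =>
  if j'.val < j then tape (w.flatMap enc) (cel m w (pos i) j'.val) else Sym.left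

/-- the configurations of the reading phase -/
def PH (e : Cfg M.Q (Fin k → ℕ) M.Γ) (j : ℕ) (hj : j < 2 * m + 1) :
    Cfg (sim hm enc M).Q (Fin k → ℕ) (sim hm enc M).Γ :=
  ⟨Sum.inl (e.state, ff m enc w e.pos j, ⟨j, hj⟩), fun i => pp m w (e.pos i) j, e.stack⟩

/-- the configurations of the execution phase -/
def EX (e : Cfg M.Q (Fin k → ℕ) M.Γ) (r : M.Q × (Fin k → Dir) × Op M.Γ) (j : ℕ) :
    Cfg (sim hm enc M).Q (Fin k → ℕ) (sim hm enc M).Γ :=
  ⟨nx m r.1 (fun i => tape w (e.pos i)) r.2.1 j, fun i =>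
    BPD.pa ((w.flatMap enc).length + 1) (BPD.act m (tape w (e.pos i)) (r.2.1 i))
      (BPD.ph m (e.pos i)) (j + 1), r.2.2.apply e.stack⟩

include hlen in
omit [Finite α] in
theorem kd_eq (e : Cfg M.Q (Fin k → ℕ) M.Γ) (he : ∀ i, e.pos i ≤ w.length + 1) (j : ℕ)
    (x : Fin k → Sym (Fin 2)) (hx : j = 0 → ∀ i, x i = tape (w.flatMap enc) (pp m w (e.pos i) 0))
    (i : Fin k) : kd hm j (ff m enc w e.pos j) x i = isLet (tape w (e.pos i)) := by
  unfold kd
  by_cases hj : j = 0
  · rw [if_pos hj, hx hj i, pp_lt w _ 0 (Nat.zero_le _), isLet_cel hlen w _ 0 (he i) hm]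
  · rw [if_neg hj]
    show isLet (if (⟨0, hm⟩ : Fin m).val < j then _ else _) = _
    rw [if_pos (by show 0 < j; omega)]
    exact isLet_cel hlen w _ 0 (he i) hm

include hlen in
theorem step_R (e : Cfg M.Q (Fin k → ℕ) M.Γ) (he : ∀ i, e.pos i ≤ w.length + 1) (j : ℕ)
    (hj : j < m) (hj' : j < 2 * m + 1) (hj'' : j + 1 < 2 * m + 1)
    (c' : Cfg (sim hm enc M).Q (Fin k → ℕ) (sim hm enc M).Γ) :
    (sim hm enc M).Step (w.flatMap enc) (PH hm M w e j hj') c' ↔ c' = PH hm M w e (j + 1) hj'' := by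
  have h0 : dlR hm enc M e.state (ff m enc w e.pos j) ⟨j, hj'⟩
      (fun i => tape (w.flatMap enc) (pp m w (e.pos i) j)) e.stack.head? =
      {(Sum.inl (e.state, ff m enc w e.pos (j + 1), ⟨j + 1, hj''⟩),
        fun i => if isLet (tape w (e.pos i)) then Dir.R else Dir.S, Op.none)} := by
    unfold dlR
    rw [dif_pos hj]
    show {t | t = _} = {t | t = _}
    congr 1
    funext t
    congr 1
    refine Prod.ext ?_ (Prod.ext (funext fun i => ?_) rfl)
    · show Sum.inl _ = Sum.inl _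
      congr 1
      refine Prod.ext rfl (Prod.ext (funext fun i => funext fun j' => ?_) rfl)
      show (if j'.val = j then tape (w.flatMap enc) (pp m w (e.pos i) j) else
        if j'.val < j then _ else _) = if j'.val < j + 1 then _ else _
      by_cases h1 : j'.val = j
      · rw [if_pos h1, if_pos (by omega), pp_lt w _ j (by omega), h1]
      · rw [if_neg h1]
        by_cases h2 : j'.val < j
        · rw [if_pos h2, if_pos (by omega)]
        · rw [if_neg h2, if_neg (by omega)]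
    · show (if kd hm j _ _ i = true then _ else _) = _
      rw [kd_eq hm hlen M w e he j _ (fun h i => by rw [← h]) i]
  show (∃ t ∈ dlR hm enc M e.state (ff m enc w e.pos j) ⟨j, hj'⟩
      (fun i => tape (w.flatMap enc) (pp m w (e.pos i) j)) e.stack.head?,
      c' = ⟨t.1, fun i => move ((w.flatMap enc).length + 1) (pp m w (e.pos i) j) (t.2.1 i),
        t.2.2.apply e.stack⟩) ↔ _
  rw [h0]
  have h1 : (⟨Sum.inl (e.state, ff m enc w e.pos (j + 1), ⟨j + 1, hj''⟩),
      fun i => move ((w.flatMap enc).length + 1) (pp m w (e.pos i) j)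
        (if isLet (tape w (e.pos i)) then Dir.R else Dir.S), e.stack⟩ :
      Cfg (sim hm enc M).Q (Fin k → ℕ) (sim hm enc M).Γ) = PH hm M w e (j + 1) hj'' := by
    show Cfg.mk _ _ _ = Cfg.mk _ _ _
    congr 1
    funext i
    exact pp_R hlen w (e.pos i) j hj
  constructor
  · rintro ⟨t, rfl, rfl⟩
    exact h1
  · rintro rfl
    exact ⟨_, rfl, h1.symm⟩

include hlen in
theorem step_L (e : Cfg M.Q (Fin k → ℕ) M.Γ) (he : ∀ i, e.pos i ≤ w.length + 1) (j : ℕ)
    (hj : m ≤ j) (hj' : j < 2 * m + 1) (hj'' : j + 1 < 2 * m + 1)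
    (c' : Cfg (sim hm enc M).Q (Fin k → ℕ) (sim hm enc M).Γ) :
    (sim hm enc M).Step (w.flatMap enc) (PH hm M w e j hj') c' ↔ c' = PH hm M w e (j + 1) hj'' := by
  have h0 : dlR hm enc M e.state (ff m enc w e.pos j) ⟨j, hj'⟩
      (fun i => tape (w.flatMap enc) (pp m w (e.pos i) j)) e.stack.head? =
      {(Sum.inl (e.state, ff m enc w e.pos (j + 1), ⟨j + 1, hj''⟩),
        fun i => if isLet (tape w (e.pos i)) then Dir.L else Dir.S, Op.none)} := by
    unfold dlR
    rw [dif_neg (show ¬ j < m by omega), dif_pos (show j < 2 * m by omega)]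
    show {t | t = _} = {t | t = _}
    congr 1
    funext t
    congr 1
    refine Prod.ext ?_ (Prod.ext (funext fun i => ?_) rfl)
    · show Sum.inl _ = Sum.inl _
      congr 1
      refine Prod.ext rfl (Prod.ext (funext fun i => funext fun j' => ?_) rfl)
      show (if j'.val < j then _ else _) = if j'.val < j + 1 then _ else _
      rw [if_pos (by omega), if_pos (by omega)]
    · show (if kd hm j _ _ i = true then _ else _) = _
      rw [kd_eq hm hlen M w e he j _ (fun h i => by omega) i]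
  show (∃ t ∈ dlR hm enc M e.state (ff m enc w e.pos j) ⟨j, hj'⟩
      (fun i => tape (w.flatMap enc) (pp m w (e.pos i) j)) e.stack.head?,
      c' = ⟨t.1, fun i => move ((w.flatMap enc).length + 1) (pp m w (e.pos i) j) (t.2.1 i),
        t.2.2.apply e.stack⟩) ↔ _
  rw [h0]
  have h1 : (⟨Sum.inl (e.state, ff m enc w e.pos (j + 1), ⟨j + 1, hj''⟩),
      fun i => move ((w.flatMap enc).length + 1) (pp m w (e.pos i) j)
        (if isLet (tape w (e.pos i)) then Dir.L else Dir.S), e.stack⟩ :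
      Cfg (sim hm enc M).Q (Fin k → ℕ) (sim hm enc M).Γ) = PH hm M w e (j + 1) hj'' := by
    show Cfg.mk _ _ _ = Cfg.mk _ _ _
    congr 1
    funext i
    exact pp_L w _ (e.pos i) j hj (by omega)
  constructor
  · rintro ⟨t, rfl, rfl⟩
    exact h1
  · rintro rfl
    exact ⟨_, rfl, h1.symm⟩

include hlen in
omit [Finite α] in
theorem dec_ff (hinj : Function.Injective enc) (e : Cfg M.Q (Fin k → ℕ) M.Γ)
    (he : ∀ i, e.pos i ≤ w.length + 1) :
    (fun i => dec hm enc (ff m enc w e.pos (2 * m) i)) = fun i => tape w (e.pos i) := by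
  funext i
  rw [← dec_cel hm hlen w hinj (e.pos i) (he i)]
  congr 1
  funext j'
  show (if j'.val < 2 * m then _ else _) = _
  rw [if_pos (by omega)]

include hlen in
theorem step_T (hinj : Function.Injective enc) (e : Cfg M.Q (Fin k → ℕ) M.Γ)
    (he : ∀ i, e.pos i ≤ w.length + 1) (hj' : 2 * m < 2 * m + 1)
    (c' : Cfg (sim hm enc M).Q (Fin k → ℕ) (sim hm enc M).Γ) :
    (sim hm enc M).Step (w.flatMap enc) (PH hm M w e (2 * m) hj') c' ↔
      ∃ r ∈ M.δ e.state (fun i => tape w (e.pos i)) e.stack.head?, c' = EX hm M w e r 0 := by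
  have hpp : ∀ i, pp m w (e.pos i) (2 * m) = BPD.ph m (e.pos i) := by
    intro i
    unfold pp
    split_ifs
    · omega
    · rfl
  have h0 : dlR hm enc M e.state (ff m enc w e.pos (2 * m)) ⟨2 * m, hj'⟩
      (fun i => tape (w.flatMap enc) (pp m w (e.pos i) (2 * m))) e.stack.head? =
      {t | ∃ r ∈ M.δ e.state (fun i => tape w (e.pos i)) e.stack.head?,
        t = (nx m r.1 (fun i => tape w (e.pos i)) r.2.1 0,
          fun i => BPD.act m (tape w (e.pos i)) (r.2.1 i) 0, r.2.2)} := by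
    unfold dlR
    rw [dif_neg (show ¬ 2 * m < m by omega), dif_neg (show ¬ 2 * m < 2 * m by omega)]
    have h1 := dec_ff hm hlen M w hinj e he
    have h2 : ∀ i, dec hm enc (ff m enc w e.pos (2 * m) i) = tape w (e.pos i) :=
      fun i => congrFun h1 i
    rw [h1]
    simp only [h2]
  show (∃ t ∈ dlR hm enc M e.state (ff m enc w e.pos (2 * m)) ⟨2 * m, hj'⟩
      (fun i => tape (w.flatMap enc) (pp m w (e.pos i) (2 * m))) e.stack.head?,
      c' = ⟨t.1, fun i => move ((w.flatMap enc).length + 1) (pp m w (e.pos i) (2 * m)) (t.2.1 i),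
        t.2.2.apply e.stack⟩) ↔ _
  rw [h0]
  have h3 : ∀ r : M.Q × (Fin k → Dir) × Op M.Γ,
      (⟨nx m r.1 (fun i => tape w (e.pos i)) r.2.1 0, fun i => move ((w.flatMap enc).length + 1)
        (pp m w (e.pos i) (2 * m)) (BPD.act m (tape w (e.pos i)) (r.2.1 i) 0),
          r.2.2.apply e.stack⟩ : Cfg (sim hm enc M).Q (Fin k → ℕ) (sim hm enc M).Γ) =
      EX hm M w e r 0 := by
    intro r
    simp only [hpp]
    rfl
  constructor
  · rintro ⟨t, ⟨r, hr, rfl⟩, rfl⟩
    exact ⟨r, hr, h3 r⟩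
  · rintro ⟨r, hr, rfl⟩
    exact ⟨_, ⟨r, hr, rfl⟩, (h3 r).symm⟩

theorem step_X (e : Cfg M.Q (Fin k → ℕ) M.Γ) (r : M.Q × (Fin k → Dir) × Op M.Γ) (j : ℕ)
    (hj : j + 1 < 3 * m) (c' : Cfg (sim hm enc M).Q (Fin k → ℕ) (sim hm enc M).Γ) :
    (sim hm enc M).Step (w.flatMap enc) (EX hm M w e r j) c' ↔ c' = EX hm M w e r (j + 1) := by
  have e1 : (nx m r.1 (fun i => tape w (e.pos i)) r.2.1 j : QQ M.Q α k m) =
      Sum.inr (r.1, (fun i => tape w (e.pos i)), r.2.1, ⟨j + 1, hj⟩) := by
    unfold nx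
    rw [dif_pos hj]
  have e2 : EX hm M w e r j = (⟨Sum.inr (r.1, (fun i => tape w (e.pos i)), r.2.1, ⟨j + 1, hj⟩),
      fun i => BPD.pa ((w.flatMap enc).length + 1) (BPD.act m (tape w (e.pos i)) (r.2.1 i))
        (BPD.ph m (e.pos i)) (j + 1), r.2.2.apply e.stack⟩ :
      Cfg (sim hm enc M).Q (Fin k → ℕ) (sim hm enc M).Γ) := by
    show Cfg.mk _ _ _ = Cfg.mk _ _ _
    rw [e1]
  rw [e2]
  constructor
  · rintro ⟨t, ht, rfl⟩
    have ht' : t = _ := ht
    rw [ht']
    rfl
  · rintro rfl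
    exact ⟨_, rfl, rfl⟩

include hlen in
theorem ex_last (e : Cfg M.Q (Fin k → ℕ) M.Γ) (he : ∀ i, e.pos i ≤ w.length + 1)
    (r : M.Q × (Fin k → Dir) × Op M.Γ) :
    EX hm M w e r (3 * m - 1) = PH (enc := enc) hm M w
      ⟨r.1, fun i => move (w.length + 1) (e.pos i) (r.2.1 i), r.2.2.apply e.stack⟩ 0
        (Nat.succ_pos _) := by
  have e1 : (nx m r.1 (fun i => tape w (e.pos i)) r.2.1 (3 * m - 1) : QQ M.Q α k m) =
      Sum.inl (r.1, fun _ _ => Sym.left, ⟨0, Nat.succ_pos _⟩) := by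
    unfold nx
    rw [dif_neg (by omega)]
  have e2 : 3 * m - 1 + 1 = 3 * m := by omega
  show Cfg.mk _ _ _ = Cfg.mk _ _ _
  rw [e1]
  congr 1
  funext i
  rw [e2, (BPD.complete hm hlen w (e.pos i) (he i) (r.2.1 i)).2]
  show _ = pp m w (move (w.length + 1) (e.pos i) (r.2.1 i)) 0
  unfold pp
  split_ifs
  · rw [Nat.min_eq_left (Nat.zero_le _)]
    rfl
  · rfl

/-- configurations of the simulating automaton on the codeword that occur -/
def Inv (c : Cfg (sim hm enc M).Q (Fin k → ℕ) (sim hm enc M).Γ) : Prop :=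
  ∃ (t : ℕ) (e : Cfg M.Q (Fin k → ℕ) M.Γ), M.Reach w t e ∧ (∀ i, e.pos i ≤ w.length + 1) ∧
    ((∃ (j : ℕ) (hj : j < 2 * m + 1), c = PH hm M w e j hj) ∨
      ∃ r ∈ M.δ e.state (fun i => tape w (e.pos i)) e.stack.head?, ∃ j, j + 1 < 3 * m ∧
        c = EX hm M w e r j)

include hlen in
theorem inv_step (hinj : Function.Injective enc)
    {c c' : Cfg (sim hm enc M).Q (Fin k → ℕ) (sim hm enc M).Γ} (h : Inv hm M w c)
    (hs : (sim hm enc M).Step (w.flatMap enc) c c') : Inv hm M w c' := by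
  obtain ⟨t, e, h1, h2, ⟨j, hj, rfl⟩ | ⟨r, hr, j, hj, rfl⟩⟩ := h
  · rcases Nat.lt_or_ge j m with h3 | h3
    · rw [step_R hm hlen M w e h2 j h3 hj (by omega)] at hs
      exact ⟨t, e, h1, h2, Or.inl ⟨j + 1, by omega, hs⟩⟩
    · rcases Nat.lt_or_ge j (2 * m) with h4 | h4
      · rw [step_L hm hlen M w e h2 j h3 hj (by omega)] at hs
        exact ⟨t, e, h1, h2, Or.inl ⟨j + 1, by omega, hs⟩⟩
      · have h5 : j = 2 * m := by omega
        subst h5
        rw [step_T hm hlen M w hinj e h2 hj] at hs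
        obtain ⟨r, hr, rfl⟩ := hs
        exact ⟨t, e, h1, h2, Or.inr ⟨r, hr, 0, by omega, rfl⟩⟩
  · rw [step_X hm M w e r j hj] at hs
    rcases Nat.lt_or_ge (j + 1 + 1) (3 * m) with h3 | h3
    · exact ⟨t, e, h1, h2, Or.inr ⟨r, hr, j + 1, h3, hs⟩⟩
    · refine ⟨t + 1, _, PDA.Reach.succ h1 ⟨r, hr, rfl⟩, fun i => BPD.move_le _ _ _ (h2 i),
        Or.inl ⟨0, Nat.succ_pos _, ?_⟩⟩
      rw [hs, ← ex_last hm hlen M w e h2 r]
      congr 1
      omega

theorem init_eq : (sim hm enc M).init = PH hm M w M.init 0 (Nat.succ_pos _) := by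
  show Cfg.mk _ _ _ = Cfg.mk _ _ _
  rfl

include hlen in
theorem inv_reach (hinj : Function.Injective enc) (t : ℕ)
    (c : Cfg (sim hm enc M).Q (Fin k → ℕ) (sim hm enc M).Γ)
    (h : (sim hm enc M).Reach (w.flatMap enc) t c) : Inv hm M w c := by
  induction h with
  | zero => exact ⟨0, M.init, PDA.Reach.zero, fun i => Nat.zero_le _,
      Or.inl ⟨0, Nat.succ_pos _, init_eq hm M w⟩⟩
  | succ _ hs ih => exact inv_step hm hlen M w hinj ih hs

include hlen in
theorem reach_of (hinj : Function.Injective enc) (t : ℕ) (e : Cfg M.Q (Fin k → ℕ) M.Γ)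
    (h : M.Reach w t e) : (∀ i, e.pos i ≤ w.length + 1) ∧
      ∃ t', (sim hm enc M).Reach (w.flatMap enc) t' (PH hm M w e 0 (Nat.succ_pos _)) := by
  induction h with
  | zero =>
    refine ⟨fun i => Nat.zero_le _, 0, ?_⟩
    rw [← init_eq hm M w]
    exact PDA.Reach.zero
  | @succ t e e' _ hs ih =>
    obtain ⟨h2, t', ht'⟩ := ih
    obtain ⟨r, hr, rfl⟩ := hs
    refine ⟨fun i => BPD.move_le _ _ _ (h2 i), ?_⟩
    have k1 : ∀ j (hj : j < 2 * m + 1), ∃ t', (sim hm enc M).Reach (w.flatMap enc) t'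
        (PH hm M w e j hj) := by
      intro j
      induction j with
      | zero => exact fun _ => ⟨t', ht'⟩
      | succ j ih =>
        intro hj
        obtain ⟨t'', ht''⟩ := ih (by omega)
        refine ⟨t'' + 1, PDA.Reach.succ ht'' ?_⟩
        rcases Nat.lt_or_ge j m with h3 | h3
        · exact (step_R hm hlen M w e h2 j h3 (by omega) hj _).2 rfl
        · exact (step_L hm hlen M w e h2 j h3 (by omega) hj _).2 rfl
    have k2 : ∀ j, j < 3 * m → ∃ t', (sim hm enc M).Reach (w.flatMap enc) t'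
        (EX hm M w e r j) := by
      intro j
      induction j with
      | zero =>
        intro _
        obtain ⟨t'', ht''⟩ := k1 (2 * m) (Nat.lt_succ_self _)
        exact ⟨t'' + 1, PDA.Reach.succ ht''
          ((step_T hm hlen M w hinj e h2 (Nat.lt_succ_self _) _).2 ⟨r, hr, rfl⟩)⟩
      | succ j ih =>
        intro hj
        obtain ⟨t'', ht''⟩ := ih (by omega)
        exact ⟨t'' + 1, PDA.Reach.succ ht'' ((step_X hm M w e r j hj _).2 rfl)⟩
    obtain ⟨t'', ht''⟩ := k2 (3 * m - 1) (by omega)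
    rw [ex_last hm hlen M w e h2 r] at ht''
    exact ⟨t'', ht''⟩

end Sim

end BPDD

theorem t_BPDD : BPDD_Stmt := by
  intro α _ m enc hm hlen hinj k M hM
  refine ⟨BPDD.sim hm enc M, BPDD.det hm enc M hM, fun w => ?_⟩
  constructor
  · rintro ⟨t, c, h1, q, hq, f, j, h2⟩
    obtain ⟨t', e, h3, -, ⟨j', hj', rfl⟩ | ⟨r, -, j', hj', rfl⟩⟩ :=
      BPDD.inv_reach hm hlen M w hinj t c h1
    · have h4 : e.state = q := congrArg Prod.fst (Sum.inl_injective h2)
      exact ⟨t', e, h3, by rw [h4]; exact hq⟩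
    · exfalso
      have h4 : BPDD.nx m r.1 (fun i => tape w (e.pos i)) r.2.1 j' = Sum.inl (q, f, j) := h2
      unfold BPDD.nx at h4
      rw [dif_pos hj'] at h4
      exact Sum.inr_ne_inl h4
  · rintro ⟨t, e, h1, h2⟩
    obtain ⟨-, t', h3⟩ := BPDD.reach_of hm hlen M w hinj t e h1
    exact ⟨t', _, h3, e.state, h2, _, _, rfl⟩

end Pool.Agent.NDH
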