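import Pool.Agent.NDH.SMD
import Pool.Agent.NPH.SWP

/-!
# Project NDH, module RM2SM: machines with reading heads are sweep machines

One round is one circuit. At the start of the circuit the machine guesses the scanned symbols, the new
state and the moves; on each cell it checks the marks and writes the new marks (for a move to the
left it guesses the mark of the next cell).
-/

set_option autoImplicit false

namespace Pool.Agent.NDH

open Pool.Agent.Heads Pool.Agent.NPH Relation

namespace RMS

/-- is the symbol the left endmarker? -/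
def isL {Λ : Type} : Sym Λ → Bool
  | Sym.left => true
  | _ => false

/-- is the symbol the right endmarker? -/
def isR {Λ : Type} : Sym Λ → Bool
  | Sym.right => true
  | _ => false

theorem tape_isL {Λ : Type} (x : List Λ) (p : ℕ) : isL (tape x p) = decide (p = 0) := by
  cases p with
  | zero => rfl
  | succ p =>
    show isL (match x[p]? with | some a => Sym.letter a | none => Sym.right) = _
    cases x[p]? <;> simp [isL]

theorem tape_isR {Λ : Type} (x : List Λ) (l : ℕ) :
    isR (tape x (l + 1)) = decide (x.length ≤ l) := by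
  show isR (match x[l]? with | some a => Sym.letter a | none => Sym.right) = _
  rcases Nat.lt_or_ge l x.length with h | h
  · rw [List.getElem?_eq_getElem h]
    simp [isR, h]
  · rw [List.getElem?_eq_none h]
    simp [isR, h]

/-- the new mark of a head -/
def nm (d : Dir) (prev cur nx last : Bool) : Bool := match d with
  | Dir.S => cur
  | Dir.R => prev || (cur && last)
  | Dir.L => nx

theorem nm_move {n p l : ℕ} (d : Dir) (hl : l ≤ n) (hp : p ≤ n + 1) :
    nm d (decide (p = l)) (decide (p = l + 1)) (decide (p = l + 2)) (decide (n ≤ l)) =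
      decide (move (n + 1) p d = l + 1) := by
  cases d with
  | S => rfl
  | R =>
    show (decide (p = l) || (decide (p = l + 1) && decide (n ≤ l))) =
      decide (min (p + 1) (n + 1) = l + 1)
    rw [← Bool.decide_and, ← Bool.decide_or]
    apply decide_eq_decide.2
    omega
  | L =>
    show decide (p = l + 2) = decide (p - 1 = l + 1)
    apply decide_eq_decide.2
    omega

variable {Λ : Type} {r S : ℕ} (T : RM Λ r S)

/-- The states inside a circuit: state of the sweep, new state, symbols, moves, and for each head: was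
the last cell marked, is this cell marked, has the mark been seen. -/
structure Mid where
  p : T.Q
  q : T.Q
  s : Fin r → Sym Λ
  d : Fin r → Dir
  pv : Fin r → Bool
  pr : Fin r → Bool
  sn : Fin r → Bool

/-- The states. -/
inductive QQ where
  | st
  | att (q : T.Q)
  | mid (m : Mid T)

/-- The steps inside a circuit. -/
def MidTr (m : Mid T) (a : Fin S × (Fin r → Bool)) (c : Sym Λ) :
    Set (QQ T × (Fin S × (Fin r → Bool))) :=
  {t | ∃ (p' : T.Q) (b : Fin S) (nx : Fin r → Bool), (p', b) ∈ T.sw m.p a.1 ∧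
    (∀ i, a.2 i = m.pr i) ∧ (∀ i, a.2 i = true → c = m.s i) ∧
    t.2 = (b, fun i => nm (m.d i) (m.pv i) (a.2 i) (nx i) (isR c)) ∧
    ((isR c = false ∧
        t.1 = QQ.mid ⟨p', m.q, m.s, m.d, a.2, nx, fun i => m.sn i || a.2 i⟩) ∨
      (isR c = true ∧ (∀ i, nx i = false) ∧
        (∀ i, (m.sn i || a.2 i) = false → m.s i = Sym.left) ∧ (m.q, m.d) ∈ T.hd p' m.s ∧
        t.1 = QQ.att m.q))}

/-- The first step of a circuit. -/
def AtTr (q : T.Q) (a : Fin S × (Fin r → Bool)) (c : Sym Λ) :
    Set (QQ T × (Fin S × (Fin r → Bool))) :=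
  {t | ∃ (q' : T.Q) (s : Fin r → Sym Λ) (d : Fin r → Dir) (pr : Fin r → Bool),
    t ∈ MidTr T ⟨q, q', s, d, fun i => isL (s i), pr, fun _ => false⟩ a c}

theorem finQQ [Finite Λ] : Finite (QQ T) := by
  have h1 := T.finQ
  have h2 : Finite Dir := Finite.of_surjective
    (fun i : Fin 3 => if i = 0 then Dir.L else if i = 1 then Dir.S else Dir.R)
    (by rintro (_ | _ | _); exacts [⟨0, rfl⟩, ⟨1, rfl⟩, ⟨2, rfl⟩])
  have h3 : Finite (Sym Λ) := Finite.of_surjective
    (fun i : Option (Option Λ) => match i with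
      | none => Sym.left
      | some none => Sym.right
      | some (some a) => Sym.letter a)
    (by rintro (_ | a | _); exacts [⟨none, rfl⟩, ⟨some (some a), rfl⟩, ⟨some none, rfl⟩])
  have h4 : Finite (Mid T) := Finite.of_injective
    (fun m => ((m.p, m.q), (m.s, m.d), (m.pv, m.pr, m.sn)))
    (by
      rintro ⟨a, b, c, d, e, f, g⟩ ⟨a', b', c', d', e', f', g'⟩ h
      simp only [Prod.mk.injEq] at h
      obtain ⟨⟨rfl, rfl⟩, ⟨rfl, rfl⟩, rfl, rfl, rfl⟩ := h
      rfl)
  refine Finite.of_surjective (α := Option (T.Q ⊕ Mid T)) (fun o => match o with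
    | none => QQ.st
    | some (Sum.inl q) => QQ.att q
    | some (Sum.inr m) => QQ.mid m) ?_
  rintro (_ | q | m)
  · exact ⟨none, rfl⟩
  · exact ⟨some (Sum.inl q), rfl⟩
  · exact ⟨some (Sum.inr m), rfl⟩

/-- The accepting states. -/
def Acc : QQ T → Prop
  | QQ.st => T.start ∈ T.accept
  | QQ.att q => q ∈ T.accept
  | QQ.mid _ => False

/-- The transitions. -/
def Tr : QQ T → Fin S × (Fin r → Bool) → Sym Λ → Set (QQ T × (Fin S × (Fin r → Bool)))
  | QQ.st => AtTr T T.start
  | QQ.att q => AtTr T q
  | QQ.mid m => MidTr T m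

/-- The sweep machine. -/
def sm [Finite Λ] : SM Λ (Fin S × (Fin r → Bool)) where
  Q := QQ T
  finQ := finQQ T
  start := QQ.st
  acc := {t | Acc T t}
  tr := fun q _ a c => Tr T q a c

theorem mid_ne {m : Mid T} {a : Fin S × (Fin r → Bool)} {c : Sym Λ} {a' : Fin S × (Fin r → Bool)} :
    (QQ.st, a') ∉ MidTr T m a c := by
  rintro ⟨_, _, _, _, _, _, _, ⟨_, h⟩ | ⟨_, _, _, _, h⟩⟩
  · cases h
  · cases h

theorem fresh [Finite Λ] : (sm T).Fresh := by
  intro q _ a y a' h
  have h' : (QQ.st, a') ∈ Tr T q a y := h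
  cases q with
  | st =>
    obtain ⟨_, _, _, _, h2⟩ := h'
    exact mid_ne T h2
  | att q =>
    obtain ⟨_, _, _, _, h2⟩ := h'
    exact mid_ne T h2
  | mid m => exact mid_ne T h'

/-- The node `l` of the circuit of a configuration is described by a sequence of states. -/
def PC (x : List Λ) (q : T.Q) (pos : Fin r → ℕ) (u : Fin (x.length + 1) → Fin S) (l : ℕ)
    (W : Fin (x.length + 1) → Fin S × (Fin r → Bool)) (m : Mid T) : Prop :=
  ∃ φ : ℕ → T.Q, φ 0 = q ∧ φ l = m.p ∧
    (∀ j : Fin (x.length + 1), j.val < l → (φ (j.val + 1), (W j).1) ∈ T.sw (φ j.val) (u j)) ∧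
    (∀ j : Fin (x.length + 1), l ≤ j.val → W j = (u j, fun i => decide (pos i = j.val + 1))) ∧
    (∀ i, m.pv i = if l = 0 then isL (m.s i) else decide (pos i = l)) ∧
    (∀ i, m.sn i = decide (0 < pos i ∧ pos i ≤ l)) ∧
    (∀ i, 0 < pos i → pos i ≤ l → tape x (pos i) = m.s i) ∧
    ∀ (j : Fin (x.length + 1)) (i : Fin r), j.val < l → (W j).2 i =
      nm (m.d i) (if j.val = 0 then isL (m.s i) else decide (pos i = j.val))
        (decide (pos i = j.val + 1))
        (if j.val + 1 < l then decide (pos i = j.val + 2) else m.pr i)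
        (isR (tape x (j.val + 1)))

theorem pc_zero (x : List Λ) (q q' : T.Q) (pos : Fin r → ℕ) (u : Fin (x.length + 1) → Fin S)
    (s : Fin r → Sym Λ) (d : Fin r → Dir) (pr : Fin r → Bool) :
    PC T x q pos u 0 (fun j => (u j, fun i => decide (pos i = j.val + 1)))
      ⟨q, q', s, d, fun i => isL (s i), pr, fun _ => false⟩ := by
  refine ⟨fun _ => q, rfl, rfl, fun j hj => absurd hj (Nat.not_lt_zero _), fun j _ => rfl,
    fun i => ?_, fun i => ?_, fun i h1 h2 => ?_, fun j i hj => absurd hj (Nat.not_lt_zero _)⟩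
  · rw [if_pos rfl]
  · symm
    apply decide_eq_false
    omega
  · omega

theorem pc_succ {x : List Λ} {q : T.Q} {pos : Fin r → ℕ} {u : Fin (x.length + 1) → Fin S}
    {l : Fin (x.length + 1)} {W : Fin (x.length + 1) → Fin S × (Fin r → Bool)} {m : Mid T}
    (h : PC T x q pos u l.val W m) {p' : T.Q} {b : Fin S} {nx : Fin r → Bool}
    (h1 : (p', b) ∈ T.sw m.p (W l).1) (h2 : ∀ i, (W l).2 i = m.pr i)
    (h3 : ∀ i, (W l).2 i = true → tape x (l.val + 1) = m.s i) :
    PC T x q pos u (l.val + 1) (Function.update W l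
        (b, fun i => nm (m.d i) (m.pv i) ((W l).2 i) (nx i) (isR (tape x (l.val + 1)))))
      ⟨p', m.q, m.s, m.d, (W l).2, nx, fun i => m.sn i || (W l).2 i⟩ := by
  obtain ⟨φ, c1, c2, c3, c4, c5, c6, c7, c8⟩ := h
  have hWl := c4 l le_rfl
  refine ⟨Function.update φ (l.val + 1) p', ?_, ?_, ?_, ?_, ?_, ?_, ?_, ?_⟩
  · rw [Function.update_of_ne (by omega)]
    exact c1
  · rw [Function.update_self]
  · intro j hj
    rcases Nat.lt_or_ge j.val l.val with h4 | h4
    · have h5 : j ≠ l := fun h => by rw [h] at h4; omega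
      rw [Function.update_of_ne (a := j.val + 1) (by omega),
        Function.update_of_ne (a := j.val) (by omega), Function.update_of_ne h5]
      exact c3 j h4
    · have h5 : j = l := Fin.ext (by omega)
      subst h5
      rw [Function.update_self, Function.update_of_ne (a := j.val) (by omega), Function.update_self,
        c2]
      rw [hWl] at h1
      exact h1
  · intro j hj
    have h5 : j ≠ l := fun h => by rw [h] at hj; omega
    rw [Function.update_of_ne h5]
    exact c4 j (by omega)
  · intro i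
    show (W l).2 i = _
    rw [if_neg (Nat.succ_ne_zero _), hWl]
  · intro i
    show (m.sn i || (W l).2 i) = _
    rw [c6, hWl, ← Bool.decide_or]
    apply decide_eq_decide.2
    omega
  · intro i h4 h5
    rcases Nat.lt_or_ge l.val (pos i) with h6 | h6
    · have h7 : pos i = l.val + 1 := by omega
      rw [h7]
      apply h3 i
      rw [hWl]
      exact decide_eq_true h7
    · exact c7 i h4 h6
  · intro j i hj
    rcases Nat.lt_or_ge j.val l.val with h4 | h4
    · have h5 : j ≠ l := fun h => by rw [h] at h4; omega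
      rw [Function.update_of_ne h5, c8 j i h4]
      show nm (m.d i) _ _ _ _ = nm (m.d i) _ _ _ _
      congr 1
      rw [if_pos (show j.val + 1 < l.val + 1 by omega)]
      rcases Nat.lt_or_ge (j.val + 1) l.val with h6 | h6
      · rw [if_pos h6]
      · rw [if_neg (by omega), ← h2 i, hWl]
        apply decide_eq_decide.2
        omega
    · have h5 : j = l := Fin.ext (by omega)
      subst h5
      rw [Function.update_self]
      show nm (m.d i) _ _ _ _ = nm (m.d i) _ _ _ _
      congr 1
      · rw [c5]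
      · rw [hWl]
      · rw [if_neg (by omega)]

theorem pc_fin {x : List Λ} {q : T.Q} {pos : Fin r → ℕ} {u : Fin (x.length + 1) → Fin S}
    {W : Fin (x.length + 1) → Fin S × (Fin r → Bool)} {m : Mid T}
    (h : PC T x q pos u (x.length + 1) W m) (hp : ∀ i, pos i ≤ x.length + 1)
    (h1 : ∀ i, m.pr i = false) (h2 : ∀ i, m.sn i = false → m.s i = Sym.left)
    (h3 : (m.q, m.d) ∈ T.hd m.p m.s) :
    T.Round x (q, pos, List.ofFn u)
      (m.q, (fun i => move (x.length + 1) (pos i) (m.d i)), List.ofFn fun j => (W j).1) ∧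
    W = fun j => ((W j).1, fun i => decide (move (x.length + 1) (pos i) (m.d i) = j.val + 1)) := by
  obtain ⟨φ, c1, c2, c3, c4, c5, c6, c7, c8⟩ := h
  have hs : ∀ i, m.s i = tape x (pos i) := by
    intro i
    rcases Nat.eq_zero_or_pos (pos i) with h4 | h4
    · rw [h4]
      apply h2
      rw [c6]
      apply decide_eq_false
      omega
    · exact (c7 i h4 (hp i)).symm
  refine ⟨⟨m.p, ?_, (m.q, m.d), ?_, rfl, rfl⟩, ?_⟩
  · show Sweep T.sw q (List.ofFn u) m.p (List.ofFn fun j => (W j).1)
    rw [t_SWP]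
    exact ⟨fun j => (W j).1, fun k => φ k.val, rfl, c1, c2, fun k => c3 k k.isLt⟩
  · show (m.q, m.d) ∈ T.hd m.p fun i => tape x (pos i)
    have h4 : (fun i => tape x (pos i)) = m.s := funext fun i => (hs i).symm
    rw [h4]
    exact h3
  · funext j
    refine Prod.ext rfl (funext fun i => ?_)
    show (W j).2 i = decide (move (x.length + 1) (pos i) (m.d i) = j.val + 1)
    have hj : j.val ≤ x.length := Nat.le_of_lt_succ j.isLt
    rw [c8 j i j.isLt, ← nm_move (m.d i) hj (hp i), tape_isR]
    congr 1
    · rcases Nat.eq_zero_or_pos j.val with h4 | h4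
      · rw [if_pos h4, hs, tape_isL, h4]
      · rw [if_neg (by omega)]
    · rcases Nat.lt_or_ge j.val x.length with h4 | h4
      · rw [if_pos (by omega)]
      · rw [if_neg (by omega), h1]
        symm
        apply decide_eq_false
        have := hp i
        omega

theorem move_le {N p : ℕ} (h : p ≤ N) (d : Dir) : move N p d ≤ N := by
  cases d with
  | L =>
    show p - 1 ≤ N
    omega
  | S => exact h
  | R => exact min_le_right _ _

/-- the memory word of a configuration -/
def en {n : ℕ} (pos : Fin r → ℕ) (u : Fin (n + 1) → Fin S) : Fin (n + 1) → Fin S × (Fin r → Bool) :=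
  fun j => (u j, fun i => decide (pos i = j.val + 1))

/-- The invariant. -/
def Inv (x : List Λ) (W : Fin (x.length + 1) → Fin S × (Fin r → Bool)) (l : Fin (x.length + 1)) :
    QQ T → Prop
  | QQ.st => l = 0 ∧ W = fun _ => (T.blank, fun _ => false)
  | QQ.att q => l = 0 ∧ ∃ (pos : Fin r → ℕ) (u : Fin (x.length + 1) → Fin S),
      (∀ i, pos i ≤ x.length + 1) ∧ ReflTransGen (T.Round x) (T.init x) (q, pos, List.ofFn u) ∧
      W = en pos u
  | QQ.mid m => ∃ (q : T.Q) (pos : Fin r → ℕ) (u : Fin (x.length + 1) → Fin S),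
      (∀ i, pos i ≤ x.length + 1) ∧ ReflTransGen (T.Round x) (T.init x) (q, pos, List.ofFn u) ∧
      PC T x q pos u l.val W m

theorem nxt_val {n : ℕ} (l : Fin (n + 1)) (h : l.val < n) : (SM.nxt l).val = l.val + 1 := by
  show (l + 1).val = _
  rw [Fin.val_add_one, if_neg]
  intro h2
  rw [h2] at h
  simp at h

theorem nxt_last {n : ℕ} (l : Fin (n + 1)) (h : n ≤ l.val) : SM.nxt l = 0 := by
  have h1 : l = Fin.last n := Fin.ext (by simp; omega)
  show l + 1 = 0
  rw [h1]
  exact Fin.last_add_one n

theorem inv_mid {x : List Λ} {W : Fin (x.length + 1) → Fin S × (Fin r → Bool)}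
    {l : Fin (x.length + 1)} {m : Mid T} {q : T.Q} {pos : Fin r → ℕ}
    {u : Fin (x.length + 1) → Fin S} (hp : ∀ i, pos i ≤ x.length + 1)
    (hR : ReflTransGen (T.Round x) (T.init x) (q, pos, List.ofFn u))
    (h : PC T x q pos u l.val W m) {t : QQ T × (Fin S × (Fin r → Bool))}
    (ht : t ∈ MidTr T m (W l) (tape x (l.val + 1))) :
    Inv T x (Function.update W l t.2) (SM.nxt l) t.1 := by
  obtain ⟨p', b, nx, h1, h2, h3, h4, h5⟩ := ht
  have h6 := pc_succ T h (nx := nx) h1 h2 h3
  rw [← h4] at h6
  have hl : l.val ≤ x.length := Nat.le_of_lt_succ l.isLt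
  rcases h5 with ⟨h7, h8⟩ | ⟨h7, h8, h9, h10, h11⟩
  · rw [tape_isR, decide_eq_false_iff_not, not_le] at h7
    rw [h8]
    refine ⟨q, pos, u, hp, hR, ?_⟩
    rw [nxt_val l h7]
    exact h6
  · rw [tape_isR, decide_eq_true_eq] at h7
    rw [h11]
    have h12 : l.val + 1 = x.length + 1 := by omega
    rw [h12] at h6
    obtain ⟨h13, h14⟩ := pc_fin T h6 hp h8 h9 h10
    exact ⟨nxt_last l h7, _, _, fun i => move_le (hp i) _, hR.tail h13, h14⟩

theorem inv_at {x : List Λ} {q : T.Q} {pos : Fin r → ℕ}
    {u : Fin (x.length + 1) → Fin S} (hp : ∀ i, pos i ≤ x.length + 1)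
    (hR : ReflTransGen (T.Round x) (T.init x) (q, pos, List.ofFn u))
    {t : QQ T × (Fin S × (Fin r → Bool))}
    (ht : t ∈ AtTr T q (en pos u 0) (tape x 1)) :
    Inv T x (Function.update (en pos u) 0 t.2) (SM.nxt 0) t.1 := by
  obtain ⟨q', s, d, pr, h1⟩ := ht
  exact inv_mid T hp hR (l := 0) (pc_zero T x q q' pos u s d pr) h1

theorem init_eq (x : List Λ) :
    T.init x = (T.start, (fun _ => 0), List.ofFn fun _ : Fin (x.length + 1) => T.blank) := by
  rw [List.ofFn_const]
  rfl

theorem en_init {n : ℕ} : (fun _ => (T.blank, fun _ => false)) =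
    en (r := r) (fun _ => 0) (fun _ : Fin (n + 1) => T.blank) := by
  funext j
  refine Prod.ext rfl (funext fun i => ?_)
  show false = decide (0 = j.val + 1)
  symm
  apply decide_eq_false
  omega

theorem inv_step [Finite Λ] {x : List Λ} {c c' : (sm T).Node x.length}
    (h : Inv T x c.2.2 c.2.1 c.1) (hs : (sm T).Step x c c') : Inv T x c'.2.2 c'.2.1 c'.1 := by
  obtain ⟨t, ht, rfl⟩ := hs
  obtain ⟨z, l, W⟩ := c
  have ht' : t ∈ Tr T z (W l) (tape x (l.val + 1)) := ht
  show Inv T x (Function.update W l t.2) (SM.nxt l) t.1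
  cases z with
  | st =>
    obtain ⟨h1, h2⟩ := h
    have h1' : l = 0 := h1
    have h2' : W = _ := h2
    subst h1'
    rw [h2', en_init] at ht' ⊢
    refine inv_at T (fun _ => Nat.zero_le _) ?_ ht'
    rw [← init_eq]
  | att q =>
    obtain ⟨h1, pos, u, hp, hR, h2⟩ := h
    have h1' : l = 0 := h1
    have h2' : W = _ := h2
    subst h1' h2'
    exact inv_at T hp hR ht'
  | mid m =>
    obtain ⟨q, pos, u, hp, hR, h1⟩ := h
    exact inv_mid T hp hR h1 ht'

theorem inv_reach [Finite Λ] (x : List Λ) (c : (sm T).Node x.length)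
    (hc : ReflTransGen ((sm T).Step x) (QQ.st, 0, fun _ => (T.blank, fun _ => false)) c) :
    Inv T x c.2.2 c.2.1 c.1 := by
  induction hc with
  | refl => exact ⟨rfl, rfl⟩
  | tail _ h2 ih => exact inv_step T ih h2

theorem sound [Finite Λ] (x : List Λ) (h : (sm T).Accepts (T.blank, fun _ => false) x) :
    x ∈ T.lang := by
  obtain ⟨c, hc, ha⟩ := h
  have h1 : Inv T x c.2.2 c.2.1 c.1 := inv_reach T x c hc
  obtain ⟨z, l, W⟩ := c
  have ha' : Acc T z := ha
  cases z with
  | st => exact ⟨T.init x, ReflTransGen.refl, ha'⟩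
  | att q =>
    obtain ⟨_, pos, u, _, hR, _⟩ := h1
    exact ⟨_, hR, ha'⟩
  | mid m => exact ha'.elim

section Circuit

variable (x : List Λ) (q' : T.Q) (pos : Fin r → ℕ) (d : Fin r → Dir) (φ : ℕ → T.Q)
  (u w : Fin (x.length + 1) → Fin S)

/-- the state in the middle of a circuit -/
def mm (l : ℕ) : Mid T :=
  ⟨φ l, q', fun i => tape x (pos i), d, fun i => decide (pos i = l), fun i => decide (pos i = l + 1),
    fun i => decide (0 < pos i ∧ pos i ≤ l)⟩

/-- the state after the cell `l` -/
def nz (l : ℕ) : QQ T := if l < x.length then QQ.mid (mm T x q' pos d φ (l + 1)) else QQ.att q'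

/-- the word in the middle of a circuit -/
def wd (l : ℕ) : Fin (x.length + 1) → Fin S × (Fin r → Bool) := fun j =>
  if j.val < l then (w j, fun i => decide (move (x.length + 1) (pos i) (d i) = j.val + 1))
  else (u j, fun i => decide (pos i = j.val + 1))

variable {T} {x} {q'} {pos} {d} {φ} {u} {w}

theorem midtr (hp : ∀ i, pos i ≤ x.length + 1)
    (hP : ∀ k : Fin (x.length + 1), (φ (k.val + 1), w k) ∈ T.sw (φ k.val) (u k))
    (hd : (q', d) ∈ T.hd (φ (x.length + 1)) (fun i => tape x (pos i)))
    (l : Fin (x.length + 1)) :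
    (nz T x q' pos d φ l.val,
      (w l, fun i => decide (move (x.length + 1) (pos i) (d i) = l.val + 1))) ∈
    MidTr T (mm T x q' pos d φ l.val) (wd x pos d u w l.val l) (tape x (l.val + 1)) := by
  have hl : l.val ≤ x.length := Nat.le_of_lt_succ l.isLt
  have hw : wd x pos d u w l.val l = (u l, fun i => decide (pos i = l.val + 1)) := by
    show (if l.val < l.val then _ else _) = _
    rw [if_neg (lt_irrefl _)]
  rw [hw]
  have hsn : ∀ i, (decide (0 < pos i ∧ pos i ≤ l.val) || decide (pos i = l.val + 1)) =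
      decide (0 < pos i ∧ pos i ≤ l.val + 1) := by
    intro i
    rw [← Bool.decide_or]
    apply decide_eq_decide.2
    omega
  refine ⟨φ (l.val + 1), w l, fun i => decide (pos i = l.val + 2), hP l, fun i => rfl,
    fun i hi => ?_, ?_, ?_⟩
  · have h1 : pos i = l.val + 1 := of_decide_eq_true hi
    show tape x (l.val + 1) = tape x (pos i)
    rw [h1]
  · refine Prod.ext rfl (funext fun i => ?_)
    show decide _ = nm (d i) (decide (pos i = l.val)) (decide (pos i = l.val + 1))
      (decide (pos i = l.val + 2)) (isR (tape x (l.val + 1)))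
    rw [tape_isR, nm_move (d i) hl (hp i)]
  · rcases Nat.lt_or_ge l.val x.length with h1 | h1
    · left
      refine ⟨by rw [tape_isR]; exact decide_eq_false (by omega), ?_⟩
      show nz T x q' pos d φ l.val = _
      rw [nz, if_pos h1]
      congr 1
      show Mid.mk _ _ _ _ _ _ _ = Mid.mk _ _ _ _ _ _ _
      congr 1
      funext i
      exact (hsn i).symm
    · right
      refine ⟨by rw [tape_isR]; exact decide_eq_true h1, fun i => ?_, fun i hi => ?_, ?_, ?_⟩
      · apply decide_eq_false
        have := hp i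
        omega
      · have h2 : (decide (0 < pos i ∧ pos i ≤ l.val) || decide (pos i = l.val + 1)) = false := hi
        rw [hsn, decide_eq_false_iff_not] at h2
        have h3 : pos i = 0 := by
          have := hp i
          omega
        show tape x (pos i) = Sym.left
        rw [h3]
        rfl
      · have h2 : l.val + 1 = x.length + 1 := by omega
        rw [h2]
        exact hd
      · show nz T x q' pos d φ l.val = QQ.att q'
        rw [nz, if_neg (by omega)]

theorem wd_succ (l : Fin (x.length + 1)) :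
    Function.update (wd x pos d u w l.val) l
      (w l, fun i => decide (move (x.length + 1) (pos i) (d i) = l.val + 1)) =
    wd x pos d u w (l.val + 1) := by
  funext j
  by_cases h : j = l
  · subst h
    rw [Function.update_self]
    show _ = if j.val < j.val + 1 then _ else _
    rw [if_pos (Nat.lt_succ_self _)]
  · rw [Function.update_of_ne h]
    have h1 : j.val ≠ l.val := fun h2 => h (Fin.ext h2)
    show (if j.val < l.val then _ else _) = if j.val < l.val + 1 then _ else _
    by_cases h2 : j.val < l.val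
    · rw [if_pos h2, if_pos (by omega)]
    · rw [if_neg h2, if_neg (by omega)]

theorem circ [Finite Λ] {z : QQ T} {q : T.Q} (hz : Tr T z = AtTr T q) (h0 : φ 0 = q)
    (hp : ∀ i, pos i ≤ x.length + 1)
    (hP : ∀ k : Fin (x.length + 1), (φ (k.val + 1), w k) ∈ T.sw (φ k.val) (u k))
    (hd : (q', d) ∈ T.hd (φ (x.length + 1)) (fun i => tape x (pos i))) :
    ReflTransGen ((sm T).Step x) (z, 0, en pos u)
      (QQ.att q', 0, en (fun i => move (x.length + 1) (pos i) (d i)) w) := by
  have first : (nz T x q' pos d φ 0,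
      (w 0, fun i => decide (move (x.length + 1) (pos i) (d i) = 0 + 1))) ∈
      Tr T z (en pos u 0) (tape x (0 + 1)) := by
    rw [hz]
    refine ⟨q', fun i => tape x (pos i), d, fun i => decide (pos i = 0 + 1), ?_⟩
    have h1 := midtr hp hP hd 0
    have h2 : (⟨q, q', fun i => tape x (pos i), d, fun i => isL (tape x (pos i)),
        fun i => decide (pos i = 0 + 1), fun _ => false⟩ : Mid T) = mm T x q' pos d φ 0 := by
      show Mid.mk _ _ _ _ _ _ _ = Mid.mk _ _ _ _ _ _ _
      congr 1
      · exact h0.symm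
      · funext i
        exact tape_isL x (pos i)
      · funext i
        symm
        apply decide_eq_false
        omega
    rw [h2]
    exact h1
  have key : ∀ l (hl : l < x.length + 1), ReflTransGen ((sm T).Step x) (z, 0, en pos u)
      (nz T x q' pos d φ l, SM.nxt ⟨l, hl⟩, wd x pos d u w (l + 1)) := by
    intro l
    induction l with
    | zero =>
      intro hl
      refine ReflTransGen.single ⟨_, first, ?_⟩
      show _ = (_, SM.nxt 0, Function.update (en pos u) 0 _)
      refine Prod.ext rfl (Prod.ext rfl ?_)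
      exact (wd_succ (x := x) (pos := pos) (d := d) (u := u) (w := w) 0).symm
    | succ l ih =>
      intro hl
      have hl' : l < x.length := by omega
      refine (ih (by omega)).tail ?_
      have e1 : nz T x q' pos d φ l = QQ.mid (mm T x q' pos d φ (l + 1)) := by
        rw [nz, if_pos hl']
      have e2 : SM.nxt (⟨l, by omega⟩ : Fin (x.length + 1)) = ⟨l + 1, hl⟩ :=
        Fin.ext (nxt_val _ hl')
      rw [e1, e2]
      refine ⟨_, midtr hp hP hd ⟨l + 1, hl⟩, ?_⟩
      refine Prod.ext rfl (Prod.ext rfl ?_)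
      exact (wd_succ (x := x) (pos := pos) (d := d) (u := u) (w := w) ⟨l + 1, hl⟩).symm
  have h1 := key x.length (Nat.lt_succ_self _)
  have e1 : nz T x q' pos d φ x.length = QQ.att q' := by rw [nz, if_neg (lt_irrefl _)]
  have e2 : SM.nxt (⟨x.length, Nat.lt_succ_self _⟩ : Fin (x.length + 1)) = 0 := nxt_last _ le_rfl
  have e3 : wd x pos d u w (x.length + 1) =
      en (fun i => move (x.length + 1) (pos i) (d i)) w := by
    funext j
    show (if j.val < x.length + 1 then _ else _) = _
    rw [if_pos j.isLt]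
    rfl
  rw [e1, e2, e3] at h1
  exact h1

end Circuit

theorem complete [Finite Λ] (x : List Λ) (c : T.Conf)
    (hc : ReflTransGen (T.Round x) (T.init x) c) :
    ∃ (z : QQ T) (u : Fin (x.length + 1) → Fin S), c.2.2 = List.ofFn u ∧
      (∀ i, c.2.1 i ≤ x.length + 1) ∧ Tr T z = AtTr T c.1 ∧ (c.1 ∈ T.accept → Acc T z) ∧
      ReflTransGen ((sm T).Step x) (QQ.st, 0, fun _ => (T.blank, fun _ => false))
        (z, 0, en c.2.1 u) := by
  induction hc with
  | refl =>
    refine ⟨QQ.st, fun _ => T.blank, ?_, fun i => Nat.zero_le _, rfl, fun h => h, ?_⟩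
    · rw [init_eq]
    · rw [en_init]
      exact ReflTransGen.refl
  | @tail c c' _ hr ih =>
    obtain ⟨z, u, h1, h2, h3, h4, h5⟩ := ih
    obtain ⟨p, hs, t, ht, h6, h7⟩ := hr
    rw [h1, t_SWP] at hs
    obtain ⟨w, P, hw, hP0, hPl, hP⟩ := hs
    have hcirc := circ (T := T) (x := x) (q' := t.1) (pos := c.2.1) (d := t.2)
      (φ := fun k => if h : k < x.length + 1 + 1 then P ⟨k, h⟩ else p) (u := u) (w := w)
      (q := c.1) h3 (by simpa using hP0) h2 (by
        intro k
        have h8 : k.val + 1 < x.length + 1 + 1 := by omega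
        have h9 : k.val < x.length + 1 + 1 := by omega
        simp only [h8, h9, dif_pos]
        exact hP k) (by
        have h8 : x.length + 1 < x.length + 1 + 1 := by omega
        simp only [h8, dif_pos]
        have h9 : P ⟨x.length + 1, h8⟩ = p := hPl
        rw [h9]
        exact ht)
    refine ⟨QQ.att t.1, w, hw, fun i => ?_, ?_, fun h => ?_, ?_⟩
    · rw [h7]
      exact move_le (h2 i) _
    · rw [h6]
      rfl
    · rw [h6] at h
      exact h
    · rw [h7]
      exact h5.trans hcirc

end RMS

theorem t_RM2SM : RM2SM_Stmt := by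
  intro Λ _ r S L hL
  obtain ⟨T, rfl⟩ := hL
  refine ⟨RMS.sm T, (T.blank, fun _ => false), RMS.fresh T, fun x => ⟨RMS.sound T x, ?_⟩⟩
  rintro ⟨c, hc, ha⟩
  obtain ⟨z, u, h1, h2, h3, h4, h5⟩ := RMS.complete T x c hc
  exact ⟨_, h5, h4 ha⟩

end Pool.Agent.NDH
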