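import Pool.Agent.NDH.COLD
import Pool.Agent.NDH.TOPD
import Pool.Agent.NDH.RMS
import Pool.Agent.NDH.BPDD
import Pool.Agent.NPB.Main

/-!
# Project NDH (MP_5e85fc_lc): the assembly, up to the module SMP
-/

set_option autoImplicit false

namespace Pool.Agent.NDH

open Pool.Agent.Heads Pool.Agent.NPH Pool.Agent.NPB Relation

theorem main_of (h : SMP_Stmt) : MAIND_Stmt :=
  t_TOPD t_COLD t_BPDD t_BFAS (upperD t_RM2SM h) lowers t_MON hierB

end Pool.Agent.NDH
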