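import Pool.Agent.NDH.St

/-!
# Go back by one cell and replace the letter there
-/

set_option autoImplicit false

namespace Pool.Agent.NDH

open Pool.Agent.Heads Pool.Agent.NPH Relation

namespace BCK

theorem cl_append {B : Type} (U V : List B) : cl (U ++ V) = cl U ++ cl V := by
  unfold cl
  exact List.map_append

theorem cl_cons {B : Type} (b : B) (V : List B) : cl (b :: V) = (b, false) :: cl V := rfl

theorem cm_append {C : Type} (U V : List C) : cm (U ++ V) = cm U ++ cm V := by
  unfold cm
  exact List.map_append

end BCK

open BCK in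
theorem t_BCK (hREV : REV_Stmt) : BCK_Stmt := by
  intro Λ C L _ _ _ c
  obtain ⟨P, hP⟩ := hREV Λ (C × Bool) L
  refine ⟨WP.seq P (WP.seq (WP.rot ((c, false), false)) P), ?_⟩
  intro x h u c' s
  have e1 : (cm (u ++ [c'])).reverse = (c', false) :: (cm u).reverse := by
    rw [cm_append, List.reverse_append]
    rfl
  have h1 : P.Ev x (h, cl (cm (u ++ [c'])), s)
      (h, ((c', false), false) :: cl ((cm u).reverse), s) := by
    have := hP x h (cm (u ++ [c'])) s (by
      rw [cm_append]
      exact List.append_ne_nil_of_right_ne_nil _ (by simp [cm]))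
    rw [e1, cl_cons] at this
    exact this
  have h2 : (WP.rot (Λ := Λ) (H := (C × Bool) ⊕ Option L) ((c, false), false)).Ev x
      (h, ((c', false), false) :: cl ((cm u).reverse), s)
      (h, cl ((cm u).reverse ++ [(c, false)]), s) := by
    rw [cl_append]
    exact WP.Ev.rot _ _ _ _ _
  have h3 : P.Ev x (h, cl ((cm u).reverse ++ [(c, false)]), s) (h, cl (cm (c :: u)), s) := by
    have := hP x h ((cm u).reverse ++ [(c, false)]) s
      (List.append_ne_nil_of_right_ne_nil _ (by simp))
    have e2 : ((cm u).reverse ++ [(c, false)]).reverse = cm (c :: u) := by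
      rw [List.reverse_append, List.reverse_reverse]
      rfl
    rw [e2] at this
    exact this
  exact WP.Ev.seq h1 (WP.Ev.seq h2 h3)

end Pool.Agent.NDH
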