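import Pool.Agent.NDH.St

/-!
# Project NDH, module CMW: compare the circular word with the word on the stack
-/

set_option autoImplicit false

namespace Pool.Agent.NDH

open Pool.Agent.Heads Pool.Agent.NPH Relation

namespace CMW

lemma cl_append {B : Type} (U V : List B) : cl (U ++ V) = cl U ++ cl V := by
  simp [cl]

lemma cl_cons {B : Type} (b : B) (V : List B) : cl (b :: V) = (b, false) :: cl V := rfl

lemma cm_append {C : Type} (U V : List C) : cm (U ++ V) = cm U ++ cm V := by
  simp [cm]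

lemma cm_cons {C : Type} (c : C) (V : List C) : cm (c :: V) = (c, false) :: cm V := rfl

lemma cm_reverse {C : Type} (V : List C) : (cm V).reverse = cm V.reverse := by
  simp [cm]

lemma cm_fst {C : Type} (V : List C) : (cm V).map Prod.fst = V := by
  simp [cm, Function.comp_def]

open Classical in
/-- the test of the first loop: the top symbol is the current letter -/
noncomputable def eqt (Λ C L : Type) : ((C × Bool) × Bool) → Sym Λ →
    Option ((C × Bool) ⊕ Option L) → Bool :=
  fun a _ t => decide (∃ b : Bool, t = some (Sum.inl (a.1.1, b)))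

open Classical in
/-- the top symbol is a letter -/
noncomputable def let1 (Λ C L : Type) : ((C × Bool) × Bool) → Sym Λ →
    Option ((C × Bool) ⊕ Option L) → Bool :=
  fun _ _ t => decide (∃ b : C × Bool, t = some (Sum.inl b))

/-- the first loop -/
lemma loop1 {Λ C L : Type} {x : List Λ} {h : ℕ}
    (Q : WP Λ ((C × Bool) × Bool) ((C × Bool) ⊕ Option L))
    (hQ : ∀ (a : C × Bool) (u : List ((C × Bool) × Bool)) (t : List ((C × Bool) ⊕ Option L)),
      Q.Ev x (h, (a, false) :: u, t) (h, u ++ [(a, false)], t.tail))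
    (s : List ((C × Bool) ⊕ Option L)) (hs : Cl s) (X : List (C × Bool)) :
    ∀ (X₁ : List (C × Bool)) (V : List C), V.length = X.length → X ++ X₁ ≠ [] →
      ∃ (Y₁ Y₂ : List (C × Bool)) (U : List C), X = Y₁ ++ Y₂ ∧ V = Y₁.map Prod.fst ++ U ∧
        (WP.wh (eqt Λ C L) Q).Ev x (h, cl (X ++ X₁), (cm V).map Sum.inl ++ s)
          (h, cl (Y₂ ++ (X₁ ++ Y₁)), (cm U).map Sum.inl ++ s) ∧
        ((Y₂ = [] ∧ U = []) ∨ ∃ (y : C × Bool) (Y₃ : List (C × Bool)) (u : C) (U₃ : List C),
          Y₂ = y :: Y₃ ∧ U = u :: U₃ ∧ y.1 ≠ u) := by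
  classical
  induction X with
  | nil =>
    intro X₁ V hV hne
    have hV0 : V = [] := List.length_eq_zero_iff.1 hV
    subst hV0
    refine ⟨[], [], [], rfl, rfl, ?_, Or.inl ⟨rfl, rfl⟩⟩
    rw [List.append_nil]
    obtain ⟨a, u, rfl⟩ : ∃ a u, X₁ = a :: u := List.exists_cons_of_ne_nil (by simpa using hne)
    refine WP.Ev.whF ?_
    unfold eqt
    refine decide_eq_false ?_
    rintro ⟨b, hb⟩
    exact hs _ hb
  | cons y X ih =>
    intro X₁ V hV hne
    obtain ⟨v, V', rfl⟩ : ∃ v V', V = v :: V' := by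
      cases V with
      | nil => simp at hV
      | cons v V' => exact ⟨v, V', rfl⟩
    by_cases hyv : y.1 = v
    · obtain ⟨Y₁, Y₂, U, h1, h2, h3, h4⟩ := ih (X₁ ++ [y]) V' (by simpa using hV) (by simp)
      refine ⟨y :: Y₁, Y₂, U, by rw [h1]; rfl, ?_, ?_, h4⟩
      · rw [h2, List.map_cons, hyv]
        rfl
      · have e1 : Y₂ ++ (X₁ ++ [y] ++ Y₁) = Y₂ ++ (X₁ ++ y :: Y₁) := by simp
        rw [e1] at h3
        have k := hQ y (cl (X ++ X₁)) ((cm (v :: V')).map Sum.inl ++ s)
        have e2 : cl (X ++ X₁) ++ [(y, false)] = cl (X ++ (X₁ ++ [y])) := by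
          simp [cl]
        rw [e2] at k
        refine WP.Ev.whT ?_ k h3
        unfold eqt
        refine decide_eq_true ⟨false, ?_⟩
        rw [hyv]
        rfl
    · refine ⟨[], y :: X, v :: V', rfl, rfl, ?_, Or.inr ⟨y, X, v, V', rfl, rfl, hyv⟩⟩
      rw [List.append_nil]
      refine WP.Ev.whF ?_
      unfold eqt
      refine decide_eq_false ?_
      rintro ⟨b, hb⟩
      have hb' : (some (Sum.inl (v, false)) : Option ((C × Bool) ⊕ Option L)) =
        some (Sum.inl (y.1, b)) := hb
      simp only [Option.some.injEq, Sum.inl.injEq, Prod.mk.injEq] at hb'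
      exact hyv hb'.1.symm

/-- the second loop -/
lemma loop2 {Λ C L : Type} {x : List Λ} {h : ℕ}
    (Q : WP Λ ((C × Bool) × Bool) ((C × Bool) ⊕ Option L))
    (hQ : ∀ (a : C × Bool) (u : List ((C × Bool) × Bool)) (t : List ((C × Bool) ⊕ Option L)),
      Q.Ev x (h, (a, false) :: u, t) (h, u ++ [(a, false)], Sum.inl (a.1, false) :: t))
    (a0 : C) (p : List C) : ∀ (T : List (C × Bool)) (t : List ((C × Bool) ⊕ Option L)),
      (WP.wh (fun a _ _ => !a.1.2) Q).Ev x
        (h, cl (cm p ++ (a0, true) :: T), t)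
        (h, cl ((a0, true) :: (T ++ cm p)), (cm p.reverse).map Sum.inl ++ t) := by
  induction p with
  | nil =>
    intro T t
    have e : cl ((a0, true) :: (T ++ cm ([] : List C))) = ((a0, true), false) :: cl T := by
      simp [cl, cm]
    rw [e]
    exact WP.Ev.whF rfl
  | cons a p ih =>
    intro T t
    have h1 := ih (T ++ [(a, false)]) (Sum.inl (a, false) :: t)
    have e1 : T ++ [(a, false)] ++ cm p = T ++ cm (a :: p) := by simp [cm]
    have e2 : (cm p.reverse).map Sum.inl ++ (Sum.inl (a, false) :: t) =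
        ((cm (a :: p).reverse).map Sum.inl ++ t : List ((C × Bool) ⊕ Option L)) := by
      simp [cm]
    rw [e1, e2] at h1
    have h2 := hQ (a, false) (cl (cm p ++ (a0, true) :: T)) t
    have e3 : cl (cm p ++ (a0, true) :: T) ++ [((a, false), false)] =
        cl (cm p ++ (a0, true) :: (T ++ [(a, false)])) := by
      simp [cl]
    rw [e3] at h2
    exact WP.Ev.whT rfl h2 h1

end CMW

open CMW in
open Classical in
theorem t_CMW (hS : SWW_Stmt) (hR : REV_Stmt) (hV : SVF_Stmt) : CMW_Stmt := by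
  intro Λ C L _ _ _ yes no
  obtain ⟨P1, h1⟩ := hS Λ ((C × Bool) × Bool) ((C × Bool) ⊕ Option L)
    (fun a _ _ => WP.wrt ((a.1.1, true), false))
  obtain ⟨P2, h2⟩ := hS Λ ((C × Bool) × Bool) ((C × Bool) ⊕ Option L)
    (fun a _ _ => WP.seq WP.pop (WP.rot (a.1, false)))
  obtain ⟨P3, h3⟩ := hS Λ ((C × Bool) × Bool) ((C × Bool) ⊕ Option L)
    (fun a _ _ => WP.wrt ((a.1.1, false), false))
  obtain ⟨P4, h4⟩ := hS Λ ((C × Bool) × Bool) ((C × Bool) ⊕ Option L)
    (fun a _ _ => WP.seq (WP.psh (Sum.inl (a.1.1, false))) (WP.rot (a.1, false)))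
  obtain ⟨R, hR⟩ := hR Λ (C × Bool) L
  obtain ⟨S, hV⟩ := hV Λ (C × Bool) L
  refine ⟨WP.seq P1 (WP.seq (WP.wh (eqt Λ C L) P2) (WP.ite (let1 Λ C L)
    (WP.ite (fun a _ _ => a.1.2)
      (WP.seq P3 (WP.psh (Sum.inr (some no))))
      (WP.seq R (WP.seq (WP.wh (fun a _ _ => !a.1.2) P4) (WP.seq P4 (WP.seq R
        (WP.seq P3 (WP.psh (Sum.inr (some no)))))))))
    (WP.seq P3 (WP.seq S (WP.psh (Sum.inr (some yes))))))), ?_⟩
  intro x h W V s hW hVW hs
  have q1 : ∀ (a : C × Bool) (u : List ((C × Bool) × Bool)) (t : List ((C × Bool) ⊕ Option L)),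
      P1.Ev x (h, (a, false) :: u, t) (h, ((a.1, true), false) :: u, t) := fun a u t =>
    h1 x h (a, false) u t _ (WP.Ev.wrt _ _ _ _ _)
  have q2 : ∀ (a : C × Bool) (u : List ((C × Bool) × Bool)) (t : List ((C × Bool) ⊕ Option L)),
      P2.Ev x (h, (a, false) :: u, t) (h, u ++ [(a, false)], t.tail) := fun a u t =>
    h2 x h (a, false) u t _ (WP.Ev.seq (WP.Ev.pop _ _ _) (WP.Ev.rot _ _ _ _ _))
  have q3 : ∀ (a : C × Bool) (u : List ((C × Bool) × Bool)) (t : List ((C × Bool) ⊕ Option L)),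
      P3.Ev x (h, (a, false) :: u, t) (h, ((a.1, false), false) :: u, t) := fun a u t =>
    h3 x h (a, false) u t _ (WP.Ev.wrt _ _ _ _ _)
  have q4 : ∀ (a : C × Bool) (u : List ((C × Bool) × Bool)) (t : List ((C × Bool) ⊕ Option L)),
      P4.Ev x (h, (a, false) :: u, t) (h, u ++ [(a, false)], Sum.inl (a.1, false) :: t) :=
    fun a u t =>
    h4 x h (a, false) u t _ (WP.Ev.seq (WP.Ev.psh _ _ _ _) (WP.Ev.rot _ _ _ _ _))
  obtain ⟨a0, w, rfl⟩ := List.exists_cons_of_ne_nil hW
  have k1 := q1 (a0, false) (cl (cm w)) ((cm V).map Sum.inl ++ s)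
  obtain ⟨Y₁, Y₂, U, e1, e2, k2, e3⟩ := loop1 (x := x) (h := h) P2 q2 s hs
    ((a0, true) :: cm w) [] V (by simpa [cm] using hVW) (by simp)
  rw [List.append_nil, List.nil_append] at k2
  refine WP.Ev.seq k1 (WP.Ev.seq k2 ?_)
  rcases e3 with ⟨hY, hU⟩ | ⟨y, Y₃, u, U₃, hY, hU, hyu⟩
  · -- the words are equal
    subst hY hU
    rw [List.append_nil] at e1 e2
    have hVW' : V = a0 :: w := by
      rw [e2, ← e1, List.map_cons, cm_fst]
    rw [if_pos hVW', List.nil_append, ← e1, hVW']
    refine WP.Ev.iteF ?_ ?_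
    · unfold let1
      refine decide_eq_false ?_
      rintro ⟨b, hb⟩
      exact hs b hb
    · refine WP.Ev.seq (q3 (a0, true) (cl (cm w)) _) ?_
      exact WP.Ev.seq (hV x h (cm (a0 :: w)) s (by simp [cm])) (WP.Ev.psh _ _ _ _)
  · -- the words are different
    subst hY hU
    have hVW' : V ≠ a0 :: w := by
      intro hE
      have e4 : ((a0, true) :: cm w).map Prod.fst = a0 :: w := by
        rw [List.map_cons, cm_fst]
      rw [e1, List.map_append, List.map_cons, ← hE, e2] at e4
      have e5 := List.append_cancel_left e4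
      exact hyu (List.cons.inj e5).1
    have f0 : cl (y :: Y₃ ++ Y₁) = (y, false) :: cl (Y₃ ++ Y₁) := rfl
    rw [if_neg hVW', f0]
    refine WP.Ev.iteT ?_ ?_
    · unfold let1
      exact decide_eq_true ⟨(u, false), rfl⟩
    cases Y₁ with
    | nil =>
      rw [List.nil_append] at e1
      obtain ⟨ha, hb⟩ := List.cons.inj e1
      subst ha
      rw [← hb]
      rw [List.map_nil, List.nil_append] at e2
      rw [e2, List.append_nil]
      refine WP.Ev.iteT rfl ?_
      exact WP.Ev.seq (q3 (a0, true) (cl (cm w)) _) (WP.Ev.psh _ _ _ _)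
    | cons y0 Y₁ =>
      rw [List.cons_append] at e1
      obtain ⟨ha, hb⟩ := List.cons.inj e1
      subst ha
      -- split the word
      have hsplit : ∀ (A B : List (C × Bool)), cm w = A ++ B → ∃ p q : List C,
          w = p ++ q ∧ A = cm p ∧ B = cm q := by
        intro A B hAB
        unfold cm at hAB
        obtain ⟨p, q, h1, h2, h3⟩ := List.map_eq_append_iff.1 hAB
        exact ⟨p, q, h1, h2.symm, h3.symm⟩
      obtain ⟨p, q, hw, hp, hq⟩ := hsplit _ _ hb
      have hy : y.2 = false := by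
        cases q with
        | nil => simp [cm] at hq
        | cons c q =>
          rw [cm_cons] at hq
          rw [(List.cons.inj hq).1]
      refine WP.Ev.iteF hy ?_
      have r1 := hR x h (y :: Y₃ ++ (a0, true) :: Y₁) ((cm (u :: U₃)).map Sum.inl ++ s) (by simp)
      have f1 : (y :: Y₃ ++ (a0, true) :: Y₁).reverse =
          cm p.reverse ++ (a0, true) :: cm q.reverse := by
        rw [hq, hp, List.reverse_append, List.reverse_cons, cm_reverse, cm_reverse]
        simp
      rw [f1] at r1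
      refine WP.Ev.seq r1 ?_
      have r2 := loop2 (x := x) (h := h) P4 q4 a0 p.reverse (cm q.reverse)
        ((cm (u :: U₃)).map Sum.inl ++ s)
      rw [List.reverse_reverse] at r2
      refine WP.Ev.seq r2 ?_
      have r3 := q4 (a0, true) (cl (cm q.reverse ++ cm p.reverse))
        ((cm p).map Sum.inl ++ ((cm (u :: U₃)).map Sum.inl ++ s))
      have f2 : cl (cm q.reverse ++ cm p.reverse) ++ [((a0, true), false)] =
          cl (cm q.reverse ++ cm p.reverse ++ [(a0, true)]) := by
        simp [cl]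
      rw [f2] at r3
      refine WP.Ev.seq r3 ?_
      have r4 := hR x h (cm q.reverse ++ cm p.reverse ++ [(a0, true)])
        (Sum.inl (a0, false) :: ((cm p).map Sum.inl ++ ((cm (u :: U₃)).map Sum.inl ++ s))) (by simp)
      have f3 : (cm q.reverse ++ cm p.reverse ++ [(a0, true)]).reverse = (a0, true) :: cm w := by
        rw [hw, cm_append, List.reverse_append, List.reverse_append, cm_reverse, cm_reverse,
          List.reverse_reverse, List.reverse_reverse]
        rfl
      rw [f3] at r4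
      refine WP.Ev.seq r4 ?_
      have r5 := q3 (a0, true) (cl (cm w))
        (Sum.inl (a0, false) :: ((cm p).map Sum.inl ++ ((cm (u :: U₃)).map Sum.inl ++ s)))
      have f4 : (Sum.inl (a0, false) :: ((cm p).map Sum.inl ++
          ((cm (u :: U₃)).map Sum.inl ++ s)) : List ((C × Bool) ⊕ Option L)) =
          (cm V).map Sum.inl ++ s := by
        rw [e2, hp, List.map_cons, cm_fst]
        simp [cm]
      rw [f4] at r5
      rw [f4]
      exact WP.Ev.seq r5 (WP.Ev.psh _ _ _ _)

end Pool.Agent.NDH
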