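import Pool.Agent.NDH.StA
import Pool.Agent.NPH.COLS

/-!
# Project NDH, modules COLD and TOPD: the collapse and the assembly
-/

set_option autoImplicit false

namespace Pool.Agent.NDH

open Pool.Agent.Heads Pool.Agent.NPH Pool.Agent.NPB Relation

namespace COLD

lemma numbers {k S : ℕ} (hk : 1 ≤ k) (hS : (2 * (2 ^ (2 * k + 3) + 1)) ^ k < S) :
    ∃ j : ℕ, 1 ≤ j ∧ 2 ^ (k + 3) * S ≤ (2 * j) ^ k ∧ 2 ^ k * (2 * j) ^ (k - 1) < S := by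
  classical
  have hC : 0 < 2 ^ (k + 3) := Nat.pos_of_ne_zero (by positivity)
  have hex : ∃ j : ℕ, 2 ^ (k + 3) * S ≤ (2 * j) ^ k := by
    refine ⟨2 ^ (k + 3) * S, ?_⟩
    calc 2 ^ (k + 3) * S ≤ 2 * (2 ^ (k + 3) * S) := by omega
      _ ≤ (2 * (2 ^ (k + 3) * S)) ^ k := Nat.le_self_pow (by omega) _
  obtain ⟨j, hj, hmin⟩ : ∃ j : ℕ, 2 ^ (k + 3) * S ≤ (2 * j) ^ k ∧
      ∀ i, i < j → ¬ 2 ^ (k + 3) * S ≤ (2 * i) ^ k :=
    ⟨Nat.find hex, Nat.find_spec hex, fun i hi => Nat.find_min hex hi⟩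
  have hbig : 2 ^ (2 * k + 3) + 2 ≤ j := by
    by_contra hlt
    have h1 : (2 * j) ^ k ≤ (2 * (2 ^ (2 * k + 3) + 1)) ^ k :=
      Nat.pow_le_pow_left (Nat.mul_le_mul_left 2 (Nat.le_of_lt_succ (not_le.1 hlt))) _
    have h2 : S ≤ 2 ^ (k + 3) * S := Nat.le_mul_of_pos_left S hC
    omega
  have hj1 : 1 ≤ j := le_trans (by omega : 1 ≤ 2) (le_trans (Nat.le_add_left 2 _) hbig)
  obtain ⟨i, rfl⟩ : ∃ i, j = i + 1 := ⟨j - 1, (Nat.sub_add_cancel hj1).symm⟩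
  have hi := hmin i (Nat.lt_succ_self i)
  refine ⟨i + 1, by omega, hj, ?_⟩
  obtain ⟨n, rfl⟩ : ∃ n, k = n + 1 := ⟨k - 1, by omega⟩
  rw [Nat.add_sub_cancel]
  have e1 : 2 ^ (2 * (n + 1) + 3) = 2 ^ (n + 1 + 3) * 2 ^ (n + 1) := by
    rw [← pow_add]
    congr 1
    ring
  rw [e1] at hbig
  have hn : n < 2 ^ n := Nat.lt_pow_self (by norm_num)
  have hn2 : 2 * n ≤ 2 ^ (n + 1 + 3) * 2 ^ (n + 1) := by
    have e2 : 2 ^ (n + 1 + 3) * 2 ^ (n + 1) = (2 ^ n * 2 ^ 4) * (2 * 2 ^ n) := by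
      rw [pow_succ, ← pow_add]
      ring
    rw [e2]
    have h3 : 1 ≤ 2 ^ n * 2 ^ 4 := Nat.one_le_iff_ne_zero.2 (by positivity)
    have h4 : 2 * 2 ^ n ≤ (2 ^ n * 2 ^ 4) * (2 * 2 ^ n) := Nat.le_mul_of_pos_left _ h3
    omega
  have h1 : (i + 1) ^ n ≤ 2 * i ^ n := COLS.bern2 (by omega)
  have h2 : 2 ^ (n + 1 + 3) * (2 ^ (n + 1) * (2 * (i + 1)) ^ n) ≤ (2 * i) ^ (n + 1) := by
    calc 2 ^ (n + 1 + 3) * (2 ^ (n + 1) * (2 * (i + 1)) ^ n)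
        = 2 ^ (n + 1 + 3) * 2 ^ (n + 1) * 2 ^ n * (i + 1) ^ n := by rw [mul_pow]; ring
      _ ≤ 2 ^ (n + 1 + 3) * 2 ^ (n + 1) * 2 ^ n * (2 * i ^ n) := Nat.mul_le_mul_left _ h1
      _ = (2 * 2 ^ n * i ^ n) * (2 ^ (n + 1 + 3) * 2 ^ (n + 1)) := by ring
      _ ≤ (2 * 2 ^ n * i ^ n) * i := Nat.mul_le_mul_left _ (by omega)
      _ = (2 * i) ^ (n + 1) := by rw [mul_pow]; ring
  by_contra hcon
  have h3 : 2 ^ (n + 1 + 3) * S ≤ 2 ^ (n + 1 + 3) * (2 ^ (n + 1) * (2 * (i + 1)) ^ n) :=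
    Nat.mul_le_mul_left _ (not_lt.1 hcon)
  exact hi (h3.trans h2)

end COLD

theorem t_COLD : COLD_Stmt := by
  intro hU hL hM k hk H
  have step : ∀ (Λ : Type) [Finite Λ] (S β : ℕ) (L : Set (List Λ)), 2 ≤ β →
      2 ^ (k + 3) * S ≤ β ^ k → InT Λ k S L → BC (InT Λ k (2 ^ k * β ^ (k - 1))) L := by
    intro Λ _ S β L hβ h4 hT
    obtain ⟨M, hMD, hMx⟩ := hU Λ k β S hk hβ h4 L hT
    have h5 : Finite (Sym Λ) := Finite.of_surjective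
      (fun o : Option (Option Λ) => match o with
        | none => Sym.left
        | some none => Sym.right
        | some (some a) => Sym.letter a)
      (by
        rintro (_ | a | _)
        · exact ⟨none, rfl⟩
        · exact ⟨some (some a), rfl⟩
        · exact ⟨some none, rfl⟩)
    obtain ⟨ι, hι, K, 𝓕, hK, hKL⟩ := H (Option (Sym Λ)) M hMD
    refine ⟨ι, hι, fun i => {x | pad (β ^ (x.length + 1)) x ∈ K i}, 𝓕, fun i => ?_, fun x => ?_⟩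
    · obtain ⟨A, hA⟩ := hK i
      have h6 := hL Λ k β hk hβ A
      rwa [hA] at h6
    · rw [← hMx x, hKL]
      rfl
  refine ⟨(2 * (2 ^ (2 * k + 3) + 1)) ^ k, ?_⟩
  intro Λ _ S
  induction S using Nat.strong_induction_on with
  | _ S ih =>
    intro L hT
    rcases Nat.lt_or_ge ((2 * (2 ^ (2 * k + 3) + 1)) ^ k) S with hS | hS
    · obtain ⟨j, h1, h2, h3⟩ := COLD.numbers hk hS
      exact (step Λ S (2 * j) L (by omega) h2 hT).trans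
        fun K hK => ih _ h3 K hK
    · exact BC.of (hM Λ k S _ L hS hT)

end Pool.Agent.NDH
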