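import Pool.Agent.NDH.St

/-! Project NDH, module DCM (helper34): compilation of deterministic programs. -/

set_option autoImplicit false

namespace Pool.Agent.NDH

open Pool.Agent.Heads Pool.Agent.NPH Relation

namespace DCM

/-- Deterministic fragments. -/
structure Fr (α : Type) (k : ℕ) (Γ : Type) where
  Q : Type
  finQ : Finite Q
  s : Q
  f : Q
  δ : Q → (Fin k → Sym α) → Option Γ → Option (Q × (Fin k → Dir) × Op Γ)
  hf : ∀ x g, δ f x g = none

variable {α : Type} {k : ℕ} {Γ : Type}

/-- The configuration after a step. -/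
def eff (w : List α) (c : Cf k Γ) (t : (Fin k → Dir) × Op Γ) : Cf k Γ :=
  (fun i => move (w.length + 1) (c.1 i) (t.1 i), t.2.apply c.2)

/-- The step without effect. -/
def nop : (Fin k → Dir) × Op Γ := (fun _ => Dir.S, Op.none)

theorem eff_nop (w : List α) (c : Cf k Γ) : eff w c nop = c := rfl

/-- A step of a fragment. -/
def St (F : Fr α k Γ) (w : List α) (a b : F.Q × Cf k Γ) : Prop :=
  ∃ t, F.δ a.1 (fun i => tape w (a.2.1 i)) a.2.2.head? = some t ∧ b = (t.1, eff w a.2 t.2)

/-- Transport of the transitions; a missing transition is replaced by a step without effect. -/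
def lft {Q R : Type} (e : Q → R) (r : R) (u : Option (Q × (Fin k → Dir) × Op Γ)) :
    Option (R × (Fin k → Dir) × Op Γ) :=
  some ((u.map fun t => (e t.1, t.2)).getD (r, nop))

/-- One action. -/
def fAct (d : Fin k → Dir) (o : Op Γ) : Fr α k Γ where
  Q := Bool
  finQ := inferInstance
  s := false
  f := true
  δ := fun q _ _ => match q with
    | false => some (true, d, o)
    | true => none
  hf := fun _ _ => rfl

/-- One fragment after the other. -/
def fSeq (F F' : Fr α k Γ) : Fr α k Γ where
  Q := F.Q ⊕ F'.Q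
  finQ := by
    have := F.finQ
    have := F'.finQ
    infer_instance
  s := Sum.inl F.s
  f := Sum.inr F'.f
  δ := fun q x g => match q with
    | Sum.inl q => lft Sum.inl (Sum.inr F'.s) (F.δ q x g)
    | Sum.inr q => (F'.δ q x g).map fun t => (Sum.inr t.1, t.2)
  hf := fun x g => by simp only [F'.hf x g, Option.map_none]

/-- Case distinction. -/
def fIte (g : (Fin k → Sym α) → Option Γ → Bool) (F F' : Fr α k Γ) : Fr α k Γ where
  Q := Option (Option (F.Q ⊕ F'.Q))
  finQ := by
    have := F.finQ
    have := F'.finQ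
    infer_instance
  s := none
  f := some none
  δ := fun q x t => match q with
    | none => some (cond (g x t) (some (some (Sum.inl F.s)))
        (some (some (Sum.inr F'.s))), nop)
    | some none => none
    | some (some (Sum.inl q)) =>
        lft (fun r => some (some (Sum.inl r))) (some none) (F.δ q x t)
    | some (some (Sum.inr q)) =>
        lft (fun r => some (some (Sum.inr r))) (some none) (F'.δ q x t)
  hf := fun _ _ => rfl

/-- Loop. -/
def fWh (g : (Fin k → Sym α) → Option Γ → Bool) (F : Fr α k Γ) : Fr α k Γ where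
  Q := Option (Option F.Q)
  finQ := by
    have := F.finQ
    infer_instance
  s := none
  f := some none
  δ := fun q x t => match q with
    | none => some (cond (g x t) (some (some F.s)) (some none), nop)
    | some none => none
    | some (some q) => lft (fun r => some (some r)) none (F.δ q x t)
  hf := fun _ _ => rfl

/-- Compilation. -/
def frag : DP α k Γ → Fr α k Γ
  | DP.act d o => fAct d o
  | DP.seq P P' => fSeq (frag P) (frag P')
  | DP.ite g P P' => fIte g (frag P) (frag P')
  | DP.wh g P => fWh g (frag P)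

theorem fIte_inl (g : (Fin k → Sym α) → Option Γ → Bool) (F F' : Fr α k Γ) (q : F.Q)
    (x : Fin k → Sym α) (t : Option Γ) : (fIte g F F').δ (some (some (Sum.inl q))) x t =
      lft (R := Option (Option (F.Q ⊕ F'.Q))) (fun r => some (some (Sum.inl r))) (some none)
        (F.δ q x t) := rfl

theorem fIte_inr (g : (Fin k → Sym α) → Option Γ → Bool) (F F' : Fr α k Γ) (q : F'.Q)
    (x : Fin k → Sym α) (t : Option Γ) : (fIte g F F').δ (some (some (Sum.inr q))) x t =
      lft (R := Option (Option (F.Q ⊕ F'.Q))) (fun r => some (some (Sum.inr r))) (some none)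
        (F'.δ q x t) := rfl

theorem fWh_some (g : (Fin k → Sym α) → Option Γ → Bool) (F : Fr α k Γ) (q : F.Q)
    (x : Fin k → Sym α) (t : Option Γ) : (fWh g F).δ (some (some q)) x t =
      lft (R := Option (Option F.Q)) (fun r => some (some r)) none (F.δ q x t) := rfl

/-- Chains are transported. -/
theorem lift_chain {F G : Fr α k Γ} (e : F.Q → G.Q) (w : List α)
    (h : ∀ q x g t, F.δ q x g = some t → G.δ (e q) x g = some (e t.1, t.2))
    {a b : F.Q × Cf k Γ} (hc : ReflTransGen (St F w) a b) :
    ReflTransGen (St G w) (e a.1, a.2) (e b.1, b.2) := by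
  refine ReflTransGen.lift (p := St G w) (fun a : F.Q × Cf k Γ => (e a.1, a.2)) ?_ _ _ hc
  rintro a b ⟨t, h1, rfl⟩
  exact ⟨(e t.1, t.2), h _ _ _ _ h1, rfl⟩

theorem lft_some {Q R : Type} (e : Q → R) (r : R) (t : Q × (Fin k → Dir) × Op Γ) :
    lft e r (some t) = some (e t.1, t.2) := rfl

theorem lft_none {Q R : Type} (e : Q → R) (r : R) :
    lft e r (none : Option (Q × (Fin k → Dir) × Op Γ)) = some (r, nop) := rfl

theorem step_nop {G : Fr α k Γ} {w : List α} {q r : G.Q} {c : Cf k Γ}
    (h : G.δ q (fun i => tape w (c.1 i)) c.2.head? = some (r, nop)) :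
    St G w (q, c) (r, c) := ⟨(r, nop), h, rfl⟩

theorem c_act {w : List α} (d : Fin k → Dir) (o : Op Γ) (c : Cf k Γ) :
    ReflTransGen (St (fAct d o : Fr α k Γ) w) ((fAct d o : Fr α k Γ).s, c)
      ((fAct d o : Fr α k Γ).f, eff w c (d, o)) :=
  ReflTransGen.single ⟨(true, d, o), rfl, rfl⟩

theorem c_seq {w : List α} {F F' : Fr α k Γ} {c c₁ c' : Cf k Γ}
    (ih1 : ReflTransGen (St F w) (F.s, c) (F.f, c₁))
    (ih2 : ReflTransGen (St F' w) (F'.s, c₁) (F'.f, c')) :
    ReflTransGen (St (fSeq F F') w) ((fSeq F F').s, c) ((fSeq F F').f, c') := by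
  have h1 := lift_chain (F := F) (G := fSeq F F') Sum.inl w
    (fun q x g t ht => by
      show lft Sum.inl (Sum.inr F'.s) (F.δ q x g) = _
      rw [ht]; rfl) ih1
  have h2 := lift_chain (F := F') (G := fSeq F F') Sum.inr w
    (fun q x g t ht => by
      show (F'.δ q x g).map _ = _
      rw [ht]; rfl) ih2
  have h3 : St (fSeq F F') w (Sum.inl F.f, c₁) (Sum.inr F'.s, c₁) := by
    refine step_nop ?_
    show lft Sum.inl (Sum.inr F'.s) (F.δ F.f _ _) = _
    rw [F.hf]
    rfl
  exact (h1.tail h3).trans h2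

theorem c_iteT {w : List α} {g : (Fin k → Sym α) → Option Γ → Bool} {F F' : Fr α k Γ}
    {c c' : Cf k Γ} (ht : tst w g c = true) (ih : ReflTransGen (St F w) (F.s, c) (F.f, c')) :
    ReflTransGen (St (fIte g F F') w) ((fIte g F F').s, c) ((fIte g F F').f, c') := by
  have h0 : St (fIte g F F') w (none, c) (some (some (Sum.inl F.s)), c) := by
    refine step_nop ?_
    show some (cond (tst w g c) _ _, nop) = _
    rw [ht]
    rfl
  have h1 := lift_chain (F := F) (G := fIte g F F')
    (fun r => some (some (Sum.inl r))) w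
    (fun q x g t ht => by
      rw [fIte_inl, ht]; rfl) ih
  have h3 : St (fIte g F F') w (some (some (Sum.inl F.f)), c') (some none, c') := by
    refine step_nop ?_
    rw [fIte_inl, F.hf]
    rfl
  exact (ReflTransGen.head h0 h1).tail h3

theorem c_iteF {w : List α} {g : (Fin k → Sym α) → Option Γ → Bool} {F F' : Fr α k Γ}
    {c c' : Cf k Γ} (ht : tst w g c = false)
    (ih : ReflTransGen (St F' w) (F'.s, c) (F'.f, c')) :
    ReflTransGen (St (fIte g F F') w) ((fIte g F F').s, c) ((fIte g F F').f, c') := by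
  have h0 : St (fIte g F F') w (none, c) (some (some (Sum.inr F'.s)), c) := by
    refine step_nop ?_
    show some (cond (tst w g c) _ _, nop) = _
    rw [ht]
    rfl
  have h1 := lift_chain (F := F') (G := fIte g F F')
    (fun r => some (some (Sum.inr r))) w
    (fun q x g t ht => by
      rw [fIte_inr, ht]; rfl) ih
  have h3 : St (fIte g F F') w (some (some (Sum.inr F'.f)), c') (some none, c') := by
    refine step_nop ?_
    rw [fIte_inr, F'.hf]
    rfl
  exact (ReflTransGen.head h0 h1).tail h3

theorem c_whF {w : List α} {g : (Fin k → Sym α) → Option Γ → Bool} {F : Fr α k Γ}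
    {c : Cf k Γ} (ht : tst w g c = false) :
    ReflTransGen (St (fWh g F) w) ((fWh g F).s, c) ((fWh g F).f, c) := by
  have h0 : St (fWh g F) w (none, c) (some none, c) := by
    refine step_nop ?_
    show some (cond (tst w g c) _ _, nop) = _
    rw [ht]
    rfl
  exact ReflTransGen.single h0

theorem c_whT {w : List α} {g : (Fin k → Sym α) → Option Γ → Bool} {F : Fr α k Γ}
    {c c₁ c' : Cf k Γ} (ht : tst w g c = true)
    (ih1 : ReflTransGen (St F w) (F.s, c) (F.f, c₁))
    (ih2 : ReflTransGen (St (fWh g F) w) ((fWh g F).s, c₁) ((fWh g F).f, c')) :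
    ReflTransGen (St (fWh g F) w) ((fWh g F).s, c) ((fWh g F).f, c') := by
  have h0 : St (fWh g F) w (none, c) (some (some F.s), c) := by
    refine step_nop ?_
    show some (cond (tst w g c) _ _, nop) = _
    rw [ht]
    rfl
  have h1 := lift_chain (F := F) (G := fWh g F)
    (fun r => some (some r)) w
    (fun q x g t ht => by
      rw [fWh_some, ht]; rfl) ih1
  have h3 : St (fWh g F) w (some (some F.f), c₁) (none, c₁) := by
    refine step_nop ?_
    rw [fWh_some, F.hf]
    rfl
  exact (ReflTransGen.head h0 (h1.tail h3)).trans ih2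

theorem chain {w : List α} {P : DP α k Γ} {c c' : Cf k Γ} (h : P.Ev w c c') :
    ReflTransGen (St (frag P) w) ((frag P).s, c) ((frag P).f, c') := by
  induction h with
  | act d o c => exact c_act d o c
  | seq _ _ ih1 ih2 => exact c_seq ih1 ih2
  | iteT ht _ ih => exact c_iteT ht ih
  | iteF ht _ ih => exact c_iteF ht ih
  | whF ht => exact c_whF ht
  | whT ht _ _ ih1 ih2 => exact c_whT ht ih1 ih2

/-- The transitions of the automaton. -/
def dA (F : Fr α k Γ) (acc : Option Γ → Bool) :
    Option F.Q → (Fin k → Sym α) → Option Γ → Set (Option F.Q × (Fin k → Dir) × Op Γ)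
  | none, _, _ => ∅
  | some q, x, g => match F.δ q x g with
    | some t => {(some t.1, t.2)}
    | none => {u | acc g = true ∧ u = (none, nop)}

/-- The automaton. -/
def aut (F : Fr α k Γ) (hΓ : Finite Γ) (acc : Option Γ → Bool) : PDA α k where
  Q := Option F.Q
  Γ := Γ
  finQ := by
    have := F.finQ
    infer_instance
  finΓ := hΓ
  start := some F.s
  accept := {none}
  δ := dA F acc

theorem dA_some {F : Fr α k Γ} {acc : Option Γ → Bool} {q : F.Q} {x : Fin k → Sym α}
    {g : Option Γ} {t : F.Q × (Fin k → Dir) × Op Γ} (h : F.δ q x g = some t) :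
    dA F acc (some q) x g = {(some t.1, t.2)} := by
  simp only [dA, h]

theorem dA_none {F : Fr α k Γ} {acc : Option Γ → Bool} {q : F.Q} {x : Fin k → Sym α}
    {g : Option Γ} (h : F.δ q x g = none) :
    dA F acc (some q) x g = {u | acc g = true ∧ u = (none, nop)} := by
  simp only [dA, h]

theorem dA_det (F : Fr α k Γ) (acc : Option Γ → Bool) (q : Option F.Q) (x : Fin k → Sym α)
    (g : Option Γ) : (dA F acc q x g).Subsingleton := by
  cases q with
  | none => exact Set.subsingleton_empty
  | some q =>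
    cases hd : F.δ q x g with
    | some t =>
      rw [dA_some hd]
      exact Set.subsingleton_singleton
    | none =>
      rw [dA_none hd]
      rintro a ⟨_, ha⟩ b ⟨_, hb⟩
      rw [ha, hb]

theorem aut_det (F : Fr α k Γ) (hΓ : Finite Γ) (acc : Option Γ → Bool) : (aut F hΓ acc).Det :=
  fun q x g => dA_det F acc q x g

theorem reach_iff (M : PDA α k) (w : List α) (c : Cfg M.Q (Fin k → ℕ) M.Γ) :
    (∃ t, M.Reach w t c) ↔ ReflTransGen (M.Step w) M.init c := by
  constructor
  · rintro ⟨t, h⟩
    induction h with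
    | zero => exact ReflTransGen.refl
    | succ _ h ih => exact ih.tail h
  · intro h
    induction h with
    | refl => exact ⟨0, PDA.Reach.zero⟩
    | tail _ h ih =>
      obtain ⟨t, ht⟩ := ih
      exact ⟨t + 1, PDA.Reach.succ ht h⟩

theorem det_unique {M : PDA α k} (hM : M.Det) (w : List α) : Relator.RightUnique (M.Step w) := by
  rintro a b c ⟨t, ht, rfl⟩ ⟨u, hu, rfl⟩
  rw [hM _ _ _ ht hu]

theorem lift_aut (F : Fr α k Γ) (hΓ : Finite Γ) (acc : Option Γ → Bool) (w : List α)
    {a b : F.Q × Cf k Γ} (h : ReflTransGen (St F w) a b) :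
    ReflTransGen ((aut F hΓ acc).Step w) ⟨some a.1, a.2.1, a.2.2⟩ ⟨some b.1, b.2.1, b.2.2⟩ := by
  refine ReflTransGen.lift (p := (aut F hΓ acc).Step w)
    (fun a : F.Q × Cf k Γ => (⟨some a.1, a.2.1, a.2.2⟩ : Cfg (Option F.Q) (Fin k → ℕ) Γ)) ?_ _ _ h
  rintro a b ⟨t, h1, rfl⟩
  refine ⟨(some t.1, t.2), ?_, rfl⟩
  show (some t.1, t.2) ∈ dA F acc (some a.1) (fun i => tape w (a.2.1 i)) a.2.2.head?
  rw [dA_some h1]
  rfl

end DCM

open DCM in
/-- DCM: compilation of deterministic programs. -/
theorem t_DCM : DCM_Stmt := by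
  intro α k Γ hΓ P acc
  refine ⟨aut (frag P) hΓ acc, aut_det _ _ _, ?_⟩
  intro w c hP
  have hM := aut_det (frag P) hΓ acc
  have h1 := lift_aut (frag P) hΓ acc w (chain hP)
  have hfin : ∀ (u : Option (frag P).Q × (Fin k → Dir) × Op Γ),
      u ∈ dA (frag P) acc (some (frag P).f) (fun i => tape w (c.1 i)) c.2.head? ↔
        acc c.2.head? = true ∧ u = (none, nop) := by
    intro u
    rw [dA_none ((frag P).hf _ _)]
    rfl
  constructor
  · rintro ⟨t, d, hr, hd⟩
    have h2 := (reach_iff _ w d).1 ⟨t, hr⟩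
    have hdn : d.state = none := hd
    rcases ReflTransGen.total_of_right_unique (det_unique hM w) h1 h2 with h | h
    · rcases ReflTransGen.cases_head h with h3 | ⟨e, ⟨u, hu, _⟩, _⟩
      · rw [← h3] at hdn
        exact absurd hdn (by simp)
      · exact ((hfin u).1 hu).1
    · rcases ReflTransGen.cases_head h with h3 | ⟨e, ⟨u, hu, _⟩, _⟩
      · rw [h3] at hdn
        exact absurd hdn (by simp)
      · change u ∈ dA (frag P) acc d.state _ _ at hu
        rw [hdn] at hu
        exact absurd hu (Set.notMem_empty u)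
  · intro hacc
    have h3 : (aut (frag P) hΓ acc).Step w ⟨some (frag P).f, c.1, c.2⟩ ⟨none, c.1, c.2⟩ :=
      ⟨(none, nop), (hfin _).2 ⟨hacc, rfl⟩, rfl⟩
    obtain ⟨t, ht⟩ := (reach_iff (aut (frag P) hΓ acc) w _).2 (h1.tail h3)
    exact ⟨t, _, ht, rfl⟩

end Pool.Agent.NDH
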