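import Pool.Agent.NDH.St

set_option autoImplicit false

/-!
# Module DRP: remove a word from the stack
-/

namespace Pool.Agent.NDH

namespace DRP

/-- The top symbol is a letter. -/
def isL {B L : Type} : Option (B ⊕ Option L) → Bool
  | some (Sum.inl _) => true
  | _ => false

end DRP

open DRP in
theorem t_DRP : DRP_Stmt := by
  intro Λ B L
  refine ⟨WP.wh (fun _ _ t => isL t) WP.pop, ?_⟩
  intro x h U V s hU hs
  obtain ⟨a, u, rfl⟩ : ∃ a u, U = a :: u := by
    cases U with
    | nil => exact absurd rfl hU
    | cons a u => exact ⟨a, u, rfl⟩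
  induction V with
  | nil =>
    refine WP.Ev.whF ?_
    cases s with
    | nil => rfl
    | cons g s =>
      cases g with
      | inl b => exact absurd rfl (hs b)
      | inr o => rfl
  | cons b V ih =>
    refine WP.Ev.whT (c₁ := (h, a :: u, V.map Sum.inl ++ s)) rfl ?_ ih
    exact WP.Ev.pop h (a :: u) (Sum.inl b :: (V.map Sum.inl ++ s))

end Pool.Agent.NDH
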