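import Pool.Agent.NDH.St

/-!
# Project NDH, module FET: fetch the input symbol that belongs to the current cell
-/

set_option autoImplicit false

namespace Pool.Agent.NDH

open Pool.Agent.Heads Pool.Agent.NPH Relation

namespace FET

lemma cl_append {B : Type} (U V : List B) : cl (U ++ V) = cl U ++ cl V := by
  simp [cl]

lemma cm_append {C : Type} (U V : List C) : cm (U ++ V) = cm U ++ cm V := by
  simp [cm]

/-- the test for the left endmarker -/
def isLeft {Λ : Type} : Sym Λ → Bool
  | Sym.left => true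
  | _ => false

lemma isLeft_succ {Λ : Type} (x : List Λ) (p : ℕ) : isLeft (tape x (p + 1)) = false := by
  show isLeft (match x[p]? with
    | some a => Sym.letter a
    | none => Sym.right) = false
  split <;> rfl

/-- rotate while the test holds, the head does not move -/
lemma loopS {Λ A H : Type} {x : List Λ} (g : A → Bool) (Q : WP Λ A H) (h : ℕ) (t : List H)
    (hQ : ∀ (a : A) (u : List A), Q.Ev x (h, a :: u, t) (h, u ++ [a], t)) (y : A)
    (hy : g y = false) (X : List A) : ∀ Z : List A, (∀ a ∈ X, g a = true) →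
      (WP.wh (fun a _ _ => g a) Q).Ev x (h, X ++ y :: Z, t) (h, y :: Z ++ X, t) := by
  induction X with
  | nil =>
    intro Z _
    rw [List.append_nil, List.nil_append]
    exact WP.Ev.whF hy
  | cons a X ih =>
    intro Z hX
    have h1 := ih (Z ++ [a]) (fun b hb => hX b (List.mem_cons_of_mem _ hb))
    have e1 : y :: (Z ++ [a]) ++ X = y :: Z ++ a :: X := by simp
    rw [e1] at h1
    have h2 := hQ a (X ++ y :: Z)
    have e2 : X ++ y :: Z ++ [a] = X ++ y :: (Z ++ [a]) := by simp
    rw [e2] at h2
    exact WP.Ev.whT (hX a List.mem_cons_self) h2 h1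

/-- rotate while the test holds, the head moves to the right -/
lemma loopR {Λ A H : Type} {x : List Λ} (g : A → Bool) (Q : WP Λ A H) (t : List H)
    (hQ : ∀ (h : ℕ) (a : A) (u : List A),
      Q.Ev x (h, a :: u, t) (move (x.length + 1) h Dir.R, u ++ [a], t)) (y : A)
    (hy : g y = false) (X : List A) : ∀ (Z : List A) (h : ℕ), (∀ a ∈ X, g a = true) →
      h + X.length ≤ x.length + 1 →
      (WP.wh (fun a _ _ => g a) Q).Ev x (h, X ++ y :: Z, t) (h + X.length, y :: Z ++ X, t) := by
  induction X with
  | nil =>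
    intro Z h _ _
    rw [List.append_nil, List.nil_append]
    exact WP.Ev.whF hy
  | cons a X ih =>
    intro Z h hX hh
    rw [List.length_cons] at hh ⊢
    have h1 := ih (Z ++ [a]) (h + 1) (fun b hb => hX b (List.mem_cons_of_mem _ hb)) (by omega)
    have e1 : y :: (Z ++ [a]) ++ X = y :: Z ++ a :: X := by simp
    have e3 : h + 1 + X.length = h + (X.length + 1) := by omega
    rw [e1, e3] at h1
    have h2 := hQ h a (X ++ y :: Z)
    have e2 : X ++ y :: Z ++ [a] = X ++ y :: (Z ++ [a]) := by simp
    have e4 : move (x.length + 1) h Dir.R = h + 1 := by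
      show min (h + 1) (x.length + 1) = h + 1
      omega
    rw [e2, e4] at h2
    exact WP.Ev.whT (hX a List.mem_cons_self) h2 h1

/-- the head goes to the left end -/
lemma loopL {Λ A H : Type} {x : List Λ} (a : A) (u : List A) (t : List H) : ∀ p : ℕ,
      (WP.wh (fun _ y _ => !isLeft y) (WP.hmv Dir.L)).Ev x (p, a :: u, t) (0, a :: u, t) := by
  intro p
  induction p with
  | zero => exact WP.Ev.whF rfl
  | succ p ih =>
    refine WP.Ev.whT ?_ (WP.Ev.hmv Dir.L (p + 1) (a :: u) t) ih
    rw [isLeft_succ]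
    rfl

/-- the circular word is a rotation -/
lemma circ_eq {A : Type} {n : ℕ} (l : Fin (n + 1)) (W : Fin (n + 1) → A) :
    ∃ (c : A) (L : List (A × Bool)), L.length = n ∧ (∀ a ∈ L, a.2 = false) ∧
      circ l W = ((c, true) :: L).drop l.val ++ ((c, true) :: L).take l.val := by
  have key : circ l W = (List.ofFn fun i : Fin (n + 1) => (W i, decide (i = 0))).rotate l.val := by
    apply List.ext_getElem
    · simp [circ]
    · intro i h1 h2
      rw [List.getElem_rotate]
      simp only [circ, List.getElem_ofFn, List.length_ofFn]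
      have hi : i < n + 1 := by simpa [circ] using h1
      have e : l + ⟨i, hi⟩ = ⟨(i + l.val) % (n + 1), Nat.mod_lt _ (Nat.succ_pos n)⟩ := by
        apply Fin.ext
        rw [Fin.val_add, Nat.add_comm]
      rw [e]
  refine ⟨W 0, List.ofFn fun i : Fin n => (W i.succ, false), by simp, ?_, ?_⟩
  · intro a ha
    rw [List.mem_ofFn] at ha
    obtain ⟨i, rfl⟩ := ha
    rfl
  · have e : (List.ofFn fun i : Fin (n + 1) => (W i, decide (i = 0))) =
        (W 0, true) :: List.ofFn fun i : Fin n => (W i.succ, false) := by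
      rw [List.ofFn_succ]
      simp [Fin.succ_ne_zero]
    rw [key, e, List.rotate_eq_drop_append_take]
    simp only [List.length_cons, List.length_ofFn]
    omega

end FET

open FET in
theorem t_FET (hS : SWW_Stmt) : FET_Stmt := by
  intro Λ A L _ _ _ sy
  obtain ⟨P1, h1⟩ := hS Λ (((A × Bool) × Bool) × Bool) (((A × Bool) × Bool) ⊕ Option L)
    (fun a _ _ => WP.wrt ((a.1.1, true), false))
  obtain ⟨P2, h2⟩ := hS Λ (((A × Bool) × Bool) × Bool) (((A × Bool) × Bool) ⊕ Option L)
    (fun a _ _ => WP.rot a)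
  obtain ⟨P3, h3⟩ := hS Λ (((A × Bool) × Bool) × Bool) (((A × Bool) × Bool) ⊕ Option L)
    (fun _ y _ => WP.psh (Sum.inr (some (sy y))))
  obtain ⟨P4, h4⟩ := hS Λ (((A × Bool) × Bool) × Bool) (((A × Bool) × Bool) ⊕ Option L)
    (fun a _ _ => WP.wrt ((a.1.1, false), false))
  refine ⟨WP.seq P1 (WP.seq (WP.wh (fun a _ _ => !a.1.1.2) P2) (WP.seq (WP.hmv Dir.R)
    (WP.seq (WP.wh (fun a _ _ => !a.1.2) (WP.seq P2 (WP.hmv Dir.R)))
      (WP.seq P3 (WP.seq (WP.wh (fun _ y _ => !isLeft y) (WP.hmv Dir.L)) P4))))), ?_⟩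
  intro x l W s
  have q2 : ∀ (h : ℕ) (a : ((A × Bool) × Bool) × Bool) (u : List (((A × Bool) × Bool) × Bool)),
      P2.Ev x (h, a :: u, s) (h, u ++ [a], s) := fun h a u =>
    h2 x h a u s _ (WP.Ev.rot _ _ _ _ _)
  have m1 : move (x.length + 1) 0 Dir.R = 1 := by
    show min (0 + 1) (x.length + 1) = 1
    omega
  have r2 : ∀ u : List (((A × Bool) × Bool) × Bool),
      (WP.hmv Dir.R).Ev x (0, u, s) (1, u, s) := by
    intro u
    have := WP.Ev.hmv (x := x) Dir.R 0 u s
    rwa [m1] at this
  -- the last part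
  have fin : ∀ (b : A × Bool) (R : List (A × Bool)) (p : ℕ),
      (WP.seq P3 (WP.seq (WP.wh (fun _ y _ => !isLeft y) (WP.hmv Dir.L)) P4)).Ev x
        (p, ((b, true), false) :: cl (cm R), s)
        (0, cl (cm (b :: R)), Sum.inr (some (sy (tape x p))) :: s) := by
    intro b R p
    refine WP.Ev.seq (h3 x p _ _ s _ (WP.Ev.psh _ _ _ _)) (WP.Ev.seq (loopL _ _ _ p) ?_)
    exact h4 x 0 ((b, true), false) (cl (cm R)) _ _ (WP.Ev.wrt _ _ _ _ _)
  obtain ⟨c, K, hK, hK2, hc⟩ := circ_eq l W
  rw [hc]
  have hl : l.val ≤ x.length := Nat.lt_succ_iff.1 l.isLt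
  rcases Nat.eq_zero_or_pos l.val with h0 | h0
  · -- the current cell is the cell 0
    rw [h0, List.drop_zero, List.take_zero, List.append_nil]
    refine WP.Ev.seq (h1 x 0 (((c, true), false), false) (cl (cm K)) s _
      (WP.Ev.wrt _ _ _ _ _)) ?_
    refine WP.Ev.seq (WP.Ev.whF rfl) (WP.Ev.seq (r2 _) (WP.Ev.seq (WP.Ev.whF rfl) ?_))
    exact fin (c, true) K 1
  · obtain ⟨m, hm⟩ : ∃ m, l.val = m + 1 := ⟨l.val - 1, by omega⟩
    have hm2 : m < K.length := by omega
    rw [hm, List.drop_succ_cons, List.take_succ_cons]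
    obtain ⟨b, D, hD⟩ : ∃ b D, K.drop m = b :: D := by
      cases hE : K.drop m with
      | nil =>
        have := List.drop_eq_nil_iff.1 hE
        omega
      | cons b D => exact ⟨b, D, rfl⟩
    rw [hD]
    set T := K.take m with hT
    have hTl : T.length = m := by
      rw [hT, List.length_take]
      omega
    have hb : b.2 = false := hK2 b (List.mem_of_mem_drop (hD ▸ List.mem_cons_self))
    have hDm : ∀ a ∈ D, a.2 = false := fun a ha =>
      hK2 a (List.mem_of_mem_drop (hD ▸ List.mem_cons_of_mem _ ha))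
    refine WP.Ev.seq (h1 x 0 ((b, false), false) (cl (cm (D ++ (c, true) :: T))) s _
      (WP.Ev.wrt _ _ _ _ _)) ?_
    -- the first loop
    have e1 : ((((b, false), false) : ((A × Bool) × Bool) × Bool).1.1, true) = (b, true) := rfl
    have k1 := loopS (x := x) (fun a : ((A × Bool) × Bool) × Bool => !a.1.1.2) P2 0 s (q2 0)
      (((c, true), false), false) rfl (((b, true), false) :: cl (cm D)) (cl (cm T)) (by
        intro a ha
        rcases List.mem_cons.1 ha with rfl | ha
        · simp [hb]
        · simp only [cl, cm, List.map_map, List.mem_map] at ha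
          obtain ⟨d, hd, rfl⟩ := ha
          simp [hDm d hd])
    have e2 : ((b, true), false) :: cl (cm D) ++ (((c, true), false), false) :: cl (cm T) =
        ((b, true), false) :: cl (cm (D ++ (c, true) :: T)) := by
      simp [cl, cm]
    rw [e2] at k1
    refine WP.Ev.seq k1 (WP.Ev.seq (r2 _) ?_)
    -- the second loop
    have k2 := loopR (x := x) (fun a : ((A × Bool) × Bool) × Bool => !a.1.2)
      (WP.seq P2 (WP.hmv Dir.R)) s (fun h a u => WP.Ev.seq (q2 h a u) (WP.Ev.hmv Dir.R h _ _))
      ((b, true), false) rfl ((((c, true), false), false) :: cl (cm T)) (cl (cm D)) 1 (by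
        intro a ha
        rcases List.mem_cons.1 ha with rfl | ha
        · rfl
        · simp only [cl, cm, List.map_map, List.mem_map] at ha
          obtain ⟨d, hd, rfl⟩ := ha
          rfl) (by
        simp only [List.length_cons, cl, cm, List.length_map]
        omega)
    have e3 : 1 + ((((c, true), false), false) :: cl (cm T)).length = m + 1 + 1 := by
      simp only [List.length_cons, cl, cm, List.length_map]
      omega
    have e4 : ((b, true), false) :: cl (cm D) ++ (((c, true), false), false) :: cl (cm T) =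
        ((b, true), false) :: cl (cm (D ++ (c, true) :: T)) := by
      simp [cl, cm]
    rw [e3, e4] at k2
    refine WP.Ev.seq k2 ?_
    exact fin b (D ++ (c, true) :: T) (m + 1 + 1)

end Pool.Agent.NDH
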