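import Pool.Agent.Lib_helper16.Heads.Defs

/-!
# Project NDH: an additional head that is not used
-/

set_option autoImplicit false

namespace Pool.Agent.NDH

open Pool.Agent.Heads

namespace HED

/-- The automaton with one more head, which never moves. -/
def ext {α : Type} {k : ℕ} (M : PDA α k) : PDA α (k + 1) where
  Q := M.Q
  Γ := M.Γ
  finQ := M.finQ
  finΓ := M.finΓ
  start := M.start
  accept := M.accept
  δ := fun q x g => (fun t : M.Q × (Fin k → Dir) × Op M.Γ => (t.1, Fin.snoc t.2.1 Dir.S, t.2.2)) ''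
    M.δ q (fun i => x i.castSucc) g

theorem reach {α : Type} {k : ℕ} (M : PDA α k) (w : List α) {t : ℕ}
    {c : Cfg M.Q (Fin k → ℕ) M.Γ} (h : M.Reach w t c) :
    (ext M).Reach w t ⟨c.state, Fin.snoc c.pos 0, c.stack⟩ := by
  induction h with
  | zero =>
    have : (⟨M.init.state, Fin.snoc M.init.pos 0, M.init.stack⟩ :
        Cfg (ext M).Q (Fin (k + 1) → ℕ) (ext M).Γ) = (ext M).init := by
      simp only [PDA.init, ext]
      congr 1
      funext i
      refine Fin.lastCases ?_ (fun j => ?_) i <;> simp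
    rw [this]
    exact PDA.Reach.zero
  | @succ t c c' h hs ih =>
    refine PDA.Reach.succ ih ?_
    obtain ⟨u, hu, rfl⟩ := hs
    refine ⟨(u.1, Fin.snoc u.2.1 Dir.S, u.2.2), ⟨u, ?_, rfl⟩, ?_⟩
    · have e : (fun i : Fin k => tape w ((Fin.snoc c.pos 0 : Fin (k + 1) → ℕ) i.castSucc)) =
          fun i => tape w (c.pos i) := by
        funext i
        simp
      show u ∈ M.δ c.state (fun i : Fin k => tape w ((Fin.snoc c.pos 0 : Fin (k + 1) → ℕ) i.castSucc))
        c.stack.head?
      rw [e]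
      exact hu
    · simp only
      congr 1
      funext i
      refine Fin.lastCases ?_ (fun j => ?_) i <;> simp [move]

theorem reach' {α : Type} {k : ℕ} (M : PDA α k) (w : List α) {t : ℕ}
    {c : Cfg (ext M).Q (Fin (k + 1) → ℕ) (ext M).Γ} (h : (ext M).Reach w t c) :
    M.Reach w t ⟨c.state, fun i => c.pos i.castSucc, c.stack⟩ := by
  induction h with
  | zero => exact PDA.Reach.zero
  | @succ t c c' h hs ih =>
    refine PDA.Reach.succ ih ?_
    obtain ⟨u, ⟨v, hv, rfl⟩, rfl⟩ := hs
    refine ⟨v, hv, ?_⟩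
    simp only
    congr 1
    funext i
    simp

theorem det {α : Type} {k : ℕ} (M : PDA α k) (h : M.Det) : (ext M).Det := by
  intro q x g a ha b hb
  obtain ⟨a', ha', rfl⟩ := ha
  obtain ⟨b', hb', rfl⟩ := hb
  rw [h _ _ _ ha' hb']

theorem lang {α : Type} {k : ℕ} (M : PDA α k) : (ext M).lang = M.lang := by
  ext w
  constructor
  · rintro ⟨t, c, h, hc⟩
    exact ⟨t, _, reach' M w h, hc⟩
  · rintro ⟨t, c, h, hc⟩
    exact ⟨t, _, reach M w h, hc⟩

end HED

/-- One more head does not hurt. -/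
theorem t_HED (α : Type) (k : ℕ) (M : PDA α k) :
    ∃ M' : PDA α (k + 1), (M.Det → M'.Det) ∧ M'.lang = M.lang :=
  ⟨HED.ext M, HED.det M, HED.lang M⟩

end Pool.Agent.NDH
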