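import Pool.Agent.NDH.St

/-! Module LOA: load a word from the stack. -/

set_option autoImplicit false

namespace Pool.Agent.NDH

open Pool.Agent.Heads Pool.Agent.NPH Relation

namespace LOA

/-- the body of the loop -/
def body (Λ B L : Type) : (B × Bool) → Sym Λ → Option (B ⊕ Option L) →
    WP Λ (B × Bool) (B ⊕ Option L)
  | _, _, some (Sum.inl b) => WP.seq WP.pop (WP.rot (b, false))
  | _, _, _ => WP.pop

/-- the test of the loop -/
def test (Λ B L : Type) : (B × Bool) → Sym Λ → Option (B ⊕ Option L) → Bool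
  | _, _, some (Sum.inl _) => true
  | _, _, _ => false

theorem test_false {Λ B L : Type} (a : B × Bool) (y : Sym Λ) (t : Option (B ⊕ Option L))
    (ht : ∀ b : B, t ≠ some (Sum.inl b)) : test Λ B L a y t = false := by
  unfold test
  split
  · exact absurd rfl (ht _)
  · rfl

theorem loop {Λ B L : Type} (Q : WP Λ (B × Bool) (B ⊕ Option L))
    (hQ : ∀ (x : List Λ) (h : ℕ) (a : B × Bool) (u : List (B × Bool)) (s : List (B ⊕ Option L))
      (c' : WC (B × Bool) (B ⊕ Option L)),
      (body Λ B L a (tape x h) s.head?).Ev x (h, a :: u, s) c' → Q.Ev x (h, a :: u, s) c')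
    (x : List Λ) (h : ℕ) (s : List (B ⊕ Option L)) (hs : Cl s) (V : List B) :
    ∀ (U T : List (B × Bool)), U.length = V.length → U ++ T ≠ [] →
      (WP.wh (test Λ B L) Q).Ev x (h, U ++ T, V.map Sum.inl ++ s) (h, T ++ cl V, s) := by
  induction V with
  | nil =>
    intro U T hU hne
    have hU0 : U = [] := List.length_eq_zero_iff.1 hU
    subst hU0
    rw [List.nil_append] at hne ⊢
    obtain ⟨a, u, rfl⟩ := List.exists_cons_of_ne_nil hne
    have e : (a :: u) ++ cl ([] : List B) = a :: u := by simp [cl]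
    rw [e, List.map_nil, List.nil_append]
    exact WP.Ev.whF (test_false a _ _ hs)
  | cons b V ih =>
    intro U T hU hne
    obtain ⟨a, U', rfl⟩ : ∃ a U', U = a :: U' := by
      cases U with
      | nil => simp at hU
      | cons a U' => exact ⟨a, U', rfl⟩
    have hU' : U'.length = V.length := by simpa using hU
    have h2 := ih U' (T ++ [(b, false)]) hU' (by simp)
    have e1 : (T ++ [(b, false)]) ++ cl V = T ++ cl (b :: V) := by simp [cl]
    have e2 : U' ++ (T ++ [(b, false)]) = (U' ++ T) ++ [(b, false)] := by simp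
    rw [e1, e2] at h2
    rw [List.cons_append, List.map_cons, List.cons_append]
    refine WP.Ev.whT rfl (hQ x h a (U' ++ T) _ _ ?_) h2
    exact WP.Ev.seq (WP.Ev.pop h _ _) (WP.Ev.rot (b, false) h a (U' ++ T) _)

end LOA

theorem t_LOA (hSWW : SWW_Stmt) : LOA_Stmt := by
  intro Λ B L _ _ _
  obtain ⟨Q, hQ⟩ := hSWW Λ (B × Bool) (B ⊕ Option L) (LOA.body Λ B L)
  refine ⟨WP.wh (LOA.test Λ B L) Q, ?_⟩
  intro x h U V s hV hU hs
  have hne : U ++ ([] : List (B × Bool)) ≠ [] := by
    rw [List.append_nil]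
    intro h0
    rw [h0] at hU
    exact hV (List.length_eq_zero_iff.1 hU.symm)
  have := LOA.loop Q hQ x h s hs V U [] hU hne
  rwa [List.append_nil, List.nil_append] at this

end Pool.Agent.NDH
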