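import Pool.Agent.NDH.St

/-!
# Project NDH, module MVR: a step of the reading head
-/

set_option autoImplicit false

namespace Pool.Agent.NDH

open Pool.Agent.Heads Pool.Agent.NPH Relation

namespace MVR

theorem tape_left {Λ : Type} (x : List Λ) (j : ℕ) : tape x j = Sym.left ↔ j = 0 := by
  cases j with
  | zero => simp [tape]
  | succ p =>
    simp only [tape]
    cases x[p]? <;> simp

theorem tape_right {Λ : Type} (x : List Λ) (j : ℕ) (hj : j ≤ x.length + 1) :
    tape x j = Sym.right ↔ j = x.length + 1 := by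
  cases j with
  | zero => simp [tape]
  | succ p =>
    simp only [tape]
    by_cases hp : p < x.length
    · rw [List.getElem?_eq_getElem hp]
      simp only [reduceCtorEq, false_iff]
      omega
    · rw [List.getElem?_eq_none (by omega)]
      simp only [true_iff]
      omega

/-- is it a blank -/
def isBl {Λ : Type} : Sym (Option (Sym Λ)) → Bool
  | Sym.letter none => true
  | _ => false

/-- is it the left endmarker of the unpadded word -/
def isLf {Λ : Type} : Sym (Option (Sym Λ)) → Bool
  | Sym.letter (some Sym.left) => true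
  | _ => false

/-- is it the right endmarker of the unpadded word -/
def isRt {Λ : Type} : Sym (Option (Sym Λ)) → Bool
  | Sym.letter (some Sym.right) => true
  | _ => false

/-- is it a scratch symbol -/
def isSc {X H : Type} : Option (X ⊕ H) → Bool
  | some (Sum.inl _) => true
  | _ => false

section

variable {Λ Γ : Type}

/-- while blank -/
def wB (d : Dir) (o : Op Γ) : DP (Option (Sym Λ)) 1 Γ :=
  DP.wh (fun t _ => isBl (t 0)) (DP.act (fun _ => d) o)

/-- an action, with the results given by equations -/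
theorem act_eq {α : Type} {w : List α} {d : Dir} {o : Op Γ} {a b : ℕ} {s s' : List Γ}
    (h1 : move (w.length + 1) a d = b) (h2 : o.apply s = s') :
    (DP.act (fun _ => d) o : DP α 1 Γ).Ev w (fun _ => a, s) (fun _ => b, s') := by
  subst h1 h2
  exact DP.Ev.act (fun _ => d) o (fun _ => a, s)

theorem wB_stop {w : List (Option (Sym Λ))} {d : Dir} {o : Op Γ} {a : ℕ} {s : List Γ}
    (h : isBl (tape w a) = false) : (wB d o).Ev w (fun _ => a, s) (fun _ => a, s) :=
  DP.Ev.whF h

theorem wB_step {w : List (Option (Sym Λ))} {d : Dir} {o : Op Γ} {a b : ℕ} {s s' : List Γ}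
    {c' : Cf 1 Γ} (h : isBl (tape w a) = true) (h1 : move (w.length + 1) a d = b)
    (h2 : o.apply s = s') (h3 : (wB d o).Ev w (fun _ => b, s') c') :
    (wB d o).Ev w (fun _ => a, s) c' :=
  DP.Ev.whT h (act_eq h1 h2) h3

end

section

variable {Λ : Type} {M : ℕ} {x : List Λ}

theorem cel_lt (hPAD : PAD_Stmt) (hM : 1 ≤ M) {j P : ℕ}
    (hj : j ≤ x.length + 1) (hP : P < M) : cel M j P < (pad M x).length + 1 := by
  rw [(hPAD Λ M x hM).1]
  have h2 : j * M ≤ (x.length + 1) * M := Nat.mul_le_mul_right M hj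
  have h3 : (x.length + 2) * M = (x.length + 1) * M + M := by ring
  unfold cel
  omega

theorem mvR (hPAD : PAD_Stmt) (hM : 1 ≤ M) {j P : ℕ} (hj : j ≤ x.length + 1) (hP : P < M) :
    move ((pad M x).length + 1) (cel M j P) Dir.R = cel M j (P + 1) := by
  have h1 := cel_lt (x := x) hPAD hM hj hP
  have h2 : cel M j (P + 1) = cel M j P + 1 := by
    unfold cel
    omega
  rw [h2]
  simp only [move]
  omega

theorem mvL (N j P : ℕ) : move N (cel M j (P + 1)) Dir.L = cel M j P := by
  have h2 : cel M j (P + 1) = cel M j P + 1 := by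
    unfold cel
    omega
  rw [h2]
  simp only [move]
  omega

theorem cel_full (j : ℕ) : cel M j M = cel M (j + 1) 0 := by
  unfold cel
  ring

theorem bl_pos (hPAD : PAD_Stmt) (hM : 1 ≤ M) {j P : ℕ} (hj : j ≤ x.length + 1) (hP : P < M)
    (h0 : P ≠ 0) : isBl (tape (pad M x) (cel M j P)) = true := by
  rw [(hPAD Λ M x hM).2.1 j P hj hP, if_neg h0]
  rfl

theorem tp_zero (hPAD : PAD_Stmt) (hM : 1 ≤ M) {j : ℕ} (hj : j ≤ x.length + 1) :
    tape (pad M x) (cel M j 0) = Sym.letter (some (tape x j)) := by
  rw [(hPAD Λ M x hM).2.1 j 0 hj (by omega), if_pos rfl]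

theorem bl_zero (hPAD : PAD_Stmt) (hM : 1 ≤ M) {j : ℕ} (hj : j ≤ x.length + 1) :
    isBl (tape (pad M x) (cel M j 0)) = false := by
  rw [tp_zero hPAD hM hj]
  rfl

variable {Γ : Type}

/-- loop A -/
theorem loopA (hPAD : PAD_Stmt) (hM : 1 ≤ M) {j : ℕ} (hj : j ≤ x.length + 1) (g : Γ) :
    ∀ (P : ℕ) (s : List Γ), P < M →
      (wB Dir.L (Op.push g)).Ev (pad M x) (fun _ => cel M j P, s)
        (fun _ => cel M j 0, List.replicate P g ++ s)
  | 0, s, _ => wB_stop (bl_zero hPAD hM hj)
  | P + 1, s, hP => by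
    have ih := loopA hPAD hM hj g P (g :: s) (by omega)
    have e : List.replicate P g ++ g :: s = List.replicate (P + 1) g ++ s := by
      rw [List.replicate_succ']
      simp
    rw [← e]
    exact wB_step (bl_pos hPAD hM hj hP (by omega)) (mvL _ j P) rfl ih

/-- loop left without push -/
theorem loopL (hPAD : PAD_Stmt) (hM : 1 ≤ M) {j : ℕ} (hj : j ≤ x.length + 1) (s : List Γ) :
    ∀ P : ℕ, P < M →
      (wB Dir.L Op.none).Ev (pad M x) (fun _ => cel M j P, s) (fun _ => cel M j 0, s)
  | 0, _ => wB_stop (bl_zero hPAD hM hj)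
  | P + 1, hP =>
    wB_step (bl_pos hPAD hM hj hP (by omega)) (mvL _ j P) rfl (loopL hPAD hM hj s P (by omega))

/-- loop right -/
theorem loopR (hPAD : PAD_Stmt) (hM : 1 ≤ M) {j : ℕ} (hj : j ≤ x.length) (s : List Γ) :
    ∀ n Q : ℕ, 1 ≤ Q → Q + n = M →
      (wB Dir.R Op.none).Ev (pad M x) (fun _ => cel M j Q, s) (fun _ => cel M (j + 1) 0, s)
  | 0, Q, _, hQ => by
    have h1 : cel M j Q = cel M (j + 1) 0 := by
      rw [show Q = M by omega]
      exact cel_full j
    rw [h1]
    exact wB_stop (bl_zero hPAD hM (by omega))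
  | n + 1, Q, h0, hQ =>
    wB_step (bl_pos hPAD hM (by omega) (by omega) (by omega)) (mvR hPAD hM (by omega) (by omega))
      rfl (loopR hPAD hM hj s n (Q + 1) (by omega) (by omega))

end

section

variable {Λ X H : Type} {M : ℕ} {x : List Λ}

/-- the last loop -/
def wS (α X H : Type) : DP α 1 (X ⊕ H) :=
  DP.wh (fun _ t => isSc t) (DP.act (fun _ => Dir.R) Op.pop)

theorem isSc_Cl {s : List (X ⊕ H)} (h : Cl s) : isSc s.head? = false := by
  cases s with
  | nil => rfl
  | cons a s =>
    cases a with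
    | inl b => exact absurd rfl (h b)
    | inr b => rfl

theorem loopS (hPAD : PAD_Stmt) (hM : 1 ≤ M) {j : ℕ} (hj : j ≤ x.length + 1) (b : X)
    (s : List (X ⊕ H)) (hs : Cl s) : ∀ (P Q : ℕ), Q + P < M →
      (wS (Option (Sym Λ)) X H).Ev (pad M x)
        (fun _ => cel M j Q, List.replicate P (Sum.inl b) ++ s) (fun _ => cel M j (Q + P), s)
  | 0, Q, _ => DP.Ev.whF (isSc_Cl hs)
  | P + 1, Q, hP => by
    have ih := loopS hPAD hM hj b s hs P (Q + 1) (by omega)
    have e : Q + (P + 1) = Q + 1 + P := by omega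
    rw [e]
    refine DP.Ev.whT rfl (act_eq (mvR hPAD hM hj (by omega)) rfl) ?_
    exact ih

end

end MVR

open MVR in
theorem t_MVR (hPAD : PAD_Stmt) : MVR_Stmt := by
  intro Λ G _ _ β d hβ
  have c0 : Sc β := (⟨0, by omega⟩, false)
  cases d with
  | S =>
    refine ⟨DP.act (fun _ => Dir.S) Op.none, ?_⟩
    intro M x j P s hM hj hP hs
    exact act_eq rfl rfl
  | R =>
    refine ⟨DP.seq (wB Dir.L (Op.push (Sum.inl c0))) (DP.seq
      (DP.ite (fun t _ => isRt (t 0)) (DP.act (fun _ => Dir.S) Op.none)
        (DP.seq (DP.act (fun _ => Dir.R) Op.none) (wB Dir.R Op.none)))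
      (wS (Option (Sym Λ)) (Sc β) G)), ?_⟩
    intro M x j P s hM hj hP hs
    have hM1 : 1 ≤ M := by omega
    refine DP.Ev.seq (loopA hPAD hM1 hj (Sum.inl c0) P s hP) ?_
    have hmv : move (x.length + 1) j Dir.R ≤ x.length + 1 := by
      simp only [move]
      omega
    have hlast := loopS (Λ := Λ) (x := x) hPAD hM1 hmv c0 s hs P 0 (by omega)
    rw [Nat.zero_add] at hlast
    refine DP.Ev.seq ?_ hlast
    by_cases hr : j = x.length + 1
    · have hmv2 : move (x.length + 1) j Dir.R = j := by
        simp only [move]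
        omega
      rw [hmv2]
      refine DP.Ev.iteT ?_ (act_eq rfl rfl)
      change isRt (tape (pad M x) (cel M j 0)) = true
      rw [tp_zero hPAD hM1 hj, (tape_right x j hj).mpr hr]
      rfl
    · have hmv2 : move (x.length + 1) j Dir.R = j + 1 := by
        simp only [move]
        omega
      rw [hmv2]
      refine DP.Ev.iteF ?_ (DP.Ev.seq (act_eq (mvR hPAD hM1 hj (by omega)) rfl)
        (loopR hPAD hM1 (by omega) _ (M - 1) 1 (by omega) (by omega)))
      change isRt (tape (pad M x) (cel M j 0)) = false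
      rw [tp_zero hPAD hM1 hj]
      have h3 : tape x j ≠ Sym.right := fun h => hr ((tape_right x j hj).mp h)
      revert h3
      cases tape x j with
      | left => intro _; rfl
      | letter a => intro _; rfl
      | right => intro h; exact absurd rfl h
  | L =>
    refine ⟨DP.seq (wB Dir.L (Op.push (Sum.inl c0))) (DP.seq
      (DP.ite (fun t _ => isLf (t 0)) (DP.act (fun _ => Dir.S) Op.none)
        (DP.seq (DP.act (fun _ => Dir.L) Op.none) (wB Dir.L Op.none)))
      (wS (Option (Sym Λ)) (Sc β) G)), ?_⟩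
    intro M x j P s hM hj hP hs
    have hM1 : 1 ≤ M := by omega
    refine DP.Ev.seq (loopA hPAD hM1 hj (Sum.inl c0) P s hP) ?_
    have hmv : move (x.length + 1) j Dir.L ≤ x.length + 1 := by
      simp only [move]
      omega
    have hlast := loopS (Λ := Λ) (x := x) hPAD hM1 hmv c0 s hs P 0 (by omega)
    rw [Nat.zero_add] at hlast
    refine DP.Ev.seq ?_ hlast
    by_cases hr : j = 0
    · have hmv2 : move (x.length + 1) j Dir.L = j := by
        simp only [move]
        omega
      rw [hmv2]
      refine DP.Ev.iteT ?_ (act_eq rfl rfl)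
      change isLf (tape (pad M x) (cel M j 0)) = true
      rw [tp_zero hPAD hM1 hj, (tape_left x j).mpr hr]
      rfl
    · obtain ⟨i, rfl⟩ : ∃ i, j = i + 1 := ⟨j - 1, by omega⟩
      have hmv2 : move (x.length + 1) (i + 1) Dir.L = i := by
        simp only [move]
        omega
      rw [hmv2]
      have hstep : move ((pad M x).length + 1) (cel M (i + 1) 0) Dir.L = cel M i (M - 1) := by
        rw [← cel_full i]
        have h5 : M = M - 1 + 1 := by omega
        calc move ((pad M x).length + 1) (cel M i M) Dir.L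
            = move ((pad M x).length + 1) (cel M i (M - 1 + 1)) Dir.L := by rw [← h5]
          _ = cel M i (M - 1) := mvL _ i (M - 1)
      refine DP.Ev.iteF ?_ (DP.Ev.seq (act_eq hstep rfl)
        (loopL hPAD hM1 (by omega) _ (M - 1) (by omega)))
      change isLf (tape (pad M x) (cel M (i + 1) 0)) = false
      rw [tp_zero hPAD hM1 hj]
      have h3 : tape x (i + 1) ≠ Sym.left := fun h => hr ((tape_left x (i + 1)).mp h)
      revert h3
      cases tape x (i + 1) with
      | left => intro h; exact absurd rfl h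
      | letter a => intro _; rfl
      | right => intro _; rfl

end Pool.Agent.NDH
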