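import Pool.Agent.NDH.St

/-! # Project NDH, module RDA: all heads read. -/

set_option autoImplicit false

namespace Pool.Agent.NDH

open Pool.Agent.Heads Pool.Agent.NPH Relation

namespace RDA

theorem aux (hRDG : RDG_Stmt) (Λ G : Type) [Finite Λ] [Finite G] (β : ℕ) (hβ : 2 ≤ β) (k : ℕ)
    (F : (Fin k → Fin β × Sym Λ) → DP (Option (Sym Λ)) k (Sc β ⊕ G)) (l : List (Fin k)) :
    ∃ Q : (Fin k → Fin β × Sym Λ) → DP (Option (Sym Λ)) k (Sc β ⊕ G),
      ∀ (v : Fin k → Fin β × Sym Λ) (M : ℕ) (x : List Λ) (j P : Fin k → ℕ)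
        (s : List (Sc β ⊕ G)) (c' : Cf k (Sc β ⊕ G)), 2 ≤ M → (∀ i, j i ≤ x.length + 1) →
        (∀ i, P i < M) → Cl s →
        (F (fun i => if i ∈ l then (⟨P i % β, Nat.mod_lt _ (by omega)⟩, tape x (j i))
          else v i)).Ev (pad M x) (fun i => cel M (j i) (P i), s) c' →
        (Q v).Ev (pad M x) (fun i => cel M (j i) (P i), s) c' := by
  induction l with
  | nil =>
    refine ⟨F, ?_⟩
    intro v M x j P s c' _ _ _ _ h
    have e : (fun i => if i ∈ ([] : List (Fin k)) then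
        ((⟨P i % β, Nat.mod_lt _ (by omega)⟩ : Fin β), tape x (j i)) else v i) = v := by
      funext i
      simp
    rw [e] at h
    exact h
  | cons i₀ l ih =>
    obtain ⟨Q, hQ⟩ := ih
    have hR := fun v : Fin k → Fin β × Sym Λ =>
      hRDG Λ G β hβ k i₀ (fun r a => Q (Function.update v i₀ (r, a)))
    choose Q' hQ' using hR
    refine ⟨Q', ?_⟩
    intro v M x j P s c' hM hj hP hs h
    refine hQ' v M x _ (j i₀) (P i₀) s c' hM (hj i₀) (hP i₀) rfl hs ?_
    refine hQ _ M x j P s c' hM hj hP hs ?_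
    have e : (fun i => if i ∈ l then
        ((⟨P i % β, Nat.mod_lt _ (by omega)⟩ : Fin β), tape x (j i)) else
          Function.update v i₀ ((⟨P i₀ % β, Nat.mod_lt _ (by omega)⟩ : Fin β),
            tape x (j i₀)) i) =
        (fun i => if i ∈ i₀ :: l then
        ((⟨P i % β, Nat.mod_lt _ (by omega)⟩ : Fin β), tape x (j i)) else v i) := by
      funext i
      by_cases hi : i ∈ l
      · simp [hi]
      · by_cases hi0 : i = i₀
        · subst hi0
          simp
        · simp [hi, hi0]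
    rw [e]
    exact h

end RDA

theorem t_RDA (hRDG : RDG_Stmt) : RDA_Stmt := by
  intro Λ G _ _ β hβ k F
  obtain ⟨Q, hQ⟩ := RDA.aux hRDG Λ G β hβ k F (List.finRange k)
  refine ⟨Q (fun _ => (⟨0, by omega⟩, Sym.left)), ?_⟩
  intro M x j P s c' hM hj hP hs h
  refine hQ _ M x j P s c' hM hj hP hs ?_
  simpa using h

end Pool.Agent.NDH
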