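import Pool.Agent.NDH.St

/-!
# Project NDH, module RDG (helper3): head `i` reads its lowest digit and its letter
-/

set_option autoImplicit false

namespace Pool.Agent.NDH

open Pool.Agent.Heads Pool.Agent.NPH Relation

namespace RDG

variable {Λ G : Type} {β k : ℕ}

theorem finSym (Λ : Type) [Finite Λ] : Finite (Sym Λ) := by
  refine Finite.of_injective (β := Option (Option Λ)) (fun s => match s with
    | Sym.left => none
    | Sym.right => some none
    | Sym.letter a => some (some a)) ?_
  intro a b h
  cases a <;> cases b <;> simp at h <;> first | rfl | (subst h; rfl)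

/-- Head `i` moves, the others stay. -/
def mvi (i : Fin k) (d : Dir) : Fin k → Dir := fun j => if j = i then d else Dir.S

/-- Is the symbol `letter none`? -/
def nl : Sym (Option (Sym Λ)) → Bool
  | Sym.letter none => true
  | _ => false

/-- The letter. -/
def getS : Sym (Option (Sym Λ)) → Sym Λ
  | Sym.letter (some a) => a
  | _ => Sym.left

/-- The symbol scanned by head `i` is `letter none`. -/
def isN (i : Fin k) : (Fin k → Sym (Option (Sym Λ))) → Option (Sc β ⊕ G) → Bool :=
  fun x _ => nl (x i)

/-- The top symbol is a scratch symbol. -/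
def isS : (Fin k → Sym (Option (Sym Λ))) → Option (Sc β ⊕ G) → Bool :=
  fun _ t => match t with
    | some (Sum.inl _) => true
    | _ => false

/-- The next label. -/
def nxt (hβ : 2 ≤ β) : Option (Sc β ⊕ G) → Fin β
  | some (Sum.inl (r, _)) => ⟨(r.val + 1) % β, Nat.mod_lt _ (by omega)⟩
  | _ => ⟨1 % β, Nat.mod_lt _ (by omega)⟩

/-- The label of the top symbol. -/
def lab (hβ : 2 ≤ β) : Option (Sc β ⊕ G) → Fin β
  | some (Sum.inl (r, _)) => r
  | _ => ⟨0, by omega⟩

/-- `n` scratch symbols. -/
def stk (hβ : 2 ≤ β) (s : List (Sc β ⊕ G)) : ℕ → List (Sc β ⊕ G)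
  | 0 => s
  | n + 1 => Sum.inl (⟨(n + 1) % β, Nat.mod_lt _ (by omega)⟩, false) :: stk hβ s n

theorem nxt_stk (hβ : 2 ≤ β) {s : List (Sc β ⊕ G)} (hs : Cl s) (n : ℕ) :
    nxt hβ (stk hβ s n).head? = ⟨(n + 1) % β, Nat.mod_lt _ (by omega)⟩ := by
  cases n with
  | zero =>
    show nxt hβ s.head? = _
    rcases h : s.head? with _ | g
    · rfl
    · rcases g with b | g
      · exact absurd h (hs b)
      · rfl
  | succ n =>
    show (⟨((n + 1) % β + 1) % β, _⟩ : Fin β) = _
    apply Fin.ext
    show ((n + 1) % β + 1) % β = (n + 1 + 1) % β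
    rw [Nat.mod_add_mod]

theorem lab_stk (hβ : 2 ≤ β) {s : List (Sc β ⊕ G)} (hs : Cl s) (n : ℕ) :
    lab hβ (stk hβ s n).head? = ⟨n % β, Nat.mod_lt _ (by omega)⟩ := by
  cases n with
  | zero =>
    show lab hβ s.head? = _
    rcases h : s.head? with _ | g
    · apply Fin.ext
      show 0 = 0 % β
      rw [Nat.zero_mod]
    · rcases g with b | g
      · exact absurd h (hs b)
      · apply Fin.ext
        show 0 = 0 % β
        rw [Nat.zero_mod]
  | succ n => rfl

theorem act_ev {w : List (Option (Sym Λ))} (i : Fin k) (p : Fin k → ℕ) (v v' : ℕ) (d : Dir)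
    (o : Op (Sc β ⊕ G)) (s s' : List (Sc β ⊕ G)) (hv : move (w.length + 1) v d = v')
    (hs : o.apply s = s') :
    (DP.act (mvi i d) o).Ev w (Function.update p i v, s) (Function.update p i v', s') := by
  have h : (DP.act (mvi i d) o).Ev w (Function.update p i v, s)
      (fun j => move (w.length + 1) (Function.update p i v j) (mvi i d j), o.apply s) :=
    DP.Ev.act (mvi i d) o (Function.update p i v, s)
  have e : (fun j => move (w.length + 1) (Function.update p i v j) (mvi i d j)) =
      Function.update p i v' := by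
    funext j
    by_cases hj : j = i
    · subst hj
      rw [Function.update_self, Function.update_self]
      unfold mvi
      rw [if_pos rfl, hv]
    · rw [Function.update_of_ne hj, Function.update_of_ne hj]
      unfold mvi
      rw [if_neg hj]
      rfl
  rw [e, hs] at h
  exact h

theorem tst_isN (w : List (Option (Sym Λ))) (i : Fin k) (p : Fin k → ℕ) (v : ℕ)
    (s : List (Sc β ⊕ G)) :
    tst w (isN i) (Function.update p i v, s) = nl (tape w v) := by
  show nl (tape w (Function.update p i v i)) = _
  rw [Function.update_self]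

theorem loop1 (hPAD : PAD_Stmt) (hβ : 2 ≤ β) (i : Fin k)
    (B : DP (Option (Sym Λ)) k (Sc β ⊕ G))
    (hB : ∀ (w : List (Option (Sym Λ))) (c c' : Cf k (Sc β ⊕ G)),
      (DP.act (mvi i Dir.L) (Op.push (Sum.inl (nxt hβ c.2.head?, false)))).Ev w c c' →
      B.Ev w c c')
    {M : ℕ} {x : List Λ} {j P : ℕ} (p : Fin k → ℕ) {s : List (Sc β ⊕ G)} (hM : 2 ≤ M)
    (hj : j ≤ x.length + 1) (hP : P < M) (hs : Cl s) : ∀ m n : ℕ, n + m = P →
    (DP.wh (isN i) B).Ev (pad M x) (Function.update p i (cel M j m), stk hβ s n)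
      (Function.update p i (cel M j 0), stk hβ s P) := by
  obtain ⟨-, hT, -⟩ := hPAD Λ M x (by omega)
  intro m
  induction m with
  | zero =>
    intro n hn
    have hn' : n = P := by omega
    subst hn'
    apply DP.Ev.whF
    rw [tst_isN, hT j 0 hj (by omega), if_pos rfl]
    rfl
  | succ m ih =>
    intro n hn
    have hstep : B.Ev (pad M x) (Function.update p i (cel M j (m + 1)), stk hβ s n)
        (Function.update p i (cel M j m), stk hβ s (n + 1)) := by
      apply hB
      apply act_ev
      · show cel M j (m + 1) - 1 = cel M j m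
        unfold cel
        omega
      · show Sum.inl (nxt hβ (stk hβ s n).head?, false) :: stk hβ s n = _
        rw [nxt_stk hβ hs n]
        rfl
    refine DP.Ev.whT ?_ hstep (ih (n + 1) (by omega))
    rw [tst_isN, hT j (m + 1) hj (by omega), if_neg (by omega)]
    rfl

theorem loop3 (hβ : 2 ≤ β) (i : Fin k) (w : List (Option (Sym Λ))) (p : Fin k → ℕ)
    {s : List (Sc β ⊕ G)} (hs : Cl s) : ∀ n v : ℕ, v + n ≤ w.length + 1 →
    (DP.wh isS (DP.act (mvi i Dir.R) Op.pop)).Ev w (Function.update p i v, stk hβ s n)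
      (Function.update p i (v + n), s) := by
  intro n
  induction n with
  | zero =>
    intro v _
    apply DP.Ev.whF
    show isS _ s.head? = false
    rcases h : s.head? with _ | g
    · rfl
    · rcases g with b | g
      · exact absurd h (hs b)
      · rfl
  | succ n ih =>
    intro v hv
    have hstep : (DP.act (mvi i Dir.R) Op.pop).Ev w (Function.update p i v, stk hβ s (n + 1))
        (Function.update p i (v + 1), stk hβ s n) := by
      apply act_ev
      · show min (v + 1) (w.length + 1) = v + 1
        omega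
      · rfl
    have h2 := ih (v + 1) (by omega)
    have e : v + 1 + n = v + (n + 1) := by omega
    rw [e] at h2
    exact DP.Ev.whT rfl hstep h2

end RDG

open RDG in
theorem t_RDG (hPAD : PAD_Stmt) (hSWI : SWI_Stmt) : RDG_Stmt := by
  intro Λ G _ _ β hβ k i F
  have : Finite (Sym Λ) := finSym Λ
  obtain ⟨B, hB⟩ := hSWI (Option (Sym Λ)) k (Sc β ⊕ G)
    (fun _ t => DP.act (mvi i Dir.L) (Op.push (Sum.inl (nxt hβ t, false))))
  obtain ⟨R, hR⟩ := hSWI (Option (Sym Λ)) k (Sc β ⊕ G)
    (fun y t => DP.seq (DP.wh isS (DP.act (mvi i Dir.R) Op.pop)) (F (lab hβ t) (getS (y i))))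
  refine ⟨DP.seq (DP.wh (isN i) B) R, ?_⟩
  intro M x p j P s c' hM hj hP hp hs hF
  obtain ⟨hlen, hT, -⟩ := hPAD Λ M x (by omega)
  have hp' : p = Function.update p i (cel M j P) := by
    rw [← hp, Function.update_eq_self]
  have hle : (j + 1) * M ≤ (x.length + 2) * M := Nat.mul_le_mul_right M (by omega)
  have hle2 : cel M j P ≤ (pad M x).length + 1 := by
    rw [hlen]
    unfold cel
    have : (j + 1) * M = j * M + M := by ring
    omega
  have h1 := loop1 hPAD hβ i B hB p hM hj hP hs P 0 (by omega)
  have h3 := loop3 hβ i (pad M x) p hs P (cel M j 0) (by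
    unfold cel at hle2 ⊢
    omega)
  have e3 : cel M j 0 + P = cel M j P := by
    unfold cel
    omega
  rw [e3, ← hp'] at h3
  have h0 : (Function.update p i (cel M j P), stk hβ s 0) = (p, s) := by
    rw [← hp']
    rfl
  rw [h0] at h1
  refine DP.Ev.seq h1 (hR _ _ _ ?_)
  refine DP.Ev.seq h3 ?_
  have e4 : lab hβ (stk hβ s P).head? = ⟨P % β, Nat.mod_lt _ (by omega)⟩ := lab_stk hβ hs P
  have e5 : getS (tape (pad M x) (Function.update p i (cel M j 0) i)) = tape x j := by
    rw [Function.update_self, hT j 0 hj (by omega), if_pos rfl]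
    rfl
  show (F (lab hβ (stk hβ s P).head?)
    (getS (tape (pad M x) (Function.update p i (cel M j 0) i)))).Ev (pad M x) (p, s) c'
  rw [e4, e5]
  exact hF

end Pool.Agent.NDH
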