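import Pool.Agent.NDH.St

/-! NDH_REV: reverse the circular word. -/

set_option autoImplicit false

namespace Pool.Agent.NDH

theorem t_REV (hSAV : SAV_Stmt) (hLOA : LOA_Stmt) : REV_Stmt := by
  intro Λ B L _ _ _
  obtain ⟨P, hP⟩ := hSAV Λ B L
  obtain ⟨Q, hQ⟩ := hLOA Λ B L
  refine ⟨WP.seq (WP.psh (Sum.inr none)) (WP.seq P (WP.seq Q WP.pop)), ?_⟩
  intro x h W s hW
  have h1 : WP.Ev x (WP.psh (Sum.inr none)) (h, cl W, s) (h, cl W, Sum.inr none :: s) :=
    WP.Ev.psh _ _ _ _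
  have h2 := hP x h W (Sum.inr none :: s) hW
  have hV : W.reverse ≠ [] := by simpa using hW
  have hl : (cl W).length = W.reverse.length := by simp [cl]
  have hc : Cl (Sum.inr (none : Option L) :: s) := by
    intro b
    simp
  have h3 := hQ x h (cl W) W.reverse (Sum.inr none :: s) hV hl hc
  have h4 : WP.Ev x WP.pop (h, cl W.reverse, Sum.inr (none : Option L) :: s)
      (h, cl W.reverse, s) := WP.Ev.pop _ _ _
  exact WP.Ev.seq h1 (WP.Ev.seq h2 (WP.Ev.seq h3 h4))

end Pool.Agent.NDH
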