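import Pool.Agent.NDH.St

/-!
# Project NDH, module ROT (helper52): one-head rotation on padded words
-/

set_option autoImplicit false

namespace Pool.Agent.NDH

open Pool.Agent.Heads Pool.Agent.NPH Relation

namespace ROT

theorem finSym (Λ : Type) [Finite Λ] : Finite (Sym Λ) := by
  refine Finite.of_surjective (α := Option (Option Λ)) (fun o => match o with
    | none => Sym.left
    | some none => Sym.right
    | some (some a) => Sym.letter a) ?_
  intro y
  cases y with
  | left => exact ⟨none, rfl⟩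
  | letter a => exact ⟨some (some a), rfl⟩
  | right => exact ⟨some none, rfl⟩

/-- The scanned symbol is a blank. -/
def isN {Λ : Type} : Sym (Option (Sym Λ)) → Bool
  | Sym.letter none => true
  | _ => false

/-- The label of `t`. -/
def lb {β : ℕ} (hβ : 0 < β) (t : ℕ) : Fin β := ⟨t % β, Nat.mod_lt _ hβ⟩

/-- The next label. -/
def nx {β : ℕ} {G : Type} (hβ : 0 < β) (b : Bool) : Option (Sc β ⊕ G) → Fin β
  | some (Sum.inl (r, b')) => if b' = b then lb hβ (r.val + 1) else lb hβ 1
  | _ => lb hβ 1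

/-- `t` scratch symbols on the stack. -/
def stk {β : ℕ} {G : Type} (hβ : 0 < β) (b : Bool) : ℕ → List (Sc β ⊕ G) → List (Sc β ⊕ G)
  | 0, s => s
  | t + 1, s => Sum.inl (lb hβ (t + 1), b) :: stk hβ b t s

/-- The top symbol is not a scratch symbol with the Boolean `b`. -/
def ClB {β : ℕ} {G : Type} (b : Bool) (s : List (Sc β ⊕ G)) : Prop :=
  ∀ r : Fin β, s.head? ≠ some (Sum.inl (r, b))

theorem nx_stk {β : ℕ} {G : Type} (hβ : 0 < β) (b : Bool) (t : ℕ) (s : List (Sc β ⊕ G))
    (hs : ClB b s) : nx hβ b (stk hβ b t s).head? = lb hβ (t + 1) := by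
  cases t with
  | zero =>
    show nx hβ b s.head? = lb hβ 1
    rcases h : s.head? with _ | ⟨⟨r, b'⟩ | g⟩
    · rfl
    · have hb : b' ≠ b := by
        rintro rfl
        exact hs r h
      show (if b' = b then lb hβ (r.val + 1) else lb hβ 1) = lb hβ 1
      rw [if_neg hb]
    · rfl
  | succ t =>
    show (if b = b then lb hβ ((lb hβ (t + 1)).val + 1) else lb hβ 1) = lb hβ (t + 1 + 1)
    rw [if_pos rfl]
    apply Fin.ext
    show ((t + 1) % β + 1) % β = (t + 1 + 1) % β
    exact Nat.mod_add_mod (t + 1) β 1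

section

variable {Λ G : Type} {β : ℕ}

/-- Pushing the next label. -/
theorem ex_PL [Finite Λ] [Finite G] (hSWI : SWI_Stmt) (hβ : 0 < β) (b : Bool) (d : Dir) :
    ∃ Q : DP (Option (Sym Λ)) 1 (Sc β ⊕ G), ∀ (w : List (Option (Sym Λ))) (m t : ℕ)
      (s : List (Sc β ⊕ G)), ClB b s →
      Q.Ev w (fun _ => m, stk hβ b t s) (fun _ => move (w.length + 1) m d, stk hβ b (t + 1) s) := by
  have := finSym Λ
  obtain ⟨Q, hQ⟩ := hSWI (Option (Sym Λ)) 1 (Sc β ⊕ G)
    (fun _ o => DP.act (fun _ => d) (Op.push (Sum.inl (nx hβ b o, b))))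
  refine ⟨Q, fun w m t s hs => hQ w _ _ ?_⟩
  show (DP.act (fun _ => d) (Op.push (Sum.inl (nx hβ b (stk hβ b t s).head?, b)))).Ev w
    (fun _ => m, stk hβ b t s) (fun _ => move (w.length + 1) m d, stk hβ b (t + 1) s)
  rw [nx_stk hβ b t s hs]
  exact DP.Ev.act (fun _ => d) (Op.push (Sum.inl (lb hβ (t + 1), b))) (fun _ => m, stk hβ b t s)

/-- While the scanned symbol is a blank. -/
def whN (Q : DP (Option (Sym Λ)) 1 (Sc β ⊕ G)) : DP (Option (Sym Λ)) 1 (Sc β ⊕ G) :=
  DP.wh (fun v _ => isN (v 0)) Q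

theorem loop1 {w : List (Option (Sym Λ))} {M j : ℕ} {s : List (Sc β ⊕ G)} (hβ : 0 < β)
    {Q : DP (Option (Sym Λ)) 1 (Sc β ⊕ G)}
    (hQ : ∀ m t, Q.Ev w (fun _ => m, stk hβ false t s)
      (fun _ => move (w.length + 1) m Dir.L, stk hβ false (t + 1) s))
    (hP : ∀ P, 0 < P → P < M → isN (tape w (cel M j P)) = true)
    (h0 : isN (tape w (cel M j 0)) = false) :
    ∀ P, P < M → ∀ t, (whN Q).Ev w (fun _ => cel M j P, stk hβ false t s)
      (fun _ => cel M j 0, stk hβ false (t + P) s) := by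
  intro P
  induction P with
  | zero =>
    intro _ t
    exact DP.Ev.whF h0
  | succ P ih =>
    intro hPM t
    have h1 := hQ (cel M j (P + 1)) t
    have h2 : move (w.length + 1) (cel M j (P + 1)) Dir.L = cel M j P := rfl
    rw [h2] at h1
    have h3 := ih (by omega) (t + 1)
    have h4 : t + 1 + P = t + (P + 1) := by omega
    rw [h4] at h3
    exact DP.Ev.whT (hP (P + 1) (Nat.succ_pos P) hPM) h1 h3

theorem loop2 {w : List (Option (Sym Λ))} {M j : ℕ} {s : List (Sc β ⊕ G)} (hβ : 0 < β)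
    {Q : DP (Option (Sym Λ)) 1 (Sc β ⊕ G)}
    (hQ : ∀ m t, Q.Ev w (fun _ => m, stk hβ true t s)
      (fun _ => move (w.length + 1) m Dir.R, stk hβ true (t + 1) s))
    (hP : ∀ P, 0 < P → P < M → isN (tape w (cel M j P)) = true)
    (hM : isN (tape w (cel M j M)) = false) (hlen : cel M j M ≤ w.length + 1) :
    ∀ n u, u + n = M → 1 ≤ u → (whN Q).Ev w (fun _ => cel M j u, stk hβ true u s)
      (fun _ => cel M j M, stk hβ true M s) := by
  intro n
  induction n with
  | zero =>
    intro u hu _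
    rw [Nat.add_zero] at hu
    subst hu
    exact DP.Ev.whF hM
  | succ n ih =>
    intro u hu hu1
    have h1 := hQ (cel M j u) u
    have h2 : move (w.length + 1) (cel M j u) Dir.R = cel M j (u + 1) := by
      show min (cel M j u + 1) (w.length + 1) = cel M j (u + 1)
      have h5 : cel M j u + 1 = cel M j (u + 1) := rfl
      have h6 : cel M j (u + 1) ≤ cel M j M := by
        unfold cel
        omega
      rw [h5]
      exact min_eq_left (h6.trans hlen)
    rw [h2] at h1
    exact DP.Ev.whT (hP u hu1 (by omega)) h1 (ih (u + 1) (by omega) (by omega))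

theorem loop3 {w : List (Option (Sym Λ))} {M j : ℕ} {s : List (Sc β ⊕ G)}
    (hP : ∀ P, 0 < P → P < M → isN (tape w (cel M j P)) = true)
    (h0 : isN (tape w (cel M j 0)) = false) :
    ∀ P, P < M → (whN (DP.act (fun _ => Dir.L) Op.none)).Ev w (fun _ => cel M j P, s)
      (fun _ => cel M j 0, s) := by
  intro P
  induction P with
  | zero =>
    intro _
    exact DP.Ev.whF h0
  | succ P ih =>
    intro hPM
    have h1 : (DP.act (fun _ => Dir.L) Op.none : DP (Option (Sym Λ)) 1 (Sc β ⊕ G)).Ev w (fun _ => cel M j (P + 1), s)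
      (fun _ => cel M j P, s) :=
      DP.Ev.act (fun _ => Dir.L) Op.none (fun _ => cel M j (P + 1), s)
    exact DP.Ev.whT (hP (P + 1) (Nat.succ_pos P) hPM) h1 (ih (by omega))

/-- The top symbol is a scratch symbol. -/
def isSc : Option (Sc β ⊕ G) → Bool
  | some (Sum.inl _) => true
  | _ => false

/-- The top symbol is `(0, b)`. -/
def is0 (b : Bool) : Option (Sc β ⊕ G) → Bool
  | some (Sum.inl (r, b')) => decide (r.val = 0) && (b' == b)
  | _ => false

/-- `n` steps to the right. -/
def stR : ℕ → DP (Option (Sym Λ)) 1 (Sc β ⊕ G)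
  | 0 => DP.act (fun _ => Dir.S) Op.none
  | n + 1 => DP.seq (DP.act (fun _ => Dir.R) Op.none) (stR n)

theorem stR_ev {w : List (Option (Sym Λ))} (s : List (Sc β ⊕ G)) : ∀ n m,
    m + n ≤ w.length + 1 → (stR n).Ev w (fun _ => m, s) (fun _ => m + n, s) := by
  intro n
  induction n with
  | zero =>
    intro m _
    exact DP.Ev.act (fun _ => Dir.S) Op.none (fun _ => m, s)
  | succ n ih =>
    intro m hm
    have h1 := DP.Ev.act (w := w) (fun _ => Dir.R) Op.none ((fun _ => m, s) : Cf 1 (Sc β ⊕ G))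
    have h2 : move (w.length + 1) m Dir.R = m + 1 := min_eq_left (by omega)
    have h3 := ih (m + 1) (by omega)
    have h4 : m + 1 + n = m + (n + 1) := by omega
    rw [h4] at h3
    refine DP.Ev.seq (c₁ := (fun _ => m + 1, s)) ?_ h3
    have h5 : ((fun i => move (w.length + 1) (((fun _ => m, s) : Cf 1 (Sc β ⊕ G)).1 i)
        ((fun _ => Dir.R) i), (Op.none : Op (Sc β ⊕ G)).apply
        ((fun _ => m, s) : Cf 1 (Sc β ⊕ G)).2) : Cf 1 (Sc β ⊕ G)) = (fun _ => m + 1, s) := by
      show ((fun _ => move (w.length + 1) m Dir.R, s) : Cf 1 (Sc β ⊕ G)) = (fun _ => m + 1, s)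
      rw [h2]
    rw [h5] at h1
    exact h1

/-- The body of the last loop. -/
def body (σ' : ℕ) : DP (Option (Sym Λ)) 1 (Sc β ⊕ G) :=
  DP.ite (fun _ o => is0 true o) (DP.seq (DP.act (fun _ => Dir.S) Op.pop) (stR σ'))
    (DP.ite (fun _ o => is0 false o) (DP.act (fun _ => Dir.R) Op.pop)
      (DP.act (fun _ => Dir.S) Op.pop))

theorem body_true0 {w : List (Option (Sym Λ))} {σ' m : ℕ} {r : Fin β} {s : List (Sc β ⊕ G)}
    (hr : r.val = 0) (hm : m + σ' ≤ w.length + 1) :
    (body σ').Ev w (fun _ => m, Sum.inl (r, true) :: s) (fun _ => m + σ', s) := by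
  refine DP.Ev.iteT ?_ (DP.Ev.seq (c₁ := (fun _ => m, s)) ?_ (stR_ev s σ' m hm))
  · show (decide (r.val = 0) && (true == true)) = true
    simp [hr]
  · exact DP.Ev.act (fun _ => Dir.S) Op.pop (fun _ => m, Sum.inl (r, true) :: s)

theorem body_false0 {w : List (Option (Sym Λ))} {σ' m : ℕ} {r : Fin β} {s : List (Sc β ⊕ G)}
    (hr : r.val = 0) (hm : m + 1 ≤ w.length + 1) :
    (body σ').Ev w (fun _ => m, Sum.inl (r, false) :: s) (fun _ => m + 1, s) := by
  refine DP.Ev.iteF ?_ (DP.Ev.iteT ?_ ?_)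
  · show (decide (r.val = 0) && (false == true)) = false
    simp
  · show (decide (r.val = 0) && (false == false)) = true
    simp [hr]
  · have h1 := DP.Ev.act (w := w) (fun _ => Dir.R) Op.pop
      ((fun _ => m, Sum.inl (r, false) :: s) : Cf 1 (Sc β ⊕ G))
    have h2 : move (w.length + 1) m Dir.R = m + 1 := min_eq_left hm
    have h5 : ((fun i => move (w.length + 1)
        (((fun _ => m, Sum.inl (r, false) :: s) : Cf 1 (Sc β ⊕ G)).1 i)
        ((fun _ => Dir.R) i), (Op.pop : Op (Sc β ⊕ G)).apply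
        ((fun _ => m, Sum.inl (r, false) :: s) : Cf 1 (Sc β ⊕ G)).2) : Cf 1 (Sc β ⊕ G)) =
        (fun _ => m + 1, s) := by
      show ((fun _ => move (w.length + 1) m Dir.R, s) : Cf 1 (Sc β ⊕ G)) = (fun _ => m + 1, s)
      rw [h2]
    rw [h5] at h1
    exact h1

theorem body_pos {w : List (Option (Sym Λ))} {σ' m : ℕ} {r : Fin β} {b : Bool}
    {s : List (Sc β ⊕ G)} (hr : r.val ≠ 0) :
    (body σ').Ev w (fun _ => m, Sum.inl (r, b) :: s) (fun _ => m, s) := by
  refine DP.Ev.iteF ?_ (DP.Ev.iteF ?_ ?_)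
  · show (decide (r.val = 0) && (b == true)) = false
    simp [hr]
  · show (decide (r.val = 0) && (b == false)) = false
    simp [hr]
  · exact DP.Ev.act (fun _ => Dir.S) Op.pop (fun _ => m, Sum.inl (r, b) :: s)

/-- The last loop. -/
def W (σ' : ℕ) : DP (Option (Sym Λ)) 1 (Sc β ⊕ G) := DP.wh (fun _ o => isSc o) (body σ')

theorem loop4t {w : List (Option (Sym Λ))} (hβ : 0 < β) {σ' : ℕ} {c' : Cf 1 (Sc β ⊕ G)}
    (s : List (Sc β ⊕ G)) : ∀ t m, m + σ' * (t / β) ≤ w.length + 1 →
    (W σ').Ev w (fun _ => m + σ' * (t / β), s) c' →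
    (W σ').Ev w (fun _ => m, stk hβ true t s) c' := by
  intro t
  induction t with
  | zero =>
    intro m _ h
    rw [Nat.zero_div, Nat.mul_zero, Nat.add_zero] at h
    exact h
  | succ t ih =>
    intro m hm h
    by_cases ht : (t + 1) % β = 0
    · have hd : (t + 1) / β = t / β + 1 := by
        rw [Nat.succ_div, if_pos (Nat.dvd_of_mod_eq_zero ht)]
      have e : m + σ' * ((t + 1) / β) = m + σ' + σ' * (t / β) := by
        rw [hd]
        ring
      rw [e] at hm h
      refine DP.Ev.whT (c₁ := (fun _ => m + σ', stk hβ true t s)) rfl ?_ (ih (m + σ') hm h)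
      exact body_true0 ht (by omega)
    · have hd : (t + 1) / β = t / β := by
        rw [Nat.succ_div, if_neg (fun hdvd => ht (Nat.mod_eq_zero_of_dvd hdvd)), Nat.add_zero]
      rw [hd] at hm h
      refine DP.Ev.whT (c₁ := (fun _ => m, stk hβ true t s)) rfl ?_ (ih m hm h)
      exact body_pos ht

theorem loop4f {w : List (Option (Sym Λ))} (hβ : 0 < β) {σ' : ℕ} {c' : Cf 1 (Sc β ⊕ G)}
    (s : List (Sc β ⊕ G)) : ∀ t m, m + t / β ≤ w.length + 1 →
    (W σ').Ev w (fun _ => m + t / β, s) c' →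
    (W σ').Ev w (fun _ => m, stk hβ false t s) c' := by
  intro t
  induction t with
  | zero =>
    intro m _ h
    rw [Nat.zero_div, Nat.add_zero] at h
    exact h
  | succ t ih =>
    intro m hm h
    by_cases ht : (t + 1) % β = 0
    · have hd : (t + 1) / β = t / β + 1 := by
        rw [Nat.succ_div, if_pos (Nat.dvd_of_mod_eq_zero ht)]
      have e : m + (t + 1) / β = m + 1 + t / β := by
        rw [hd]
        ring
      rw [e] at hm h
      refine DP.Ev.whT (c₁ := (fun _ => m + 1, stk hβ false t s)) rfl ?_ (ih (m + 1) hm h)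
      exact body_false0 ht (le_trans (Nat.le_add_right _ _) hm)
    · have hd : (t + 1) / β = t / β := by
        rw [Nat.succ_div, if_neg (fun hdvd => ht (Nat.mod_eq_zero_of_dvd hdvd)), Nat.add_zero]
      rw [hd] at hm h
      refine DP.Ev.whT (c₁ := (fun _ => m, stk hβ false t s)) rfl ?_ (ih m hm h)
      exact body_pos ht

theorem isSc_clean {s : List (Sc β ⊕ G)} (hs : Cl s) : isSc s.head? = false := by
  rcases h : s.head? with _ | ⟨r | g⟩
  · rfl
  · exact absurd h (hs r)
  · rfl

theorem clB_of_cl {b : Bool} {s : List (Sc β ⊕ G)} (hs : Cl s) : ClB b s := fun r => hs (r, b)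

theorem clB_stk (hβ : 0 < β) {s : List (Sc β ⊕ G)} (hs : Cl s) (t : ℕ) :
    ClB true (stk hβ false t s) := by
  cases t with
  | zero => exact clB_of_cl hs
  | succ t =>
    intro r h
    have h1 : some (Sum.inl (lb hβ (t + 1), false) : Sc β ⊕ G) = some (Sum.inl (r, true)) := h
    simp at h1

end

end ROT

open ROT in
theorem t_ROT (hPAD : PAD_Stmt) (hSWI : SWI_Stmt) : ROT_Stmt := by
  intro Λ G _ _ β σ' hβ2 hσ
  have hβ : 0 < β := by omega
  obtain ⟨A, hA⟩ := ex_PL (Λ := Λ) (G := G) hSWI hβ false Dir.L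
  obtain ⟨B, hB⟩ := ex_PL (Λ := Λ) (G := G) hSWI hβ true Dir.R
  refine ⟨DP.seq (whN A) (DP.seq (DP.seq B (whN B))
    (DP.seq (DP.seq (DP.act (fun _ => Dir.L) Op.none)
      (whN (DP.act (fun _ => Dir.L) Op.none))) (W σ'))), ?_⟩
  intro M x j P s hM hdvd hj hP hs
  obtain ⟨hlen, htape, hright⟩ := hPAD Λ M x (by omega)
  have hN : ∀ P, 0 < P → P < M → isN (tape (pad M x) (cel M j P)) = true := by
    intro P hP0 hPM
    rw [htape j P hj hPM, if_neg (by omega)]
    rfl
  have h0 : isN (tape (pad M x) (cel M j 0)) = false := by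
    rw [htape j 0 hj (by omega), if_pos rfl]
    rfl
  have hjM : cel M j M = cel M (j + 1) 0 := by
    unfold cel
    ring
  have hNM : isN (tape (pad M x) (cel M j M)) = false := by
    rw [hjM]
    by_cases h : j + 1 ≤ x.length + 1
    · rw [htape (j + 1) 0 h (by omega), if_pos rfl]
      rfl
    · have h2 : j + 1 = x.length + 2 := by omega
      rw [h2, hright]
      rfl
  have hcelM : cel M j M ≤ (pad M x).length + 1 := by
    rw [hlen]
    unfold cel
    have h1 : (j + 1) * M ≤ (x.length + 2) * M := Nat.mul_le_mul_right M (by omega)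
    have h2 : (j + 1) * M = j * M + M := by ring
    omega
  -- phase 1
  have p1 := loop1 (w := pad M x) (M := M) (j := j) (s := s) hβ
    (fun m t => hA (pad M x) m t s (clB_of_cl hs)) hN h0 P hP 0
  rw [Nat.zero_add] at p1
  have hcl := clB_stk hβ hs P
  -- phase 2
  have p2a := hB (pad M x) (cel M j 0) 0 (stk hβ false P s) hcl
  have hmv : move ((pad M x).length + 1) (cel M j 0) Dir.R = cel M j 1 := by
    refine min_eq_left ?_
    have h1 : cel M j 1 ≤ cel M j M := by
      unfold cel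
      omega
    exact h1.trans hcelM
  rw [hmv] at p2a
  have p2b := loop2 (w := pad M x) (M := M) (j := j) (s := stk hβ false P s) hβ
    (fun m t => hB (pad M x) m t (stk hβ false P s) hcl) hN hNM hcelM (M - 1) 1 (by omega) le_rfl
  -- phase 3
  have p3a : (DP.act (fun _ => Dir.L) Op.none : DP (Option (Sym Λ)) 1 (Sc β ⊕ G)).Ev (pad M x)
      (fun _ => cel M j M, stk hβ true M (stk hβ false P s))
      (fun _ => cel M j (M - 1), stk hβ true M (stk hβ false P s)) := by
    have h1 := DP.Ev.act (w := pad M x) (fun _ => Dir.L) Op.none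
      ((fun _ => cel M j M, stk hβ true M (stk hβ false P s)) : Cf 1 (Sc β ⊕ G))
    have h2 : move ((pad M x).length + 1) (cel M j M) Dir.L = cel M j (M - 1) := by
      show cel M j M - 1 = cel M j (M - 1)
      unfold cel
      omega
    have h5 : ((fun i => move ((pad M x).length + 1)
        (((fun _ => cel M j M, stk hβ true M (stk hβ false P s)) : Cf 1 (Sc β ⊕ G)).1 i)
        ((fun _ => Dir.L) i), (Op.none : Op (Sc β ⊕ G)).apply
        ((fun _ => cel M j M, stk hβ true M (stk hβ false P s)) : Cf 1 (Sc β ⊕ G)).2) :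
        Cf 1 (Sc β ⊕ G)) = (fun _ => cel M j (M - 1), stk hβ true M (stk hβ false P s)) := by
      show ((fun _ => move ((pad M x).length + 1) (cel M j M) Dir.L,
        stk hβ true M (stk hβ false P s)) : Cf 1 (Sc β ⊕ G)) = _
      rw [h2]
    rw [h5] at h1
    exact h1
  have p3b := loop3 (w := pad M x) (M := M) (j := j)
    (s := stk hβ true M (stk hβ false P s)) hN h0 (M - 1) (by omega)
  -- phase 4
  have hbd : P / β + σ' * (M / β) ≤ M := by
    have h1 : P / β ≤ M / β := Nat.div_le_div_right hP.le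
    have h2 : σ' * (M / β) + M / β ≤ β * (M / β) := by
      have h3 : (σ' + 1) * (M / β) ≤ β * (M / β) := Nat.mul_le_mul_right _ hσ
      have h4 : (σ' + 1) * (M / β) = σ' * (M / β) + M / β := by ring
      omega
    have h5 : β * (M / β) = M := Nat.mul_div_cancel' hdvd
    omega
  have hpos : cel M j 0 + σ' * (M / β) + P / β = cel M j (P / β + σ' * (M / β)) := by
    unfold cel
    ring
  have hle : cel M j 0 + σ' * (M / β) + P / β ≤ (pad M x).length + 1 := by
    rw [hpos]
    refine le_trans ?_ hcelM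
    unfold cel
    omega
  have p4 : (W σ').Ev (pad M x) (fun _ => cel M j 0, stk hβ true M (stk hβ false P s))
      (fun _ => cel M j (P / β + σ' * (M / β)), s) := by
    refine loop4t hβ _ M _ (le_trans (Nat.le_add_right _ _) hle) ?_
    refine loop4f hβ _ P _ hle ?_
    rw [hpos]
    exact DP.Ev.whF (isSc_clean hs)
  exact DP.Ev.seq p1 (DP.Ev.seq (DP.Ev.seq p2a p2b) (DP.Ev.seq (DP.Ev.seq p3a p3b) p4))

end Pool.Agent.NDH
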