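import Pool.Agent.NDH.St

/-!
# NDH, module RST: reset the circular word
-/

set_option autoImplicit false

namespace Pool.Agent.NDH

open Pool.Agent.Heads Pool.Agent.NPH Relation

namespace RST

theorem circ_zero {A : Type} (n : ℕ) (a0 : A) :
    circ (0 : Fin (n + 1)) (fun _ => a0) = (a0, true) :: List.replicate n (a0, false) := by
  unfold circ
  rw [List.ofFn_succ]
  simp [Fin.succ_ne_zero]

theorem loop {Λ A H : Type} (x : List Λ) (a0 : A) (s : List H) :
    ∀ (v : List (A × Bool)) (w : List (((A × Bool) × Bool) × Bool)),
      WP.Ev x (WP.wh (fun (a : ((A × Bool) × Bool) × Bool) _ _ => !a.1.2)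
        (WP.rot (((a0, false), false), false)) : WP Λ (((A × Bool) × Bool) × Bool) H)
        (0, cl (cm v) ++ (((a0, true), true), false) :: w, s)
        (0, (((a0, true), true), false) ::
          (w ++ List.replicate v.length (((a0, false), false), false)), s)
  | [], w => by
      simp only [cl, cm, List.map_nil, List.nil_append, List.length_nil, List.replicate_zero,
        List.append_nil]
      exact WP.Ev.whF rfl
  | b :: v, w => by
      refine WP.Ev.whT (c₁ := (0, (cl (cm v) ++ (((a0, true), true), false) :: w) ++
        [(((a0, false), false), false)], s)) rfl (WP.Ev.rot _ _ _ _ _) ?_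
      have h := loop x a0 s v (w ++ [(((a0, false), false), false)])
      simpa [List.replicate_succ] using h

end RST

theorem t_RST : RST_Stmt := by
  intro Λ A L _ _ _ a0
  refine ⟨WP.seq (WP.wrt (((a0, true), true), false)) (WP.seq (WP.rot (((a0, true), true), false))
    (WP.seq (WP.wh (fun a _ _ => !a.1.2) (WP.rot (((a0, false), false), false)))
      (WP.wrt (((a0, true), false), false)))), ?_⟩
  intro x n U s hU
  match U, hU with
  | a :: v, hU =>
    have hv : v.length = n := by simpa using hU
    have h1 : cl (cm (circ (0 : Fin (n + 1)) fun _ => a0)) =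
        (((a0, true), false), false) :: List.replicate n (((a0, false), false), false) := by
      rw [RST.circ_zero]
      simp [cl, cm]
    rw [h1]
    refine WP.Ev.seq (WP.Ev.wrt _ _ _ _ _) (WP.Ev.seq (WP.Ev.rot _ _ _ _ _) (WP.Ev.seq ?_
      (WP.Ev.wrt _ _ (((a0, true), true), false) _ _)))
    have h2 := RST.loop (Λ := Λ) x a0 s v []
    rw [List.nil_append, hv] at h2
    exact h2

end Pool.Agent.NDH
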