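import Pool.Agent.NDH.St

/-!
# Project NDH, module SAV: save the circular word on the stack
-/

set_option autoImplicit false

namespace Pool.Agent.NDH

open Pool.Agent.Heads Pool.Agent.NPH Relation

namespace SAV

lemma cl_append {B : Type} (U V : List B) : cl (U ++ V) = cl U ++ cl V := by
  simp [cl]

/-- the loop: `v₁` is saved, `v₂` is not yet saved -/
lemma loop {Λ B L : Type} {x : List Λ} {h : ℕ} (Q : WP Λ (B × Bool) (B ⊕ Option L))
    (hQ : ∀ (a : B) (u : List (B × Bool)) (t : List (B ⊕ Option L)),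
      Q.Ev x (h, (a, false) :: u, t) (h, u ++ [(a, false)], Sum.inl a :: t))
    (b : B) (s : List (B ⊕ Option L)) (v₂ : List B) : ∀ v₁ : List B,
    (WP.wh (fun a _ _ => !a.2) Q).Ev x
      (h, cl v₂ ++ (b, true) :: cl v₁, v₁.reverse.map Sum.inl ++ Sum.inl b :: s)
      (h, (b, true) :: cl (v₁ ++ v₂), (v₁ ++ v₂).reverse.map Sum.inl ++ Sum.inl b :: s) := by
  induction v₂ with
  | nil =>
    intro v₁
    rw [List.append_nil]
    exact WP.Ev.whF rfl
  | cons a v₂ ih =>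
    intro v₁
    have h1 := ih (v₁ ++ [a])
    have e1 : v₁ ++ [a] ++ v₂ = v₁ ++ a :: v₂ := by simp
    rw [e1] at h1
    have h2 := hQ a (cl v₂ ++ (b, true) :: cl v₁) (v₁.reverse.map Sum.inl ++ Sum.inl b :: s)
    have e2 : cl v₂ ++ (b, true) :: cl v₁ ++ [(a, false)] =
        cl v₂ ++ (b, true) :: cl (v₁ ++ [a]) := by
      rw [cl_append]
      simp [cl]
    have e3 : (Sum.inl a :: (v₁.reverse.map Sum.inl ++ Sum.inl b :: s) : List (B ⊕ Option L)) =
        (v₁ ++ [a]).reverse.map Sum.inl ++ Sum.inl b :: s := by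
      simp
    rw [e2, e3] at h2
    exact WP.Ev.whT rfl h2 h1

end SAV

theorem t_SAV (hS : SWW_Stmt) : SAV_Stmt := by
  intro Λ B L _ _ _
  obtain ⟨P1, h1⟩ := hS Λ (B × Bool) (B ⊕ Option L)
    (fun a _ _ => WP.seq (WP.psh (Sum.inl a.1)) (WP.rot (a.1, true)))
  obtain ⟨P2, h2⟩ := hS Λ (B × Bool) (B ⊕ Option L)
    (fun a _ _ => WP.seq (WP.psh (Sum.inl a.1)) (WP.rot (a.1, false)))
  obtain ⟨P3, h3⟩ := hS Λ (B × Bool) (B ⊕ Option L) (fun a _ _ => WP.wrt (a.1, false))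
  refine ⟨WP.seq P1 (WP.seq (WP.wh (fun a _ _ => !a.2) P2) P3), fun x h W s hW => ?_⟩
  obtain ⟨b, v, rfl⟩ := List.exists_cons_of_ne_nil hW
  have k1 : P1.Ev x (h, cl (b :: v), s) (h, cl v ++ [(b, true)], Sum.inl b :: s) :=
    h1 x h (b, false) (cl v) s _ (WP.Ev.seq (WP.Ev.psh _ _ _ _) (WP.Ev.rot _ _ _ _ _))
  have k2 := SAV.loop P2 (x := x) (h := h)
    (fun a u t => h2 x h (a, false) u t _ (WP.Ev.seq (WP.Ev.psh _ _ _ _) (WP.Ev.rot _ _ _ _ _)))
    b s v []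
  have k3 : P3.Ev x (h, (b, true) :: cl v, v.reverse.map Sum.inl ++ Sum.inl b :: s)
      (h, (b, false) :: cl v, v.reverse.map Sum.inl ++ Sum.inl b :: s) :=
    h3 x h (b, true) (cl v) _ _ (WP.Ev.wrt _ _ _ _ _)
  have e : (b :: v).reverse.map Sum.inl ++ s =
      (v.reverse.map Sum.inl ++ Sum.inl b :: s : List (B ⊕ Option L)) := by
    simp
  rw [e]
  exact WP.Ev.seq k1 (WP.Ev.seq k2 k3)

end Pool.Agent.NDH
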