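import Pool.Agent.NDH.St

/-! # Project NDH, module SVF: save the word, the first letter on top -/

set_option autoImplicit false

namespace Pool.Agent.NDH

theorem t_SVF (hS : SAV_Stmt) (hR : REV_Stmt) : SVF_Stmt := by
  intro Λ B L _ _ _
  obtain ⟨S, hS⟩ := hS Λ B L
  obtain ⟨R, hR⟩ := hR Λ B L
  refine ⟨WP.seq R (WP.seq S R), fun x h W s hW => ?_⟩
  have hr : W.reverse ≠ [] := by simpa using hW
  have h1 := hR x h W s hW
  have h2 := hS x h W.reverse s hr
  rw [List.reverse_reverse] at h2
  have h3 := hR x h W.reverse (W.map Sum.inl ++ s) hr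
  rw [List.reverse_reverse] at h3
  exact WP.Ev.seq h1 (WP.Ev.seq h2 h3)

end Pool.Agent.NDH
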