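import Pool.Agent.NDH.St

/-! Project NDH, module SWI: case distinction over everything visible. -/

set_option autoImplicit false

namespace Pool.Agent.NDH

open Pool.Agent.Heads Pool.Agent.NPH Relation

namespace SWI

theorem finSym (α : Type) [Finite α] : Finite (Sym α) := by
  have hinj : Function.Injective (fun s : Sym α =>
      (match s with
        | Sym.left => Sum.inl false
        | Sym.letter a => Sum.inr a
        | Sym.right => Sum.inl true : Bool ⊕ α)) := by
    intro s t h
    cases s <;> cases t <;> simp_all
  exact Finite.of_injective _ hinj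

open Classical in
theorem list (α : Type) (k : ℕ) (Γ : Type)
    (F : (Fin k → Sym α) → Option Γ → DP α k Γ) (l : List ((Fin k → Sym α) × Option Γ)) :
    ∃ Q : DP α k Γ, ∀ w c c', ((fun i => tape w (c.1 i)), c.2.head?) ∈ l →
      (F (fun i => tape w (c.1 i)) c.2.head?).Ev w c c' → Q.Ev w c c' := by
  induction l with
  | nil =>
    exact ⟨DP.act (fun _ => Dir.S) Op.none, fun w c c' h => absurd h List.not_mem_nil⟩
  | cons v l ih =>
    obtain ⟨Q, hQ⟩ := ih
    refine ⟨DP.ite (fun x o => decide ((x, o) = v)) (F v.1 v.2) Q, fun w c c' h hF => ?_⟩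
    by_cases hv : ((fun i => tape w (c.1 i)), c.2.head?) = v
    · refine DP.Ev.iteT ?_ ?_
      · show decide (((fun i => tape w (c.1 i)), c.2.head?) = v) = true
        exact decide_eq_true hv
      · rw [← hv]
        exact hF
    · refine DP.Ev.iteF ?_ ?_
      · show decide (((fun i => tape w (c.1 i)), c.2.head?) = v) = false
        exact decide_eq_false hv
      · rcases List.mem_cons.1 h with h | h
        · exact absurd h hv
        · exact hQ w c c' h hF

end SWI

theorem t_SWI : SWI_Stmt := by
  intro α k Γ _ _ F
  haveI : Finite (Sym α) := SWI.finSym α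
  haveI : Fintype ((Fin k → Sym α) × Option Γ) := Fintype.ofFinite _
  obtain ⟨Q, hQ⟩ := SWI.list α k Γ F (Finset.univ : Finset ((Fin k → Sym α) × Option Γ)).toList
  exact ⟨Q, fun w c c' h => hQ w c c' (Finset.mem_toList.2 (Finset.mem_univ _)) h⟩

end Pool.Agent.NDH
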