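import Pool.Agent.NDH.St

/-!
# Project NDH, module SWW: case distinction over everything visible, for word programs
-/

set_option autoImplicit false

namespace Pool.Agent.NDH

open Pool.Agent.Heads Pool.Agent.NPH Relation

namespace SWW

/-- The symbols seen by a head on the input are finitely many. -/
theorem finSym (Λ : Type) [Finite Λ] : Finite (Sym Λ) := by
  refine Finite.of_surjective
    (fun o : Option (Option Λ) => match o with
      | none => (Sym.left : Sym Λ)
      | some none => Sym.right
      | some (some a) => Sym.letter a) ?_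
  intro y
  cases y with
  | left => exact ⟨none, rfl⟩
  | right => exact ⟨some none, rfl⟩
  | letter a => exact ⟨some (some a), rfl⟩

/-- The program for the visible values in a list. -/
theorem list (Λ A H : Type) (F : A → Sym Λ → Option H → WP Λ A H)
    (l : List (A × Sym Λ × Option H)) :
    ∃ Q : WP Λ A H, ∀ (x : List Λ) (h : ℕ) (a : A) (u : List A) (s : List H) (c' : WC A H),
      (a, tape x h, s.head?) ∈ l →
      (F a (tape x h) s.head?).Ev x (h, a :: u, s) c' → Q.Ev x (h, a :: u, s) c' := by
  classical
  induction l with
  | nil => exact ⟨WP.pop, fun x h a u s c' hm => absurd hm List.not_mem_nil⟩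
  | cons v l ih =>
    obtain ⟨Q, hQ⟩ := ih
    refine ⟨WP.ite (fun a y t => decide ((a, y, t) = v)) (F v.1 v.2.1 v.2.2) Q, ?_⟩
    intro x h a u s c' hm hE
    by_cases hv : (a, tape x h, s.head?) = v
    · refine WP.Ev.iteT (decide_eq_true hv) ?_
      rw [← hv]
      exact hE
    · exact WP.Ev.iteF (decide_eq_false hv) (hQ x h a u s c' (List.mem_of_ne_of_mem hv hm) hE)

end SWW

/-- SWW: case distinction over everything visible, for word programs. -/
theorem t_SWW : SWW_Stmt := by
  intro Λ A H _ _ _ F
  have : Finite (Sym Λ) := SWW.finSym Λ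
  have : Fintype (A × Sym Λ × Option H) := Fintype.ofFinite _
  obtain ⟨Q, hQ⟩ := SWW.list Λ A H F (Finset.univ : Finset (A × Sym Λ × Option H)).toList
  exact ⟨Q, fun x h a u s c' hE =>
    hQ x h a u s c' (Finset.mem_toList.mpr (Finset.mem_univ _)) hE⟩

end Pool.Agent.NDH
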