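import Pool.Agent.NDH.St

/-!
# Project NDH, module WCP: compilation of word programs to programs with `k` heads
-/

set_option autoImplicit false

namespace Pool.Agent.NDH

open Pool.Agent.Heads Pool.Agent.NPH Relation

namespace WCP

variable {Λ A H : Type} {k β : ℕ}

/-- The stack of the compiled program. -/
def mp (β : ℕ) (s : List H) : List (Sc β ⊕ Option H) := s.map fun g => Sum.inr (some g)

/-- The top symbol of the original stack. -/
def dt (t : Option (Sc β ⊕ Option H)) : Option H :=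
  match t with
  | some (Sum.inr (some h)) => some h
  | _ => none

theorem dt_mp (s : List H) : dt (mp β s).head? = s.head? := by
  cases s <;> rfl

theorem cl_mp (s : List H) : Cl (mp β s) := by
  intro b
  cases s with
  | nil => simp [mp]
  | cons a s => simp [mp]

/-- `Q` is a compiled form of `P`. -/
def Comp (e : A → Fin k → Fin β) (P : WP Λ A H)
    (Q : DP (Option (Sym Λ)) k (Sc β ⊕ Option H)) : Prop :=
  ∀ (x : List Λ) (h : ℕ) (W : List A) (s : List H) (c' : WC A H),
    W.length = x.length + 1 → h ≤ x.length + 1 → P.Ev x (h, W, s) c' →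
    Q.Ev (pad (β ^ (x.length + 1)) x)
      (hpos e (β ^ (x.length + 1)) h W, mp β s)
      (hpos e (β ^ (x.length + 1)) c'.1 c'.2.1, mp β c'.2.2)

/-- The invariants of a run. -/
theorem inv {x : List Λ} {P : WP Λ A H} {c c' : WC A H} (h : P.Ev x c c') :
    c'.2.1.length = c.2.1.length ∧ (c.1 ≤ x.length + 1 → c'.1 ≤ x.length + 1) := by
  induction h with
  | rot b h a u s => simp
  | wrt b h a u s => simp
  | hmv d h u s => exact ⟨rfl, fun hh => move_le _ _ _ hh⟩
  | psh g h u s => exact ⟨rfl, fun hh => hh⟩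
  | pop h u s => exact ⟨rfl, fun hh => hh⟩
  | seq _ _ ih1 ih2 => exact ⟨ih2.1.trans ih1.1, fun hh => ih2.2 (ih1.2 hh)⟩
  | iteT _ _ ih => exact ih
  | iteF _ _ ih => exact ih
  | whF _ => exact ⟨rfl, fun hh => hh⟩
  | whT _ _ _ ih1 ih2 => exact ⟨ih2.1.trans ih1.1, fun hh => ih2.2 (ih1.2 hh)⟩

theorem num_cons (e : A → Fin k → Fin β) (i : Fin k) (a : A) (u : List A) :
    num e i (a :: u) = (e a i).val + β * num e i u := by
  simp [num, Nat.ofDigits_cons]

theorem num_app (e : A → Fin k → Fin β) (i : Fin k) (u : List A) (b : A) :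
    num e i (u ++ [b]) = num e i u + β ^ u.length * (e b i).val := by
  simp [num, Nat.ofDigits_append]

theorem num_lt (hβ : 2 ≤ β) (e : A → Fin k → Fin β) (i : Fin k) (W : List A) :
    num e i W < β ^ W.length := by
  have := Nat.ofDigits_lt_base_pow_length (b := β) (l := W.map fun a => (e a i).val) (by omega)
    (by
      intro y hy
      simp only [List.mem_map] at hy
      obtain ⟨a, -, rfl⟩ := hy
      exact (e a i).isLt)
  simpa [num] using this

theorem num_mod (e : A → Fin k → Fin β) (i : Fin k) (a : A) (u : List A) :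
    num e i (a :: u) % β = (e a i).val := by
  rw [num_cons, Nat.add_mul_mod_self_left, Nat.mod_eq_of_lt (e a i).isLt]

theorem num_div (e : A → Fin k → Fin β) (i : Fin k) (a : A) (u : List A) :
    num e i (a :: u) / β = num e i u := by
  have h := (e a i).isLt
  rw [num_cons, Nat.add_mul_div_left _ _ (by omega), Nat.div_eq_of_lt h, Nat.zero_add]

theorem two_le_pow (hβ : 2 ≤ β) (n : ℕ) : 2 ≤ β ^ (n + 1) := by
  calc 2 ≤ β := hβ
    _ = β ^ 1 := (pow_one β).symm
    _ ≤ β ^ (n + 1) := Nat.pow_le_pow_right (by omega) (by omega)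

theorem dvd_pow' (n : ℕ) : β ∣ β ^ (n + 1) := Dvd.intro_left (β ^ n) rfl

theorem pow_div (hβ : 2 ≤ β) (n : ℕ) : β ^ (n + 1) / β = β ^ n := by
  rw [pow_succ, Nat.mul_div_cancel _ (by omega)]

theorem j_le {n h : ℕ} (hh : h ≤ n + 1) (i : Fin k) : (if i.val = 0 then h else 0) ≤ n + 1 := by
  split_ifs <;> omega

/-- Nothing happens. -/
theorem ev_skip {α Γ : Type} {k : ℕ} (w : List α) (p : Fin k → ℕ) (s : List Γ) :
    (DP.act (fun _ => Dir.S) Op.none : DP α k Γ).Ev w (p, s) (p, s) :=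
  DP.Ev.act (fun _ => Dir.S) Op.none (p, s)

theorem ev_push {α Γ : Type} {k : ℕ} (w : List α) (p : Fin k → ℕ) (s : List Γ) (g : Γ) :
    (DP.act (fun _ => Dir.S) (Op.push g) : DP α k Γ).Ev w (p, s) (p, g :: s) :=
  DP.Ev.act (fun _ => Dir.S) (Op.push g) (p, s)

theorem ev_pop {α Γ : Type} {k : ℕ} (w : List α) (p : Fin k → ℕ) (s : List Γ) :
    (DP.act (fun _ => Dir.S) Op.pop : DP α k Γ).Ev w (p, s) (p, s.tail) :=
  DP.Ev.act (fun _ => Dir.S) Op.pop (p, s)

theorem c_rot [Finite Λ] [Finite H] (hALL : ALL_Stmt) (hROT : ROT_Stmt) (hβ : 2 ≤ β)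
    (e : A → Fin k → Fin β) (b : A) :
    ∃ Q, Comp e (WP.rot b : WP Λ A H) Q := by
  choose R hR using fun i : Fin k => hROT Λ (Option H) β (e b i).val hβ (e b i).isLt
  obtain ⟨Q, hQ⟩ := hALL (Option (Sym Λ)) k (Sc β ⊕ Option H) R
  refine ⟨Q, ?_⟩
  intro x h W s c' hW hh hev
  cases hev with
  | rot _ _ a u _ =>
    refine hQ _ _ _ _ fun i => ?_
    have h1 := hR i (β ^ (x.length + 1)) x (if i.val = 0 then h else 0) (num e i (a :: u)) (mp β s)
      (two_le_pow hβ _) (dvd_pow' _) (j_le hh i) (by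
        have := num_lt hβ e i (a :: u)
        rwa [hW] at this) (cl_mp s)
    have h2 : num e i (a :: u) / β + (e b i).val * (β ^ (x.length + 1) / β)
        = num e i (u ++ [b]) := by
      have hu : u.length = x.length := by simpa using hW
      rw [num_div, pow_div hβ, num_app, hu, Nat.mul_comm]
    rw [h2] at h1
    exact h1

theorem c_wrt [Finite Λ] [Finite H] (hALL : ALL_Stmt) (hWDG : WDG_Stmt) (hRDA : RDA_Stmt)
    (hβ : 2 ≤ β) (e : A → Fin k → Fin β) (b : A) :
    ∃ Q, Comp e (WP.wrt b : WP Λ A H) Q := by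
  choose R hR using fun (v : Fin β) (i : Fin k) =>
    hWDG Λ (Option H) β v.val (e b i).val v.isLt (e b i).isLt
  choose F hF using fun v : Fin k → Fin β × Sym Λ =>
    hALL (Option (Sym Λ)) k (Sc β ⊕ Option H) (fun i => R (v i).1 i)
  obtain ⟨Q, hQ⟩ := hRDA Λ (Option H) β hβ k F
  refine ⟨Q, ?_⟩
  intro x h W s c' hW hh hev
  cases hev with
  | wrt _ _ a u _ =>
    have hlt : ∀ i, num e i (a :: u) < β ^ (x.length + 1) := fun i => by
      have := num_lt hβ e i (a :: u)
      rwa [hW] at this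
    refine hQ (β ^ (x.length + 1)) x (fun i => if i.val = 0 then h else 0)
      (fun i => num e i (a :: u)) (mp β s) _ (two_le_pow hβ _) (fun i => j_le hh i) hlt
      (cl_mp s) ?_
    refine hF _ _ _ _ _ fun i => ?_
    have h1 := hR ⟨num e i (a :: u) % β, Nat.mod_lt _ (by omega)⟩ i (β ^ (x.length + 1)) x
      (if i.val = 0 then h else 0) (num e i (a :: u)) (mp β s)
      (by have := two_le_pow hβ x.length; omega) (dvd_pow' _) (j_le hh i) (hlt i) rfl
    have h2 : num e i (a :: u) - num e i (a :: u) % β + (e b i).val = num e i (b :: u) := by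
      rw [num_mod, num_cons, num_cons]
      omega
    simp only at h1
    rw [h2] at h1
    exact h1

theorem c_hmv [Finite Λ] [Finite H] (hALL : ALL_Stmt) (hMVR : MVR_Stmt)
    (hβ : 2 ≤ β) (e : A → Fin k → Fin β) (d : Dir) :
    ∃ Q, Comp e (WP.hmv d : WP Λ A H) Q := by
  obtain ⟨R, hR⟩ := hMVR Λ (Option H) β d hβ
  obtain ⟨Q, hQ⟩ := hALL (Option (Sym Λ)) k (Sc β ⊕ Option H)
    (fun i => if i.val = 0 then R else DP.act (fun _ => Dir.S) Op.none)
  refine ⟨Q, ?_⟩
  intro x h W s c' hW hh hev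
  cases hev with
  | hmv _ _ _ _ =>
    refine hQ _ _ _ _ fun i => ?_
    have hlt : num e i W < β ^ (x.length + 1) := by
      have := num_lt hβ e i W
      rwa [hW] at this
    by_cases hi : i.val = 0
    · simp only [hi, if_true, hpos]
      exact hR (β ^ (x.length + 1)) x h (num e i W) (mp β s) (two_le_pow hβ _) hh hlt (cl_mp s)
    · simp only [hi, if_false, hpos]
      exact ev_skip _ _ _

theorem c_psh (e : A → Fin k → Fin β) (g : H) :
    ∃ Q, Comp e (WP.psh g : WP Λ A H) Q := by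
  refine ⟨DP.act (fun _ => Dir.S) (Op.push (Sum.inr (some g))), ?_⟩
  intro x h W s c' hW hh hev
  cases hev with
  | psh _ _ _ _ => exact ev_push _ _ _ _

theorem c_pop (e : A → Fin k → Fin β) :
    ∃ Q, Comp e (WP.pop : WP Λ A H) Q := by
  refine ⟨DP.act (fun _ => Dir.S) Op.pop, ?_⟩
  intro x h W s c' hW hh hev
  cases hev with
  | pop _ _ _ =>
    have h1 := ev_pop (pad (β ^ (x.length + 1)) x) (hpos e (β ^ (x.length + 1)) h W) (mp β s)
    have h2 : (mp β s).tail = mp β s.tail := by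
      cases s <;> rfl
    rw [h2] at h1
    exact h1

theorem c_seq (e : A → Fin k → Fin β) (P P' : WP Λ A H) (h1 : ∃ Q, Comp e P Q)
    (h2 : ∃ Q, Comp e P' Q) : ∃ Q, Comp e (WP.seq P P') Q := by
  obtain ⟨Q, hQ⟩ := h1
  obtain ⟨Q', hQ'⟩ := h2
  refine ⟨DP.seq Q Q', ?_⟩
  intro x h W s c' hW hh hev
  cases hev with
  | @seq _ _ _ c₁ _ ha hb =>
    have hi := inv ha
    refine DP.Ev.seq (hQ x h W s c₁ hW hh ha) ?_
    exact hQ' x c₁.1 c₁.2.1 c₁.2.2 c' (hi.1.trans hW) (hi.2 hh) hb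

open Classical in
/-- The value of a test, computed from the digits. -/
noncomputable def G (hk : 1 ≤ k) (e : A → Fin k → Fin β) (g : A → Sym Λ → Option H → Bool)
    (v : Fin k → Fin β × Sym Λ) (t : Option (Sc β ⊕ Option H)) : Bool :=
  decide (∃ a, (∀ i, e a i = (v i).1) ∧ g a (v ⟨0, hk⟩).2 (dt t) = true)

theorem G_eq (hk : 1 ≤ k) (hβ : 2 ≤ β) (e : A → Fin k → Fin β) (he : Function.Injective e)
    (g : A → Sym Λ → Option H → Bool) (x : List Λ) (h : ℕ) (a : A) (u : List A) (s : List H) :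
    G hk e g (fun i => (⟨num e i (a :: u) % β, Nat.mod_lt _ (by omega)⟩,
      tape x (if i.val = 0 then h else 0))) (mp β s).head? = g a (tape x h) s.head? := by
  have hv : ∀ i : Fin k, (⟨num e i (a :: u) % β, Nat.mod_lt _ (by omega)⟩ : Fin β) = e a i :=
    fun i => Fin.ext (num_mod e i a u)
  unfold G
  rw [Bool.eq_iff_iff, dt_mp]
  simp only [decide_eq_true_eq]
  constructor
  · rintro ⟨a', h1, h2⟩
    have : a' = a := he (funext fun i => (h1 i).trans (hv i))
    subst this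
    simpa using h2
  · intro h1
    exact ⟨a, fun i => (hv i).symm, by simpa using h1⟩

/-- A test. -/
theorem c_tst [Finite Λ] [Finite H] (hRDA : RDA_Stmt) (hk : 1 ≤ k)
    (hβ : 2 ≤ β) (e : A → Fin k → Fin β) (he : Function.Injective e)
    (g : A → Sym Λ → Option H → Bool) (P P' : DP (Option (Sym Λ)) k (Sc β ⊕ Option H)) :
    ∃ Q : DP (Option (Sym Λ)) k (Sc β ⊕ Option H), ∀ (x : List Λ) (h : ℕ) (a : A) (u : List A)
      (s : List H) (c' : Cf k (Sc β ⊕ Option H)), (a :: u).length = x.length + 1 →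
      h ≤ x.length + 1 →
      (g a (tape x h) s.head? = true → P.Ev (pad (β ^ (x.length + 1)) x)
        (hpos e (β ^ (x.length + 1)) h (a :: u), mp β s) c') →
      (g a (tape x h) s.head? = false → P'.Ev (pad (β ^ (x.length + 1)) x)
        (hpos e (β ^ (x.length + 1)) h (a :: u), mp β s) c') →
      Q.Ev (pad (β ^ (x.length + 1)) x) (hpos e (β ^ (x.length + 1)) h (a :: u), mp β s) c' := by
  obtain ⟨Q, hQ⟩ := hRDA Λ (Option H) β hβ k (fun v => DP.ite (fun _ t => G hk e g v t) P P')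
  refine ⟨Q, ?_⟩
  intro x h a u s c' hW hh h1 h2
  have hlt : ∀ i, num e i (a :: u) < β ^ (x.length + 1) := fun i => by
    have := num_lt hβ e i (a :: u)
    rwa [hW] at this
  refine hQ (β ^ (x.length + 1)) x (fun i => if i.val = 0 then h else 0)
    (fun i => num e i (a :: u)) (mp β s) _ (two_le_pow hβ _) (fun i => j_le hh i) hlt
    (cl_mp s) ?_
  have hG := G_eq hk hβ e he g x h a u s
  cases hb : g a (tape x h) s.head? with
  | true =>
    refine DP.Ev.iteT ?_ (h1 hb)
    exact hG.trans hb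
  | false =>
    refine DP.Ev.iteF ?_ (h2 hb)
    exact hG.trans hb

theorem c_ite [Finite Λ] [Finite H] (hRDA : RDA_Stmt) (hk : 1 ≤ k)
    (hβ : 2 ≤ β) (e : A → Fin k → Fin β) (he : Function.Injective e)
    (g : A → Sym Λ → Option H → Bool) (P P' : WP Λ A H) (h1 : ∃ Q, Comp e P Q)
    (h2 : ∃ Q, Comp e P' Q) : ∃ Q, Comp e (WP.ite g P P') Q := by
  obtain ⟨Q, hQ⟩ := h1
  obtain ⟨Q', hQ'⟩ := h2
  obtain ⟨T, hT⟩ := c_tst hRDA hk hβ e he g Q Q'
  refine ⟨T, ?_⟩
  intro x h W s c' hW hh hev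
  cases hev with
  | @iteT _ _ _ _ a u _ _ hb ha =>
    refine hT x h a u s _ hW hh (fun _ => hQ x h (a :: u) s c' hW hh ha) fun hf => ?_
    rw [hb] at hf
    cases hf
  | @iteF _ _ _ _ a u _ _ hb ha =>
    refine hT x h a u s _ hW hh (fun hf => ?_) fun _ => hQ' x h (a :: u) s c' hW hh ha
    rw [hb] at hf
    cases hf

/-- The test of the loop: is the top symbol the answer yes? -/
def tp {Λ H : Type} {k β : ℕ} : (Fin k → Sym (Option (Sym Λ))) → Option (Sc β ⊕ Option H) → Bool :=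
  fun _ t => match t with
    | some (Sum.inr none) => true
    | _ => false

theorem c_wh [Finite Λ] [Finite H] (hRDA : RDA_Stmt) (hk : 1 ≤ k)
    (hβ : 2 ≤ β) (e : A → Fin k → Fin β) (he : Function.Injective e)
    (g : A → Sym Λ → Option H → Bool) (P : WP Λ A H) (h1 : ∃ Q, Comp e P Q) :
    ∃ Q, Comp e (WP.wh g P) Q := by
  obtain ⟨Q, hQ⟩ := h1
  obtain ⟨T, hT⟩ := c_tst hRDA hk hβ e he g
    (DP.act (fun _ => Dir.S) (Op.push (Sum.inr none))) (DP.act (fun _ => Dir.S) Op.none)
  refine ⟨DP.seq T (DP.wh tp (DP.seq (DP.act (fun _ => Dir.S) Op.pop) (DP.seq Q T))), ?_⟩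
  have key : ∀ (x : List Λ) (R : WP Λ A H) (c c' : WC A H), R.Ev x c c' → R = WP.wh g P →
      c.2.1.length = x.length + 1 → c.1 ≤ x.length + 1 →
      ∃ m, T.Ev (pad (β ^ (x.length + 1)) x)
          (hpos e (β ^ (x.length + 1)) c.1 c.2.1, mp β c.2.2) m ∧
        (DP.wh tp (DP.seq (DP.act (fun _ => Dir.S) Op.pop) (DP.seq Q T))).Ev
          (pad (β ^ (x.length + 1)) x) m
          (hpos e (β ^ (x.length + 1)) c'.1 c'.2.1, mp β c'.2.2) := by
    intro x R c c' hev
    induction hev with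
    | rot b h a u s => intro hR; cases hR
    | wrt b h a u s => intro hR; cases hR
    | hmv d h u s => intro hR; cases hR
    | psh g h u s => intro hR; cases hR
    | pop h u s => intro hR; cases hR
    | seq _ _ ih1 ih2 => intro hR; cases hR
    | iteT _ _ ih => intro hR; cases hR
    | iteF _ _ ih => intro hR; cases hR
    | @whF g' P' h a u s hb =>
      intro hR hW hh
      cases hR
      refine ⟨(hpos e (β ^ (x.length + 1)) h (a :: u), mp β s), ?_, ?_⟩
      · refine hT x h a u s _ hW hh (fun hf => ?_) fun _ => ev_skip _ _ _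
        rw [hb] at hf
        cases hf
      · refine DP.Ev.whF ?_
        cases s <;> rfl
    | @whT g' P' h a u s c₁ c' hb ha hc ih1 ih2 =>
      intro hR hW hh
      cases hR
      have hi := inv ha
      obtain ⟨m, hm1, hm2⟩ := ih2 rfl (hi.1.trans hW) (hi.2 hh)
      refine ⟨(hpos e (β ^ (x.length + 1)) h (a :: u), Sum.inr none :: mp β s), ?_, ?_⟩
      · refine hT x h a u s _ hW hh (fun _ => ev_push _ _ _ _) fun hf => ?_
        rw [hb] at hf
        cases hf
      · refine DP.Ev.whT rfl (DP.Ev.seq (ev_pop _ _ _) (DP.Ev.seq ?_ hm1)) hm2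
        exact hQ x h (a :: u) s c₁ hW hh ha
  intro x h W s c' hW hh hev
  obtain ⟨m, hm1, hm2⟩ := key x _ _ _ hev rfl hW hh
  exact DP.Ev.seq hm1 hm2

end WCP

theorem t_WCP (hPAD : PAD_Stmt) (hALL : ALL_Stmt) (hROT : ROT_Stmt) (hMVR : MVR_Stmt)
    (hWDG : WDG_Stmt) (hRDA : RDA_Stmt) : WCP_Stmt := by
  intro Λ A H _ _ _ k β e hk hβ he P
  have _ := hPAD
  have key : ∃ Q, WCP.Comp e P Q := by
    induction P with
    | rot b => exact WCP.c_rot hALL hROT hβ e b
    | wrt b => exact WCP.c_wrt hALL hWDG hRDA hβ e b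
    | hmv d => exact WCP.c_hmv hALL hMVR hβ e d
    | psh g => exact WCP.c_psh e g
    | pop => exact WCP.c_pop e
    | seq P P' ih1 ih2 => exact WCP.c_seq e P P' ih1 ih2
    | ite g P P' ih1 ih2 => exact WCP.c_ite hRDA hk hβ e he g P P' ih1 ih2
    | wh g P ih => exact WCP.c_wh hRDA hk hβ e he g P ih
  exact key

end Pool.Agent.NDH
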