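import Pool.Agent.NDH.St

/-!
# Project NDH: module WDG (the lowest digit is replaced)
-/

set_option autoImplicit false

namespace Pool.Agent.NDH

open Pool.Agent.Heads Pool.Agent.NPH Relation

namespace WDG

/-- `n` steps in the direction `d`. -/
def go (α Γ : Type) (d : Dir) : ℕ → DP α 1 Γ
  | 0 => DP.act (fun _ => Dir.S) Op.none
  | n + 1 => DP.seq (go α Γ d n) (DP.act (fun _ => d) Op.none)

theorem go_right {α Γ : Type} (w : List α) (p : ℕ) (s : List Γ) (n : ℕ)
    (h : p + n ≤ w.length + 1) :
    (go α Γ Dir.R n).Ev w (fun _ => p, s) (fun _ => p + n, s) := by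
  induction n with
  | zero => exact DP.Ev.act (fun _ => Dir.S) Op.none (fun _ => p, s)
  | succ n ih =>
    have h1 := ih (by omega)
    have h2 := DP.Ev.act (w := w) (fun _ => Dir.R) Op.none
      ((fun _ => p + n, s) : Cf 1 Γ)
    have h3 : move (w.length + 1) (p + n) Dir.R = p + (n + 1) := by
      show min (p + n + 1) (w.length + 1) = p + (n + 1)
      omega
    have h4 := DP.Ev.seq h1 h2
    simp only [h3, Op.apply] at h4
    exact h4

theorem go_left {α Γ : Type} (w : List α) (p : ℕ) (s : List Γ) (n : ℕ) :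
    (go α Γ Dir.L n).Ev w (fun _ => p, s) (fun _ => p - n, s) := by
  induction n with
  | zero => exact DP.Ev.act (fun _ => Dir.S) Op.none (fun _ => p, s)
  | succ n ih =>
    have h2 := DP.Ev.act (w := w) (fun _ => Dir.L) Op.none
      ((fun _ => p - n, s) : Cf 1 Γ)
    have h3 : move (w.length + 1) (p - n) Dir.L = p - (n + 1) := by
      show p - n - 1 = p - (n + 1)
      omega
    have h4 := DP.Ev.seq ih h2
    simp only [h3, Op.apply] at h4
    exact h4

end WDG

theorem t_WDG (hP : PAD_Stmt) : WDG_Stmt := by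
  intro Λ G β σ σ' hσ hσ'
  have key : ∀ M P : ℕ, β ∣ M → P < M → P % β = σ → σ ≤ P ∧ P - σ + σ' < M := by
    rintro M P ⟨m, rfl⟩ hPM hmod
    have h1 := Nat.div_add_mod P β
    rw [hmod] at h1
    have h2 : P / β < m := Nat.div_lt_of_lt_mul hPM
    have h3 : β * (P / β) + β ≤ β * m := by
      calc β * (P / β) + β = β * (P / β + 1) := by ring
        _ ≤ β * m := Nat.mul_le_mul_left β h2
    generalize β * (P / β) = a at *
    generalize β * m = b at *
    omega
  by_cases hle : σ ≤ σ'
  · refine ⟨WDG.go _ _ Dir.R (σ' - σ), ?_⟩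
    intro M x j P s hM hdvd hj hPM hmod
    obtain ⟨h1, h2⟩ := key M P hdvd hPM hmod
    have hlen := (hP Λ M x hM).1
    have h3 : cel M j P + (σ' - σ) = cel M j (P - σ + σ') := by
      unfold cel
      omega
    have h4 : j * M + M ≤ (x.length + 2) * M := by
      calc j * M + M = (j + 1) * M := by ring
        _ ≤ (x.length + 2) * M := Nat.mul_le_mul_right M (by omega)
    have h5 : cel M j P + (σ' - σ) ≤ (pad M x).length + 1 := by
      rw [h3, hlen]
      unfold cel
      generalize j * M = a at *
      generalize (x.length + 2) * M = b at *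
      omega
    have h6 := WDG.go_right (α := Option (Sym Λ)) (Γ := Sc β ⊕ G) (pad M x) (cel M j P) s
      (σ' - σ) h5
    rw [h3] at h6
    exact h6
  · refine ⟨WDG.go _ _ Dir.L (σ - σ'), ?_⟩
    intro M x j P s hM hdvd hj hPM hmod
    obtain ⟨h1, h2⟩ := key M P hdvd hPM hmod
    have h3 : cel M j P - (σ - σ') = cel M j (P - σ + σ') := by
      unfold cel
      omega
    have h6 := WDG.go_left (α := Option (Sym Λ)) (Γ := Sc β ⊕ G) (pad M x) (cel M j P) s
      (σ - σ')
    rw [h3] at h6
    exact h6

end Pool.Agent.NDH
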