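import Pool.Agent.NDH.St

/-!
# Project NDH, module WLG: languages of word programs
-/

set_option autoImplicit false

namespace Pool.Agent.NDH

open Pool.Agent.Heads Pool.Agent.NPH Relation

namespace WLG

/-- An injective code with a given letter as zero. -/
theorem code (A : Type) [Finite A] (k β : ℕ) (hβ : 2 ≤ β) (hc : Nat.card A ≤ β ^ k) (a0 : A) :
    ∃ e : A → Fin k → Fin β, Function.Injective e ∧ ∀ i, (e a0 i).val = 0 := by
  classical
  have := Fintype.ofFinite A
  have h1 : Fintype.card A ≤ Fintype.card (Fin k → Fin β) := by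
    rw [Fintype.card_fun, Fintype.card_fin, Fintype.card_fin, ← Nat.card_eq_fintype_card]
    exact hc
  obtain ⟨f⟩ := Function.Embedding.nonempty_of_card_le h1
  refine ⟨fun a => Equiv.swap (f a0) (fun _ => ⟨0, by omega⟩) (f a), ?_, ?_⟩
  · exact (Equiv.swap (f a0) (fun _ => ⟨0, by omega⟩)).injective.comp f.injective
  · intro i
    change (Equiv.swap (f a0) (fun _ => ⟨0, by omega⟩) (f a0) i).val = 0
    rw [Equiv.swap_apply_left]

/-- The stack symbol of the word program. -/
def low {β : ℕ} {H : Type} : Option (Sc β ⊕ Option H) → Option H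
  | some (Sum.inr o) => o
  | _ => none

theorem low_head {β : ℕ} {H : Type} (s : List H) :
    low ((s.map fun g => (Sum.inr (some g) : Sc β ⊕ Option H)).head?) = s.head? := by
  cases s <;> rfl

theorem num_zero {A : Type} {k β : ℕ} (e : A → Fin k → Fin β) (a0 : A)
    (h0 : ∀ i, (e a0 i).val = 0) (i : Fin k) (n : ℕ) :
    num e i (List.replicate n a0) = 0 := by
  unfold num
  rw [List.map_replicate, h0]
  induction n with
  | zero => simp
  | succ n ih =>
    rw [List.replicate_succ, Nat.ofDigits_cons, ih]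
    simp

end WLG

theorem t_WLG (_hPAD : PAD_Stmt) (hWCP : WCP_Stmt) (hDCM : DCM_Stmt) : WLG_Stmt := by
  intro Λ A H _ _ _ k β hk hβ hc a0 P acc
  obtain ⟨e, he, he0⟩ := WLG.code A k β hβ hc a0
  obtain ⟨Q, hQ⟩ := hWCP Λ A H k β e hk hβ he P
  obtain ⟨M, hdet, hM⟩ := hDCM (Option (Sym Λ)) k (Sc β ⊕ Option H)
    (DP.seq (DP.act (fun _ => Dir.R) Op.none) Q) (fun o => acc (WLG.low o))
  refine ⟨M, hdet, ?_⟩
  intro x c' hx
  have h1 := hQ x 0 (List.replicate (x.length + 1) a0) [] c' (by simp) (Nat.zero_le _) hx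
  have h2 : hpos e (β ^ (x.length + 1)) 0 (List.replicate (x.length + 1) a0) = fun _ => 1 := by
    funext i
    unfold hpos
    rw [WLG.num_zero e a0 he0]
    simp [cel]
  rw [h2, List.map_nil] at h1
  have h3 : (DP.act (fun _ => Dir.R) Op.none : DP (Option (Sym Λ)) k (Sc β ⊕ Option H)).Ev
      (pad (β ^ (x.length + 1)) x) (fun _ => 0, []) (fun _ => 1, []) := by
    have h := DP.Ev.act (w := pad (β ^ (x.length + 1)) x) (fun _ : Fin k => Dir.R)
      (Op.none : Op (Sc β ⊕ Option H)) (fun _ => 0, [])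
    have e1 : (fun i : Fin k => move ((pad (β ^ (x.length + 1)) x).length + 1)
        (((fun _ => 0, []) : Cf k (Sc β ⊕ Option H)).1 i) ((fun _ : Fin k => Dir.R) i)) =
        fun _ => 1 := by
      funext i
      simp [move]
    rw [e1] at h
    exact h
  have h4 := hM (pad (β ^ (x.length + 1)) x) _ (DP.Ev.seq h3 h1)
  rw [h4]
  change acc (WLG.low ((c'.2.2.map fun g => (Sum.inr (some g) : Sc β ⊕ Option H)).head?)) = true ↔ _
  rw [WLG.low_head]

end Pool.Agent.NDH
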