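import Pool.Agent.NPH.PAD
import Pool.Agent.NDH.SWI
import Pool.Agent.NDH.SWW
import Pool.Agent.NDH.ALL
import Pool.Agent.NDH.SAV
import Pool.Agent.NDH.LOA
import Pool.Agent.NDH.REV
import Pool.Agent.NDH.SVF
import Pool.Agent.NDH.DRP
import Pool.Agent.NDH.RST
import Pool.Agent.NDH.BCK
import Pool.Agent.NDH.WDG
import Pool.Agent.NDH.WLG
import Pool.Agent.NDH.RDG
import Pool.Agent.NDH.RDA
import Pool.Agent.NDH.MVR
import Pool.Agent.NDH.ROT
import Pool.Agent.NDH.CMW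
import Pool.Agent.NDH.WCP
import Pool.Agent.NDH.DCM
import Pool.Agent.NDH.FET

/-!
# Project NDH, part P: assembly
-/

set_option autoImplicit false

namespace Pool.Agent.NDH

open Pool.Agent.Heads Pool.Agent.NPH

theorem rda : RDA_Stmt := t_RDA (t_RDG t_PAD t_SWI)

theorem wcp : WCP_Stmt :=
  t_WCP t_PAD t_ALL (t_ROT t_PAD t_SWI) (t_MVR t_PAD) (t_WDG t_PAD) rda

theorem wlg : WLG_Stmt := t_WLG t_PAD wcp t_DCM

theorem rev : REV_Stmt := t_REV (t_SAV t_SWW) (t_LOA t_SWW)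

theorem svf : SVF_Stmt := t_SVF (t_SAV t_SWW) rev

theorem cmw : CMW_Stmt := t_CMW t_SWW rev svf

theorem fet : FET_Stmt := t_FET t_SWW

theorem bck : BCK_Stmt := t_BCK rev

theorem loa : LOA_Stmt := t_LOA t_SWW

end Pool.Agent.NDH
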