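import Pool.Agent.NDH.SimP

/-!
# Project NDH: deterministic pushdown automata contain the sweep machines
-/

set_option autoImplicit false

namespace Pool.Agent.NDH

open Pool.Agent.Heads Relation

namespace Sim

variable {Λ A : Type} (N : SM Λ A)

/-- The label of the frame that begins with the symbol. -/
def fl : Option (HH N) → Option (Frm (mm N))
  | some (Sum.inr (some (LL.fr g _))) => some g
  | _ => none

theorem fl_encF {n : ℕ} {a0 : A} (s : List (Frm (mm N) × XX N a0 n)) :
    fl N (encF N s).head? = s.head?.map Prod.fst := by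
  cases s with
  | nil => rfl
  | cons f s => rfl

/-- The guard of the loop. -/
def gd : BB A × Bool → Sym Λ → Option (HH N) → Bool := fun _ _ h => match h with
  | some (Sum.inr (some (LL.lab Lab.acc _))) => false
  | some (Sum.inr (some (LL.lab Lab.rej _))) => false
  | some (Sum.inr (some (LL.lab _ _))) => true
  | _ => false

theorem gd_true (a : BB A × Bool) (y : Sym Λ) (l : Lab (mm N)) (q : N.Q) (h1 : l ≠ Lab.acc)
    (h2 : l ≠ Lab.rej) : gd N a y (some (Sum.inr (some (LL.lab l q)))) = true := by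
  cases l <;> first | rfl | exact absurd rfl h1 | exact absurd rfl h2

theorem gd_false (a : BB A × Bool) (y : Sym Λ) (l : Lab (mm N)) (q : N.Q)
    (h : l = Lab.acc ∨ l = Lab.rej) : gd N a y (some (Sum.inr (some (LL.lab l q)))) = false := by
  rcases h with rfl | rfl <;> rfl

/-- The acceptance condition. -/
def ac : Option (HH N) → Bool
  | some (Sum.inr (some (LL.lab Lab.acc _))) => true
  | _ => false

theorem enc_cons {n : ℕ} {a0 : A} (c : Cf (Lab (mm N)) (Frm (mm N)) (XX N a0 n)) :
    ∃ a u, enc N c = (0, a :: u,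
      Sum.inr (some (LL.lab c.lab c.reg.1.1)) :: encF N c.stk) := by
  obtain ⟨u, hu⟩ := wd_cons N c.reg.1
  refine ⟨(((c.reg.1.2.2 c.reg.1.2.1, decide (c.reg.1.2.1 = 0)), false), false), u, ?_⟩
  unfold enc
  rw [hu]

section

variable [Finite Λ] [Finite A] [Finite (TT N)] (a0 : A) (hF : N.Fresh)

/-- One step. -/
theorem body (H : Lib) : ∃ B : WP Λ (BB A × Bool) (HH N), ∀ (x : List Λ)
    (c c' : Cf (Lab (mm N)) (Frm (mm N)) (XX N a0 x.length)),
    (sys N a0 hF x).Stp c c' → B.Ev x (enc N c) (enc N c') := by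
  choose PI hPI using ins N a0 hF H
  choose J hJ using fun (l : Lab (mm N)) (q : N.Q) =>
    sww N H.sww fun _ _ h => PI (prog (mm N) l (fl N h)) q
  obtain ⟨B, hB⟩ := sww N H.sww fun _ _ h => match h with
    | some (Sum.inr (some (LL.lab l q))) => WP.seq WP.pop (J l q)
    | _ => WP.pop
  refine ⟨B, fun x c c' h => ?_⟩
  refine hB x c.reg.1 _ _ ?_
  refine WP.Ev.seq (WP.Ev.pop _ _ _) ?_
  refine hJ c.lab c.reg.1.1 x c.reg.1 _ _ ?_
  refine hPI _ c.reg.1.1 x c.reg c.stk c' rfl ?_
  have h2 : fl N (encF N c.stk).head? = c.stk.head?.map Prod.fst := fl_encF N c.stk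
  have h3 : Ex (sys N a0 hF x) (prog (mm N) c.lab (fl N (encF N c.stk).head?)) c.reg c.stk c' := by
    rw [h2]
    exact h
  exact h3

omit [Finite Λ] [Finite A] in
theorem loop {B : WP Λ (BB A × Bool) (HH N)} {x : List Λ}
    (hB : ∀ c c' : Cf (Lab (mm N)) (Frm (mm N)) (XX N a0 x.length),
      (sys N a0 hF x).Stp c c' → B.Ev x (enc N c) (enc N c'))
    {c c' : Cf (Lab (mm N)) (Frm (mm N)) (XX N a0 x.length)}
    (h : (sys N a0 hF x).Run c c') (hc' : c'.lab = Lab.acc ∨ c'.lab = Lab.rej) :
    (WP.wh (gd N) B).Ev x (enc N c) (enc N c') := by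
  have h' : ReflTransGen (sys N a0 hF x).Stp c c' := h
  clear h
  induction h' using ReflTransGen.head_induction_on with
  | refl =>
    obtain ⟨a, u, hu⟩ := enc_cons N c'
    rw [hu]
    exact WP.Ev.whF (gd_false N _ _ _ _ hc')
  | head h1 _ ih =>
    rename_i c1 c2 h6
    by_cases h2 : c1.lab = Lab.acc ∨ c1.lab = Lab.rej
    · exfalso
      have h3 : Ex (sys N a0 hF x) (prog (mm N) c1.lab (c1.stk.head?.map Prod.fst)) c1.reg c1.stk
        c2 := h1
      rcases h2 with h2 | h2
      · rw [h2] at h3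
        exact inv_halt h3
      · rw [h2] at h3
        exact inv_halt h3
    · have h3 := hB c1 c2 h1
      obtain ⟨a, u, hu⟩ := enc_cons N c1
      rw [hu] at h3 ⊢
      exact WP.Ev.whT (gd_true N _ _ _ _ (fun h => h2 (Or.inl h)) (fun h => h2 (Or.inr h))) h3 ih

end

end Sim

open Sim in
/-- SMP: a deterministic `k`-head pushdown automaton contains, on padded words, the sweep machines with
few letters. -/
theorem t_SMP (H : Sim.Lib) (hW : WLG_Stmt) : SMP_Stmt := by
  intro Λ A _ _ k β hk hβ hA N a0 hF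
  have := finTT N
  have := N.finQ
  have := finSymL Λ
  have := finLL N.Q (Sym Λ) (mm N)
  have := finHH N
  have hcard : Nat.card (BB A × Bool) ≤ β ^ k := by
    rw [Nat.card_prod, Nat.card_prod, Nat.card_prod, Nat.card_eq_fintype_card (α := Bool),
      Fintype.card_bool]
    omega
  obtain ⟨B, hB⟩ := body N a0 hF H
  obtain ⟨R, hR⟩ := H.rst Λ A (LL N.Q (Sym Λ) (mm N)) a0
  obtain ⟨M, hM, hM'⟩ := hW Λ (BB A × Bool) (HH N) k β hk hβ hcard (((a0, false), false), false)
    (WP.seq R (WP.seq (WP.psh (Sum.inr (some (LL.lab Lab.main N.start)))) (WP.wh (gd N) B)))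
    (ac N)
  refine ⟨M, hM, fun x => ?_⟩
  have hfin : {y | (sys N a0 hF x).Rch y}.Finite := Set.toFinite _
  have hst : ∀ c' : Cf (Lab (mm N)) (Frm (mm N)) (XX N a0 x.length),
      (sys N a0 hF x).Run (sys N a0 hF x).init c' → (c'.lab = Lab.acc ∨ c'.lab = Lab.rej) →
      (WP.seq R (WP.seq (WP.psh (Sum.inr (some (LL.lab Lab.main N.start))))
        (WP.wh (gd N) B))).Ev x
        (0, List.replicate (x.length + 1) (((a0, false), false), false), []) (enc N c') := by
    intro c' h1 h2
    have e1 : List.replicate (x.length + 1) (((a0, false), false), false) =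
        cl (cm (List.replicate (x.length + 1) (a0, false))) := by
      unfold cl cm
      rw [List.map_replicate, List.map_replicate]
    rw [e1]
    refine WP.Ev.seq (hR x x.length _ [] (by rw [List.length_replicate])) ?_
    refine WP.Ev.seq (WP.Ev.psh _ _ _ _) ?_
    exact loop N a0 hF (hB x) h1 h2
  have hmain := t_AMAIN (sys N a0 hF x) hfin
  by_cases hg : N.Accepts a0 x
  · obtain ⟨y, s, hr⟩ := hmain.1 ((accepts_iff N a0 hF x).1 hg)
    have h3 := hM' x _ (hst _ hr (Or.inl rfl))
    rw [h3]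
    exact ⟨fun _ => hg, fun _ => rfl⟩
  · obtain ⟨y, s, hr⟩ := hmain.2 (fun h => hg ((accepts_iff N a0 hF x).2 h))
    have h3 := hM' x _ (hst _ hr (Or.inr rfl))
    rw [h3]
    exact ⟨fun h => (Bool.noConfusion (h : false = true)), fun h => (hg h).elim⟩

end Pool.Agent.NDH
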