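import Pool.Agent.NDH.Asm
import Pool.Agent.NDH.P
import Pool.Agent.NDH.SimM

/-!
# Project NDH (MP_5e85fc_lc): the theorem

For every `k ≥ 1` some language over `{0, 1}` of a two-way deterministic `k`-head pushdown automaton is
no finite Boolean combination of languages of two-way nondeterministic `k`-head sensing automata.
-/

set_option autoImplicit false

namespace Pool.Agent.NDH

open Pool.Agent.Heads Pool.Agent.NPH Pool.Agent.NPB

theorem smp : SMP_Stmt := t_SMP ⟨t_SWW, svf, t_RST, loa, t_DRP, cmw, fet, bck⟩ wlg

theorem maind : MAIND_Stmt := main_of smp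

end Pool.Agent.NDH
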