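import Pool.Agent.AFH.Defs

/-!
# Project NDH: alternating automata with sensing heads are alternating automata
-/

set_option autoImplicit false

namespace Pool.Agent.NDH

open Pool.Agent.Heads Pool.Agent.AFH

namespace SAF

/-- A two-way alternating finite automaton with `k` sensing heads. -/
structure SAFA (α : Type) (k : ℕ) where
  Q : Type
  finQ : Finite Q
  start : Q
  accept : Set Q
  univ : Set Q
  δ : Q → (Fin k → Sym α) → (Fin k → Fin k → Bool) → Set (Q × (Fin k → Dir))

namespace SAFA

variable {α : Type} {k : ℕ} (M : SAFA α k)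

/-- One step on input `w`. -/
def Step (w : List α) (c c' : M.Q × (Fin k → ℕ)) : Prop :=
  ∃ t ∈ M.δ c.1 (fun i => tape w (c.2 i)) (fun i j => decide (c.2 i = c.2 j)),
    c' = (t.1, fun i => move (w.length + 1) (c.2 i) (t.2 i))

/-- The accepting configurations. -/
inductive Wins (w : List α) : M.Q × (Fin k → ℕ) → Prop
  | final (c : M.Q × (Fin k → ℕ)) : c.1 ∈ M.accept → Wins w c
  | some (c c' : M.Q × (Fin k → ℕ)) : c.1 ∉ M.univ → M.Step w c c' → Wins w c' → Wins w c
  | all (c : M.Q × (Fin k → ℕ)) : c.1 ∈ M.univ → (∀ c', M.Step w c c' → Wins w c') → Wins w c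

/-- The language. -/
def lang : Set (List α) := {w | M.Wins w (M.start, fun _ => 0)}

end SAFA

/-- States. -/
inductive St (Q : Type) (k : ℕ) where
  | main (q : Q)
  | pair (q : Q) (B : Fin k → Fin k → Bool)
  | cho (q : Q) (B : Fin k → Fin k → Bool)
  | chk (i j : Fin k) (b : Bool)
  | ok

theorem finSt (Q : Type) (k : ℕ) [Finite Q] : Finite (St Q k) := by
  let f : St Q k → Fin 5 × Option Q × Option (Fin k → Fin k → Bool) ×
      Option (Fin k × Fin k × Bool) := fun s => match s with
    | St.main q => (0, some q, none, none)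
    | St.pair q B => (1, some q, some B, none)
    | St.cho q B => (2, some q, some B, none)
    | St.chk i j b => (3, none, none, some (i, j, b))
    | St.ok => (4, none, none, none)
  refine Finite.of_injective f ?_
  intro a b h
  cases a <;> cases b <;> simp_all [f]

section

variable {α : Type} {k : ℕ} (M : SAFA α k)

/-- No move. -/
def stay (k : ℕ) : Fin k → Dir := fun _ => Dir.S

/-- The heads `i` and `j` go to the left. -/
def both {k : ℕ} (i j : Fin k) : Fin k → Dir := fun l => if l = i ∨ l = j then Dir.L else Dir.S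

/-- The transitions. -/
def dl : St M.Q k → (Fin k → Sym α) → Set (St M.Q k × (Fin k → Dir))
  | St.main q, _ => {t | ∃ B, t = (St.pair q B, stay k)}
  | St.pair q B, _ => {t | t = (St.cho q B, stay k) ∨ ∃ i j, t = (St.chk i j (B i j), stay k)}
  | St.cho q B, x => {t | ∃ s ∈ M.δ q x B, t = (St.main s.1, s.2)}
  | St.chk i j b, x => {t | (x i = Sym.left ∨ x j = Sym.left) ∧
      ((x i = Sym.left ∧ x j = Sym.left) ↔ b = true) ∧ t = (St.ok, stay k) ∨
      ¬ (x i = Sym.left ∨ x j = Sym.left) ∧ t = (St.chk i j b, both i j)}
  | St.ok, _ => ∅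

/-- Accepting states. -/
def ac : Set (St M.Q k) := {s | match s with
  | St.main q => q ∈ M.accept
  | St.ok => True
  | _ => False}

/-- Universal states. -/
def un : Set (St M.Q k) := {s | match s with
  | St.pair _ _ => True
  | St.cho q _ => q ∈ M.univ
  | _ => False}

/-- The automaton. -/
def aut : AFA α k where
  Q := St M.Q k
  finQ := by
    have := M.finQ
    exact finSt M.Q k
  start := St.main M.start
  accept := ac M
  univ := un M
  δ := dl M

theorem tape_left {w : List α} {p : ℕ} : tape w p = Sym.left ↔ p = 0 := by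
  cases p with
  | zero => exact ⟨fun _ => rfl, fun _ => rfl⟩
  | succ p =>
    constructor
    · intro h
      unfold tape at h
      cases hw : w[p]? with
      | none => simp [hw] at h
      | some a => simp [hw] at h
    · intro h
      exact absurd h (Nat.succ_ne_zero p)

theorem move_stay (N : ℕ) (p : Fin k → ℕ) : (fun i => move N (p i) (stay k i)) = p := rfl

theorem chk_wins (w : List α) (i j : Fin k) : ∀ (n : ℕ) (p : Fin k → ℕ), p i = n →
    (aut M).Wins w (St.chk i j (decide (p i = p j)), p) := by
  intro n
  induction n with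
  | zero =>
    intro p hp
    refine AFA.Wins.some _ (St.ok, p) (fun h => h) ⟨(St.ok, stay k), Or.inl ⟨Or.inl ?_, ?_, rfl⟩,
      rfl⟩ (AFA.Wins.final _ trivial)
    · exact tape_left.2 hp
    · show (tape w (p i) = Sym.left ∧ tape w (p j) = Sym.left) ↔ decide (p i = p j) = true
      rw [tape_left, tape_left, decide_eq_true_iff, hp]
      exact ⟨fun h => h.2.symm, fun h => ⟨rfl, h.symm⟩⟩
  | succ n ih =>
    intro p hp
    by_cases hj : p j = 0
    · refine AFA.Wins.some _ (St.ok, p) (fun h => h) ⟨(St.ok, stay k), Or.inl ⟨Or.inr ?_, ?_, rfl⟩,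
        rfl⟩ (AFA.Wins.final _ trivial)
      · exact tape_left.2 hj
      · show (tape w (p i) = Sym.left ∧ tape w (p j) = Sym.left) ↔ decide (p i = p j) = true
        rw [tape_left, tape_left, decide_eq_true_iff, hp, hj]
        exact ⟨fun h => absurd h.1 (Nat.succ_ne_zero n), fun h => absurd h (Nat.succ_ne_zero n)⟩
    · let p' : Fin k → ℕ := fun l => move (w.length + 1) (p l) (both i j l)
      have hi' : p' i = p i - 1 := by
        show move (w.length + 1) (p i) (both i j i) = _
        unfold both
        rw [if_pos (Or.inl rfl)]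
        rfl
      have hj' : p' j = p j - 1 := by
        show move (w.length + 1) (p j) (both i j j) = _
        unfold both
        rw [if_pos (Or.inr rfl)]
        rfl
      have hd : decide (p' i = p' j) = decide (p i = p j) := by
        rw [hi', hj', decide_eq_decide]
        constructor
        · intro h
          omega
        · intro h
          rw [h]
      have h1 := ih p' (by rw [hi', hp, Nat.add_sub_cancel])
      rw [hd] at h1
      refine AFA.Wins.some _ (St.chk i j (decide (p i = p j)), p') (fun h => h)
        ⟨(St.chk i j (decide (p i = p j)), both i j), Or.inr ⟨?_, rfl⟩, rfl⟩ h1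
      rintro (h | h)
      · have h7 : p i = 0 := tape_left.1 h
        rw [hp] at h7
        exact Nat.succ_ne_zero n h7
      · exact hj (tape_left.1 h)

/-- The meaning of the winning configurations. -/
def Mean (w : List α) (c : St M.Q k × (Fin k → ℕ)) : Prop :=
  match c.1 with
  | St.main q => M.Wins w (q, c.2)
  | St.pair q _ => M.Wins w (q, c.2)
  | St.cho q B => (B = fun i j => decide (c.2 i = c.2 j)) → M.Wins w (q, c.2)
  | St.chk i j b => decide (c.2 i = c.2 j) = b
  | St.ok => True

theorem mean (w : List α) (c : (aut M).Q × (Fin k → ℕ)) (h : (aut M).Wins w c) :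
    Mean M w c := by
  induction h with
  | final c h =>
    obtain ⟨s, p⟩ := c
    cases s with
    | main q => exact SAFA.Wins.final _ h
    | pair q B => exact h.elim
    | cho q B => exact h.elim
    | chk i j b => exact h.elim
    | ok => trivial
  | some c c' hu hs _ ih =>
    obtain ⟨s, p⟩ := c
    obtain ⟨t, ht, rfl⟩ := hs
    cases s with
    | main q =>
      obtain ⟨B, rfl⟩ := ht
      exact ih
    | pair q B => exact (hu trivial).elim
    | cho q B =>
      obtain ⟨s, hs, rfl⟩ := ht
      intro hB
      refine SAFA.Wins.some _ (s.1, fun i => move (w.length + 1) (p i) (s.2 i)) hu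
        ⟨s, ?_, rfl⟩ ih
      rw [← hB]
      exact hs
    | chk i j b =>
      rcases ht with ⟨h1, h2, rfl⟩ | ⟨h1, rfl⟩
      · show decide (p i = p j) = b
        have h1' : tape w (p i) = Sym.left ∨ tape w (p j) = Sym.left := h1
        have h2' : (tape w (p i) = Sym.left ∧ tape w (p j) = Sym.left) ↔ b = true := h2
        rw [tape_left, tape_left] at h1' h2'
        cases b with
        | true =>
          have := h2'.2 rfl
          rw [decide_eq_true_iff, this.1, this.2]
        | false =>
          rw [decide_eq_false_iff_not]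
          intro h3
          have h4 : ¬ (p i = 0 ∧ p j = 0) := fun h => Bool.noConfusion (h2'.1 h)
          rcases h1' with h5 | h5
          · exact h4 ⟨h5, h3 ▸ h5⟩
          · exact h4 ⟨h3.trans h5, h5⟩
      · show decide (p i = p j) = b
        have h1' : ¬ (tape w (p i) = Sym.left ∨ tape w (p j) = Sym.left) := h1
        rw [tape_left, tape_left] at h1'
        have ih' : decide (move (w.length + 1) (p i) (both i j i) =
            move (w.length + 1) (p j) (both i j j)) = b := ih
        unfold both at ih'
        rw [if_pos (Or.inl rfl), if_pos (Or.inr rfl)] at ih'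
        rw [← ih', decide_eq_decide]
        show p i = p j ↔ p i - 1 = p j - 1
        omega
    | ok => trivial
  | all c hu _ ih =>
    obtain ⟨s, p⟩ := c
    cases s with
    | main q => exact hu.elim
    | pair q B =>
      have h1 := ih (St.cho q B, p) ⟨(St.cho q B, stay k), Or.inl rfl, rfl⟩
      refine h1 (funext fun i => funext fun j => ?_)
      exact (ih (St.chk i j (B i j), p)
        ⟨(St.chk i j (B i j), stay k), Or.inr ⟨i, j, rfl⟩, rfl⟩).symm
    | cho q B =>
      intro hB
      refine SAFA.Wins.all _ hu ?_
      rintro c' ⟨s, hs, rfl⟩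
      refine ih (St.main s.1, fun i => move (w.length + 1) (p i) (s.2 i))
        ⟨(St.main s.1, s.2), ⟨s, ?_, rfl⟩, rfl⟩
      rw [hB]
      exact hs
    | chk i j b => exact hu.elim
    | ok => exact hu.elim

theorem of_cho (w : List α) (q : M.Q) (p : Fin k → ℕ)
    (h : (aut M).Wins w (St.cho q (fun i j => decide (p i = p j)), p)) :
    (aut M).Wins w (St.main q, p) := by
  refine AFA.Wins.some _ (St.pair q (fun i j => decide (p i = p j)), p) (fun h => h)
    ⟨(St.pair q _, stay k), ⟨_, rfl⟩, rfl⟩ ?_
  refine AFA.Wins.all _ trivial ?_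
  rintro c' ⟨t, rfl | ⟨i, j, rfl⟩, rfl⟩
  · exact h
  · exact chk_wins M w i j _ p rfl

theorem back (w : List α) (c : M.Q × (Fin k → ℕ)) (h : M.Wins w c) :
    (aut M).Wins w (St.main c.1, c.2) := by
  induction h with
  | final c h => exact AFA.Wins.final _ h
  | some c c' hu hs _ ih =>
    refine of_cho M w c.1 c.2 ?_
    obtain ⟨t, ht, rfl⟩ := hs
    exact AFA.Wins.some _ (St.main t.1, fun i => move (w.length + 1) (c.2 i) (t.2 i)) hu
      ⟨(St.main t.1, t.2), ⟨t, ht, rfl⟩, rfl⟩ ih
  | all c hu _ ih =>
    refine of_cho M w c.1 c.2 ?_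
    refine AFA.Wins.all _ hu ?_
    rintro c' ⟨s, ⟨t, ht, rfl⟩, rfl⟩
    exact ih _ ⟨t, ht, rfl⟩

/-- Alternating automata with sensing heads are alternating automata. -/
theorem safa : ∃ M' : AFA α k, M'.lang = M.lang :=
  ⟨aut M, Set.ext fun w => ⟨fun h => mean M w _ h, fun h => back M w _ h⟩⟩

end

end SAF

end Pool.Agent.NDH
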