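import Pool.Agent.NPH.St0

/-!
# Project NDH (MP_5e85fc_lc, DeterministicStore): sweep machines

Theorem: for every `k ≥ 1` some language of a two-way deterministic `k`-head pushdown automaton is no
finite Boolean combination of languages of two-way nondeterministic `k`-head finite automata.

A sweep machine has no reading heads. It moves circularly over a memory word of length `|x| + 1`; on the
cell `l` it sees the memory letter, the symbol `tape x (l + 1)` and whether `l = 0`.
-/

set_option autoImplicit false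

namespace Pool.Agent.NDH

open Pool.Agent.Heads Pool.Agent.NPH Relation

/-- Nondeterministic sweep machines. -/
structure SM (Λ A : Type) where
  Q : Type
  finQ : Finite Q
  start : Q
  acc : Set Q
  tr : Q → Bool → A → Sym Λ → Set (Q × A)

namespace SM

variable {Λ A : Type} (N : SM Λ A)

/-- Nodes: state, cell, memory word. -/
abbrev Node (n : ℕ) : Type := N.Q × Fin (n + 1) × (Fin (n + 1) → A)

/-- The next cell, circularly. -/
def nxt {n : ℕ} (l : Fin (n + 1)) : Fin (n + 1) := l + 1

/-- One step on the input `x`. -/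
def Step (x : List Λ) (c c' : N.Node x.length) : Prop :=
  ∃ t ∈ N.tr c.1 (decide (c.2.1 = 0)) (c.2.2 c.2.1) (tape x (c.2.1.val + 1)),
    c' = (t.1, nxt c.2.1, Function.update c.2.2 c.2.1 t.2)

/-- The machine accepts `x`, started on the word with all letters `a0`. -/
def Accepts (a0 : A) (x : List Λ) : Prop :=
  ∃ c : N.Node x.length, ReflTransGen (N.Step x) (N.start, 0, fun _ => a0) c ∧ c.1 ∈ N.acc

/-- The start state is never a target. -/
def Fresh : Prop := ∀ q b a y a', (N.start, a') ∉ N.tr q b a y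

end SM

/-- RM2SM: machines with reading heads are sweep machines. -/
def RM2SM_Stmt : Prop :=
  ∀ (Λ : Type) [Finite Λ] (r S : ℕ) (L : Set (List Λ)), InT Λ r S L →
    ∃ (N : SM Λ (Fin S × (Fin r → Bool))) (a0 : Fin S × (Fin r → Bool)), N.Fresh ∧
      ∀ x, N.Accepts a0 x ↔ x ∈ L

/-- SMD: a deterministic `k`-head pushdown automaton contains, on padded words, the sweep machines with
few letters. -/
def SMP_Stmt : Prop :=
  ∀ (Λ A : Type) [Finite Λ] [Finite A] (k β : ℕ), 1 ≤ k → 2 ≤ β → 8 * Nat.card A ≤ β ^ k →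
    ∀ (N : SM Λ A) (a0 : A), N.Fresh → ∃ M : PDA (Option (Sym Λ)) k, M.Det ∧
      ∀ x : List Λ, pad (β ^ (x.length + 1)) x ∈ M.lang ↔ N.Accepts a0 x

/-- UPPERD: a deterministic `k`-head pushdown automaton contains, on padded words, `InT Λ k S`. -/
def UPPERD_Stmt : Prop :=
  ∀ (Λ : Type) [Finite Λ] (k β S : ℕ), 1 ≤ k → 2 ≤ β → 2 ^ (k + 3) * S ≤ β ^ k →
    ∀ L : Set (List Λ), InT Λ k S L → ∃ M : PDA (Option (Sym Λ)) k, M.Det ∧
      ∀ x : List Λ, pad (β ^ (x.length + 1)) x ∈ M.lang ↔ x ∈ L

theorem upperD (h : RM2SM_Stmt) (h' : SMP_Stmt) : UPPERD_Stmt := by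
  intro Λ _ k β S hk hβ hS L hL
  obtain ⟨N, a0, hN, hx⟩ := h Λ k S L hL
  obtain ⟨M, hM, hM'⟩ := h' Λ _ k β hk hβ (by
    rw [Nat.card_eq_fintype_card, Fintype.card_prod, Fintype.card_fun, Fintype.card_fin,
      Fintype.card_fin, Fintype.card_bool]
    calc 8 * (S * 2 ^ k) = 2 ^ (k + 3) * S := by ring
      _ ≤ β ^ k := hS) N a0 hN
  exact ⟨M, hM, fun x => (hM' x).trans (hx x)⟩

end Pool.Agent.NDH
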