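import Pool.Agent.AFH.Fin

/-!
Problem MP_5e85fc_lc: alternating multihead automata whose heads sense each other. Alternation gives
sensing for free: guess which heads are on the same cell, and check the guess in other branches of the
computation.
-/

set_option autoImplicit false

namespace Pool.Agent.NDH

open Pool.Agent.Heads Pool.Agent.AFH

/-- A two-way alternating finite automaton with `k` sensing heads: a step depends on the state, on the
`k` scanned symbols and, for all `i` and `j`, on whether the heads `i` and `j` are on the same cell.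
The states in `univ` are universal, the other ones are existential. -/
structure SensingAFA (α : Type) (k : ℕ) where
  Q : Type
  finQ : Finite Q
  start : Q
  accept : Set Q
  univ : Set Q
  δ : Q → (Fin k → Sym α) → (Fin k → Fin k → Bool) → Set (Q × (Fin k → Dir))

namespace SensingAFA

variable {α : Type} {k : ℕ} (M : SensingAFA α k)

/-- One step on the word `w`, between pairs (state, head positions). -/
def Step (w : List α) (c c' : M.Q × (Fin k → ℕ)) : Prop :=
  ∃ t ∈ M.δ c.1 (fun i => tape w (c.2 i)) (fun i j => decide (c.2 i = c.2 j)),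
    c' = (t.1, fun i => move (w.length + 1) (c.2 i) (t.2 i))

/-- The accepting configurations: those with an accepting state, the existential configurations
with some accepting successor, and the universal configurations all successors of which are
accepting (the least set with these properties). -/
inductive Wins (w : List α) : M.Q × (Fin k → ℕ) → Prop
  | final (c : M.Q × (Fin k → ℕ)) : c.1 ∈ M.accept → Wins w c
  | some (c c' : M.Q × (Fin k → ℕ)) : c.1 ∉ M.univ → M.Step w c c' → Wins w c' → Wins w c
  | all (c : M.Q × (Fin k → ℕ)) : c.1 ∈ M.univ → (∀ c', M.Step w c c' → Wins w c') → Wins w c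

/-- `M` accepts `w` if the initial configuration (initial state, all heads on the left endmarker)
is accepting. -/
def lang : Set (List α) := {w | M.Wins w (M.start, fun _ => 0)}

end SensingAFA

namespace Sens

/-- States: the states of `M`, a state with a guess, a state with a guess that is believed, the check of
a pair of heads, the accepting state. -/
inductive St (Q : Type) (k : ℕ) : Type
  | q (a : Q)
  | g (a : Q) (B : Fin k → Fin k → Bool)
  | go (a : Q) (B : Fin k → Fin k → Bool)
  | chk (i j : Fin k) (b : Bool)
  | yes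

theorem finSt (Q : Type) (k : ℕ) [Finite Q] : Finite (St Q k) := by
  let f : St Q k → Q ⊕ (Q × (Fin k → Fin k → Bool)) ⊕ (Q × (Fin k → Fin k → Bool)) ⊕
      (Fin k × Fin k × Bool) ⊕ Unit := fun x => match x with
    | St.q a => .inl a
    | St.g a B => .inr (.inl (a, B))
    | St.go a B => .inr (.inr (.inl (a, B)))
    | St.chk i j b => .inr (.inr (.inr (.inl (i, j, b))))
    | St.yes => .inr (.inr (.inr (.inr ())))
  refine Finite.of_injective f ?_
  intro x y h
  cases x <;> cases y <;> simp_all [f]

variable {α : Type} {k : ℕ}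

/-- The transitions. -/
def dl (M : SensingAFA α k) : St M.Q k → (Fin k → Sym α) → Set (St M.Q k × (Fin k → Dir))
  | St.q a, _ => {t | ∃ B, t = (St.g a B, fun _ => Dir.S)}
  | St.g a B, _ => {t | t = (St.go a B, fun _ => Dir.S) ∨ ∃ i j, t = (St.chk i j (B i j), fun _ => Dir.S)}
  | St.go a B, s => {t | ∃ u ∈ M.δ a s B, t = (St.q u.1, u.2)}
  | St.chk i j b, s => {t |
      (s i = Sym.left ∧ s j = Sym.left ∧ b = true ∧ t = (St.yes, fun _ => Dir.S)) ∨
      (s i = Sym.left ∧ s j ≠ Sym.left ∧ b = false ∧ t = (St.yes, fun _ => Dir.S)) ∨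
      (s i ≠ Sym.left ∧ s j = Sym.left ∧ b = false ∧ t = (St.yes, fun _ => Dir.S)) ∨
      (s i ≠ Sym.left ∧ s j ≠ Sym.left ∧
        t = (St.chk i j b, fun l => if l = i ∨ l = j then Dir.L else Dir.S))}
  | St.yes, _ => ∅

/-- Accepting states. -/
def acc (M : SensingAFA α k) : St M.Q k → Prop
  | St.q a => a ∈ M.accept
  | St.yes => True
  | _ => False

/-- Universal states. -/
def unv (M : SensingAFA α k) : St M.Q k → Prop
  | St.g _ _ => True
  | St.go a _ => a ∈ M.univ
  | _ => False

/-- The automaton without sensing. -/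
def aut (M : SensingAFA α k) : AFA α k :=
  ⟨St M.Q k, haveI := M.finQ; finSt M.Q k, St.q M.start, {x | acc M x}, {x | unv M x}, dl M⟩

/-- Which heads are on the same cell. -/
def mat (p : Fin k → ℕ) : Fin k → Fin k → Bool := fun i j => decide (p i = p j)

/-- What a winning configuration means. -/
def Good (M : SensingAFA α k) (w : List α) : St M.Q k → (Fin k → ℕ) → Prop
  | St.q a, p => M.Wins w (a, p)
  | St.g a B, p => B = mat p ∧ M.Wins w (a, p)
  | St.go a B, p => B = mat p → M.Wins w (a, p)
  | St.chk i j b, p => (b = true ↔ p i = p j)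
  | St.yes, _ => True

theorem tape_left {w : List α} {p : ℕ} : tape w p = Sym.left ↔ p = 0 := by
  cases p with
  | zero => simp [tape]
  | succ p => cases h : w[p]? <;> simp [tape, h]

theorem sound (M : SensingAFA α k) (w : List α) (c : (aut M).Q × (Fin k → ℕ))
    (h : (aut M).Wins w c) : Good M w c.1 c.2 := by
  induction h with
  | final c hc =>
    obtain ⟨x, p⟩ := c
    cases x with
    | q a => exact SensingAFA.Wins.final _ hc
    | g a B => exact False.elim hc
    | go a B => exact False.elim hc
    | chk i j b => exact False.elim hc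
    | yes => trivial
  | some c c' hc hs _ ih =>
    obtain ⟨x, p⟩ := c
    obtain ⟨t, ht, rfl⟩ := hs
    cases x with
    | q a =>
      obtain ⟨B, rfl⟩ := ht
      exact ih.2
    | g a B => exact absurd trivial hc
    | go a B =>
      obtain ⟨u, hu, rfl⟩ := ht
      intro hB
      have hB' : B = mat p := hB
      subst hB'
      exact SensingAFA.Wins.some (a, p) _ hc ⟨u, hu, rfl⟩ ih
    | chk i j b =>
      rcases ht with ⟨h1, h2, h3, rfl⟩ | ⟨h1, h2, h3, rfl⟩ | ⟨h1, h2, h3, rfl⟩ | ⟨h1, h2, rfl⟩
      · have e1 : p i = 0 := tape_left.1 h1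
        have e2 : p j = 0 := tape_left.1 h2
        change b = true ↔ p i = p j
        rw [h3, e1, e2]
        simp
      · have e1 : p i = 0 := tape_left.1 h1
        have e2 : p j ≠ 0 := fun h => h2 (tape_left.2 h)
        change b = true ↔ p i = p j
        rw [h3, e1]
        constructor
        · intro h; exact absurd h (by simp)
        · intro h; exact absurd h.symm e2
      · have e1 : p i ≠ 0 := fun h => h1 (tape_left.2 h)
        have e2 : p j = 0 := tape_left.1 h2
        change b = true ↔ p i = p j
        rw [h3, e2]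
        constructor
        · intro h; exact absurd h (by simp)
        · intro h; exact absurd h e1
      · have e1 : p i ≠ 0 := fun h => h1 (tape_left.2 h)
        have e2 : p j ≠ 0 := fun h => h2 (tape_left.2 h)
        have h3 : b = true ↔ p i - 1 = p j - 1 := by
          have h4 := ih
          simp only [Good, true_or, or_true, if_true, move] at h4
          exact h4
        change b = true ↔ p i = p j
        rw [h3]
        omega
    | yes => exact False.elim ht
  | all c hc hs ih =>
    obtain ⟨x, p⟩ := c
    cases x with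
    | q a => exact False.elim hc
    | g a B =>
      have h1 : B = mat p := by
        funext i j
        have h2 : Good M w (St.chk i j (B i j)) p :=
          ih (St.chk i j (B i j), p) ⟨(St.chk i j (B i j), fun _ => Dir.S), Or.inr ⟨i, j, rfl⟩, rfl⟩
        have h3 : B i j = true ↔ p i = p j := h2
        change B i j = decide (p i = p j)
        rw [Bool.eq_iff_iff, h3, decide_eq_true_iff]
      have h4 : Good M w (St.go a B) p :=
        ih (St.go a B, p) ⟨(St.go a B, fun _ => Dir.S), Or.inl rfl, rfl⟩
      exact ⟨h1, h4 h1⟩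
    | go a B =>
      intro hB
      have hB' : B = mat p := hB
      subst hB'
      refine SensingAFA.Wins.all (a, p) hc ?_
      rintro c' ⟨u, hu, rfl⟩
      exact ih (St.q u.1, fun i => move (w.length + 1) (p i) (u.2 i)) ⟨(St.q u.1, u.2), ⟨u, hu, rfl⟩, rfl⟩
    | chk i j b => exact False.elim hc
    | yes => exact False.elim hc

theorem yes_wins (M : SensingAFA α k) (w : List α) (p : Fin k → ℕ) :
    (aut M).Wins w (St.yes, p) := AFA.Wins.final _ trivial

theorem chk_wins (M : SensingAFA α k) (w : List α) (i j : Fin k) : ∀ (n : ℕ) (p : Fin k → ℕ),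
    p i = n → (aut M).Wins w (St.chk i j (decide (p i = p j)), p) := by
  intro n
  induction n with
  | zero =>
    intro p hp
    by_cases hj : p j = 0
    · refine AFA.Wins.some _ (St.yes, p) (fun h => h) ⟨(St.yes, fun _ => Dir.S), ?_, rfl⟩ (yes_wins M w p)
      refine Or.inl ⟨tape_left.2 hp, tape_left.2 hj, ?_, rfl⟩
      simp [hp, hj]
    · refine AFA.Wins.some _ (St.yes, p) (fun h => h) ⟨(St.yes, fun _ => Dir.S), ?_, rfl⟩ (yes_wins M w p)
      refine Or.inr (Or.inl ⟨tape_left.2 hp, fun h => hj (tape_left.1 h), ?_, rfl⟩)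
      rw [hp]
      simpa using fun h : 0 = p j => hj h.symm
  | succ n ih =>
    intro p hp
    have hi : p i ≠ 0 := by omega
    by_cases hj : p j = 0
    · refine AFA.Wins.some _ (St.yes, p) (fun h => h) ⟨(St.yes, fun _ => Dir.S), ?_, rfl⟩ (yes_wins M w p)
      refine Or.inr (Or.inr (Or.inl ⟨fun h => hi (tape_left.1 h), tape_left.2 hj, ?_, rfl⟩))
      rw [hj]
      simpa using hi
    · obtain ⟨p', hp'⟩ : ∃ p' : Fin k → ℕ, p' = fun l => move (w.length + 1) (p l)
          (if l = i ∨ l = j then Dir.L else Dir.S) := ⟨_, rfl⟩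
      have e1 : p' i = p i - 1 := by rw [hp']; simp [move]
      have e2 : p' j = p j - 1 := by rw [hp']; simp [move]
      have e3 : decide (p i = p j) = decide (p' i = p' j) := by
        rw [e1, e2]
        rw [Bool.eq_iff_iff, decide_eq_true_iff, decide_eq_true_iff]
        omega
      rw [e3]
      refine AFA.Wins.some _ (St.chk i j (decide (p' i = p' j)), p') (fun h => h)
        ⟨(St.chk i j (decide (p' i = p' j)), fun l => if l = i ∨ l = j then Dir.L else Dir.S), ?_, ?_⟩
        (ih p' (by omega))
      · exact Or.inr (Or.inr (Or.inr ⟨fun h => hi (tape_left.1 h), fun h => hj (tape_left.1 h), rfl⟩))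
      · rw [hp']

theorem up (M : SensingAFA α k) (w : List α) (a : M.Q) (p : Fin k → ℕ)
    (h : (aut M).Wins w (St.go a (mat p), p)) : (aut M).Wins w (St.q a, p) := by
  refine AFA.Wins.some (M := aut M) (St.q a, p) (St.g a (mat p), p) (fun h => h)
    ⟨(St.g a (mat p), fun _ => Dir.S), ⟨mat p, rfl⟩, rfl⟩ ?_
  refine AFA.Wins.all (M := aut M) (St.g a (mat p), p) trivial ?_
  rintro c' ⟨t, ht, rfl⟩
  rcases ht with rfl | ⟨i, j, rfl⟩
  · exact h
  · exact chk_wins M w i j (p i) p rfl

theorem complete (M : SensingAFA α k) (w : List α) (c : M.Q × (Fin k → ℕ)) (h : M.Wins w c) :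
    (aut M).Wins w (St.q c.1, c.2) := by
  induction h with
  | final c hc => exact AFA.Wins.final _ hc
  | some c c' hc hs _ ih =>
    obtain ⟨u, hu, rfl⟩ := hs
    exact up M w c.1 c.2 (AFA.Wins.some _ _ hc ⟨(St.q u.1, u.2), ⟨u, hu, rfl⟩, rfl⟩ ih)
  | all c hc hs ih =>
    refine up M w c.1 c.2 (AFA.Wins.all _ hc ?_)
    rintro c' ⟨t, ⟨u, hu, rfl⟩, rfl⟩
    exact ih _ ⟨u, hu, rfl⟩

theorem lang_eq (M : SensingAFA α k) : (aut M).lang = M.lang := by
  ext w
  exact ⟨fun h => sound M w _ h, fun h => complete M w _ h⟩

end Sens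

/-- Sensing alternating `k`-head automata are simulated by `k + 1` heads and a deterministic store. -/
theorem sensing (α : Type) (k : ℕ) (M : SensingAFA α k) :
    ∃ P : PDA α (k + 1), P.Det ∧ P.lang = M.lang := by
  obtain ⟨P, hP, h⟩ := Pool.Agent.AFH.alternating α k (Sens.aut M)
  exact ⟨P, hP, h.trans (Sens.lang_eq M)⟩

end Pool.Agent.NDH
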