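import Pool.Agent.NDH.SMD
import Pool.Agent.NPH.StA

/-!
# Project NDH, part P: deterministic programs

Every statement `X_Stmt` is a module: `theorem t_X (h : Y_Stmt) … : X_Stmt` in `Pool/Agent/NDH/X.lean`,
namespace `Pool.Agent.NDH`, importing this file only; auxiliary lemmas in the namespace
`Pool.Agent.NDH.X`. The hypotheses are listed in the doc string.

Two languages of while-programs. `DP`: `k` heads and a stack; `WP`: a circular word of letters (the
current cell is the head of the list), ONE head on the input, and a stack. Programs are deterministic, so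
only the existence of the run (`Ev`) has to be proved. Finite information is kept in the program itself
(`SWI`, `SWW`: case distinctions over everything that is visible).
-/

set_option autoImplicit false

namespace Pool.Agent.NDH

open Pool.Agent.Heads Pool.Agent.NPH Relation

/-! ## 1. Programs with `k` heads -/

/-- Deterministic programs for `k` heads and a stack. -/
inductive DP (α : Type) (k : ℕ) (Γ : Type) : Type
  | act (d : Fin k → Dir) (o : Op Γ) : DP α k Γ
  | seq (P P' : DP α k Γ) : DP α k Γ
  | ite (g : (Fin k → Sym α) → Option Γ → Bool) (P P' : DP α k Γ) : DP α k Γ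
  | wh (g : (Fin k → Sym α) → Option Γ → Bool) (P : DP α k Γ) : DP α k Γ

/-- The value of a test. -/
def tst {α : Type} {k : ℕ} {Γ : Type} (w : List α) (g : (Fin k → Sym α) → Option Γ → Bool)
    (c : Cf k Γ) : Bool :=
  g (fun i => tape w (c.1 i)) c.2.head?

/-- `P.Ev w c c'`: the program, started in `c`, stops in `c'`. -/
inductive DP.Ev {α : Type} {k : ℕ} {Γ : Type} (w : List α) : DP α k Γ → Cf k Γ → Cf k Γ → Prop
  | act (d : Fin k → Dir) (o : Op Γ) (c : Cf k Γ) :
      DP.Ev w (DP.act d o) c (fun i => move (w.length + 1) (c.1 i) (d i), o.apply c.2)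
  | seq {P P' : DP α k Γ} {c c₁ c' : Cf k Γ} :
      DP.Ev w P c c₁ → DP.Ev w P' c₁ c' → DP.Ev w (DP.seq P P') c c'
  | iteT {g : (Fin k → Sym α) → Option Γ → Bool} {P P' : DP α k Γ} {c c' : Cf k Γ} :
      tst w g c = true → DP.Ev w P c c' → DP.Ev w (DP.ite g P P') c c'
  | iteF {g : (Fin k → Sym α) → Option Γ → Bool} {P P' : DP α k Γ} {c c' : Cf k Γ} :
      tst w g c = false → DP.Ev w P' c c' → DP.Ev w (DP.ite g P P') c c'
  | whF {g : (Fin k → Sym α) → Option Γ → Bool} {P : DP α k Γ} {c : Cf k Γ} :
      tst w g c = false → DP.Ev w (DP.wh g P) c c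
  | whT {g : (Fin k → Sym α) → Option Γ → Bool} {P : DP α k Γ} {c c₁ c' : Cf k Γ} :
      tst w g c = true → DP.Ev w P c c₁ → DP.Ev w (DP.wh g P) c₁ c' → DP.Ev w (DP.wh g P) c c'

/-- DCM (200 lines): compilation. No hypotheses.

Proof. Deterministic fragments: a finite type `Q`, states `s`, `f`, a function
`δ : Q → (Fin k → Sym α) → Option Γ → Option (Q × (Fin k → Dir) × Op Γ)` with `δ f _ _ = none`, steps as in
`PDA.Step`. For every program there is a fragment such that `Ev w P c c'` implies a chain of steps from
`(s, c)` to `(f, c')`: `act`: two states; `seq`: `Q ⊕ Q'`, a step without effect (all heads `Dir.S`,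
`Op.none`) from `inl f` to `inr s'`; `ite`: `Option (Option (Q ⊕ Q'))` or similar: a new start state tests
`g` and goes without effect to one of the start states, the two final states go to a new final state;
`wh`: a new start state tests `g` and goes to the start state of `P` or to the final state, the final state
of `P` goes to the new start state. Induction on `Ev`. The automaton: states `Option Q` with the accepting
state `none`, which is reached without effect from `f` if `acc` holds for the top symbol. It is
deterministic; if `acc` holds at `c` it accepts; if not, the run stops in `f` and, being deterministic,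
never visits `none` (a computation of any length is an initial part of the run). -/
def DCM_Stmt : Prop := ∀ (α : Type) (k : ℕ) (Γ : Type) [Finite Γ] (P : DP α k Γ)
  (acc : Option Γ → Bool), ∃ A : PDA α k, A.Det ∧
    ∀ w c, P.Ev w (fun _ => 0, []) c → (w ∈ A.lang ↔ acc c.2.head? = true)

/-- SWI (70 lines): case distinction over everything visible. No hypotheses.

Proof. The type `(Fin k → Sym α) × Option Γ` is finite; for a list `l` of its elements build by recursion
`ite (is it v) (F v) …`; the claim holds if the visible value is in `l`; take all elements. -/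
def SWI_Stmt : Prop := ∀ (α : Type) (k : ℕ) (Γ : Type) [Finite α] [Finite Γ]
  (F : (Fin k → Sym α) → Option Γ → DP α k Γ), ∃ Q : DP α k Γ, ∀ w c c',
    (F (fun i => tape w (c.1 i)) c.2.head?).Ev w c c' → Q.Ev w c c'

/-- ALL (100 lines): one-head programs for all heads, one after the other. No hypotheses.

Proof. (a) For a one-head program `P` and `i : Fin k` there is `P'` such that `P.Ev w (fun _ => p i, s)
(fun _ => m, s')` implies `P'.Ev w (p, s) (Function.update p i m, s')` (recursion on `P`, `act d o` becomes
`act (fun j => if j = i then d 0 else Dir.S) o`, tests look at `x i`; induction on `Ev` in the form: for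
`c = (fun _ => m, s)` and all `p` with `p i = m`). (b) For `t ≤ k` a program that changes the heads `i < t`:
induction on `t`. -/
def ALL_Stmt : Prop := ∀ (α : Type) (k : ℕ) (Γ : Type) (P : Fin k → DP α 1 Γ),
  ∃ Q : DP α k Γ, ∀ (w : List α) (p p' : Fin k → ℕ) (s : List Γ),
    (∀ i, (P i).Ev w (fun _ => p i, s) (fun _ => p' i, s)) → Q.Ev w (p, s) (p', s)

/-! ## 2. Padded words -/

/-- Scratch symbols. -/
abbrev Sc (β : ℕ) : Type := Fin β × Bool

/-- The top symbol is not in `X`. -/
def Cl {X H : Type} (s : List (X ⊕ H)) : Prop := ∀ b : X, s.head? ≠ some (Sum.inl b)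

/-- ROT (250 lines): the lowest digit is removed, `σ'` becomes the highest digit. Hypothesis `PAD_Stmt`
(`NPH/StA.lean`; write `W = pad M x`; the scanned symbol on `cel M j P` is `letter (some _)` if `P = 0`
and `letter none` otherwise; `cel M j M = cel M (j + 1) 0` is a letter, or the right endmarker for
`j = |x| + 1`).

Program and proof. The next label after the top symbol: `r + 1` mod `β` if the top symbol is a scratch
symbol `(r, _)` with the same Boolean as the one that is pushed, otherwise `1` (mod `β`).
(1) while the scanned symbol is `letter none`: push (next label, false), go left. After that the head is on the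
letter, on the stack are `P` symbols, the number `t = 1, …, P` has the label `t mod β`.
(2) push (1 mod β, true), go right; while the scanned symbol is `letter none`: push (next label, true), go right. Then
the head is `M` cells to the right, with `M` new symbols with the labels `t mod β`, `t = 1, …, M`.
(3) one step left; while the scanned symbol is `letter none`: left. Now the head is on the letter `j` (`2 ≤ M`).
(4) while the top symbol is a scratch symbol: if it is `(0, true)` pop and `σ'` steps to the right; if it is
`(0, false)` pop and one step to the right; otherwise pop. There are `M / β` symbols `(0, true)` and `P / β`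
symbols `(0, false)`. All positions stay below `cel M j M`. (Use case distinctions over the top symbol as
in `SWI`: an arbitrary finite nest of `ite`; `SWI_Stmt` may be assumed as a hypothesis.) -/
def ROT_Stmt : Prop := ∀ (Λ G : Type) [Finite Λ] [Finite G] (β σ' : ℕ), 2 ≤ β → σ' < β →
  ∃ Q : DP (Option (Sym Λ)) 1 (Sc β ⊕ G), ∀ (M : ℕ) (x : List Λ) (j P : ℕ)
    (s : List (Sc β ⊕ G)), 2 ≤ M → β ∣ M → j ≤ x.length + 1 → P < M → Cl s →
    Q.Ev (pad M x) (fun _ => cel M j P, s) (fun _ => cel M j (P / β + σ' * (M / β)), s)

/-- MVR (150 lines): a step of the reading head, the offset does not change. Hypothesis `PAD_Stmt`.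

Program. `d = S`: nothing. Otherwise: while the scanned symbol is `letter none`: push `(0, false)`, left (now
the head is on the letter `j`). `d = R`: if the scanned symbol is `letter (some Sym.right)` nothing, else one
step right and, while the scanned symbol is `letter none`, right. `d = L`: if the scanned symbol is
`letter (some Sym.left)` nothing, else one step left and, while the scanned symbol is `letter none`, left. Then:
while the top symbol is a scratch symbol: pop, right. (`tape x j = left` iff `j = 0`; for `j ≤ |x| + 1`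
`tape x j = right` iff `j = |x| + 1`.) -/
def MVR_Stmt : Prop := ∀ (Λ G : Type) [Finite Λ] [Finite G] (β : ℕ) (d : Dir), 2 ≤ β →
  ∃ Q : DP (Option (Sym Λ)) 1 (Sc β ⊕ G), ∀ (M : ℕ) (x : List Λ) (j P : ℕ)
    (s : List (Sc β ⊕ G)), 2 ≤ M → j ≤ x.length + 1 → P < M → Cl s →
    Q.Ev (pad M x) (fun _ => cel M j P, s) (fun _ => cel M (move (x.length + 1) j d) P, s)

/-- WDG (60 lines): the lowest digit `σ` is replaced by `σ'`. Hypothesis `PAD_Stmt` (for the length).

Program: `σ' - σ` steps to the right or `σ - σ'` steps to the left. `P - σ + σ' < M` because `β ∣ M`, so the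
head stays on the padded word and `move` never stops at the end. -/
def WDG_Stmt : Prop := ∀ (Λ G : Type) (β σ σ' : ℕ), σ < β → σ' < β →
  ∃ Q : DP (Option (Sym Λ)) 1 (Sc β ⊕ G), ∀ (M : ℕ) (x : List Λ) (j P : ℕ)
    (s : List (Sc β ⊕ G)), 1 ≤ M → β ∣ M → j ≤ x.length + 1 → P < M → P % β = σ →
    Q.Ev (pad M x) (fun _ => cel M j P, s) (fun _ => cel M j (P - σ + σ'), s)

/-- RDG (200 lines): head `i` reads its lowest digit and its letter; the program `F` for these values is
executed. Hypotheses `PAD_Stmt`, `SWI_Stmt`.

Program. While the symbol scanned by head `i` is `letter none`: push `(r, false)`, where `r = t + 1` mod `β` if the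
top symbol is the scratch symbol `(t, _)`, otherwise `r = 1` mod `β`; head `i` left. Then (`SWI`) the scanned
symbol of head `i` is `letter (some a)` with `a = tape x j`, and the top symbol is the scratch symbol
`(P mod β, false)` if `P > 0`, not a scratch symbol if `P = 0`: in the case `(a, r)`: while the top symbol is a
scratch symbol: pop, head `i` right; then `F r a`. -/
def RDG_Stmt : Prop := ∀ (Λ G : Type) [Finite Λ] [Finite G] (β : ℕ) (hβ : 2 ≤ β) (k : ℕ) (i : Fin k)
  (F : Fin β → Sym Λ → DP (Option (Sym Λ)) k (Sc β ⊕ G)),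
  ∃ Q : DP (Option (Sym Λ)) k (Sc β ⊕ G), ∀ (M : ℕ) (x : List Λ) (p : Fin k → ℕ) (j P : ℕ)
    (s : List (Sc β ⊕ G)) (c' : Cf k (Sc β ⊕ G)), 2 ≤ M → j ≤ x.length + 1 → P < M →
    p i = cel M j P → Cl s →
    (F ⟨P % β, Nat.mod_lt _ (by omega)⟩ (tape x j)).Ev (pad M x) (p, s) c' → Q.Ev (pad M x) (p, s) c'

/-- RDA (80 lines): all heads read. Hypothesis `RDG_Stmt`.

Proof. For `t ≤ k` there are programs `Q v`, `v : Fin k → Fin β × Sym Λ`, such that the run of
`F (fun i => if i < t then (value of head i) else v i)` gives the run of `Q v`: induction on `t`; in the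
step `Q' v` is the program of `RDG` for head `t` and the programs `Q (Function.update v t ·)`. -/
def RDA_Stmt : Prop := ∀ (Λ G : Type) [Finite Λ] [Finite G] (β : ℕ) (hβ : 2 ≤ β) (k : ℕ)
  (F : (Fin k → Fin β × Sym Λ) → DP (Option (Sym Λ)) k (Sc β ⊕ G)),
  ∃ Q : DP (Option (Sym Λ)) k (Sc β ⊕ G), ∀ (M : ℕ) (x : List Λ) (j P : Fin k → ℕ)
    (s : List (Sc β ⊕ G)) (c' : Cf k (Sc β ⊕ G)), 2 ≤ M → (∀ i, j i ≤ x.length + 1) →
    (∀ i, P i < M) → Cl s →
    (F (fun i => (⟨P i % β, Nat.mod_lt _ (by omega)⟩, tape x (j i)))).Ev (pad M x)
      (fun i => cel M (j i) (P i), s) c' →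
    Q.Ev (pad M x) (fun i => cel M (j i) (P i), s) c'

/-! ## 3. Word programs -/

/-- Head position, circular word (the head of the list is the current cell), stack. -/
abbrev WC (A H : Type) : Type := ℕ × List A × List H

/-- Deterministic programs for one head, a circular word and a stack. -/
inductive WP (Λ A H : Type) : Type
  | rot (b : A) : WP Λ A H
  | wrt (b : A) : WP Λ A H
  | hmv (d : Dir) : WP Λ A H
  | psh (h : H) : WP Λ A H
  | pop : WP Λ A H
  | seq (P P' : WP Λ A H) : WP Λ A H
  | ite (g : A → Sym Λ → Option H → Bool) (P P' : WP Λ A H) : WP Λ A H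
  | wh (g : A → Sym Λ → Option H → Bool) (P : WP Λ A H) : WP Λ A H

/-- `P.Ev x c c'`: the program, started in `c`, stops in `c'`. `rot b`: the current letter is replaced by
`b`, and the next cell is the current one. `wrt b`: the current letter is replaced by `b`. -/
inductive WP.Ev {Λ A H : Type} (x : List Λ) : WP Λ A H → WC A H → WC A H → Prop
  | rot (b : A) (h : ℕ) (a : A) (u : List A) (s : List H) :
      WP.Ev x (WP.rot b) (h, a :: u, s) (h, u ++ [b], s)
  | wrt (b : A) (h : ℕ) (a : A) (u : List A) (s : List H) :
      WP.Ev x (WP.wrt b) (h, a :: u, s) (h, b :: u, s)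
  | hmv (d : Dir) (h : ℕ) (u : List A) (s : List H) :
      WP.Ev x (WP.hmv d) (h, u, s) (move (x.length + 1) h d, u, s)
  | psh (g : H) (h : ℕ) (u : List A) (s : List H) :
      WP.Ev x (WP.psh g) (h, u, s) (h, u, g :: s)
  | pop (h : ℕ) (u : List A) (s : List H) :
      WP.Ev x WP.pop (h, u, s) (h, u, s.tail)
  | seq {P P' : WP Λ A H} {c c₁ c' : WC A H} :
      WP.Ev x P c c₁ → WP.Ev x P' c₁ c' → WP.Ev x (WP.seq P P') c c'
  | iteT {g : A → Sym Λ → Option H → Bool} {P P' : WP Λ A H} {h : ℕ} {a : A} {u : List A}
      {s : List H} {c' : WC A H} : g a (tape x h) s.head? = true →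
      WP.Ev x P (h, a :: u, s) c' → WP.Ev x (WP.ite g P P') (h, a :: u, s) c'
  | iteF {g : A → Sym Λ → Option H → Bool} {P P' : WP Λ A H} {h : ℕ} {a : A} {u : List A}
      {s : List H} {c' : WC A H} : g a (tape x h) s.head? = false →
      WP.Ev x P' (h, a :: u, s) c' → WP.Ev x (WP.ite g P P') (h, a :: u, s) c'
  | whF {g : A → Sym Λ → Option H → Bool} {P : WP Λ A H} {h : ℕ} {a : A} {u : List A}
      {s : List H} : g a (tape x h) s.head? = false →
      WP.Ev x (WP.wh g P) (h, a :: u, s) (h, a :: u, s)
  | whT {g : A → Sym Λ → Option H → Bool} {P : WP Λ A H} {h : ℕ} {a : A} {u : List A}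
      {s : List H} {c₁ c' : WC A H} : g a (tape x h) s.head? = true →
      WP.Ev x P (h, a :: u, s) c₁ → WP.Ev x (WP.wh g P) c₁ c' →
      WP.Ev x (WP.wh g P) (h, a :: u, s) c'

/-- The number of the head `i`: the digits are the coordinates `i` of the codes of the letters. -/
def num {A : Type} {k β : ℕ} (e : A → Fin k → Fin β) (i : Fin k) (W : List A) : ℕ :=
  Nat.ofDigits β (W.map fun a => (e a i).val)

/-- The positions of the `k` heads: head number `0` is the reading head. -/
def hpos {A : Type} {k β : ℕ} (e : A → Fin k → Fin β) (M h : ℕ) (W : List A) : Fin k → ℕ :=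
  fun i => cel M (if i.val = 0 then h else 0) (num e i W)

/-- WCP (250 lines): compilation of word programs. Hypotheses `PAD_Stmt`, `ALL_Stmt`, `ROT_Stmt`,
`MVR_Stmt`, `WDG_Stmt`, `RDA_Stmt`.

Proof. Let `M = β ^ (|x| + 1)`, `W` a word of length `|x| + 1` (all words in the run have this length, and
the head stays `≤ |x| + 1`: induction on `Ev`), stack symbols `Sum.inr (some h)`; `Sum.inr none` is used as
the answer yes of a test. By recursion on `P`. `rot b`: `ALL` for the programs `ROT` with `σ' = e b i`:
`num e i (a :: u) / β + (e b i) * (M / β) = num e i (u ++ [b])` (`Nat.ofDigits_append`, `|u| = |x|`,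
`M / β = β ^ |x|`). `wrt b`: `RDA`, and for the values `v` `ALL` for the programs `WDG` with `σ = v i`,
`σ' = e b i` (`num e i (a :: u) = e a i + β * num e i u`, so the lowest digit is `e a i`, all numbers are
`< M`: `Nat.ofDigits_lt_base_pow_length'`). `hmv d`: `ALL` for `MVR d` for head number `0` and
`act (fun _ => Dir.S) Op.none` for the others. `psh`, `pop`: `act` without moves. `seq`: `seq`. Tests: the
letter `a` is determined by the digits `v i = e a i`, because `e` is injective, and the scanned symbol is
the one of head number `0` (`1 ≤ k`). `ite g P P'`: `RDA` with `F v = ite (fun _ t => g a y (t as Option H)) P̂ P̂'`,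
where `a`, `y` are the letter and the symbol given by `v`. `wh g P`: first the test `T`: `RDA` with
`F v = ite (…) (push (inr none)) (nothing)`; the program is `T; wh (top = inr none) (pop; P̂; T)`; the stack
`s.map (inr ∘ some)` never has the top symbol `inr none`. The stacks are clean (`Cl`). -/
def WCP_Stmt : Prop := ∀ (Λ A H : Type) [Finite Λ] [Finite A] [Finite H] (k β : ℕ)
  (e : A → Fin k → Fin β), 1 ≤ k → 2 ≤ β → Function.Injective e → ∀ P : WP Λ A H,
  ∃ Q : DP (Option (Sym Λ)) k (Sc β ⊕ Option H), ∀ (x : List Λ) (h : ℕ) (W : List A) (s : List H)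
    (c' : WC A H), W.length = x.length + 1 → h ≤ x.length + 1 → P.Ev x (h, W, s) c' →
    Q.Ev (pad (β ^ (x.length + 1)) x)
      (hpos e (β ^ (x.length + 1)) h W, s.map fun g => Sum.inr (some g))
      (hpos e (β ^ (x.length + 1)) c'.1 c'.2.1, c'.2.2.map fun g => Sum.inr (some g))

/-- WLG (100 lines): languages of word programs. Hypotheses `PAD_Stmt`, `WCP_Stmt`, `DCM_Stmt`.

Proof. There is an injective `e : A → Fin k → Fin β` with `e a0 = 0` (`Nat.card A ≤ β ^ k`; compose an
injection with a transposition of the values; `Fin β` has a zero because `2 ≤ β`; write `⟨0, _⟩`). The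
program: one step to the right of all heads (from the cell `0` to `1 = cel M 0 0`), then the program `Q` of
`WCP`. The word with all letters `a0` has `num = 0`. `acc' : Option (Sc β ⊕ Option H) → Bool` is `acc` of
the symbol below `inr (some _)`, `acc none` if there is none. -/
def WLG_Stmt : Prop := ∀ (Λ A H : Type) [Finite Λ] [Finite A] [Finite H] (k β : ℕ), 1 ≤ k →
  2 ≤ β → Nat.card A ≤ β ^ k → ∀ (a0 : A) (P : WP Λ A H) (acc : Option H → Bool),
  ∃ M : PDA (Option (Sym Λ)) k, M.Det ∧ ∀ (x : List Λ) (c' : WC A H),
    P.Ev x (0, List.replicate (x.length + 1) a0, []) c' →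
    (pad (β ^ (x.length + 1)) x ∈ M.lang ↔ acc c'.2.2.head? = true)

/-- SWW (70 lines): case distinction over everything visible, for word programs. No hypotheses. Proof as
for `SWI`. -/
def SWW_Stmt : Prop := ∀ (Λ A H : Type) [Finite Λ] [Finite A] [Finite H]
  (F : A → Sym Λ → Option H → WP Λ A H), ∃ Q : WP Λ A H, ∀ (x : List Λ) (h : ℕ) (a : A)
    (u : List A) (s : List H) (c' : WC A H),
    (F a (tape x h) s.head?).Ev x (h, a :: u, s) c' → Q.Ev x (h, a :: u, s) c'

/-! ## 4. Saving, loading and comparing words

Letters `B × Bool`: the Boolean is a temporary mark. Stack symbols `B ⊕ Option L`: `Sum.inl b` letters,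
`Sum.inr none` a separator, `Sum.inr (some _)` other symbols. -/

/-- The word without temporary marks. -/
def cl {B : Type} (W : List B) : List (B × Bool) := W.map fun b => (b, false)

/-- SAV (100 lines): save the word, in the reverse order. Hypothesis `SWW_Stmt`.

Program (`SWW` for everything that depends on the current letter `a = (b, m)`): push `inl b`, `rot (b, true)`;
while the current letter has the mark `false`: push `inl b`, `rot (b, false)`; `wrt (b, false)`.
Invariant of the loop for `W = b :: v`, `v = v₁ ++ v₂`: word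
`cl v₂ ++ (b, true) :: cl v₁`, stack `v₁.reverse.map inl ++ inl b :: s`. -/
def SAV_Stmt : Prop := ∀ (Λ B L : Type) [Finite Λ] [Finite B] [Finite L],
  ∃ P : WP Λ (B × Bool) (B ⊕ Option L), ∀ (x : List Λ) (h : ℕ) (W : List B)
    (s : List (B ⊕ Option L)), W ≠ [] →
    P.Ev x (h, cl W, s) (h, cl W, W.reverse.map Sum.inl ++ s)

/-- LOA (70 lines): load a word; the top letter is the first one. Hypothesis `SWW_Stmt`.

Program: while the top symbol is some `inl b`: pop, `rot (b, false)`. -/
def LOA_Stmt : Prop := ∀ (Λ B L : Type) [Finite Λ] [Finite B] [Finite L],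
  ∃ P : WP Λ (B × Bool) (B ⊕ Option L), ∀ (x : List Λ) (h : ℕ) (U : List (B × Bool)) (V : List B)
    (s : List (B ⊕ Option L)), V ≠ [] → U.length = V.length → Cl s →
    P.Ev x (h, U, V.map Sum.inl ++ s) (h, cl V, s)

/-- DRP (30 lines): remove a word from the stack. No hypotheses. While the top symbol is a letter: pop. -/
def DRP_Stmt : Prop := ∀ (Λ B L : Type),
  ∃ P : WP Λ (B × Bool) (B ⊕ Option L), ∀ (x : List Λ) (h : ℕ) (U : List (B × Bool)) (V : List B)
    (s : List (B ⊕ Option L)), U ≠ [] → Cl s →
    P.Ev x (h, U, V.map Sum.inl ++ s) (h, U, s)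

/-- REV (40 lines): reverse the word. Hypotheses `SAV_Stmt`, `LOA_Stmt`.

Program: push the separator `inr none`, `SAV`, `LOA`, pop. -/
def REV_Stmt : Prop := ∀ (Λ B L : Type) [Finite Λ] [Finite B] [Finite L],
  ∃ P : WP Λ (B × Bool) (B ⊕ Option L), ∀ (x : List Λ) (h : ℕ) (W : List B)
    (s : List (B ⊕ Option L)), W ≠ [] → P.Ev x (h, cl W, s) (h, cl W.reverse, s)

/-- SVF (30 lines): save the word, the first letter on top. Hypotheses `SAV_Stmt`, `REV_Stmt`.
Program: `REV`, `SAV`, `REV`. -/
def SVF_Stmt : Prop := ∀ (Λ B L : Type) [Finite Λ] [Finite B] [Finite L],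
  ∃ P : WP Λ (B × Bool) (B ⊕ Option L), ∀ (x : List Λ) (h : ℕ) (W : List B)
    (s : List (B ⊕ Option L)), W ≠ [] →
    P.Ev x (h, cl W, s) (h, cl W, W.map Sum.inl ++ s)

/-- The word of letters `C × Bool` without marks. -/
def cm {C : Type} (W : List C) : List (C × Bool) := W.map fun c => (c, false)

open Classical in
/-- CMW (200 lines): compare the word with the word on the stack. Letters `(C × Bool) × Bool`, the inner
Boolean is a second mark. Hypotheses `SWW_Stmt`, `REV_Stmt`, `SVF_Stmt` (for `B = C × Bool`).

Program. Let `W = [a_0, …, a_n]`, `V = [v_0, …, v_n]`.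
(1) mark `a_0`: `wrt ((a_0, true), false)`.
(2) while the top symbol is a letter `inl (v, _)` and `v = a` for the current letter `((a, m), _)`: pop,
`rot ((a, m), false)`.
(3) If the top symbol is no letter (all `n + 1` letters were equal, `V = W`, the current cell is again `a_0`):
`wrt ((a_0, false), false)`, `SVF`, push the answer `inr (some yes)`.
(4) Otherwise `V ≠ W`; the first difference is at `l`, the current cell is `a_l`, on the stack
are `v_l, …, v_n`. If the current letter is marked then `l = 0`: remove the mark, push `inr (some no)`. If it is not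
marked: `REV`; now the word is `[a_(l-1), …, a_0 (marked), a_n, …, a_l]`; while the current letter is not
marked: push `inl (a, false)`, `rot` (same letter); push `inl (a_0, false)`, `rot` (same letter, marked);
`REV`; now the word is `[a_0 (marked), …, a_n]`, the stack is again complete (`v_i = a_i` for `i < l`);
remove the mark, push `inr (some no)`. -/
def CMW_Stmt : Prop := ∀ (Λ C L : Type) [Finite Λ] [Finite C] [Finite L] (yes no : L),
  ∃ P : WP Λ ((C × Bool) × Bool) ((C × Bool) ⊕ Option L), ∀ (x : List Λ) (h : ℕ) (W V : List C)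
    (s : List ((C × Bool) ⊕ Option L)), W ≠ [] → V.length = W.length → Cl s →
    P.Ev x (h, cl (cm W), (cm V).map Sum.inl ++ s)
      (h, cl (cm W), Sum.inr (some (if V = W then yes else no)) :: ((cm V).map Sum.inl ++ s))

/-- The circular word of a node `(l, W)`: letters of `W` from the cell `l` on; the Boolean marks the
cell `0`. -/
def circ {A : Type} {n : ℕ} (l : Fin (n + 1)) (W : Fin (n + 1) → A) : List (A × Bool) :=
  List.ofFn fun i : Fin (n + 1) => (W (l + i), decide (l + i = 0))

/-- FET (150 lines): fetch the input symbol that belongs to the current cell. Letters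
`((A × Bool) × Bool) × Bool`. Hypothesis `SWW_Stmt`.

Program. Put the inner mark on the current letter (`wrt`); while the current letter is not the cell `0` (the
Boolean of `A × Bool`): `rot` (same letter); head right; while the current letter has not the inner mark: `rot`
(same letter), head right. Now the current cell is again `l` and the head is on `l + 1 ≤ |x| + 1`. Push
`inr (some (sy y))`, `y` the scanned symbol; while the scanned symbol is not `Sym.left`: head left; remove the
mark. -/
def FET_Stmt : Prop := ∀ (Λ A L : Type) [Finite Λ] [Finite A] [Finite L] (sy : Sym Λ → L),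
  ∃ P : WP Λ (((A × Bool) × Bool) × Bool) (((A × Bool) × Bool) ⊕ Option L),
    ∀ (x : List Λ) (l : Fin (x.length + 1)) (W : Fin (x.length + 1) → A)
    (s : List (((A × Bool) × Bool) ⊕ Option L)),
    P.Ev x (0, cl (cm (circ l W)), s)
      (0, cl (cm (circ l W)), Sum.inr (some (sy (tape x (l.val + 1)))) :: s)

/-- RST (80 lines): reset the word. Hypothesis `SWW_Stmt` is not needed.

Program. `wrt (((a0, true), true), false)`, `rot` (the same letter); while the current letter has not the
inner mark: `rot (((a0, false), false), false)`; `wrt (((a0, true), false), false)`. -/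
def RST_Stmt : Prop := ∀ (Λ A L : Type) [Finite Λ] [Finite A] [Finite L] (a0 : A),
  ∃ P : WP Λ (((A × Bool) × Bool) × Bool) (((A × Bool) × Bool) ⊕ Option L),
    ∀ (x : List Λ) (n : ℕ) (U : List (A × Bool)) (s : List (((A × Bool) × Bool) ⊕ Option L)),
    U.length = n + 1 →
    P.Ev x (0, cl (cm U), s) (0, cl (cm (circ (0 : Fin (n + 1)) fun _ => a0)), s)

/-- BCK (60 lines): go back by one cell and replace the letter there. Hypothesis `REV_Stmt`.

Program: `REV`, `rot ((c, false), false)`, `REV`: the word `u ++ [c']` becomes `c' :: u.reverse`,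
`u.reverse ++ [c]`, `c :: u`. -/
def BCK_Stmt : Prop := ∀ (Λ C L : Type) [Finite Λ] [Finite C] [Finite L] (c : C),
  ∃ P : WP Λ ((C × Bool) × Bool) ((C × Bool) ⊕ Option L), ∀ (x : List Λ) (h : ℕ) (u : List C) (c' : C)
    (s : List ((C × Bool) ⊕ Option L)),
    P.Ev x (h, cl (cm (u ++ [c'])), s) (h, cl (cm (c :: u)), s)

end Pool.Agent.NDH
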