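import Pool.Agent.NDH.AMRun
import Pool.Agent.NDH.St

/-!
# Project NDH: the abstract machine is simulated by word programs
-/

set_option autoImplicit false

namespace Pool.Agent.NDH

open Pool.Agent.Heads Relation

namespace Sim

/-! ## Circular words -/

section Circ

variable {A : Type} {n : ℕ}

theorem circ_length (l : Fin (n + 1)) (W : Fin (n + 1) → A) : (circ l W).length = n + 1 := by
  unfold circ
  rw [List.length_ofFn]

theorem circ_ne (l : Fin (n + 1)) (W : Fin (n + 1) → A) : circ l W ≠ [] := by
  intro h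
  have h2 := circ_length l W
  rw [h] at h2
  simp at h2

/-- The word before and after a step. -/
theorem circ_step (l : Fin (n + 1)) (W : Fin (n + 1) → A) (a' : A) :
    ∃ u, circ l W = (W l, decide (l = 0)) :: u ∧
      circ (SM.nxt l) (Function.update W l a') = u ++ [(a', decide (l = 0))] := by
  refine ⟨List.ofFn fun i : Fin n => (W (l + i.succ), decide (l + i.succ = 0)), ?_, ?_⟩
  · unfold circ
    rw [List.ofFn_succ, add_zero]
  · unfold circ SM.nxt
    rw [List.ofFn_succ']
    rw [List.concat_eq_append]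
    have hlast : l + 1 + Fin.last n = l := by
      rw [add_assoc, add_comm 1 (Fin.last n), Fin.last_add_one, add_zero]
    have hsucc : ∀ i : Fin n, l + 1 + i.castSucc = l + i.succ := by
      intro i
      rw [add_assoc, add_comm 1 i.castSucc, Fin.coeSucc_eq_succ]
    have hne : ∀ i : Fin n, l + i.succ ≠ l := by
      intro i h
      have h1 : l + i.succ = l + 0 := by rw [h, add_zero]
      exact Fin.succ_ne_zero i (add_left_cancel h1)
    refine congrArg₂ (· ++ ·) ?_ ?_
    · refine congrArg List.ofFn (funext fun i => ?_)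
      rw [hsucc, Function.update_of_ne (hne i)]
    · rw [hlast, Function.update_self]

theorem circ_cons (l : Fin (n + 1)) (W : Fin (n + 1) → A) :
    ∃ u, circ l W = (W l, decide (l = 0)) :: u := by
  obtain ⟨u, h, _⟩ := circ_step l W (W l)
  exact ⟨u, h⟩

theorem circ_inj {l l' : Fin (n + 1)} {W W' : Fin (n + 1) → A} (h : circ l W = circ l' W') :
    l = l' ∧ W = W' := by
  unfold circ at h
  have h1 := List.ofFn_injective h
  have h2 : ∀ i, W (l + i) = W' (l' + i) ∧ decide (l + i = 0) = decide (l' + i = 0) := by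
    intro i
    have := congrFun h1 i
    exact ⟨congrArg Prod.fst this, congrArg Prod.snd this⟩
  have h3 : l = l' := by
    have h4 := (h2 (-l)).2
    rw [add_neg_cancel, decide_eq_decide] at h4
    have h5 : l' + -l = 0 := h4.1 rfl
    have h6 : l' = l := by
      have := congrArg (· + l) h5
      simpa using this
    exact h6.symm
  refine ⟨h3, funext fun j => ?_⟩
  have h4 := (h2 (j - l)).1
  rw [← h3] at h4
  have h5 : l + (j - l) = j := add_sub_cancel l j
  rwa [h5] at h4

end Circ

/-! ## The node system -/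

variable {Λ A : Type}

/-- Labels: transitions. -/
abbrev TT (N : SM Λ A) : Type := N.Q × Bool × A × Sym Λ × N.Q × A

/-- Nodes. -/
abbrev XX (N : SM Λ A) (a0 : A) (n : ℕ) : Type :=
  {c : N.Node n // c.1 = N.start → c = (N.start, 0, fun _ => a0)}

/-- The transition `t` can be used at the node `c`. -/
def Fits (N : SM Λ A) (x : List Λ) (t : TT N) (c : N.Node x.length) : Prop :=
  c.1 = t.1 ∧ decide (c.2.1 = 0) = t.2.1 ∧ c.2.2 c.2.1 = t.2.2.1 ∧
    tape x (c.2.1.val + 1) = t.2.2.2.1 ∧
    (t.2.2.2.2.1, t.2.2.2.2.2) ∈ N.tr t.1 t.2.1 t.2.2.1 t.2.2.2.1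

/-- The node after the transition `t`. -/
def aft (N : SM Λ A) {n : ℕ} (t : TT N) (c : N.Node n) : N.Node n :=
  (t.2.2.2.2.1, SM.nxt c.2.1, Function.update c.2.2 c.2.1 t.2.2.2.2.2)

/-- The number of labels. -/
noncomputable def mm (N : SM Λ A) : ℕ := Nat.card (TT N)

/-- The label with the number `i`. -/
noncomputable def lb (N : SM Λ A) [Finite (TT N)] (i : Fin (mm N)) : TT N :=
  (Finite.equivFin (TT N)).symm i

theorem lb_surj (N : SM Λ A) [Finite (TT N)] (t : TT N) : ∃ i, lb N i = t :=
  ⟨Finite.equivFin (TT N) t, (Finite.equivFin (TT N)).symm_apply_apply t⟩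

theorem aft_ne (N : SM Λ A) (hF : N.Fresh) {x : List Λ} {t : TT N} {c : N.Node x.length}
    (h : Fits N x t c) : (aft N t c).1 ≠ N.start := by
  intro h2
  have h3 : t.2.2.2.2.1 = N.start := h2
  have h4 := h.2.2.2.2
  rw [h3] at h4
  exact hF _ _ _ _ _ h4

open Classical in
/-- The node system of a sweep machine. -/
noncomputable def sys (N : SM Λ A) [Finite (TT N)] (a0 : A) (hF : N.Fresh) (x : List Λ) :
    NSys (XX N a0 x.length) where
  m := mm N
  f i c := if h : Fits N x (lb N i) c.1 then
    some ⟨aft N (lb N i) c.1, fun h2 => absurd h2 (aft_ne N hF h)⟩ else none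
  x0 := ⟨(N.start, 0, fun _ => a0), fun _ => rfl⟩
  good c := c.1.1 ∈ N.acc
  inj i c c' d h h' := by
    by_cases h1 : Fits N x (lb N i) c.1
    · by_cases h2 : Fits N x (lb N i) c'.1
      · rw [dif_pos h1] at h
        rw [dif_pos h2] at h'
        have h3 : aft N (lb N i) c.1 = aft N (lb N i) c'.1 :=
          (congrArg Subtype.val (Option.some.inj h)).trans
            (congrArg Subtype.val (Option.some.inj h')).symm
        obtain ⟨⟨q, l, W⟩, hc⟩ := c
        obtain ⟨⟨q', l', W'⟩, hc'⟩ := c'
        have hq : q = (lb N i).1 := h1.1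
        have hq' : q' = (lb N i).1 := h2.1
        have ha : W l = (lb N i).2.2.1 := h1.2.2.1
        have ha' : W' l' = (lb N i).2.2.1 := h2.2.2.1
        have hl1 : SM.nxt l = SM.nxt l' := congrArg (fun z => z.2.1) h3
        have hl : l = l' := add_right_cancel hl1
        subst hl
        have hW1 : Function.update W l (lb N i).2.2.2.2.2 =
            Function.update W' l (lb N i).2.2.2.2.2 := congrArg (fun z => z.2.2) h3
        have hW : W = W' := by
          funext j
          by_cases hj : j = l
          · rw [hj, ha, ha']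
          · have := congrFun hW1 j
            rwa [Function.update_of_ne hj, Function.update_of_ne hj] at this
        subst hW
        subst hq
        subst hq'
        rfl
      · rw [dif_neg h2] at h'
        cases h'
    · rw [dif_neg h1] at h
      cases h
  x0_not i c h := by
    by_cases h1 : Fits N x (lb N i) c.1
    · rw [dif_pos h1] at h
      exact aft_ne N hF h1 (congrArg (fun z => z.1.1) (Option.some.inj h))
    · rw [dif_neg h1] at h
      cases h

theorem sys_some (N : SM Λ A) [Finite (TT N)] (a0 : A) (hF : N.Fresh) (x : List Λ)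
    {i : Fin (mm N)} {c d : XX N a0 x.length} (h : (sys N a0 hF x).f i c = some d) :
    Fits N x (lb N i) c.1 ∧ d.1 = aft N (lb N i) c.1 := by
  unfold sys at h
  by_cases h1 : Fits N x (lb N i) c.1
  · simp only [dif_pos h1] at h
    exact ⟨h1, (congrArg Subtype.val (Option.some.inj h)).symm⟩
  · simp only [dif_neg h1] at h
    cases h

theorem sys_none (N : SM Λ A) [Finite (TT N)] (a0 : A) (hF : N.Fresh) (x : List Λ)
    {i : Fin (mm N)} {c : XX N a0 x.length} (h : (sys N a0 hF x).f i c = none) :
    ¬ Fits N x (lb N i) c.1 := by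
  intro h1
  unfold sys at h
  simp only [dif_pos h1] at h
  cases h

theorem sys_fits (N : SM Λ A) [Finite (TT N)] (a0 : A) (hF : N.Fresh) (x : List Λ)
    {i : Fin (mm N)} {c : XX N a0 x.length} (h1 : Fits N x (lb N i) c.1) :
    ∃ d, (sys N a0 hF x).f i c = some d ∧ d.1 = aft N (lb N i) c.1 := by
  refine ⟨⟨aft N (lb N i) c.1, fun h2 => absurd h2 (aft_ne N hF h1)⟩, ?_, rfl⟩
  unfold sys
  simp only [dif_pos h1]

/-- Acceptance and reachability. -/
theorem accepts_iff (N : SM Λ A) [Finite (TT N)] (a0 : A) (hF : N.Fresh) (x : List Λ) :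
    N.Accepts a0 x ↔ ∃ c, (sys N a0 hF x).Rch c ∧ (sys N a0 hF x).good c := by
  constructor
  · rintro ⟨c, hc, hacc⟩
    have key : ∀ c, ReflTransGen (N.Step x) (N.start, 0, fun _ => a0) c →
        ∃ d : XX N a0 x.length, d.1 = c ∧ (sys N a0 hF x).Rch d := by
      intro c hc
      induction hc with
      | refl => exact ⟨(sys N a0 hF x).x0, rfl, ReflTransGen.refl⟩
      | tail _ h ih =>
        obtain ⟨d, rfl, hd⟩ := ih
        obtain ⟨t, ht, rfl⟩ := h
        obtain ⟨i, hi⟩ := lb_surj N (d.1.1, decide (d.1.2.1 = 0), d.1.2.2 d.1.2.1,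
          tape x (d.1.2.1.val + 1), t.1, t.2)
        have hfit : Fits N x (lb N i) d.1 := by
          rw [hi]
          exact ⟨rfl, rfl, rfl, rfl, ht⟩
        obtain ⟨e, he, he2⟩ := sys_fits N a0 hF x hfit
        refine ⟨e, ?_, ReflTransGen.tail hd ⟨i, he⟩⟩
        rw [he2, hi]
        rfl
    obtain ⟨d, rfl, hd⟩ := key c hc
    exact ⟨d, hd, hacc⟩
  · rintro ⟨c, hc, hacc⟩
    refine ⟨c.1, ?_, hacc⟩
    clear hacc
    have key : ∀ c, (sys N a0 hF x).Rch c →
        ReflTransGen (N.Step x) (N.start, 0, fun _ => a0) c.1 := by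
      intro c hc
      unfold NSys.Rch at hc
      induction hc with
      | refl => exact ReflTransGen.refl
      | tail _ h ih =>
        obtain ⟨i, hi⟩ := h
        obtain ⟨h1, h2⟩ := sys_some N a0 hF x hi
        refine ReflTransGen.tail ih ⟨((lb N i).2.2.2.2.1, (lb N i).2.2.2.2.2), ?_, h2⟩
        rw [h1.1, h1.2.1, h1.2.2.1, h1.2.2.2.1]
        exact h1.2.2.2.2
    exact key c hc

end Sim

end Pool.Agent.NDH
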