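import Pool.Agent.NDH.Sim

/-!
# Project NDH: the program of the abstract machine as a word program
-/

set_option autoImplicit false

namespace Pool.Agent.NDH

open Pool.Agent.Heads Relation

namespace Sim

section Inv

variable {L Γ X : Type} {S : NSys X} {x : X} {s : List (Γ × X)} {c' : Cf L Γ X}

theorem inv_go {l : L} (h : Ex S (Ins.go l) x s c') : c' = ⟨l, x, s⟩ := by
  cases h
  rfl

theorem inv_app {a : Fin S.m} {l l' : L} (h : Ex S (Ins.app a l l') x s c') :
    (∃ y, S.f a x = some y ∧ c' = ⟨l, y, s⟩) ∨ (S.f a x = none ∧ c' = ⟨l', x, s⟩) := by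
  cases h with
  | app _ _ _ _ y _ hf => exact Or.inl ⟨y, hf, rfl⟩
  | appN _ _ _ _ _ hf => exact Or.inr ⟨hf, rfl⟩

theorem inv_inv {a : Fin S.m} {l : L} (h : Ex S (Ins.inv a l) x s c') :
    ∃ d, S.f a d = some x ∧ c' = ⟨l, d, s⟩ := by
  cases h with
  | inv _ _ d _ _ hf => exact ⟨d, hf, rfl⟩

theorem inv_start {l l' : L} (h : Ex S (Ins.start l l') x s c') :
    (x = S.x0 ∧ c' = ⟨l, x, s⟩) ∨ (x ≠ S.x0 ∧ c' = ⟨l', x, s⟩) := by
  cases h with
  | start => exact Or.inl ⟨rfl, rfl⟩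
  | startN _ _ _ _ hne => exact Or.inr ⟨hne, rfl⟩

theorem inv_good {l l' : L} (h : Ex S (Ins.good l l') x s c') :
    (S.good x ∧ c' = ⟨l, x, s⟩) ∨ (¬ S.good x ∧ c' = ⟨l', x, s⟩) := by
  cases h with
  | good _ _ _ _ hg => exact Or.inl ⟨hg, rfl⟩
  | goodN _ _ _ _ hg => exact Or.inr ⟨hg, rfl⟩

theorem inv_push {γ : Γ} {l : L} (h : Ex S (Ins.push γ l) x s c') :
    c' = ⟨l, S.x0, (γ, x) :: s⟩ := by
  cases h
  rfl

theorem inv_pop {l : L} (h : Ex S (Ins.pop l) x s c') :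
    ∃ (γ : Γ) (y : X) (s' : List (Γ × X)), s = (γ, y) :: s' ∧ c' = ⟨l, y, s'⟩ := by
  cases h with
  | pop _ _ y γ s' => exact ⟨γ, y, s', rfl, rfl⟩

theorem inv_drop {l : L} (h : Ex S (Ins.drop l) x s c') :
    ∃ (γ : Γ) (y : X) (s' : List (Γ × X)), s = (γ, y) :: s' ∧ c' = ⟨l, x, s'⟩ := by
  cases h with
  | drop _ _ y γ s' => exact ⟨γ, y, s', rfl, rfl⟩

theorem inv_rel {γ : Γ} {l : L} (h : Ex S (Ins.rel γ l) x s c') :
    ∃ (γ' : Γ) (y : X) (s' : List (Γ × X)), s = (γ', y) :: s' ∧ c' = ⟨l, x, (γ, y) :: s'⟩ := by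
  cases h with
  | rel _ _ _ y γ' s' => exact ⟨γ', y, s', rfl, rfl⟩

theorem inv_test {l l' : L} (h : Ex S (Ins.test l l') x s c') :
    ∃ (γ : Γ) (y : X) (s' : List (Γ × X)), s = (γ, y) :: s' ∧
      ((x = y ∧ c' = ⟨l, x, s⟩) ∨ (x ≠ y ∧ c' = ⟨l', x, s⟩)) := by
  cases h with
  | test _ _ _ γ s' => exact ⟨γ, x, s', rfl, Or.inl ⟨rfl, rfl⟩⟩
  | testN _ _ _ y γ s' hne => exact ⟨γ, y, s', rfl, Or.inr ⟨hne, rfl⟩⟩

theorem inv_halt (h : Ex S (Ins.halt : Ins L Γ S.m) x s c') : False := by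
  cases h

end Inv

/-- Stack symbols other than letters. -/
inductive LL (Q Y : Type) (m : ℕ) where
  | lab (l : Lab m) (q : Q)
  | fr (g : Frm m) (q : Q)
  | sy (y : Y)
  | yes
  | no

theorem finFrm (m : ℕ) : Finite (Frm m) := by
  let f : Frm m → Option (Option (Fin m)) := fun g => match g with
    | Frm.A => none
    | Frm.B => some none
    | Frm.C a => some (some a)
  refine Finite.of_injective f ?_
  intro a b h
  cases a <;> cases b <;> simp_all [f]

theorem finLab (m : ℕ) : Finite (Lab m) := by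
  let f : Lab m → Fin 18 × Option (Fin m) × Option (Fin (m + 1)) := fun l => match l with
    | Lab.main => (0, none, none)
    | Lab.acc => (1, none, none)
    | Lab.rej => (2, none, none)
    | Lab.next => (3, none, none)
    | Lab.pB => (4, none, none)
    | Lab.pA => (5, none, none)
    | Lab.ret => (6, none, none)
    | Lab.retE => (7, none, none)
    | Lab.fnd a => (8, none, some a)
    | Lab.tst a => (9, some a, none)
    | Lab.hit a => (10, some a, none)
    | Lab.mis a => (11, some a, none)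
    | Lab.pro a => (12, some a, none)
    | Lab.scan a => (13, none, some a)
    | Lab.cnd a => (14, some a, none)
    | Lab.new => (15, none, none)
    | Lab.old a => (16, some a, none)
    | Lab.fin => (17, none, none)
  refine Finite.of_injective f ?_
  intro a b h
  cases a <;> cases b <;> simp_all [f]

theorem finLL (Q Y : Type) (m : ℕ) [Finite Q] [Finite Y] : Finite (LL Q Y m) := by
  have := finLab m
  have := finFrm m
  let f : LL Q Y m → Fin 5 × Option (Lab m) × Option (Frm m) × Option Q × Option Y :=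
    fun l => match l with
    | LL.lab l q => (0, some l, none, some q, none)
    | LL.fr g q => (1, none, some g, some q, none)
    | LL.sy y => (2, none, none, none, some y)
    | LL.yes => (3, none, none, none, none)
    | LL.no => (4, none, none, none, none)
  refine Finite.of_injective f ?_
  intro a b h
  cases a <;> cases b <;> simp_all [f]

variable {Λ A : Type} (N : SM Λ A)

/-- Letters of the words. -/
abbrev BB (A : Type) : Type := (A × Bool) × Bool

/-- Stack symbols. -/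
abbrev HH : Type := BB A ⊕ Option (LL N.Q (Sym Λ) (mm N))

/-- The stack. -/
def encF {n : ℕ} {a0 : A} : List (Frm (mm N) × XX N a0 n) → List (HH N)
  | [] => []
  | f :: s => Sum.inr (some (LL.fr f.1 f.2.1.1)) ::
      ((cm (circ f.2.1.2.1 f.2.1.2.2)).map Sum.inl ++ encF s)

/-- The word. -/
def wd {n : ℕ} (c : N.Node n) : List (BB A × Bool) := cl (cm (circ c.2.1 c.2.2))

/-- Configurations with the label on the top of the stack. -/
def enc {n : ℕ} {a0 : A} (c : Cf (Lab (mm N)) (Frm (mm N)) (XX N a0 n)) :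
    WC (BB A × Bool) (HH N) :=
  (0, wd N c.reg.1, Sum.inr (some (LL.lab c.lab c.reg.1.1)) :: encF N c.stk)

theorem encF_Cl {n : ℕ} {a0 : A} (s : List (Frm (mm N) × XX N a0 n)) : Cl (encF N s) := by
  intro b h
  cases s with
  | nil => simp [encF] at h
  | cons f s => simp [encF] at h

theorem wd_cons {n : ℕ} (c : N.Node n) : ∃ u, wd N c =
    (((c.2.2 c.2.1, decide (c.2.1 = 0)), false), false) :: u := by
  obtain ⟨u, hu⟩ := circ_cons c.2.1 c.2.2
  refine ⟨cl (cm u), ?_⟩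
  unfold wd
  rw [hu]
  rfl

theorem wd_length {n : ℕ} (c : N.Node n) : (wd N c).length = n + 1 := by
  unfold wd cl cm
  rw [List.length_map, List.length_map, circ_length]

theorem cm_length {C : Type} (W : List C) : (cm W).length = W.length := by
  unfold cm
  rw [List.length_map]

theorem cl_length {C : Type} (W : List C) : (cl W).length = W.length := by
  unfold cl
  rw [List.length_map]

theorem cm_ne {n : ℕ} (l : Fin (n + 1)) (W : Fin (n + 1) → A) : cm (circ l W) ≠ [] := by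
  intro h
  have h2 := cm_length (circ l W)
  rw [h, circ_length] at h2
  simp at h2

theorem finSymL (Λ : Type) [Finite Λ] : Finite (Sym Λ) := by
  let f : Sym Λ → Option (Option Λ) := fun y => match y with
    | Sym.left => none
    | Sym.right => some none
    | Sym.letter a => some (some a)
  refine Finite.of_injective f ?_
  intro a b h
  cases a <;> cases b <;> simp_all [f]

theorem finTT [Finite Λ] [Finite A] : Finite (TT N) := by
  have := N.finQ
  have := finSymL Λ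
  infer_instance

theorem finHH [Finite Λ] [Finite A] : Finite (HH N) := by
  have := N.finQ
  have := finSymL Λ
  have := finLL N.Q (Sym Λ) (mm N)
  infer_instance

/-- Case distinction over everything visible. -/
theorem sww (hS : SWW_Stmt) [Finite Λ] [Finite A]
    (F : BB A × Bool → Sym Λ → Option (HH N) → WP Λ (BB A × Bool) (HH N)) :
    ∃ Q : WP Λ (BB A × Bool) (HH N), ∀ (x : List Λ) (c : N.Node x.length) (s : List (HH N))
      (c' : WC (BB A × Bool) (HH N)),
      (F (((c.2.2 c.2.1, decide (c.2.1 = 0)), false), false) (tape x 0) s.head?).Ev x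
        (0, wd N c, s) c' → Q.Ev x (0, wd N c, s) c' := by
  have := finHH N
  obtain ⟨Q, hQ⟩ := hS Λ (BB A × Bool) (HH N) F
  refine ⟨Q, fun x c s c' h => ?_⟩
  obtain ⟨u, hu⟩ := wd_cons N c
  rw [hu] at h ⊢
  exact hQ x 0 _ u s c' h

theorem wd_rot {n : ℕ} (t : TT N) (c : N.Node n) (hb : decide (c.2.1 = 0) = t.2.1) :
    ∃ u, wd N c = (((c.2.2 c.2.1, decide (c.2.1 = 0)), false), false) :: u ∧
      wd N (aft N t c) = u ++ [(((t.2.2.2.2.2, t.2.1), false), false)] := by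
  obtain ⟨u, h1, h2⟩ := circ_step c.2.1 c.2.2 t.2.2.2.2.2
  refine ⟨cl (cm u), ?_, ?_⟩
  · unfold wd
    rw [h1]
    rfl
  · have h3 : wd N (aft N t c) =
        cl (cm (circ (SM.nxt c.2.1) (Function.update c.2.2 c.2.1 t.2.2.2.2.2))) := rfl
    rw [h3, h2, hb]
    unfold cl cm
    rw [List.map_append, List.map_append]
    rfl

/-- The statements about word programs that are used. -/
structure Lib : Prop where
  sww : SWW_Stmt
  svf : SVF_Stmt
  rst : RST_Stmt
  loa : LOA_Stmt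
  drp : DRP_Stmt
  cmw : CMW_Stmt
  fet : FET_Stmt
  bck : BCK_Stmt

section

variable [Finite Λ] [Finite A] [Finite (TT N)] (a0 : A) (hF : N.Fresh)

/-- The program `P` executes the instruction `I` in nodes with the state `q`. -/
def Does (I : Ins (Lab (mm N)) (Frm (mm N)) (mm N)) (q : N.Q)
    (P : WP Λ (BB A × Bool) (HH N)) : Prop :=
  ∀ (x : List Λ) (c : XX N a0 x.length) (s : List (Frm (mm N) × XX N a0 x.length))
    (c' : Cf (Lab (mm N)) (Frm (mm N)) (XX N a0 x.length)), c.1.1 = q →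
    Ex (sys N a0 hF x) I c s c' → P.Ev x (0, wd N c.1, encF N s) (enc N c')

theorem ins_go (l : Lab (mm N)) (q : N.Q) :
    Does N a0 hF (Ins.go l) q (WP.psh (Sum.inr (some (LL.lab l q)))) := by
  intro x c s c' hq h
  subst hq
  rw [inv_go h]
  exact WP.Ev.psh _ _ _ _

open Classical in
theorem ins_good (l l' : Lab (mm N)) (q : N.Q) :
    Does N a0 hF (Ins.good l l') q
      (WP.psh (Sum.inr (some (LL.lab (if q ∈ N.acc then l else l') q)))) := by
  intro x c s c' hq h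
  subst hq
  rcases inv_good h with ⟨hg, rfl⟩ | ⟨hg, rfl⟩
  · have hg' : c.1.1 ∈ N.acc := hg
    rw [if_pos hg']
    exact WP.Ev.psh _ _ _ _
  · have hg' : ¬ c.1.1 ∈ N.acc := hg
    rw [if_neg hg']
    exact WP.Ev.psh _ _ _ _

open Classical in
theorem ins_start (l l' : Lab (mm N)) (q : N.Q) :
    Does N a0 hF (Ins.start l l') q
      (WP.psh (Sum.inr (some (LL.lab (if q = N.start then l else l') q)))) := by
  intro x c s c' hq h
  subst hq
  rcases inv_start h with ⟨hx, rfl⟩ | ⟨hne, rfl⟩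
  · have hg' : c.1.1 = N.start := by
      rw [hx]
      rfl
    rw [if_pos hg']
    exact WP.Ev.psh _ _ _ _
  · have hg' : ¬ c.1.1 = N.start := by
      intro h1
      exact hne (Subtype.ext (c.2 h1))
    rw [if_neg hg']
    exact WP.Ev.psh _ _ _ _

open Classical in
theorem ins_app (H : Lib) (i : Fin (mm N)) (l l' : Lab (mm N)) (q : N.Q) :
    ∃ P, Does N a0 hF (Ins.app i l l') q P := by
  have := N.finQ
  have := finSymL Λ
  have := finLL N.Q (Sym Λ) (mm N)
  obtain ⟨P, hP⟩ := H.fet Λ A (LL N.Q (Sym Λ) (mm N)) LL.sy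
  obtain ⟨Q, hQ⟩ := sww N H.sww fun b _ h =>
    if b.1.1 = ((lb N i).2.2.1, (lb N i).2.1) ∧
        h = some (Sum.inr (some (LL.sy (lb N i).2.2.2.1))) ∧ q = (lb N i).1 ∧
        ((lb N i).2.2.2.2.1, (lb N i).2.2.2.2.2) ∈
          N.tr (lb N i).1 (lb N i).2.1 (lb N i).2.2.1 (lb N i).2.2.2.1 then
      WP.seq WP.pop (WP.seq (WP.rot ((((lb N i).2.2.2.2.2, (lb N i).2.1), false), false))
        (WP.psh (Sum.inr (some (LL.lab l (lb N i).2.2.2.2.1)))))
    else WP.seq WP.pop (WP.psh (Sum.inr (some (LL.lab l' q))))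
  refine ⟨WP.seq P Q, ?_⟩
  intro x c s c' hq h
  subst hq
  have h1 : P.Ev x (0, wd N c.1, encF N s)
      (0, wd N c.1, Sum.inr (some (LL.sy (tape x (c.1.2.1.val + 1)))) :: encF N s) :=
    hP x c.1.2.1 c.1.2.2 (encF N s)
  refine WP.Ev.seq h1 (hQ x c.1 _ _ ?_)
  rcases inv_app h with ⟨y, hf, rfl⟩ | ⟨hf, rfl⟩
  · obtain ⟨h2, h3⟩ := sys_some N a0 hF x hf
    rw [if_pos]
    · refine WP.Ev.seq (WP.Ev.pop _ _ _) ?_
      obtain ⟨u, h4, h5⟩ := wd_rot N (lb N i) c.1 h2.2.1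
      rw [h4]
      refine WP.Ev.seq (WP.Ev.rot _ _ _ _ _) ?_
      have h6 : enc N ⟨l, y, s⟩ = (0, u ++ [((((lb N i).2.2.2.2.2, (lb N i).2.1), false), false)],
          Sum.inr (some (LL.lab l (lb N i).2.2.2.2.1)) :: encF N s) := by
        unfold enc
        rw [← h5, ← h3]
        have h7 : y.1.1 = (lb N i).2.2.2.2.1 := by
          rw [h3]
          rfl
        rw [← h7]
      rw [h6]
      exact WP.Ev.psh _ _ _ _
    · refine ⟨?_, ?_, h2.1, h2.2.2.2.2⟩
      · show (c.1.2.2 c.1.2.1, decide (c.1.2.1 = 0)) = _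
        rw [h2.2.1, h2.2.2.1]
      · show some (Sum.inr (some (LL.sy (tape x (c.1.2.1.val + 1))))) = _
        rw [h2.2.2.2.1]
  · have h2 := sys_none N a0 hF x hf
    rw [if_neg]
    · refine WP.Ev.seq (WP.Ev.pop _ _ _) ?_
      exact WP.Ev.psh _ _ _ _
    · rintro ⟨h3, h4, h5, h6⟩
      refine h2 ⟨h5, ?_, ?_, ?_, h6⟩
      · exact congrArg Prod.snd h3
      · exact congrArg Prod.fst h3
      · have h7 : LL.sy (tape x (c.1.2.1.val + 1)) =
            (LL.sy (lb N i).2.2.2.1 : LL N.Q (Sym Λ) (mm N)) :=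
          Option.some.inj (Sum.inr.inj (Option.some.inj h4))
        exact LL.sy.inj h7

theorem ins_inv (H : Lib) (i : Fin (mm N)) (l : Lab (mm N)) (q : N.Q) :
    ∃ P, Does N a0 hF (Ins.inv i l) q P := by
  have := N.finQ
  have := finSymL Λ
  have := finLL N.Q (Sym Λ) (mm N)
  obtain ⟨P, hP⟩ := H.bck Λ (A × Bool) (LL N.Q (Sym Λ) (mm N)) ((lb N i).2.2.1, (lb N i).2.1)
  refine ⟨WP.seq P (WP.psh (Sum.inr (some (LL.lab l (lb N i).1)))), ?_⟩
  intro x c s c' hq h
  obtain ⟨d, hf, rfl⟩ := inv_inv h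
  · obtain ⟨h2, h3⟩ := sys_some N a0 hF x hf
    obtain ⟨u, h4, h5⟩ := circ_step d.1.2.1 d.1.2.2 (lb N i).2.2.2.2.2
    have h6 : wd N c.1 = cl (cm (u ++ [((lb N i).2.2.2.2.2, decide (d.1.2.1 = 0))])) := by
      rw [h3, ← h5]
      rfl
    have h7 : wd N d.1 = cl (cm (((lb N i).2.2.1, (lb N i).2.1) :: u)) := by
      unfold wd
      rw [h4, h2.2.1, h2.2.2.1]
    have h8 : enc N ⟨l, d, s⟩ = (0, cl (cm (((lb N i).2.2.1, (lb N i).2.1) :: u)),
        Sum.inr (some (LL.lab l (lb N i).1)) :: encF N s) := by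
      unfold enc
      rw [← h7]
      have h9 : d.1.1 = (lb N i).1 := h2.1
      rw [← h9]
    rw [h6, h8]
    exact WP.Ev.seq (hP x 0 u _ (encF N s)) (WP.Ev.psh _ _ _ _)

theorem ins_push (H : Lib) (γ : Frm (mm N)) (l : Lab (mm N)) (q : N.Q) :
    ∃ P, Does N a0 hF (Ins.push γ l) q P := by
  have := N.finQ
  have := finSymL Λ
  have := finLL N.Q (Sym Λ) (mm N)
  obtain ⟨P, hP⟩ := H.svf Λ (BB A) (LL N.Q (Sym Λ) (mm N))
  obtain ⟨R, hR⟩ := H.rst Λ A (LL N.Q (Sym Λ) (mm N)) a0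
  refine ⟨WP.seq P (WP.seq (WP.psh (Sum.inr (some (LL.fr γ q)))) (WP.seq R
    (WP.psh (Sum.inr (some (LL.lab l N.start)))))), ?_⟩
  intro x c s c' hq h
  subst hq
  rw [inv_push h]
  refine WP.Ev.seq (hP x 0 (cm (circ c.1.2.1 c.1.2.2)) (encF N s) (cm_ne _ _)) ?_
  refine WP.Ev.seq (WP.Ev.psh _ _ _ _) ?_
  refine WP.Ev.seq (hR x x.length (circ c.1.2.1 c.1.2.2) _ (circ_length _ _)) ?_
  exact WP.Ev.psh _ _ _ _

theorem ins_pop (H : Lib) (l : Lab (mm N)) (q : N.Q) :
    ∃ P, Does N a0 hF (Ins.pop l) q P := by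
  have := N.finQ
  have := finSymL Λ
  have := finLL N.Q (Sym Λ) (mm N)
  obtain ⟨P, hP⟩ := H.loa Λ (BB A) (LL N.Q (Sym Λ) (mm N))
  obtain ⟨Q, hQ⟩ := sww N H.sww fun _ _ h => match h with
    | some (Sum.inr (some (LL.fr _ q'))) =>
        WP.seq WP.pop (WP.seq P (WP.psh (Sum.inr (some (LL.lab l q')))))
    | _ => WP.pop
  refine ⟨Q, ?_⟩
  intro x c s c' hq h
  obtain ⟨γ, y, s, rfl, rfl⟩ := inv_pop h
  · refine hQ x c.1 _ _ ?_
    refine WP.Ev.seq (WP.Ev.pop _ _ _) ?_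
    refine WP.Ev.seq (hP x 0 (wd N c.1) (cm (circ y.1.2.1 y.1.2.2)) (encF N s) (cm_ne _ _) ?_
      (encF_Cl N s)) ?_
    · rw [wd_length, cm_length, circ_length]
    · exact WP.Ev.psh _ _ _ _

theorem ins_drop (H : Lib) (l : Lab (mm N)) (q : N.Q) :
    ∃ P, Does N a0 hF (Ins.drop l) q P := by
  obtain ⟨P, hP⟩ := H.drp Λ (BB A) (LL N.Q (Sym Λ) (mm N))
  refine ⟨WP.seq WP.pop (WP.seq P (WP.psh (Sum.inr (some (LL.lab l q))))), ?_⟩
  intro x c s c' hq h
  subst hq
  obtain ⟨γ, y, s, rfl, rfl⟩ := inv_drop h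
  · refine WP.Ev.seq (WP.Ev.pop _ _ _) ?_
    refine WP.Ev.seq (hP x 0 (wd N c.1) (cm (circ y.1.2.1 y.1.2.2)) (encF N s) ?_
      (encF_Cl N s)) ?_
    · intro h
      have h2 := wd_length N c.1
      rw [h] at h2
      simp at h2
    · exact WP.Ev.psh _ _ _ _

theorem ins_rel (H : Lib) (γ : Frm (mm N)) (l : Lab (mm N)) (q : N.Q) :
    ∃ P, Does N a0 hF (Ins.rel γ l) q P := by
  obtain ⟨Q, hQ⟩ := sww N H.sww fun _ _ h => match h with
    | some (Sum.inr (some (LL.fr _ q'))) =>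
        WP.seq WP.pop (WP.seq (WP.psh (Sum.inr (some (LL.fr γ q'))))
          (WP.psh (Sum.inr (some (LL.lab l q)))))
    | _ => WP.pop
  refine ⟨Q, ?_⟩
  intro x c s c' hq h
  subst hq
  obtain ⟨γ', y, s, rfl, rfl⟩ := inv_rel h
  · refine hQ x c.1 _ _ ?_
    refine WP.Ev.seq (WP.Ev.pop _ _ _) ?_
    exact WP.Ev.seq (WP.Ev.psh _ _ _ _) (WP.Ev.psh _ _ _ _)

open Classical in
/-- The second part of a test. -/
noncomputable def FT (l l' : Lab (mm N)) (q : N.Q) (g : Frm (mm N)) (q' : N.Q) :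
    BB A × Bool → Sym Λ → Option (HH N) → WP Λ (BB A × Bool) (HH N) := fun _ _ h =>
  if h = some (Sum.inr (some LL.yes)) ∧ q = q' then
    WP.seq WP.pop (WP.seq (WP.psh (Sum.inr (some (LL.fr g q'))))
      (WP.psh (Sum.inr (some (LL.lab l q)))))
  else WP.seq WP.pop (WP.seq (WP.psh (Sum.inr (some (LL.fr g q'))))
      (WP.psh (Sum.inr (some (LL.lab l' q)))))

open Classical in
theorem ins_test (H : Lib) (l l' : Lab (mm N)) (q : N.Q) :
    ∃ P, Does N a0 hF (Ins.test l l') q P := by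
  have := N.finQ
  have := finSymL Λ
  have := finLL N.Q (Sym Λ) (mm N)
  obtain ⟨P, hP⟩ := H.cmw Λ (A × Bool) (LL N.Q (Sym Λ) (mm N)) LL.yes LL.no
  choose R hR using fun (g : Frm (mm N)) (q' : N.Q) => sww N H.sww (FT N l l' q g q')
  obtain ⟨Q, hQ⟩ := sww N H.sww fun _ _ h => match h with
    | some (Sum.inr (some (LL.fr g q'))) => WP.seq WP.pop (WP.seq P (R g q'))
    | _ => WP.pop
  refine ⟨Q, ?_⟩
  intro x c s c' hq h
  subst hq
  obtain ⟨γ, y, s, rfl, h1⟩ := inv_test h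
  refine hQ x c.1 _ _ ?_
  refine WP.Ev.seq (WP.Ev.pop _ _ _) ?_
  have h2 := hP x 0 (circ c.1.2.1 c.1.2.2) (circ y.1.2.1 y.1.2.2) (encF N s) (circ_ne _ _)
    (by rw [circ_length, circ_length]) (encF_Cl N s)
  refine WP.Ev.seq h2 (hR γ y.1.1 x c.1 _ _ ?_)
  unfold FT
  rcases h1 with ⟨rfl, rfl⟩ | ⟨hne, rfl⟩
  · rw [if_pos rfl, if_pos ⟨rfl, rfl⟩]
    refine WP.Ev.seq (WP.Ev.pop _ _ _) ?_
    exact WP.Ev.seq (WP.Ev.psh _ _ _ _) (WP.Ev.psh _ _ _ _)
  · rw [if_neg]
    · refine WP.Ev.seq (WP.Ev.pop _ _ _) ?_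
      exact WP.Ev.seq (WP.Ev.psh _ _ _ _) (WP.Ev.psh _ _ _ _)
    · rintro ⟨h3, h4⟩
      by_cases h5 : circ y.1.2.1 y.1.2.2 = circ c.1.2.1 c.1.2.2
      · obtain ⟨h6, h7⟩ := circ_inj h5
        exact hne (Subtype.ext (Prod.ext h4 (Prod.ext h6.symm h7.symm)))
      · rw [if_neg h5] at h3
        simp at h3

/-- Every instruction has a program. -/
theorem ins (H : Lib) (I : Ins (Lab (mm N)) (Frm (mm N)) (mm N)) (q : N.Q) :
    ∃ P, Does N a0 hF I q P := by
  classical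
  cases I with
  | go l => exact ⟨_, ins_go N a0 hF l q⟩
  | app i l l' => exact ins_app N a0 hF H i l l' q
  | inv i l => exact ins_inv N a0 hF H i l q
  | start l l' => exact ⟨_, ins_start N a0 hF l l' q⟩
  | good l l' => exact ⟨_, ins_good N a0 hF l l' q⟩
  | push γ l => exact ins_push N a0 hF H γ l q
  | pop l => exact ins_pop N a0 hF H l q
  | drop l => exact ins_drop N a0 hF H l q
  | rel γ l => exact ins_rel N a0 hF H γ l q
  | test l l' => exact ins_test N a0 hF H l l' q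
  | halt =>
    refine ⟨WP.pop, ?_⟩
    intro x c s c' hq h
    exact (inv_halt h).elim

end

end Sim

end Pool.Agent.NDH
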