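import Pool.Agent.NDH.P
import Pool.Agent.NDH.SimM

/-!
# Project NDH: the statement SMP
-/

set_option autoImplicit false

namespace Pool.Agent.NDH

/-- SMP: a deterministic `k`-head pushdown automaton contains, on padded words, the sweep machines with
few letters. -/
theorem smp : SMP_Stmt := t_SMP ⟨t_SWW, svf, t_RST, loa, t_DRP, cmw, fet, bck⟩ wlg

end Pool.Agent.NDH
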