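import Pool.Agent.NPB.St
import Pool.Agent.NDH.SMD

/-!
# Project NDH (MP_5e85fc_lc), assembly: statements

For every `k ≥ 1` some language of a two-way deterministic `k`-head pushdown automaton is no finite
Boolean combination of languages of two-way nondeterministic `k`-head (sensing) finite automata.
-/

set_option autoImplicit false

namespace Pool.Agent.NDH

open Pool.Agent.Heads Pool.Agent.NPH Pool.Agent.NPB Relation

/-- BPDD: a deterministic pushdown automaton on binary codewords.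

Proof. All heads read their codewords simultaneously (`m` steps to the right, the bits are kept in the
state), then the scanned symbols are known and the transition is executed (moves of the heads by
`m` or `2 m` cells, as in `NPH/BPD.lean`). -/
def BPDD_Stmt : Prop :=
  ∀ (α : Type) [Finite α] (m : ℕ) (enc : α → List (Fin 2)), 1 ≤ m → (∀ c, (enc c).length = m) →
    Function.Injective enc → ∀ (k : ℕ) (M : PDA α k), M.Det → ∃ M' : PDA (Fin 2) k, M'.Det ∧
      ∀ w : List α, w.flatMap enc ∈ M'.lang ↔ w ∈ M.lang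

/-- COLD: the collapse.

Proof. As `COLB` (module `NPB/COLB.lean`), with `S₀ = (2 * (2 ^ (2 * k + 3) + 1)) ^ k`. For `S > S₀` let `j` be
minimal with `2 ^ (k + 3) * S ≤ (2 j) ^ k`; `j ≥ 2 ^ (2 * k + 3) + 2` and `2 ^ k * (2 j) ^ (k - 1) < S`. -/
def COLD_Stmt : Prop :=
  UPPERD_Stmt → LOWERS_Stmt → MONO_Stmt → ∀ k : ℕ, 1 ≤ k →
    (∀ (α : Type) [Finite α] (M : PDA α k), M.Det →
      BC (fun K => ∃ A : SFA α k, A.lang = K) M.lang) →
    ∃ S₀ : ℕ, ∀ (Λ : Type) [Finite Λ] (S : ℕ) (L : Set (List Λ)),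
      InT Λ k S L → BC (InT Λ k S₀) L

/-- **The theorem.** -/
def MAIND_Stmt : Prop :=
  ∀ k : ℕ, 1 ≤ k → ∃ M : PDA (Fin 2) k, M.Det ∧
    ¬ BC (fun K => ∃ A : SFA (Fin 2) k, A.lang = K) M.lang

/-- TOPD: the assembly. -/
def TOPD_Stmt : Prop :=
  COLD_Stmt → BPDD_Stmt → BFAS_Stmt → UPPERD_Stmt → LOWERS_Stmt → MONO_Stmt → HIERB_Stmt → MAIND_Stmt

end Pool.Agent.NDH
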